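import Mathlib

/-!
# MP_d988c5_lc : sufficiently closed countable sets
-/

namespace Pool.Agent.DN

/-- closure of a countable set under countably branching operations -/
theorem hull {X : Type*} (Op : List X → Set X) (hOp : ∀ l, (Op l).Countable) (A : Set X)
    (hA : A.Countable) :
    ∃ M : Set X, A ⊆ M ∧ M.Countable ∧ ∀ l : List X, (∀ x ∈ l, x ∈ M) → Op l ⊆ M := by
  let f : Set X → Set X := fun B => B ∪ ⋃ l : {l : List X // ∀ x ∈ l, x ∈ B}, Op l.1
  let B : ℕ → Set X := fun n => Nat.rec (motive := fun _ => Set X) A (fun _ B => f B) n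
  have Bs : ∀ n, B (n + 1) = f (B n) := fun n => rfl
  have hsub : ∀ n, B n ⊆ B (n + 1) := fun n => by rw [Bs]; exact Set.subset_union_left
  have hmono : Monotone B := monotone_nat_of_le_succ hsub
  have hc : ∀ n, (B n).Countable := by
    intro n
    induction n with
    | zero => exact hA
    | succ n ih =>
      rw [Bs]
      refine ih.union ?_
      have : Countable {l : List X // ∀ x ∈ l, x ∈ B n} := by
        have h1 : Countable {x : X // x ∈ B n} := ih.to_subtype
        have h2 : Function.Injective (fun l : {l : List X // ∀ x ∈ l, x ∈ B n} =>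
            (l.1.attach.map (fun x => (⟨x.1, l.2 x.1 x.2⟩ : {x : X // x ∈ B n})))) := by
          rintro ⟨l, hl⟩ ⟨l', hl'⟩ h
          have := congrArg (List.map Subtype.val) h
          simp only [List.map_map] at this
          have e : ∀ (l : List X) (hl : ∀ x ∈ l, x ∈ B n), List.map (Subtype.val ∘
              fun x : {x // x ∈ l} => (⟨x.1, hl x.1 x.2⟩ : {x : X // x ∈ B n})) l.attach = l := by
            intro l hl
            have : (Subtype.val ∘ fun x : {x // x ∈ l} => (⟨x.1, hl x.1 x.2⟩ : {x : X // x ∈ B n})) =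
              Subtype.val := rfl
            rw [this]; exact List.attach_map_subtype_val l
          rw [e, e] at this
          exact Subtype.ext this
        exact h2.countable
      exact Set.countable_iUnion fun l => hOp l.1
  refine ⟨⋃ n, B n, Set.subset_iUnion B 0, Set.countable_iUnion hc, ?_⟩
  intro l hl
  have : ∃ n, ∀ x ∈ l, x ∈ B n := by
    induction l with
    | nil => exact ⟨0, by simp⟩
    | cons a l ih =>
      obtain ⟨n, hn⟩ := ih fun x hx => hl x (List.mem_cons_of_mem _ hx)
      obtain ⟨m, hm⟩ := Set.mem_iUnion.1 (hl a List.mem_cons_self)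
      refine ⟨max m n, fun x hx => ?_⟩
      rcases List.mem_cons.1 hx with rfl | hx
      · exact hmono (le_max_left _ _) hm
      · exact hmono (le_max_right _ _) (hn x hx)
  obtain ⟨n, hn⟩ := this
  refine Set.Subset.trans ?_ (Set.subset_iUnion B (n + 1))
  rw [Bs]
  exact Set.Subset.trans (Set.subset_iUnion (fun l : {l : List X // ∀ x ∈ l, x ∈ B n} => Op l.1)
    ⟨l, hn⟩) Set.subset_union_right

/-- `P` holds for all sufficiently closed countable sets -/
def Cl {X : Type*} (P : Set X → Prop) : Prop :=
  ∃ Op : List X → Set X, (∀ l, (Op l).Countable) ∧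
    ∀ M : Set X, M.Countable → (∀ l : List X, (∀ x ∈ l, x ∈ M) → Op l ⊆ M) → P M

variable {X : Type*}

theorem Cl.mono {P Q : Set X → Prop} (hP : Cl P) (h : ∀ M, P M → Q M) : Cl Q := by
  obtain ⟨Op, h1, h2⟩ := hP
  exact ⟨Op, h1, fun M hM hc => h M (h2 M hM hc)⟩

theorem Cl.and {P Q : Set X → Prop} (hP : Cl P) (hQ : Cl Q) : Cl (fun M => P M ∧ Q M) := by
  obtain ⟨Op, h1, h2⟩ := hP
  obtain ⟨Op', h1', h2'⟩ := hQ
  exact ⟨fun l => Op l ∪ Op' l, fun l => (h1 l).union (h1' l), fun M hM hc =>
    ⟨h2 M hM fun l hl => Set.subset_union_left.trans (hc l hl),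
      h2' M hM fun l hl => Set.subset_union_right.trans (hc l hl)⟩⟩

theorem Cl.all {ι : Sort*} [Countable ι] {P : ι → Set X → Prop} (hP : ∀ i, Cl (P i)) :
    Cl (fun M => ∀ i, P i M) := by
  choose Op h1 h2 using hP
  exact ⟨fun l => ⋃ i : PLift ι, Op i.down l, fun l => Set.countable_iUnion fun i => h1 _ l,
    fun M hM hc i => h2 i M hM fun l hl =>
      (Set.subset_iUnion (fun i : PLift ι => Op i.down l) (PLift.up i)).trans (hc l hl)⟩

theorem Cl.exists {P : Set X → Prop} (hP : Cl P) (A : Set X) (hA : A.Countable) :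
    ∃ M : Set X, A ⊆ M ∧ M.Countable ∧ P M := by
  obtain ⟨Op, h1, h2⟩ := hP
  obtain ⟨M, h3, h4, h5⟩ := hull Op h1 A hA
  exact ⟨M, h3, h4, h2 M h4 h5⟩

theorem cl_countable : Cl (fun M : Set X => M.Countable) :=
  ⟨fun _ => ∅, fun _ => Set.countable_empty, fun _ h _ => h⟩

/-- closure under a countably valued operation -/
theorem cl_op (Op : List X → Set X) (hOp : ∀ l, (Op l).Countable) :
    Cl (fun M => ∀ l : List X, (∀ x ∈ l, x ∈ M) → Op l ⊆ M) :=
  ⟨Op, hOp, fun _ _ h => h⟩

/-- closure under a function -/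
theorem cl_fun (f : List X → X) : Cl (fun M => ∀ l : List X, (∀ x ∈ l, x ∈ M) → f l ∈ M) :=
  (cl_op (fun l => {f l}) fun _ => Set.countable_singleton _).mono fun _ h l hl =>
    h l hl rfl

/-- closure under witnesses -/
theorem cl_rel (R : List X → X → Prop) :
    Cl (fun M => ∀ l : List X, (∀ x ∈ l, x ∈ M) → (∃ x, R l x) → ∃ x ∈ M, R l x) := by
  classical
  refine (cl_op (fun l => if h : ∃ x, R l x then {h.choose} else ∅) fun l => ?_).mono
    fun M h l hl hx => ⟨hx.choose, ?_, hx.choose_spec⟩
  · by_cases h : ∃ x, R l x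
    · simp only [h, dite_true]; exact Set.countable_singleton _
    · simp only [h, dite_false]; exact Set.countable_empty
  · have := h l hl
    simp only [hx, dite_true] at this
    exact this rfl

/-- closure under countable sets of witnesses -/
theorem cl_set (R : List X → Set X → Prop) :
    Cl (fun M => ∀ l : List X, (∀ x ∈ l, x ∈ M) → (∃ S : Set X, S.Countable ∧ R l S) →
      ∃ S ⊆ M, S.Countable ∧ R l S) := by
  classical
  refine (cl_op (fun l => if h : ∃ S : Set X, S.Countable ∧ R l S then h.choose else ∅)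
    fun l => ?_).mono fun M h l hl hx => ⟨hx.choose, ?_, hx.choose_spec⟩
  · by_cases h : ∃ S : Set X, S.Countable ∧ R l S
    · simp only [h, dite_true]; exact h.choose_spec.1
    · simp only [h, dite_false]; exact Set.countable_empty
  · have := h l hl
    simp only [hx, dite_true] at this
    exact this

end Pool.Agent.DN
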