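import Pool.Agent.Lib.MP_72b52d_lc.CR.ZFC
import Pool.Agent.Lib.MP_d988c5_lc.Cl

/-!
# MP_d988c5_lc : countable worlds for an arbitrary preordered set

`P` is a preordered set, `O` is a type of objects which contains the names and the conditions.
A world is a countable set `M` of objects together with a filter `G`, closed under given relations
and generic for the sets given by them.
-/

namespace Pool.Agent.FW

open Pool.Agent.CR

/-- objects: the names and the conditions are objects -/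
structure Pr (P : Type) (O : Type 1) where
  nm : Nm P → O
  cn : P → O
  un : O → Nm P
  un_nm : ∀ τ, un (nm τ) = τ
  cn_inj : ∀ p q, cn p = cn q → p = q

variable {P : Type} [Preorder P] {O : Type 1}

/-- the conditions in `M` -/
def Pr.Q (π : Pr P O) (M : Set O) : Set P := {p | π.cn p ∈ M}

/-- the names in `M` -/
def Pr.H (π : Pr P O) (M : Set O) : Set (Nm P) := {τ | π.nm τ ∈ M}

/-- the value of a name -/
noncomputable def Pr.vl (π : Pr P O) (M : Set O) (G : Set P) (τ : Nm P) : V := val (π.H M) G τ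

/-- the model -/
noncomputable def Pr.N (π : Pr P O) (M : Set O) (G : Set P) : Set V := Mod (π.H M) G

/-- `M` is closed under the relations `Rel` and `G` is generic for the sets given by them -/
structure World (π : Pr P O) (Rel : ℕ → List O → O → Prop) (M : Set O) (G : Set P) : Prop where
  cnt : M.Countable
  sub : G ⊆ π.Q M
  ne : G.Nonempty
  up : ∀ p ∈ G, ∀ q ∈ π.Q M, p ≤ q → q ∈ G
  dir : ∀ p ∈ G, ∀ q ∈ G, ∃ r ∈ G, r ≤ p ∧ r ≤ q
  el : ∀ i l, (∀ x ∈ l, x ∈ M) → (∃ x, Rel i l x) → ∃ x ∈ M, Rel i l x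
  gen : ∀ i l, (∀ x ∈ l, x ∈ M) → (∃ s ∈ G, Rel i l (π.cn s)) ∨
    ∃ p ∈ G, ∀ s, Rel i l (π.cn s) → ∀ r ≤ p, ¬ r ≤ s

/-- `C` holds in all sufficiently rich worlds -/
def Ev (π : Pr P O) (C : Set O → Set P → Prop) : Prop :=
  ∃ Rel : ℕ → List O → O → Prop, ∀ M G, World π Rel M G → C M G

variable {π : Pr P O}

theorem Ev.mono {C C' : Set O → Set P → Prop} (h : Ev π C) (h' : ∀ M z, C M z → C' M z) :
    Ev π C' := by
  obtain ⟨Rel, hR⟩ := h
  exact ⟨Rel, fun M z hw => h' M z (hR M z hw)⟩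

theorem Ev.all {ι : Type} [Countable ι] {C : ι → Set O → Set P → Prop}
    (h : ∀ i, Ev π (C i)) : Ev π (fun M z => ∀ i, C i M z) := by
  classical
  choose Rel hR using h
  have := Encodable.ofCountable (ι × ℕ)
  refine ⟨fun n => match (Encodable.decode n : Option (ι × ℕ)) with
    | some x => Rel x.1 x.2
    | none => fun _ _ => False, fun M z hw i => hR i M z ⟨hw.cnt, hw.sub, hw.ne, hw.up, hw.dir,
      fun j l hl hx => ?_, fun j l hl => ?_⟩⟩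
  · have h1 := hw.el (Encodable.encode (i, j)) l hl
    simp only [Encodable.encodek] at h1
    exact h1 hx
  · have h1 := hw.gen (Encodable.encode (i, j)) l hl
    simp only [Encodable.encodek] at h1
    exact h1

theorem Ev.and {C C' : Set O → Set P → Prop} (h : Ev π C) (h' : Ev π C') :
    Ev π (fun M z => C M z ∧ C' M z) := by
  have h1 := Ev.all (ι := Bool) (C := fun b => if b then C else C') (by
    intro b
    cases b
    · simpa using h'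
    · simpa using h)
  exact h1.mono fun M z hb => ⟨by simpa using hb true, by simpa using hb false⟩

theorem ev_cnt : Ev π (fun M _ => M.Countable) := ⟨fun _ _ _ => False, fun _ _ hw => hw.cnt⟩

theorem ev_sub : Ev π (fun M G => G ⊆ π.Q M) := ⟨fun _ _ _ => False, fun _ _ hw => hw.sub⟩

theorem ev_ne : Ev π (fun _ G => G.Nonempty) := ⟨fun _ _ _ => False, fun _ _ hw => hw.ne⟩

theorem ev_up : Ev π (fun M G => ∀ p ∈ G, ∀ q ∈ π.Q M, p ≤ q → q ∈ G) :=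
  ⟨fun _ _ _ => False, fun _ _ hw => hw.up⟩

theorem ev_dir : Ev π (fun _ G => ∀ p ∈ G, ∀ q ∈ G, ∃ r ∈ G, r ≤ p ∧ r ≤ q) :=
  ⟨fun _ _ _ => False, fun _ _ hw => hw.dir⟩

/-- closure of `M` under a relation -/
theorem ev_rel (R : List O → O → Prop) : Ev π (fun M _ =>
    ∀ l, (∀ x ∈ l, x ∈ M) → (∃ x, R l x) → ∃ x ∈ M, R l x) :=
  ⟨fun _ => R, fun _ _ hw l hl hx => hw.el 0 l hl hx⟩

/-- closure of `M` under a function -/
theorem ev_fun (F : List O → O) : Ev π (fun M _ =>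
    ∀ l, (∀ x ∈ l, x ∈ M) → F l ∈ M) :=
  (ev_rel fun l x => x = F l).mono fun M z h l hl => by
    obtain ⟨x, hx, rfl⟩ := h l hl ⟨_, rfl⟩
    exact hx

theorem ev_gen (S : List O → Set P) : Ev π (fun M G => ∀ l, (∀ x ∈ l, x ∈ M) →
    (∃ s ∈ G, s ∈ S l) ∨ ∃ p ∈ G, ∀ s ∈ S l, ∀ r ≤ p, ¬ r ≤ s) := by
  refine ⟨fun _ l x => ∃ s ∈ S l, x = π.cn s, fun M z hw l hl => ?_⟩
  rcases hw.gen 0 l hl with ⟨s, h1, s', h2, h3⟩ | ⟨p, h1, h2⟩
  · rw [← π.cn_inj _ _ h3] at h2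
    exact Or.inl ⟨s, h1, h2⟩
  · exact Or.inr ⟨p, h1, fun s hs r hr => h2 s ⟨s, hs, rfl⟩ r hr⟩

theorem ev_dense (S : List O → Set P) : Ev π (fun M G => ∀ l, (∀ x ∈ l, x ∈ M) →
    (∀ p, ∃ q ≤ p, q ∈ S l) → ∃ s ∈ G, s ∈ S l) := by
  refine (ev_gen S).mono fun M z h l hl hd => ?_
  rcases h l hl with h | ⟨p, _, h2⟩
  · exact h
  · obtain ⟨q, hq, hq'⟩ := hd p
    exact absurd le_rfl (h2 q hq' q hq)

/-- sets which are dense below an element of `G` are met by `G` -/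
theorem ev_below (S : List O → Set P) : Ev π (fun M G => ∀ l, (∀ x ∈ l, x ∈ M) →
    ∀ p ∈ G, (∀ q ≤ p, ∃ r ≤ q, r ∈ S l) → ∃ s ∈ G, s ≤ p ∧ s ∈ S l) := by
  refine ((ev_gen (fun l : List O => {s : P | ∃ p, l.head? = some (π.cn p) ∧ s ≤ p ∧
    s ∈ S l.tail})).and (ev_dir.and ev_sub)).mono fun M z ⟨h, hdir, hsub⟩ l hl p hp hd => ?_
  rcases h (π.cn p :: l) (by
    intro x hx
    rcases List.mem_cons.1 hx with rfl | hx
    · exact hsub hp
    · exact hl x hx) with ⟨s, h1, p', h2, h3, h4⟩ | ⟨p', h1, h2⟩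
  · obtain rfl := π.cn_inj _ _ (Option.some.inj h2)
    exact ⟨s, h1, h3, h4⟩
  · obtain ⟨r, _, h4, h5⟩ := hdir p hp p' h1
    obtain ⟨r', h6, h7⟩ := hd r h4
    exact absurd le_rfl (h2 r' ⟨p, rfl, h6.trans h4, h7⟩ r' (h6.trans h5))

/-! ### names -/

omit [Preorder P] in
private theorem ez_map (l : List (Nm P)) : (l.map π.nm).map π.un = l := by
  rw [List.map_map]
  conv_rhs => rw [← List.map_id l]
  exact List.map_congr_left fun τ _ => π.un_nm τ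

omit [Preorder P] in
private theorem ez_mem {M : Set O} {l : List (Nm P)} (hl : ∀ σ ∈ l, σ ∈ π.H M) :
    ∀ x ∈ l.map π.nm, x ∈ M := by
  intro x hx
  obtain ⟨σ, hσ, rfl⟩ := List.mem_map.1 hx
  exact hl σ hσ

omit [Preorder P] in
theorem nm_inj {σ τ : Nm P} (h : π.nm σ = π.nm τ) : σ = τ := by
  rw [← π.un_nm σ, h, π.un_nm]

private theorem ez_relN (R : List (Nm P) → P → Nm P → Prop) :
    Ev π (fun M _ => ∀ l, (∀ σ ∈ l, σ ∈ π.H M) → ∀ q ∈ π.Q M, (∃ σ, R l q σ) →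
      ∃ σ ∈ π.H M, R l q σ) := by
  refine (ev_rel fun l x => ∃ q σ, l.head? = some (π.cn q) ∧ x = π.nm σ ∧
    R (l.tail.map π.un) q σ).mono ?_
  rintro M z h l hl q hq ⟨σ, hσ⟩
  obtain ⟨x, hx, q', σ', h1, h2, h3⟩ := h (π.cn q :: l.map π.nm) (by
    intro x hx
    rcases List.mem_cons.1 hx with rfl | hx
    · exact hq
    · exact ez_mem hl x hx) ⟨π.nm σ, q, σ, rfl, rfl, by
      rw [List.tail_cons, ez_map]; exact hσ⟩
  have hq' : q' = q := π.cn_inj _ _ (by simpa using h1.symm)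
  subst hq'
  subst h2
  rw [List.tail_cons, ez_map] at h3
  exact ⟨σ', hx, h3⟩

private theorem ez_relQ (R : List (Nm P) → P → P → Prop) :
    Ev π (fun M _ => ∀ l, (∀ σ ∈ l, σ ∈ π.H M) → ∀ q ∈ π.Q M, (∃ r, R l q r) →
      ∃ r ∈ π.Q M, R l q r) := by
  refine (ev_rel fun l x => ∃ q r, l.head? = some (π.cn q) ∧ x = π.cn r ∧
    R (l.tail.map π.un) q r).mono ?_
  rintro M z h l hl q hq ⟨r, hr⟩
  obtain ⟨x, hx, q', r', h1, h2, h3⟩ := h (π.cn q :: l.map π.nm) (by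
    intro x hx
    rcases List.mem_cons.1 hx with rfl | hx
    · exact hq
    · exact ez_mem hl x hx) ⟨π.cn r, q, r, rfl, rfl, by
      rw [List.tail_cons, ez_map]; exact hr⟩
  have hq' : q' = q := π.cn_inj _ _ (by simpa using h1.symm)
  subst hq'
  subst h2
  rw [List.tail_cons, ez_map] at h3
  exact ⟨r', hx, h3⟩

private theorem ez_denseN (S : List (Nm P) → Set P) : Ev π (fun M G =>
    ∀ l, (∀ σ ∈ l, σ ∈ π.H M) → (∀ p, ∃ q ≤ p, q ∈ S l) → ∃ s ∈ G, s ∈ S l) := by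
  refine (ev_dense fun l => S (l.map π.un)).mono fun M z h l hl hd => ?_
  have h1 := h (l.map π.nm) (ez_mem hl)
  simp only [ez_map] at h1
  exact h1 hd

theorem ev_nmop (F : List (Nm P) → Nm P) : Ev π (fun M _ =>
    ∀ l, (∀ τ ∈ l, τ ∈ π.H M) → F l ∈ π.H M) := by
  refine (ev_fun fun l => π.nm (F (l.map π.un))).mono fun M z h l hl => ?_
  have h1 := h (l.map π.nm) (ez_mem hl)
  rw [ez_map] at h1
  exact h1

theorem ev_hull : Ev π (fun M _ => Hull (π.H M) (π.Q M)) := by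
  refine ((ev_nmop fun _ => Nm.emp).and
    ((Ev.all fun φ : Fml => ez_relN fun l q σ => Fr φ (cons σ (asg l)) q).and
    ((ez_relN fun l q ρ => ∃ b : (asg l 1).Ix, (asg l 1).fn b = ρ ∧ q ≤ (asg l 1).cd b ∧
      Eqf (asg l 0) ρ q).and
    ((ez_relQ fun l q r => ∃ b : (asg l 1).Ix, (asg l 1).fn b = asg l 2 ∧ (asg l 1).cd b = r ∧
      q ≤ r ∧ Eqf (asg l 0) (asg l 2) q).and
    ((ez_relN fun l q ρ => ∃ b : (asg l 1).Ix, (asg l 1).fn b = ρ ∧ q ≤ (asg l 1).cd b ∧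
      ∀ r ≤ q, ¬ Memf ρ (asg l 0) r).and
    (ez_relQ fun l q r => ∃ b : (asg l 1).Ix, (asg l 1).fn b = asg l 2 ∧ (asg l 1).cd b = r ∧
      q ≤ r ∧ ∀ s ≤ q, ¬ Memf (asg l 2) (asg l 0) s)))))).mono ?_
  rintro M z ⟨h1, h2, h3, h4, h5, h6⟩
  refine ⟨h1 [] (by simp), fun φ l hl q hq h => h2 φ l hl q hq h, ?_, ?_⟩
  · rintro σ hσ τ hτ q hq ⟨b, hb1, hb2⟩
    obtain ⟨ρ, hρ, b', hb3, hb4, hb5⟩ := h3 [σ, τ] (by simp [hσ, hτ]) q hq
      ⟨_, b, rfl, hb1, hb2⟩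
    obtain ⟨r, hr, c, hc1, hc2, hc3, hc4⟩ := h4 [σ, τ, ρ] (by simp [hσ, hτ, hρ]) q hq
      ⟨_, b', hb3, rfl, hb4, hb5⟩
    change τ.Ix at c
    change τ.fn c = ρ at hc1
    change τ.cd c = r at hc2
    change Eqf σ ρ q at hc4
    exact ⟨c, hc1 ▸ hρ, hc2 ▸ hr, hc2 ▸ hc3, hc1 ▸ hc4⟩
  · rintro σ hσ τ hτ q hq ⟨b, hb1, hb2⟩
    obtain ⟨ρ, hρ, b', hb3, hb4, hb5⟩ := h5 [σ, τ] (by simp [hσ, hτ]) q hq
      ⟨_, b, rfl, hb1, hb2⟩
    obtain ⟨r, hr, c, hc1, hc2, hc3, hc4⟩ := h6 [σ, τ, ρ] (by simp [hσ, hτ, hρ]) q hq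
      ⟨_, b', hb3, rfl, hb4, hb5⟩
    change τ.Ix at c
    change τ.fn c = ρ at hc1
    change τ.cd c = r at hc2
    change ∀ s ≤ q, ¬ Memf ρ σ s at hc4
    exact ⟨c, hc1 ▸ hρ, hc2 ▸ hr, hc2 ▸ hc3, hc1 ▸ hc4⟩

theorem ev_genF : Ev π (fun M G => GenF (π.H M) (π.Q M) G) := by
  refine ((ev_ne.and (ev_sub.and ev_up)).and (ev_dir.and
    ((Ev.all fun φ : Fml => ez_denseN fun l => {p | Fr φ (asg l) p ∨ Fr φ.neg (asg l) p}).and
    ((Ev.all fun φ : Fml => ez_denseN fun l =>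
      {p | Fr (.all φ) (asg l) p ∨ ∃ σ, Fr φ.neg (cons σ (asg l)) p}).and
    ((ez_denseN fun l => {p | (∃ b : (asg l 1).Ix, p ≤ (asg l 1).cd b ∧
      Eqf (asg l 0) ((asg l 1).fn b) p) ∨ ∀ r ≤ p, ¬ Memf (asg l 0) (asg l 1) r}).and
    (ez_denseN fun l => {p | Eqf (asg l 0) (asg l 1) p ∨
      (∃ b : (asg l 1).Ix, p ≤ (asg l 1).cd b ∧ ∀ r ≤ p, ¬ Memf ((asg l 1).fn b) (asg l 0) r) ∨
      (∃ a : (asg l 0).Ix, p ≤ (asg l 0).cd a ∧
        ∀ r ≤ p, ¬ Memf ((asg l 0).fn a) (asg l 1) r)})))))).mono ?_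
  rintro M z ⟨⟨h1, h1', h1''⟩, h2, h3, h4, h5, h6⟩
  refine ⟨h1', h1, h1'', h2, ?_⟩
  rintro D hD
  have hd := Dset_dense hD
  cases hD with
  | dec φ l hl => exact h3 φ l hl hd
  | all φ l hl => exact h4 φ l hl hd
  | mem σ τ hσ hτ => exact h5 [σ, τ] (by simp [hσ, hτ]) hd
  | eq σ τ hσ hτ => exact h6 [σ, τ] (by simp [hσ, hτ]) hd

theorem ev_zfc : Ev π (fun M G => IsTransModelZFC (π.N M G)) := by
  refine (ev_hull.and (ev_genF.and (Ev.all fun c : OpC => ev_nmop (opF c)))).mono ?_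
  rintro M z ⟨h1, h2, h3⟩
  exact mod_isTransModel h1 (fun c l hl => h3 c l hl) h2

/-- membership and equality at the generic point -/
theorem ev_mem : Ev π (fun M G => ∀ σ ∈ π.H M, ∀ τ ∈ π.H M,
    (π.vl M G σ ∈ π.vl M G τ ↔ ∃ p ∈ G, Memf σ τ p)) :=
  (ev_hull.and ev_genF).mono fun _ _ h _ hσ _ hτ => val_mem_iff h.1 h.2 hσ hτ

theorem ev_natN : Ev π (fun M G => ∀ n, natN P n ∈ π.H M ∧ π.vl M G (natN P n) = nat n) := by
  refine (ev_ne.and (Ev.all fun n : ℕ => ev_nmop fun _ => natN P n)).mono ?_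
  rintro M z ⟨h1, h2⟩ n
  exact ⟨h2 n [] (by simp), val_natN h1 (fun n => h2 n [] (by simp)) n⟩

/-- the name of the ordered pair -/
def opN (σ τ : Nm P) : Nm P := pairN (pairN σ σ) (pairN σ τ)

omit [Preorder P] in
private theorem ez_pair {M : Set O} {G : Set P} (hne : G.Nonempty)
    {σ τ : Nm P} (hσ : σ ∈ π.H M) (hτ : τ ∈ π.H M) :
    π.vl M G (pairN σ τ) = {π.vl M G σ, π.vl M G τ} := by
  apply ZFSet.ext
  intro x
  unfold Pr.vl
  rw [mem_val, ZFSet.mem_pair]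
  constructor
  · rintro ⟨⟨b, p⟩, _, _, h⟩
    cases b with
    | true => exact Or.inl h
    | false => exact Or.inr h
  · obtain ⟨p, hpG⟩ := hne
    rintro (h | h)
    · exact ⟨(true, p), hσ, hpG, h⟩
    · exact ⟨(false, p), hτ, hpG, h⟩

theorem ev_opN : Ev π (fun M G => ∀ σ ∈ π.H M, ∀ τ ∈ π.H M, opN σ τ ∈ π.H M ∧
    π.vl M G (opN σ τ) = ZFSet.pair (π.vl M G σ) (π.vl M G τ)) := by
  refine (ev_ne.and (ev_nmop (opF .pair))).mono ?_
  rintro M z ⟨h1, h2⟩ σ hσ τ hτ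
  have hp : ∀ {σ τ : Nm P}, σ ∈ π.H M → τ ∈ π.H M → pairN σ τ ∈ π.H M := by
    intro σ τ hσ hτ
    exact h2 [σ, τ] (by simp [hσ, hτ])
  refine ⟨hp (hp hσ hσ) (hp hσ hτ), ?_⟩
  rw [opN, ez_pair h1 (hp hσ hσ) (hp hσ hτ), ez_pair h1 hσ hσ, ez_pair h1 hσ hτ, ZFSet.pair]
  congr 1
  apply ZFSet.ext
  intro x
  simp

/-! ### sets of simple objects -/

/-- the name of the set of all `v i` with `i` in the set decided by `D` -/
def csN {ι : Type} (e : ι → Nm P) (D : ι → Set P) : Nm P :=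
  .mk {x : P × ι // x.1 ∈ D x.2} (fun x => e x.1.2) (fun x => x.1.1)

theorem ev_csN {ι : Type} (e : ι → Nm P) (v : ι → V)
    (he : Ev π (fun M G => ∀ i, e i ∈ π.H M ∧ π.vl M G (e i) = v i)) (D : List O → ι → Set P) :
    Ev π (fun M G => ∀ l, (∀ x ∈ l, x ∈ M) → csN e (D l) ∈ π.H M ∧
      ∀ x, x ∈ π.vl M G (csN e (D l)) ↔ ∃ i, (∃ p ∈ G, p ∈ D l i) ∧ v i = x) := by
  refine (he.and (ev_fun fun l => π.nm (csN e (D l)))).mono ?_
  rintro M G ⟨h1, h2⟩ l hl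
  refine ⟨h2 l hl, fun x => ?_⟩
  unfold Pr.vl
  rw [mem_val]
  constructor
  · rintro ⟨⟨⟨p, i⟩, hp⟩, _, h4, h5⟩
    exact ⟨i, ⟨p, h4, hp⟩, (h5.trans (h1 i).2).symm⟩
  · rintro ⟨i, ⟨p, h3, h4⟩, h5⟩
    exact ⟨⟨(p, i), h4⟩, (h1 i).1, h3, ((h1 i).2.trans h5).symm⟩

/-- pairs of natural numbers -/
theorem ev_nn : Ev π (fun M G => ∀ x : ℕ × ℕ, opN (natN P x.1) (natN P x.2) ∈ π.H M ∧
    π.vl M G (opN (natN P x.1) (natN P x.2)) = ZFSet.pair (nat x.1) (nat x.2)) := by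
  refine (ev_natN.and ev_opN).mono ?_
  rintro M G ⟨h1, h2⟩ x
  obtain ⟨h3, h4⟩ := h2 _ (h1 x.1).1 _ (h1 x.2).1
  exact ⟨h3, by rw [h4, (h1 x.1).2, (h1 x.2).2]⟩

/-! ### existence -/

open Classical in
/-- the operations for a world -/
noncomputable def WOp (π : Pr P O) (Rel : ℕ → List O → O → Prop) (l : List O) : Set O :=
  (⋃ i : ℕ, {x | ∃ h : ∃ x, Rel i l x, x = h.choose}) ∪
  (⋃ i : ℕ, {x | ∃ p, l.head? = some (π.cn p) ∧ ∃ h : ∃ q : P × P, q.1 ≤ p ∧ q.1 ≤ q.2 ∧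
    Rel i l.tail (π.cn q.2), x = π.cn h.choose.1 ∨ x = π.cn h.choose.2})

theorem WOp_countable (π : Pr P O) (Rel : ℕ → List O → O → Prop) (l : List O) :
    (WOp π Rel l).Countable := by
  refine (Set.countable_iUnion fun i => ?_).union (Set.countable_iUnion fun i => ?_)
  · refine Set.Subsingleton.countable ?_
    rintro x ⟨h, rfl⟩ y ⟨h', rfl⟩
    rfl
  · by_cases hp : ∃ p, l.head? = some (π.cn p) ∧ ∃ q : P × P, q.1 ≤ p ∧ q.1 ≤ q.2 ∧
      Rel i l.tail (π.cn q.2)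
    · obtain ⟨p, h1, h2⟩ := hp
      refine Set.Countable.mono (s₂ := {π.cn h2.choose.1, π.cn h2.choose.2}) ?_ (by simp)
      rintro x ⟨p', h3, h4, h5⟩
      have : p' = p := π.cn_inj _ _ (Option.some.inj (h3.symm.trans h1))
      subst this
      rcases h5 with rfl | rfl
      · exact Or.inl rfl
      · exact Or.inr rfl
    · refine Set.Countable.mono (s₂ := ∅) ?_ Set.countable_empty
      rintro x ⟨p', h3, h4, h5⟩
      exact (hp ⟨p', h3, h4⟩).elim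

theorem exists_world (π : Pr P O) (Rel : ℕ → List O → O → Prop) (A : Set O) (hA : A.Countable)
    (p0 : P) : ∃ M G, A ⊆ M ∧ p0 ∈ G ∧ World π Rel M G := by
  classical
  obtain ⟨M, h1, h2, h3⟩ := Pool.Agent.DN.hull (WOp π Rel) (WOp_countable π Rel)
    (A ∪ {π.cn p0}) (hA.union (by simp))
  have hp0 : p0 ∈ π.Q M := h1 (Or.inr rfl)
  -- enumerate the tasks
  have hcl : {l : List O | ∀ x ∈ l, x ∈ M}.Countable := by
    have := h2.to_subtype
    have : {l : List O | ∀ x ∈ l, x ∈ M} ⊆ Set.range (fun l : List M => l.map Subtype.val) := by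
      intro l hl
      exact ⟨l.attach.map fun x => ⟨x.1, hl x.1 x.2⟩, by
        show List.map Subtype.val (List.map (fun x : {x // x ∈ l} => (⟨x.1, hl x.1 x.2⟩ : M)) l.attach) = l
        rw [List.map_map]
        exact List.attach_map_subtype_val l⟩
    exact (Set.countable_range _).mono this
  have htc : (Set.univ ×ˢ {l : List O | ∀ x ∈ l, x ∈ M} : Set (ℕ × List O)).Countable :=
    Set.countable_univ.prod hcl
  obtain ⟨e, he⟩ := htc.exists_eq_range ⟨(0, []), trivial, by simp⟩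
  have he1 : ∀ n, ∀ x ∈ (e n).2, x ∈ M := by
    intro n
    have : e n ∈ (Set.univ ×ˢ {l : List O | ∀ x ∈ l, x ∈ M} : Set (ℕ × List O)) := by
      rw [he]; exact ⟨n, rfl⟩
    exact this.2
  have he2 : ∀ i l, (∀ x ∈ l, x ∈ M) → ∃ n, e n = (i, l) := by
    intro i l hl
    have : (i, l) ∈ Set.range e := by rw [← he]; exact ⟨trivial, hl⟩
    exact this
  -- one step
  have hstep : ∀ (n : ℕ) (p : P), p ∈ π.Q M → ∃ q ≤ p, q ∈ π.Q M ∧
      ((∃ s ∈ π.Q M, q ≤ s ∧ Rel (e n).1 (e n).2 (π.cn s)) ∨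
        ∀ s, Rel (e n).1 (e n).2 (π.cn s) → ∀ r ≤ q, ¬ r ≤ s) := by
    intro n p hp
    by_cases h : ∃ q : P × P, q.1 ≤ p ∧ q.1 ≤ q.2 ∧ Rel (e n).1 (e n).2 (π.cn q.2)
    · have hl : ∀ x ∈ π.cn p :: (e n).2, x ∈ M := by
        intro x hx
        rcases List.mem_cons.1 hx with rfl | hx
        · exact hp
        · exact he1 n x hx
      refine ⟨h.choose.1, h.choose_spec.1, h3 _ hl (Or.inr (Set.mem_iUnion.2
        ⟨(e n).1, p, rfl, h, Or.inl rfl⟩)), Or.inl ⟨h.choose.2, h3 _ hl (Or.inr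
          (Set.mem_iUnion.2 ⟨(e n).1, p, rfl, h, Or.inr rfl⟩)), h.choose_spec.2.1,
            h.choose_spec.2.2⟩⟩
    · exact ⟨p, le_rfl, hp, Or.inr fun s hs r hr hrs => h ⟨(r, s), hr, hrs, hs⟩⟩
  choose! F hF1 hF2 hF3 using hstep
  let a : ℕ → P := fun n => Nat.rec p0 (fun n p => F n p) n
  have as : ∀ n, a (n + 1) = F n (a n) := fun n => rfl
  have aQ : ∀ n, a n ∈ π.Q M := by
    intro n
    induction n with
    | zero => exact hp0
    | succ n ih => rw [as]; exact hF2 _ _ ih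
  have amono : ∀ m n, m ≤ n → a n ≤ a m := by
    intro m n h
    induction n, h using Nat.le_induction with
    | base => exact le_rfl
    | succ n _ ih => rw [as]; exact (hF1 _ _ (aQ n)).trans ih
  refine ⟨M, {q | q ∈ π.Q M ∧ ∃ n, a n ≤ q}, Set.subset_union_left.trans h1,
    ⟨hp0, 0, le_rfl⟩, h2, fun q hq => hq.1, ⟨p0, hp0, 0, le_rfl⟩, ?_, ?_, ?_, ?_⟩
  · rintro p ⟨_, n, hn⟩ q hq hpq
    exact ⟨hq, n, hn.trans hpq⟩
  · rintro p ⟨_, n, hn⟩ q ⟨_, m, hm⟩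
    exact ⟨a (max n m), ⟨aQ _, _, le_rfl⟩, (amono _ _ (le_max_left _ _)).trans hn,
      (amono _ _ (le_max_right _ _)).trans hm⟩
  · intro i l hl hx
    exact ⟨hx.choose, h3 l hl (Or.inl (Set.mem_iUnion.2 ⟨i, hx, rfl⟩)), hx.choose_spec⟩
  · intro i l hl
    obtain ⟨n, hn⟩ := he2 i l hl
    have h4 := hF3 n (a n) (aQ n)
    rw [hn] at h4
    rcases h4 with ⟨s, hs, h5, h6⟩ | h4
    · exact Or.inl ⟨s, ⟨hs, n + 1, h5⟩, h6⟩
    · exact Or.inr ⟨a (n + 1), ⟨aQ (n + 1), n + 1, le_rfl⟩, h4⟩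

/-- sufficiently rich worlds exist -/
theorem Ev.exists {C : Set O → Set P → Prop} (h : Ev π C) (A : Set O)
    (hA : A.Countable) (p0 : P) : ∃ M G, A ⊆ M ∧ p0 ∈ G ∧ C M G := by
  obtain ⟨Rel, hR⟩ := h
  obtain ⟨M, z, h1, h2, h3⟩ := exists_world π Rel A hA p0
  exact ⟨M, z, h1, h2, hR M z h3⟩

end Pool.Agent.FW
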