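import Pool.Agent.Lib.MP_d988c5_lc.Pres

/-!
# MP_d988c5_lc : closed sets for the preservation theorem
-/

namespace Pool.Agent.DN

variable {I : Type} [LinearOrder I]

private theorem cl_decx : Cl (fun M : Set (Ob I) => ∀ β X n, .o β ∈ M → .x X ∈ M →
    .d (DecX β X n) ∈ M) :=
  ((Cl.all (ι := ℕ) fun n => cl_fun (fun l : List (Ob I) => match l with
    | [.o β, .x X] => .d (DecX β X n)
    | _ => .c (one I))).mono fun _ h β X n hβ hX => h n [.o β, .x X] (by simp [hβ, hX]))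

private theorem cl_un : Cl (fun M : Set (Ob I) => ∀ X X' m, .x X ∈ M → .x X' ∈ M →
    .x (unX X X' m) ∈ M) :=
  ((Cl.all (ι := ℕ) fun m => cl_fun (fun l : List (Ob I) => match l with
    | [.x X, .x X'] => .x (unX X X' m)
    | _ => .c (one I))).mono fun _ h X X' m hX hX' => h m [.x X, .x X'] (by simp [hX, hX']))

private theorem cl_seqc : Cl (fun M : Set (Ob I) => ∀ (t : ℕ → Cond I) k, .s t ∈ M →
    .c (t k) ∈ M) :=
  ((Cl.all (ι := ℕ) fun k => cl_fun (fun l : List (Ob I) => match l with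
    | [.s t] => .c (t k)
    | _ => .c (one I))).mono fun _ h t k ht => h k [.s t] (by simp [ht]))

private theorem cl_seqs : Cl (fun M : Set (Ob I) => ∀ (t : ℕ → Cond I) m, .s t ∈ M →
    .s (fun k => t (k + m)) ∈ M) :=
  ((Cl.all (ι := ℕ) fun m => cl_fun (fun l : List (Ob I) => match l with
    | [.s t] => .s (fun k => t (k + m))
    | _ => .c (one I))).mono fun _ h t m ht => h m [.s t] (by simp [ht]))

private theorem cl_udw : Cl (fun M : Set (Ob I) => ∀ D q, .d D ∈ M → .c q ∈ M → UD D q →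
    ∃ S : Set (Cond I), S.Countable ∧
    (∀ r ∈ S, .c r ∈ M) ∧ S ⊆ D ∧ ∀ z ∈ Bod q, ∃ r ∈ S, z ∈ Bod r) := by
  refine (cl_set (fun (l : List (Ob I)) T => match l with
    | [.d D, .c q] => ∃ S : Set (Cond I), S.Countable ∧ T = (fun p => (.c p : Ob I)) '' S ∧
        S ⊆ D ∧ ∀ z ∈ Bod q, ∃ r ∈ S, z ∈ Bod r
    | _ => False)).mono fun M h D q hD hq hS => ?_
  obtain ⟨S, hS1, hS2⟩ := hS
  obtain ⟨T, hT, -, S', a1, rfl, a3⟩ := h [.d D, .c q]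
    (by simp [hD, hq]) ⟨_, hS1.image _, S, hS1, rfl, hS2⟩
  exact ⟨S', a1, fun r' hr' => hT ⟨r', hr', rfl⟩, a3⟩

private theorem cl_emp : Cl (fun M : Set (Ob I) => .x (fun _ _ => ∅) ∈ M) :=
  (cl_fun (fun _ : List (Ob I) => .x (fun _ _ => ∅))).mono fun _ h => h [] (by simp)

private theorem cl_dcd : Cl (fun M : Set (Ob I) => ∀ η ζ β t X Y0 X1 D w, .o η ∈ M → .o ζ ∈ M →
    .o β ∈ M → .s t ∈ M → .x X ∈ M → .x Y0 ∈ M → .x X1 ∈ M → .d D ∈ M →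
    .d (DCD η ζ β t X Y0 X1 D w) ∈ M) :=
  ((Cl.all (ι := ℕ) fun w => cl_fun (fun l : List (Ob I) => match l with
    | [.o η, .o ζ, .o β, .s t, .x X, .x Y0, .x X1, .d D] => .d (DCD η ζ β t X Y0 X1 D w)
    | _ => .c (one I))).mono fun _ h η ζ β t X Y0 X1 D w h1 h2 h3 h4 h5 h6 h7 h8 =>
      h w [.o η, .o ζ, .o β, .s t, .x X, .x Y0, .x X1, .d D]
        (by simp [h1, h2, h3, h4, h5, h6, h7, h8]))

private theorem cl_dcw : Cl (fun M : Set (Ob I) => ∀ η ζ β t X Y0 X1 D w u, .o η ∈ M → .o ζ ∈ M →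
    .o β ∈ M → .s t ∈ M → .x X ∈ M → .x Y0 ∈ M → .x X1 ∈ M → .d D ∈ M → .c u ∈ M →
    (∃ tt rr Z Z' W W' DW, DCP η ζ β t X Y0 X1 D w u tt rr Z Z' W W' DW) →
    ∃ tt rr Z Z' W W' DW, DCP η ζ β t X Y0 X1 D w u tt rr Z Z' W W' DW ∧
      (∀ k, .s (tt k) ∈ M ∧ .s (rr k) ∈ M ∧ .x (Z k) ∈ M ∧ .x (Z' k) ∈ M ∧ .x (W k) ∈ M ∧
        .x (W' k) ∈ M) ∧ .x DW ∈ M) := by
  refine (Cl.all (ι := ℕ) fun w => cl_set (fun (l : List (Ob I)) T => match l with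
    | [.o η, .o ζ, .o β, .s t, .x X, .x Y0, .x X1, .d D, .c u] =>
      ∃ tt rr Z Z' W W' DW, DCP η ζ β t X Y0 X1 D w u tt rr Z Z' W W' DW ∧
        T = {.x DW} ∪ ⋃ k, {.s (tt k), .s (rr k), .x (Z k), .x (Z' k), .x (W k), .x (W' k)}
    | _ => False)).mono fun M h η ζ β t X Y0 X1 D w u h1 h2 h3 h4 h5 h6 h7 h8 h9 hS => ?_
  obtain ⟨tt, rr, Z, Z', W, W', DW, hd⟩ := hS
  obtain ⟨T, hT, -, tt, rr, Z, Z', W, W', DW, hd, rfl⟩ :=
    h w [.o η, .o ζ, .o β, .s t, .x X, .x Y0, .x X1, .d D, .c u]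
    (by simp [h1, h2, h3, h4, h5, h6, h7, h8, h9])
    ⟨{.x DW} ∪ ⋃ k, {.s (tt k), .s (rr k), .x (Z k), .x (Z' k), .x (W k), .x (W' k)}, by
      refine (Set.countable_singleton _).union (Set.countable_iUnion fun k => ?_)
      exact Set.toFinite _ |>.countable, tt, rr, Z, Z', W, W', DW, hd, rfl⟩
  refine ⟨tt, rr, Z, Z', W, W', DW, hd, fun k => ?_, hT (Or.inl rfl)⟩
  have hk : ({.s (tt k), .s (rr k), .x (Z k), .x (Z' k), .x (W k), .x (W' k)} : Set (Ob I)) ⊆ M :=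
    (Set.subset_iUnion (fun k => ({.s (tt k), .s (rr k), .x (Z k), .x (Z' k), .x (W k),
      .x (W' k)} : Set (Ob I))) k).trans (Set.subset_union_right.trans hT)
  exact ⟨hk (by simp), hk (by simp), hk (by simp), hk (by simp), hk (by simp), hk (by simp)⟩

private theorem cl_dc2d (a : I) : Cl (fun M : Set (Ob I) => ∀ ζ β t X w, .o ζ ∈ M → .o β ∈ M →
    .s t ∈ M → .x X ∈ M → .d (DC2D a ζ β t X w) ∈ M) :=
  ((Cl.all (ι := ℕ) fun w => cl_fun (fun l : List (Ob I) => match l with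
    | [.o ζ, .o β, .s t, .x X] => .d (DC2D a ζ β t X w)
    | _ => .c (one I))).mono fun _ h ζ β t X w h1 h2 h3 h4 =>
      h w [.o ζ, .o β, .s t, .x X] (by simp [h1, h2, h3, h4]))

private theorem cl_dc2w (a : I) : Cl (fun M : Set (Ob I) => ∀ ζ β t X w u, .o ζ ∈ M → .o β ∈ M →
    .s t ∈ M → .x X ∈ M → .c u ∈ M →
    (∃ q X', DC2P a ζ β t X w u q X') → ∃ q X', DC2P a ζ β t X w u q X' ∧ .s q ∈ M ∧
      .x X' ∈ M) := by
  refine (Cl.all (ι := ℕ) fun w => cl_set (fun (l : List (Ob I)) T => match l with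
    | [.o ζ, .o β, .s t, .x X, .c u] => ∃ q X', DC2P a ζ β t X w u q X' ∧ T = {.s q, .x X'}
    | _ => False)).mono fun M h ζ β t X w u h1 h2 h3 h4 h5 hS => ?_
  obtain ⟨q, X', hd⟩ := hS
  obtain ⟨T, hT, -, q, X', hd, rfl⟩ := h w [.o ζ, .o β, .s t, .x X, .c u]
    (by simp [h1, h2, h3, h4, h5]) ⟨{.s q, .x X'}, (Set.toFinite _).countable, q, X', hd, rfl⟩
  exact ⟨q, X', hd, hT (by simp), hT (by simp)⟩

private theorem cl_rrd (a : I) : Cl (fun M : Set (Ob I) => ∀ ζ β X w, .o ζ ∈ M → .o β ∈ M →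
    .x X ∈ M → .d (RRD a ζ β X w) ∈ M) :=
  ((Cl.all (ι := ℕ) fun w => cl_fun (fun l : List (Ob I) => match l with
    | [.o ζ, .o β, .x X] => .d (RRD a ζ β X w)
    | _ => .c (one I))).mono fun _ h ζ β X w h1 h2 h3 =>
      h w [.o ζ, .o β, .x X] (by simp [h1, h2, h3]))

private theorem cl_rrw (a : I) : Cl (fun M : Set (Ob I) => ∀ ζ β X w q, .o ζ ∈ M → .o β ∈ M →
    .x X ∈ M → .c q ∈ M → (∃ X', RRP a ζ β X w q X') → ∃ X', RRP a ζ β X w q X' ∧ .x X' ∈ M) := by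
  refine (Cl.all (ι := ℕ) fun w => cl_rel (fun (l : List (Ob I)) x => match l with
    | [.o ζ, .o β, .x X, .c q] => ∃ X', x = .x X' ∧ RRP a ζ β X w q X'
    | _ => False)).mono fun M h ζ β X w q h1 h2 h3 h4 hS => ?_
  obtain ⟨X', hd⟩ := hS
  obtain ⟨x, hx, X', rfl, hd⟩ := h w [.o ζ, .o β, .x X, .c q]
    (by simp [h1, h2, h3, h4]) ⟨.x X', X', rfl, hd⟩
  exact ⟨X', hd, hx⟩

theorem cl_suit2 (a : I) : Cl (fun M : Set (Ob I) => Suit2 a M) :=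
  ((((cl_suit.and cl_decx).and (cl_un.and cl_seqc)).and
    ((cl_seqs.and cl_udw).and (cl_emp.and cl_dcd))).and
    (((cl_dcw.and (cl_dc2d a)).and (cl_dc2w a)).and ((cl_rrd a).and (cl_rrw a)))).mono
    fun _ ⟨⟨⟨⟨h1, h2⟩, h3, h4⟩, ⟨h5, h6⟩, h7, h8⟩, ⟨⟨h9, h10⟩, h11⟩, h12, h13⟩ =>
      ⟨h1, h2, h3, h4, h5, h6, h7, h8, h9, h10, h11, h12, h13⟩

end Pool.Agent.DN
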