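import Pool.Agent.Lib.MP_d988c5_lc.PLcomp

/-!
# MP_d988c5_lc : preservation, limits
-/

namespace Pool.Agent.DN

variable {I : Type} [LinearOrder I] [WellFoundedLT I] [OrderBot I]

theorem PL_lim {a b0 : I} (hb : a ⋖ b0) {Ss : (I → Y) → Sl} (hS : MSl b0 Ss) {M : Set (Ob I)}
    (hM : Suit2 a M) {η β : I} (h0 : b0 ≤ η) (hηβ : η < β) (hl : ∀ ζ, ¬ ζ ⋖ β) (hη : .o η ∈ M)
    (hβ : .o β ∈ M) (hP : ∀ ζ ζ', b0 ≤ ζ → ζ ≤ ζ' → ζ' < β → .o ζ ∈ M → .o ζ' ∈ M →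
      PL a Ss M ζ ζ') : PL a Ss M η β := by
  classical
  intro E hE g mg t X Y0 hh
  rcases Set.eq_empty_or_nonempty E with rfl | ⟨zz, hzz⟩
  · exact ⟨one I, fun z hz => absurd hz (Set.notMem_empty z)⟩
  obtain ⟨ec, hec, hec'⟩ := hM.suit.enum
  obtain ⟨ex, hex, hex'⟩ := enum_x hM.suit.cnt _ hM.emp
  obtain ⟨es, hes, hes'⟩ := enum_s hM.suit.cnt _ (hh zz hzz).tM
  obtain ⟨dd, hdd⟩ := hM.suit.enumd
  -- the dense sets and the names to be dealt with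
  let DD : ℕ → Set (Cond I) := fun n =>
    if .d (dd n) ∈ M ∧ Dn β (dd n) then dd n else {q | Low β q}
  let XX : ℕ → (I → Y) → Sl := fun n =>
    if MSl β (ex n) ∧ ∃ w, Wd w (ex n) then ex n else fun _ _ => ∅
  have hDD : ∀ n, .d (DD n) ∈ M ∧ Dn β (DD n) := by
    intro n
    by_cases h : .d (dd n) ∈ M ∧ Dn β (dd n)
    · simp only [DD, if_pos h]; exact h
    · simp only [DD, if_neg h]; exact ⟨hM.suit.lowd β hβ, dn_low⟩
  have hXX : ∀ n, .x (XX n) ∈ M ∧ MSl β (XX n) ∧ ∃ w, Wd w (XX n) := by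
    intro n
    by_cases h : MSl β (ex n) ∧ ∃ w, Wd w (ex n)
    · simp only [XX, if_pos h]; exact ⟨hex n, h⟩
    · simp only [XX, if_neg h]
      exact ⟨hM.emp, fun n s => MS.const _ _, 0, fun z n => by simp⟩
  -- the cofinal sequence
  obtain ⟨b, hbr⟩ : ∃ b : ℕ → I, Set.range b = {γ | .o γ ∈ M ∧ η ≤ γ ∧ γ < β} := by
    have h1 : {γ : I | .o γ ∈ M ∧ η ≤ γ ∧ γ < β}.Countable := by
      have : {γ : I | .o γ ∈ M}.Countable := by
        refine hM.suit.cnt.preimage_of_injOn ?_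
        intro p _ q _ h
        simpa using h
      exact this.mono fun _ h => h.1
    obtain ⟨b, hb⟩ := h1.exists_eq_range ⟨η, hη, le_rfl, hηβ⟩
    exact ⟨b, hb.symm⟩
  have hb' : ∀ n, .o (b n) ∈ M ∧ η ≤ b n ∧ b n < β := by
    intro n
    have : b n ∈ {γ | .o γ ∈ M ∧ η ≤ γ ∧ γ < β} := by rw [← hbr]; exact ⟨n, rfl⟩
    exact this
  let A : ℕ → I := fun n => Nat.rec (motive := fun _ => I) η (fun n x => max x (b n)) n
  have As : ∀ n, A (n + 1) = max (A n) (b n) := fun n => rfl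
  have ha : ∀ n, .o (A n) ∈ M ∧ η ≤ A n ∧ A n < β := by
    intro n
    induction n with
    | zero => exact ⟨hη, le_rfl, hηβ⟩
    | succ n ih =>
      rw [As]
      rcases max_choice (A n) (b n) with h | h
      · rw [h]; exact ih
      · rw [h]; exact hb' n
  have hmono : Monotone A := monotone_nat_of_le_succ fun n => by rw [As]; exact le_max_left _ _
  have hcof : ∀ ξ, .o ξ ∈ M → ξ < β → ∃ n, ξ < A n := by
    intro ξ hξM hξ
    obtain ⟨ζ, h1, h2, h3⟩ := hM.suit.btw ξ β hξM hβ (by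
      by_contra hc
      exact hl ξ ⟨hξ, fun ζ h1 h2 => hc ⟨ζ, h1, h2⟩⟩)
    rcases le_or_gt η ζ with h4 | h4
    · have : ζ ∈ Set.range b := by rw [hbr]; exact ⟨h1, h4, h3⟩
      obtain ⟨n, rfl⟩ := this
      exact ⟨n + 1, h2.trans_le (by rw [As]; exact le_max_right _ _)⟩
    · exact ⟨0, h2.trans h4⟩
  -- the states: indices of the sequence, of the name and of its interpretation
  let St := ℕ × ℕ × ℕ
  let Inv : ℕ → Set (I → Y) × ((I → Y) → St) → Prop := fun n x =>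
    MS (A n) x.1 ∧ (∀ s, MS (A n) {z | x.2 z = s}) ∧
    ∀ z ∈ x.1, PLh a Ss M (A n) β z (es (x.2 z).1) (ex (x.2 z).2.1) (ex (x.2 z).2.2)
  have hstep : ∀ n x, Inv n x → ∃ y : (Set (I → Y) × ((I → Y) → St)) × Cond I,
      Inv (n + 1) y.1 ∧ (∀ z ∈ x.1, Seg y.2 (A n) (A (n + 1)) z → z ∈ y.1.1) ∧
      (∀ z ∈ x.1, ∃ k m, (∀ j, es (y.1.2 z).1 j ≤ es (x.2 z).1 (k + n) ∧
        UD (DD n) (es (y.1.2 z).1 j)) ∧ ex (y.1.2 z).2.1 = unX (ex (x.2 z).2.1) (XX n) m) := by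
    rintro n ⟨E', g'⟩ ⟨x1, x2, x3⟩
    simp only at x1 x2 x3
    have haA : a < A n := hb.1.trans_le (h0.trans (ha n).2.1)
    -- the state, u, tt, rr, Z, W, the new name
    let S := St × ℕ × ℕ × ℕ × ℕ × ℕ × ℕ
    let CC : S → Prop := fun s =>
      (∃ k m, (∀ j, es s.2.2.1 j ≤ es s.1.1 (k + n) ∧ UD (DD n) (es s.2.2.1 j)) ∧
        ex s.2.2.2.2.2.2 = unX (ex s.1.2.1) (XX n) m) ∧
      (∀ j, Low β (es s.2.2.1 j)) ∧
      (∀ j, Low (A (n + 1)) (es s.2.2.2.1 j) ∧ Bod (ec s.2.1) ⊆ BodB (es s.2.2.2.1 j) (A n)) ∧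
      (∀ j j', es s.2.2.2.1 j ≤ res (es s.2.2.1 j') (A (n + 1))) ∧
      MSl (A (n + 1)) (ex s.2.2.2.2.1) ∧ MSl (A n) (ex s.2.2.2.2.2.1) ∧
      Itp (es s.2.2.1) (ex s.2.2.2.2.2.2) (ex s.2.2.2.2.1) ∧
      Itp (es s.2.2.2.1) (ex s.2.2.2.2.1) (ex s.2.2.2.2.2.1) ∧
      ∃ w, Wd w (ex s.2.2.2.2.1)
    obtain ⟨f, mf, hf⟩ := exists_sel (S := S) (α := A n) (E := E')
      (fun z s => g' z = s.1 ∧ (Low (A n) (ec s.2.1) ∧ z ∈ Bod (ec s.2.1)) ∧ (CC s ∧
        Cv a Ss z (ex s.2.2.2.2.2.1) 0))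
      (fun s => (x2 _).and ((ms_const_and fun h => Bod_ms h).and
        (ms_const_and fun h => Cv_ms haA (hS.mono (h0.trans (ha n).2.1)) h.2.2.2.2.2.1 0)))
      (by
        intro z hz
        have hz' := x3 z hz
        have hsh : PLh a Ss M (A n) β z (fun k => es (g' z).1 (k + n)) (ex (g' z).2.1)
            (ex (g' z).2.2) := ⟨hM.seqs _ _ hz'.tM, fun k => hz'.tlow _, hz'.XM, hz'.YM,
          fun j z' hz1 i hi => hz'.itp (j + n) z' hz1 i (by omega), hz'.gen, hz'.cvm, hz'.cv⟩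
        obtain ⟨u, k, m, tt, rr, Z, W, c1, c2, c3, c4, c5, c6, c7, c8, c9, c10, c11, c12, c13, c14,
          c15, c16⟩ := step_data hb hS hM (h0.trans (ha n).2.1) (hmono (Nat.le_succ n))
            (ha (n + 1)).2.2.le (ha n).1 (ha (n + 1)).1 hβ hsh (hXX n).1 (hXX n).2.1 (hXX n).2.2
            (hDD n).1 (hDD n).2
        obtain ⟨iu, rfl⟩ := hec' u c1
        obtain ⟨it, rfl⟩ := hes' tt c4
        obtain ⟨ir, rfl⟩ := hes' rr c5
        obtain ⟨iZ, rfl⟩ := hex' Z c6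
        obtain ⟨iW, rfl⟩ := hex' W c8
        obtain ⟨iN, hN⟩ := hex' (unX (ex (g' z).2.1) (XX n) m) (hM.un _ _ _ (hex _) (hXX n).1)
        exact ⟨(g' z, iu, it, ir, iZ, iW, iN), rfl, ⟨c2, c3⟩,
          ⟨⟨k, m, fun j => (c10 j).2, hN⟩, fun j => (c10 j).1, c11, c12, c7, c9, by
            show Itp (es it) (ex iN) (ex iZ)
            rw [hN]; exact c13, c14, c15⟩, c16⟩)
    obtain ⟨c, hc⟩ := (hP (A n) (A (n + 1)) (h0.trans (ha n).2.1) (hmono (Nat.le_succ n))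
      (ha (n + 1)).2.2 (ha n).1 (ha (n + 1)).1).use x1 mf (fun s => es s.2.2.2.1)
      (fun s => ex s.2.2.2.2.1) (fun s => ex s.2.2.2.2.2.1) (by
        intro z hz
        obtain ⟨_, ⟨d2, d3⟩, ⟨_, d4, d5, d6, d7, d8, d9, d10, d11⟩, d12⟩ := hf z hz
        exact ⟨hes _, fun k => ⟨(d5 k).1, (d5 k).2 d3⟩, ⟨hex _, d7, d11⟩, ⟨hex _, d8⟩, d10,
          (x3 z hz).gen, (x3 z hz).cvm, d12⟩)
    refine ⟨(({z | z ∈ E' ∧ Seg c (A n) (A (n + 1)) z},
      fun z => ((f z).2.2.1, (f z).2.2.2.2.2.2, (f z).2.2.2.2.1)), c), ⟨?_, ?_, ?_⟩, ?_, ?_⟩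
    · exact (x1.mono (hmono (Nat.le_succ n))).and (Seg_ms _ _ _)
    · intro s
      have : {z | ((f z).2.2.1, (f z).2.2.2.2.2.2, (f z).2.2.2.2.1) = s} =
          {z | ∃ s', f z = s' ∧ (s'.2.2.1, s'.2.2.2.2.2.2, s'.2.2.2.2.1) = s} := by
        ext z; simp
      show MS _ {z | ((f z).2.2.1, (f z).2.2.2.2.2.2, (f z).2.2.2.2.1) = s}
      rw [this]
      exact MS.ex fun s' => ((mf s').mono (hmono (Nat.le_succ n))).and (MS.const _ _)
    · rintro z ⟨hz, hs⟩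
      obtain ⟨d1, ⟨d2, d3⟩, ⟨⟨k, m, e1, e2⟩, d4, d5, d6, d7, d8, d9, d10, d11⟩, d12⟩ := hf z hz
      obtain ⟨⟨j, i1⟩, i2, i3, i4⟩ := hc z hz hs
      obtain ⟨hXM, mX, w, wX⟩ := (x3 z hz).XM
      obtain ⟨_, mX', w', wX'⟩ := hXX n
      refine ⟨hes _, fun k => ⟨d4 k, ?_⟩, ⟨hex _, ?_, ?_⟩, ⟨hex _, d7⟩, d9, i2, i3, i4⟩
      · have := d6 j k i1
        rwa [Bod_res] at this
      · show MSl β (ex (f z).2.2.2.2.2.2)
        rw [e2]
        rw [d1] at mX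
        exact mX.unX mX' m
      · show ∃ w, Wd w (ex (f z).2.2.2.2.2.2)
        rw [e2]
        rw [d1] at wX
        exact ⟨_, (wX.mono (le_max_left w w')).unX (wX'.mono (le_max_right w w')) m⟩
    · exact fun z hz hs => ⟨hz, hs⟩
    · intro z hz
      obtain ⟨d1, ⟨d2, d3⟩, ⟨⟨k, m, e1, e2⟩, _⟩, d12⟩ := hf z hz
      refine ⟨k, m, fun j => ?_, ?_⟩
      · have := e1 j
        rw [← d1] at this
        exact this
      · show ex (f z).2.2.2.2.2.2 = unX (ex (g' z).2.1) (XX n) m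
        rw [d1]; exact e2
  have : Nonempty ((Set (I → Y) × ((I → Y) → St)) × Cond I) :=
    ⟨((∅, fun _ => (0, 0, 0)), one I)⟩
  choose! F hF using hstep
  -- the initial state
  obtain ⟨f0, mf0, hf0⟩ := exists_sel (S := ℕ × St) (α := η) (E := E)
    (fun z s => g z = s.1 ∧ (es s.2.1 = t s.1 ∧ ex s.2.2.1 = X s.1 ∧ ex s.2.2.2 = Y0 s.1))
    (fun s => (mg _).and (MS.const _ _)) (by
      intro z hz
      obtain ⟨i1, h1⟩ := hes' _ (hh z hz).tM
      obtain ⟨i2, h2⟩ := hex' _ (hh z hz).XM.1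
      obtain ⟨i3, h3⟩ := hex' _ (hh z hz).YM.1
      exact ⟨(g z, i1, i2, i3), rfl, h1, h2, h3⟩)
  let st : ℕ → Set (I → Y) × ((I → Y) → St) := fun n =>
    Nat.rec (motive := fun _ => Set (I → Y) × ((I → Y) → St)) (E, fun z => (f0 z).2)
      (fun n x => (F n x).1) n
  have hst : ∀ n, st (n + 1) = (F n (st n)).1 := fun n => rfl
  have hInv : ∀ n, Inv n (st n) := by
    intro n
    induction n with
    | zero =>
      refine ⟨hE, fun s => ?_, fun z hz => ?_⟩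
      · have : {z | (f0 z).2 = s} = {z | ∃ s', f0 z = s' ∧ s'.2 = s} := by ext z; simp
        show MS η {z | (f0 z).2 = s}
        rw [this]
        exact MS.ex fun s' => (mf0 s').and (MS.const _ _)
      · obtain ⟨h1, h2, h3, h4⟩ := hf0 z hz
        show PLh a Ss M η β z (es (f0 z).2.1) (ex (f0 z).2.2.1) (ex (f0 z).2.2.2)
        rw [h2, h3, h4, ← h1]
        exact hh z hz
    | succ n ih => rw [hst]; exact (hF n _ ih).1
  obtain ⟨c, hc⟩ := exists_concat A hmono (fun n => (F n (st n)).2)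
  refine ⟨c, fun z hz hs => ?_⟩
  have hzn : ∀ n, z ∈ (st n).1 := by
    intro n
    induction n with
    | zero => exact hz
    | succ n ih =>
      rw [hst]
      refine (hF n _ (hInv n)).2.1 z ih fun ξ h1 h2 m => ?_
      rw [← hc n ξ h1 h2 z]
      exact hs ξ ((ha n).2.1.trans h1) (h2.trans (ha (n + 1)).2.2) m
  have hrel : ∀ n, ∃ k m, (∀ j, es ((st (n + 1)).2 z).1 j ≤ es ((st n).2 z).1 (k + n) ∧
        UD (DD n) (es ((st (n + 1)).2 z).1 j)) ∧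
        ex ((st (n + 1)).2 z).2.1 = unX (ex ((st n).2 z).2.1) (XX n) m := fun n => by
    rw [hst]; exact (hF n _ (hInv n)).2.2 z (hzn n)
  choose k m hkm1 hkm2 using hrel
  have hPL := fun n => (hInv n).2.2 z (hzn n)
  let p : ℕ → Cond I := fun n => es ((st n).2 z).1 (k n + n)
  have hle : ∀ m n, m ≤ n → p n ≤ p m := by
    intro m n hmn
    induction n, hmn using Nat.le_induction with
    | base => exact le_rfl
    | succ n _ ih => exact ((hkm1 n _).1).trans ih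
  have hpM : ∀ n, .c (p n) ∈ M := fun n =>
    hM.seqc (es ((st n).2 z).1) (k n + n) (hPL n).tM
  have hbod : ∀ n, z ∈ Bod (p n) := by
    intro n
    rw [Bod_of_low ((hPL n).tlow _).1]
    intro ξ hξ i
    by_cases hsupp : ∃ z', (p n).C ξ z' ≠ Ful
    · obtain ⟨N, hN⟩ := hcof ξ (hM.suit.supp _ (hpM n) ξ hsupp) hξ
      have h1 := ((hPL (max n N)).tlow (k (max n N) + max n N)).2
      have h2 : ξ < A (max n N) := hN.trans_le (hmono (le_max_right _ _))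
      have h3 : nd (z ξ) i ∈ (p (max n N)).C ξ z := h1 ξ h2 i
      exact C_mono (hle _ _ (le_max_left n N)) (BodB_mono_right h2.le h1) h3
    · have : (p n).C ξ z = Ful := by
        by_contra hcc; exact hsupp ⟨z, hcc⟩
      rw [this]; exact vd_nd _ _
  -- the names grow
  have hgrow : ∀ n N, n ≤ N → ∀ i, ex ((st n).2 z).2.1 z i ⊆ ex ((st N).2 z).2.1 z i := by
    intro n N hnN i
    induction N, hnN using Nat.le_induction with
    | base => exact Finset.Subset.refl _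
    | succ N _ ih =>
      refine ih.trans ?_
      rw [hkm2 N]
      exact Finset.subset_union_left
  have hcov : ∀ n, ∀ i ∈ Br (z a), ex ((st n).2 z).2.1 z i ⊆ Ss z i := by
    intro n i hi
    have h1 := hgrow n (max n (i + 1)) (le_max_left _ _) i
    refine h1.trans ?_
    rw [(hPL (max n (i + 1))).itp _ z (hbod _) i (by
      have := le_max_right n (i + 1)
      omega)]
    exact (hPL _).cv i hi (Nat.zero_le _)
  obtain ⟨e1, e2, e3, e4⟩ := hf0 z hz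
  refine ⟨⟨k 0 + 0, ?_⟩, ?_, ?_, fun i hi _ => ?_⟩
  · have := hbod 0
    show z ∈ Bod (t (g z) (k 0 + 0))
    rw [e1, ← e2]; exact this
  · intro D hD hdn
    obtain ⟨n, rfl⟩ := hdd D hD
    have h1 : UD (DD n) (p (n + 1)) := (hkm1 n _).2
    have h2 : DD n = dd n := if_pos ⟨hD, hdn⟩
    rw [h2] at h1
    obtain ⟨S, _, hS1, hS2, hS3⟩ := hM.udw _ _ hD (hpM (n + 1)) h1
    obtain ⟨r, hr, hr'⟩ := hS3 z (hbod (n + 1))
    exact ⟨r, hS1 r hr, hS2 hr, hr'⟩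
  · intro X1 hX1 mX1 wX1
    obtain ⟨n, rfl⟩ := hex' X1 hX1
    refine ⟨m n, fun i hi hmi => ?_⟩
    have h2 : XX n = ex n := if_pos ⟨mX1, wX1⟩
    refine Finset.Subset.trans ?_ (hcov (n + 1) i hi)
    rw [hkm2 n, h2]
    show ex n z i ⊆ _ ∪ (if m n ≤ i then ex n z i else ∅)
    rw [if_pos hmi]
    exact Finset.subset_union_right
  · have := hcov 0 i hi
    rw [e1, ← e3]; exact this

end Pool.Agent.DN
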