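import Pool.Agent.Lib.MP_d988c5_lc.PLone
import Pool.Agent.Lib.MP_d988c5_lc.PLlim
import Pool.Agent.Lib.MP_d988c5_lc.ClSuit2

/-!
# MP_d988c5_lc : covering the entries of a real on the branch of one coordinate
-/

namespace Pool.Agent.DN

variable {I : Type} [LinearOrder I] [WellFoundedLT I] [OrderBot I]

theorem PL_all {a b0 : I} (hb : a ⋖ b0) {Ss : (I → Y) → Sl} (hS : MSl b0 Ss) {M : Set (Ob I)}
    (hM : Suit2 a M) {η β : I} (h0 : b0 ≤ η) (hηβ : η ≤ β) (hη : .o η ∈ M) (hβ : .o β ∈ M) :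
    PL a Ss M η β := by
  induction β using WellFoundedLT.induction generalizing η with
  | ind β ih =>
    rcases hηβ.eq_or_lt with rfl | hlt
    · exact PL_self
    by_cases hp : ∃ ζ, ζ ⋖ β
    · obtain ⟨ζ, hζ⟩ := hp
      have hζM : .o ζ ∈ M := hM.suit.pred _ _ hβ hζ
      have hηζ : η ≤ ζ := hζ.le_of_lt hlt
      exact PL_comp hb hS hM h0 hηζ hζ.1.le hη hζM hβ (ih ζ hζ.1 h0 hηζ hη hζM)
        (PL_one hb hS hM (h0.trans hηζ) hζ hζM hβ)
    · push Not at hp
      exact PL_lim hb hS hM h0 hlt hp hη hβ fun ζ ζ' h1 h2 h3 h4 h5 => ih ζ' h3 h1 h2 h4 h5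

/-- a name with at most one element in every entry is covered on the branch of `a` by a slalom of
width `NN n ^ n` which depends only on the coordinates up to `a` -/
theorem cover_real {a b0 β : I} (hb : a ⋖ b0) (hβ : b0 ≤ β) {q : Cond I} (hq : Low β q)
    {X : (I → Y) → Sl} (hX : MSl β X) (hw : Wd 0 X) :
    ∃ q' ≤ q, Low β q' ∧ ∃ S : (I → Y) → Sl, MSl b0 S ∧ (∀ z n, (S z n).card ≤ NN n ^ n) ∧
      ∃ m : ℕ, ∀ z ∈ Bod q', ∀ n ∈ Br (z a), m ≤ n → X z n ⊆ S z n := by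
  classical
  obtain ⟨u, hu1, hu2, s, X', X1', hs, hX', -, hwX', -, hi, -⟩ := interp hβ hq hX hX hw hw
    (low_res q b0) (by rw [Bod_res])
  obtain ⟨M, hA, hMc, hM⟩ := (cl_suit2 (I := I) a).exists
    {.o ⊥, .o b0, .o β, .c u, .s s, .x X, .x X'} (by
      refine Set.Countable.insert _ (Set.Countable.insert _ (Set.Countable.insert _
        (Set.Countable.insert _ (Set.Countable.insert _ (Set.Countable.insert _
          (Set.countable_singleton _))))))
    )
  have h1 : (.o ⊥ : Ob I) ∈ M := hA (by simp)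
  have h2 : (.o b0 : Ob I) ∈ M := hA (by simp)
  have h3 : (.o β : Ob I) ∈ M := hA (by simp)
  have h4 : (.c u : Ob I) ∈ M := hA (by simp)
  have h5 : (.s s : Ob I) ∈ M := hA (by simp)
  have h6 : (.x X : Ob I) ∈ M := hA (by simp)
  have h7 : (.x X' : Ob I) ∈ M := hA (by simp)
  obtain ⟨ex, hex, hex'⟩ := enum_x hM.suit.cnt _ hM.emp
  let Ss : (I → Y) → Sl := fun z n => (Finset.range n).biUnion fun i =>
    if MSl b0 (ex i) ∧ ∃ j < n, Wd j (ex i) then ex i z n else ∅
  have mem : ∀ z n v, v ∈ Ss z n ↔ ∃ i, i < n ∧ (MSl b0 (ex i) ∧ ∃ j < n, Wd j (ex i)) ∧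
      v ∈ ex i z n := by
    intro z n v
    simp only [Ss, Finset.mem_biUnion, Finset.mem_range]
    refine exists_congr fun i => and_congr_right fun _ => ?_
    by_cases h : MSl b0 (ex i) ∧ ∃ j < n, Wd j (ex i)
    · rw [if_pos h]; exact ⟨fun h' => ⟨h, h'⟩, fun h' => h'.2⟩
    · rw [if_neg h]; simp [h]
  have mS : MSl b0 Ss := by
    intro n t
    have : {z | Ss z n = t} = {z | ∀ v : VV n, (v ∈ Ss z n ↔ v ∈ t)} := by
      ext z; simp [Finset.ext_iff]
    rw [this]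
    refine MS.all fun v => MS.iff ?_ (MS.const _ _)
    have : {z | v ∈ Ss z n} = {z | ∃ i, i < n ∧ (MSl b0 (ex i) ∧ ∃ j < n, Wd j (ex i)) ∧
      v ∈ ex i z n} := by
      ext z; exact mem z n v
    rw [this]
    refine MS.ex fun i => ms_const_and fun _ => ms_const_and fun h => ?_
    have : {z | v ∈ ex i z n} = {z | ∃ t', ex i z n = t' ∧ v ∈ t'} := by ext z; simp
    rw [this]
    exact MS.ex fun t' => (h.1 n t').and (MS.const _ _)
  have hcov : ∀ Z, .x Z ∈ M → MSl b0 Z → (∃ w, Wd w Z) → ∃ m, ∀ z n, m ≤ n → Z z n ⊆ Ss z n := by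
    intro Z hZ mZ hwZ
    obtain ⟨i, rfl⟩ := hex' Z hZ
    obtain ⟨w, hwZ⟩ := hwZ
    refine ⟨max i w + 1, fun z n hn v hv => (mem z n v).2 ⟨i, ?_, ⟨mZ, w, ?_, hwZ⟩, hv⟩⟩
    · have := le_max_left i w; omega
    · have := le_max_right i w; omega
  obtain ⟨m, hm⟩ := hcov X' h7 hX' ⟨0, hwX'⟩
  obtain ⟨c0, hc0⟩ := kl hM.suit h2 ⊥ bot_le h1 Set.univ (MS.univ _) (fun _ => u) (by
      intro r
      have : {z : I → Y | z ∈ Set.univ ∧ u = r} = {_z | u = r} := by ext z; simp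
      rw [this]; exact MS.const _ _) (by
      intro z _
      exact ⟨h4, hu2, fun ξ hξ => absurd hξ not_lt_bot, Gen_bot hM.suit z⟩)
  obtain ⟨c, hc⟩ := PL_all hb mS hM le_rfl hβ h2 h3 {z | Seg c0 ⊥ b0 z} (Seg_ms _ _ _)
    (fun _ => 0) (fun k => MS.const _ _) (fun _ => s) (fun _ => unX (fun _ _ => ∅) X m)
    (fun _ => unX (fun _ _ => ∅) X' m) (by
      intro z hz
      obtain ⟨e1, e2, -⟩ := hc0 z (Set.mem_univ _) hz
      refine ⟨h5, fun k => ⟨(hs k).1, (hs k).2.2 e1⟩, ⟨hM.un _ _ _ hM.emp h6,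
        MSl.unX (fun n s => MS.const _ _) hX m, 0 + 1, Wd.unX (fun z n => by simp) hw m⟩,
        ⟨hM.un _ _ _ hM.emp h7, MSl.unX (fun n s => MS.const _ _) hX' m⟩, ?_, e2, ?_, ?_⟩
      · intro j z' hz' i hij
        simp only [unX]
        rw [hi j z' hz' i hij]
      · intro Z hZ mZ hwZ
        obtain ⟨k, hk⟩ := hcov Z hZ mZ hwZ
        exact ⟨k, fun n _ hkn => hk z n hkn⟩
      · intro n _ _
        simp only [unX]
        refine Finset.union_subset (Finset.empty_subset _) ?_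
        split
        · rename_i h; exact hm z n h
        · exact Finset.empty_subset _)
  have hmain : ∀ z ∈ Bod (res (glue c0 c b0) β), (∃ k, z ∈ Bod (s k)) ∧
      Cv a Ss z (unX (fun _ _ => ∅) X m) 0 := by
    intro z hz
    rw [Bod_res] at hz
    have e1 : Seg c0 ⊥ b0 z := by
      intro ξ _ h n
      have := hz ξ (h.trans_le hβ) n
      rwa [glue_C_lt _ _ h] at this
    have e2 : Seg c b0 β z := by
      intro ξ h h' n
      have := hz ξ h' n
      rwa [glue_C_ge _ _ h] at this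
    obtain ⟨h1, -, -, h4⟩ := hc z e1 e2
    exact ⟨h1, h4⟩
  refine ⟨res (glue c0 c b0) β, ?_, low_res _ _, Ss, mS, ?_, m, ?_⟩
  · intro z hz
    obtain ⟨⟨k, hk⟩, -⟩ := hmain z hz
    exact (hs k).2.1 hk
  · intro z n
    rcases Nat.eq_zero_or_pos n with rfl | hn
    · simp [Ss]
    · calc (Ss z n).card ≤ ∑ i ∈ Finset.range n,
            (if MSl b0 (ex i) ∧ ∃ j < n, Wd j (ex i) then ex i z n else ∅).card :=
          Finset.card_biUnion_le
        _ ≤ ∑ i ∈ Finset.range n, NN n ^ (n - 1) := by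
          refine Finset.sum_le_sum fun i _ => ?_
          split
          · rename_i h
            obtain ⟨_, j, hj, h⟩ := h
            exact (h z n).trans (Nat.pow_le_pow_right (by have := NN_ge2 n; omega) (by omega))
          · simp
        _ = n * NN n ^ (n - 1) := by simp
        _ ≤ NN n * NN n ^ (n - 1) := Nat.mul_le_mul_right _ (by have := NN_ge2 n; omega)
        _ = NN n ^ n := by rw [← pow_succ']; congr 1; omega
  · intro z hz n hn hmn
    obtain ⟨-, h⟩ := hmain z hz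
    refine Finset.Subset.trans ?_ (h n hn (Nat.zero_le _))
    simp [unX, hmn]

end Pool.Agent.DN
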