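import Pool.Agent.Lib.MP_d988c5_lc.Names

/-!
# MP_d988c5_lc : interpretations of names
-/

namespace Pool.Agent.DN

variable {I : Type} [LinearOrder I] [WellFoundedLT I] [OrderBot I]

/-- a condition below `u` all of whose points are generic over a closed set -/
theorem gen_base {η : I} {u : Cond I} (hu : Low η u) {P : Set (Ob I) → Prop} (hP : Cl P)
    {A : Set (Ob I)} (hA : A.Countable) :
    ∃ M : Set (Ob I), A ⊆ M ∧ Suit M ∧ P M ∧ .o η ∈ M ∧ ∃ u' ≤ u, Low η u' ∧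
      ∀ z ∈ Bod u', Gen M η z := by
  obtain ⟨M, h1, -, hM, h2⟩ := ((cl_suit (I := I)).and hP).exists ({.o ⊥, .o η, .c u} ∪ A)
    (((Set.countable_singleton _).insert _ |>.insert _).union hA)
  have hbM : .o (⊥ : I) ∈ M := h1 (Or.inl (by simp))
  have hηM : .o η ∈ M := h1 (Or.inl (by simp))
  have huM : .c u ∈ M := h1 (Or.inl (by simp))
  obtain ⟨c, hc⟩ := kl hM hηM ⊥ bot_le hbM Set.univ (MS.univ _)
    (fun _ => u) (fun r => (MS.univ _).and (MS.const _ _))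
    (fun z _ => ⟨huM, hu, fun ξ hξ => absurd hξ not_lt_bot, Gen_bot hM z⟩)
  have hsub : ∀ z ∈ Bod (res c η), z ∈ Bod u ∧ Gen M η z := by
    intro z hz
    rw [Bod_res] at hz
    obtain ⟨a1, a2, _⟩ := hc z trivial fun ξ _ h2 n => hz ξ h2 n
    exact ⟨a1, a2⟩
  exact ⟨M, Set.subset_union_right.trans h1, hM, h2, hηM, res c η, fun z hz => (hsub z hz).1,
    low_res _ _, fun z hz => (hsub z hz).2⟩

omit [OrderBot I] in
/-- a decreasing sequence of conditions of `M` in given dense sets, compatible with the generic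
point -/
theorem dec_seq (hdec : ∀ α : I, Dec α) {M : Set (Ob I)} (hM : Suit M) {η ζ : I} (h : η ≤ ζ)
    (hη : .o η ∈ M) (hζ : .o ζ ∈ M)
    {e : ℕ → Cond I} (he : ∀ n, .c (e n) ∈ M) (he' : ∀ p, .c p ∈ M → ∃ n, e n = p)
    {u : Cond I} (hu : ∀ z ∈ Bod u, Gen M η z) (f : (I → Y) → ℕ)
    (mf : ∀ i, MS η {z | f z = i}) (DD : ℕ → ℕ → Set (Cond I))
    (hDD : ∀ i j, .d (DD i j) ∈ M ∧ Dn ζ (DD i j))
    (g0 : (I → Y) → ℕ) (mg0 : ∀ k, MS η {z | g0 z = k})
    (hg0 : ∀ z ∈ Bod u, Low ζ (e (g0 z)) ∧ z ∈ BodB (e (g0 z)) η) :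
    ∃ g : ℕ → (I → Y) → ℕ, g 0 = g0 ∧ (∀ j k, MS η {z | g j z = k}) ∧
      ∀ z ∈ Bod u, ∀ j, Low ζ (e (g j z)) ∧ z ∈ BodB (e (g j z)) η ∧
        e (g (j + 1) z) ≤ e (g j z) ∧ e (g (j + 1) z) ∈ DD (f z) j := by
  classical
  let St : Type := {g : (I → Y) → ℕ // (∀ k, MS η {z | g z = k}) ∧
    ∀ z ∈ Bod u, Low ζ (e (g z)) ∧ z ∈ BodB (e (g z)) η}
  have hstep : ∀ (j : ℕ) (g : St), ∃ g' : St, ∀ z ∈ Bod u,
      e (g'.1 z) ≤ e (g.1 z) ∧ e (g'.1 z) ∈ DD (f z) j := by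
    intro j g
    obtain ⟨g', m1, m2⟩ := exists_sel (S := ℕ) (α := η) (E := Bod u)
      (fun z k => ∃ i m, (f z = i ∧ g.1 z = m) ∧ Low ζ (e k) ∧ z ∈ BodB (e k) η ∧ e k ≤ e m ∧
        e k ∈ DD i j)
      (fun k => MS.ex fun i => MS.ex fun m => ((mf i).and (g.2.1 m)).and ((MS.const _ _).and
        ((BodB_ms _ _).and (MS.const _ _))))
      (by
        intro z hz
        obtain ⟨y1, y2⟩ := g.2.2 z hz
        obtain ⟨r', c1, c2, c3, c4, c5⟩ := step hM h (hdec η) hζ hη (he _) y1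
          (hDD (f z) j).1 (hDD (f z) j).2 y2 (hu z hz)
        obtain ⟨k, rfl⟩ := he' _ c1
        exact ⟨k, f z, g.1 z, ⟨rfl, rfl⟩, c2, c4, c3, c5⟩)
    have m3 : ∀ z ∈ Bod u, Low ζ (e (g' z)) ∧ z ∈ BodB (e (g' z)) η ∧ e (g' z) ≤ e (g.1 z) ∧
        e (g' z) ∈ DD (f z) j := by
      intro z hz
      obtain ⟨i, m, ⟨rfl, rfl⟩, b1, b2, b3, b4⟩ := m2 z hz
      exact ⟨b1, b2, b3, b4⟩
    exact ⟨⟨g', m1, fun z hz => ⟨(m3 z hz).1, (m3 z hz).2.1⟩⟩,
      fun z hz => ⟨(m3 z hz).2.2.1, (m3 z hz).2.2.2⟩⟩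
  choose G hG using hstep
  let s : ℕ → St := fun n => Nat.rec (motive := fun _ => St) ⟨g0, mg0, hg0⟩ (fun n g => G n g) n
  have s1 : ∀ n, s (n + 1) = G n (s n) := fun n => rfl
  refine ⟨fun n => (s n).1, rfl, fun j k => (s j).2.1 k, fun z hz j => ?_⟩
  have h3 := hG j (s j) z hz
  rw [← s1] at h3
  exact ⟨((s j).2.2 z hz).1, ((s j).2.2 z hz).2, h3.1, h3.2⟩

omit [WellFoundedLT I] [OrderBot I] in
open Classical in
/-- the value of the `i`-th entry of `X` on `Bod q` -/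
noncomputable def valX (X : (I → Y) → Sl) (i : ℕ) (q : Cond I) : Finset (VV i) :=
  if h : ∃ s : Finset (VV i), ∀ z ∈ Bod q, X z i = s then h.choose else ∅

omit [WellFoundedLT I] [OrderBot I] in
theorem valX_eq {X : (I → Y) → Sl} {i : ℕ} {q : Cond I} {β : I} (h : q ∈ DecX β X i)
    {z : I → Y} (hz : z ∈ Bod q) : X z i = valX X i q := by
  have h2 : ∃ s : Finset (VV i), ∀ z ∈ Bod q, X z i = s := h.2
  unfold valX
  rw [dif_pos h2]
  exact h2.choose_spec z hz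

omit [OrderBot I] in
theorem card_valX {X : (I → Y) → Sl} {w : ℕ} (hw : Wd w X) (i : ℕ) (q : Cond I) :
    (valX X i q).card ≤ NN i ^ w := by
  unfold valX
  split_ifs with h
  · obtain ⟨z, hz⟩ := Bod_nonempty q
    rw [← h.choose_spec z hz]
    exact hw z i
  · simp

omit [WellFoundedLT I] [OrderBot I] in
theorem valX_ms {X : (I → Y) → Sl} {η : I} {g : (I → Y) → ℕ} (mg : ∀ k, MS η {z | g z = k})
    (e : ℕ → Cond I) (i : ℕ) (s : Finset (VV i)) : MS η {z | valX X i (e (g z)) = s} :=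
  MS.subst (R := fun _ k => valX X i (e k) = s) mg fun _ => MS.const _ _

/-- interpretation of two names `X`, `X1` over the base `η` (blueprint, Part 8) -/
theorem interp {η β : I} (h : η ≤ β) {p : Cond I} (hp : Low β p) {X X1 : (I → Y) → Sl}
    (hX : MSl β X) (hX1 : MSl β X1) {w : ℕ} (hw : Wd w X) (hw1 : Wd w X1) {u : Cond I}
    (hu : Low η u) (hup : Bod u ⊆ BodB p η) :
    ∃ u' ≤ u, Low η u' ∧ ∃ (s : ℕ → Cond I) (X' X1' : (I → Y) → Sl),
      (∀ j, Low β (s j) ∧ s j ≤ p ∧ Bod u' ⊆ BodB (s j) η) ∧ MSl η X' ∧ MSl η X1' ∧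
      Wd w X' ∧ Wd w X1' ∧ Itp s X X' ∧ Itp s X1 X1' := by
  classical
  -- the dense sets
  let DD : ℕ → Set (Cond I) := fun j => if j % 2 = 0 then DecX β X (j / 2) else DecX β X1 (j / 2)
  have DD0 : ∀ j, DD (2 * j) = DecX β X j := by
    intro j
    have h1 : 2 * j % 2 = 0 := by omega
    have h2 : 2 * j / 2 = j := by omega
    simp only [DD, h1, h2, if_true]
  have DD1 : ∀ j, DD (2 * j + 1) = DecX β X1 j := by
    intro j
    have h1 : ¬ (2 * j + 1) % 2 = 0 := by omega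
    have h2 : (2 * j + 1) / 2 = j := by omega
    simp only [DD, h1, h2, if_false]
  have hDn : ∀ j, Dn β (DD j) := by
    intro j
    by_cases h1 : j % 2 = 0
    · simp only [DD, h1, if_true]; exact DecX_dense hX _
    · simp only [DD, h1, if_false]; exact DecX_dense hX1 _
  obtain ⟨M, hA, hM, -, hηM, u', hu', hlu', hgen⟩ := gen_base hu (P := fun _ => True)
    ⟨fun _ => ∅, fun _ => Set.countable_empty, fun _ _ _ => trivial⟩
    (A := {.o β, .c p} ∪ Set.range (fun n => .d (DD n)))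
    (((Set.countable_singleton _).insert _).union (Set.countable_range _))
  have hβM : .o β ∈ M := hA (Or.inl (by simp))
  have hpM : .c p ∈ M := hA (Or.inl (by simp))
  have hDM : ∀ n, .d (DD n) ∈ M := fun n => hA (Or.inr ⟨n, rfl⟩)
  obtain ⟨e, he, he'⟩ := hM.enum
  obtain ⟨k0, hk0⟩ := he' p hpM
  obtain ⟨g, g0, mg, hg⟩ := dec_seq dec hM h hηM hβM he he' hgen (fun _ => 0)
    (fun _ => MS.const _ _) (fun _ j => DD j) (fun _ j => ⟨hDM j, hDn j⟩) (fun _ => k0)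
    (fun _ => MS.const _ _)
    (fun z hz => by
      rw [hk0]
      exact ⟨hp, hup (hu' hz)⟩)
  -- the sequence decreases
  have hle : ∀ z ∈ Bod u', ∀ i j, i ≤ j → e (g j z) ≤ e (g i z) := by
    intro z hz i j hij
    induction j, hij using Nat.le_induction with
    | base => exact le_rfl
    | succ j _ ih => exact ((hg z hz j).2.2.1).trans ih
  -- the guarded conditions
  let eg : ℕ → Cond I := fun k => if Low β (e k) then e k else one I
  have heg : ∀ k, Low β (eg k) := by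
    intro k
    by_cases hk : Low β (e k)
    · simp only [eg, hk, if_true]
    · simp only [eg, hk, if_false]; exact low_one _
  have heg' : ∀ z ∈ Bod u', ∀ j, eg (g j z) = e (g j z) := by
    intro z hz j
    simp only [eg, (hg z hz j).1, if_true]
  let s : ℕ → Cond I := fun j => mix u' η (g (2 * j)) (mg _) eg
  have hs : ∀ j, ∀ z ∈ Bod (s j), z ∈ Bod u' ∧ z ∈ Bod (e (g (2 * j) z)) := by
    intro j z hz
    have h1 : z ∈ Bod u' := by
      rw [Bod_of_low hlu']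
      have := Bod_sub_BodB _ η hz
      rwa [BodB_mix le_rfl] at this
    refine ⟨h1, ?_⟩
    have h2 := mem_BodB_of_mix (Bod_sub_BodB _ β hz)
      (by rw [heg' z h1]; exact (hg z h1 (2 * j)).2.1)
    rw [heg' z h1, ← Bod_of_low (hg z h1 (2 * j)).1] at h2
    exact h2
  refine ⟨u', hu', hlu', s, fun z i => valX X i (e (g (2 * i + 1) z)),
    fun z i => valX X1 i (e (g (2 * i + 2) z)), ?_, ?_, ?_, ?_, ?_, ?_, ?_⟩
  · intro j
    refine ⟨low_mix (hlu'.mono h) heg, ?_, ?_⟩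
    · intro z hz
      obtain ⟨h1, h2⟩ := hs j z hz
      have h3 := hle z h1 0 (2 * j) (Nat.zero_le _) h2
      rw [g0] at h3
      simpa [hk0] using h3
    · intro z hz
      rw [BodB_mix le_rfl, ← Bod_of_low hlu']
      exact hz
  · exact fun i s => valX_ms (mg _) e i s
  · exact fun i s => valX_ms (mg _) e i s
  · exact fun z i => card_valX hw i _
  · exact fun z i => card_valX hw1 i _
  · intro j z hz i hij
    obtain ⟨h1, h2⟩ := hs j z hz
    have h3 := (hg z h1 (2 * i)).2.2.2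
    rw [DD0] at h3
    exact valX_eq h3 (hle z h1 (2 * i + 1) (2 * j) (by omega) h2)
  · intro j z hz i hij
    obtain ⟨h1, h2⟩ := hs j z hz
    have h3 := (hg z h1 (2 * i + 1)).2.2.2
    rw [DD1] at h3
    exact valX_eq h3 (hle z h1 (2 * i + 2) (2 * j) (by omega) h2)

end Pool.Agent.DN
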