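import Pool.Agent.Lib.MP_d988c5_lc.Pres
import Pool.Agent.Lib.MP_d988c5_lc.Interp

/-!
# MP_d988c5_lc : the data of a step
-/

namespace Pool.Agent.DN

variable {I : Type} [LinearOrder I]

/-- `r` is below `t'` (up to `ζ`) and the sequence `s` below `t'` interprets `X`, `X1` as `Z`, `Z'` -/
private structure PInt (ζ β : I) (X X1 : (I → Y) → Sl) (w : ℕ) (t' r : Cond I)
    (s : ℕ → Cond I) (Z Z' : (I → Y) → Sl) : Prop where
  low : ∀ j, Low β (s j) ∧ s j ≤ t' ∧ Bod r ⊆ BodB (s j) ζ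
  m : MSl ζ Z ∧ MSl ζ Z' ∧ Wd w Z ∧ Wd w Z'
  it : Itp s X Z ∧ Itp s X1 Z'

/-- the dense set of the conditions over which `X`, `X1` are interpreted -/
private def PIntD (ζ β : I) (X X1 : (I → Y) → Sl) (w : ℕ) (t' : Cond I) : Set (Cond I) :=
  {r | Low ζ r ∧ ((¬ ∃ q, Low ζ q ∧ q ≤ r ∧ q ≤ res t' ζ) ∨
    (r ≤ res t' ζ ∧ ∃ s Z Z', PInt ζ β X X1 w t' r s Z Z'))}

private theorem PInt_choice (ζ β : I) (X X1 : (I → Y) → Sl) (w : ℕ) :
    ∃ (Fs : Cond I → Cond I → ℕ → Cond I) (FZ FZ' : Cond I → Cond I → (I → Y) → Sl),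
      ∀ t' r, (∀ j, Low β (Fs t' r j)) ∧ MSl ζ (FZ t' r) ∧ MSl ζ (FZ' t' r) ∧ Wd w (FZ t' r) ∧
        Wd w (FZ' t' r) ∧ ((∃ s Z Z', PInt ζ β X X1 w t' r s Z Z') →
          PInt ζ β X X1 w t' r (Fs t' r) (FZ t' r) (FZ' t' r)) := by
  have h : ∀ t' r : Cond I, ∃ (s : ℕ → Cond I) (Z Z' : (I → Y) → Sl), (∀ j, Low β (s j)) ∧
      MSl ζ Z ∧ MSl ζ Z' ∧ Wd w Z ∧ Wd w Z' ∧ ((∃ s Z Z', PInt ζ β X X1 w t' r s Z Z') →
          PInt ζ β X X1 w t' r s Z Z') := by
    intro t' r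
    by_cases hc : ∃ s Z Z', PInt ζ β X X1 w t' r s Z Z'
    · obtain ⟨s, Z, Z', h⟩ := hc
      exact ⟨s, Z, Z', fun j => (h.low j).1, h.m.1, h.m.2.1, h.m.2.2.1, h.m.2.2.2, fun _ => h⟩
    · refine ⟨fun _ => one I, fun _ _ => ∅, fun _ _ => ∅, fun _ => low_one _,
        fun n s => MS.const _ _, fun n s => MS.const _ _, fun z n => by simp, fun z n => by simp,
        fun h => absurd h hc⟩
  choose Fs FZ FZ' h using h
  exact ⟨Fs, FZ, FZ', h⟩

/-- union of the names `W k`, `k ≤ n` -/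
private noncomputable def unW (W : ℕ → (I → Y) → Sl) : (I → Y) → Sl :=
  fun z n => (Finset.range (n + 1)).biUnion fun k => W k z n

private theorem unW_ms {η : I} {W : ℕ → (I → Y) → Sl} (hW : ∀ k, MSl η (W k)) : MSl η (unW W) := by
  intro n s
  have : {z | unW W z n = s} = {z | ∀ v : VV n, (∃ k : ℕ, (k < n + 1) ∧ ∃ b : Finset (VV n),
      W k z n = b ∧ v ∈ b) ↔ v ∈ s} := by
    ext z
    simp only [unW, Set.mem_ofPred_eq, Finset.ext_iff, Finset.mem_biUnion, Finset.mem_range]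
    refine forall_congr' fun v => ?_
    constructor
    · rintro h
      rw [← h]
      constructor
      · rintro ⟨k, hk, b, hb, hv⟩
        exact ⟨k, hk, by
          have : W k z n = b := Finset.ext hb
          rw [this]; exact hv⟩
      · rintro ⟨k, hk, hv⟩
        exact ⟨k, hk, W k z n, fun _ => Iff.rfl, hv⟩
    · rintro h
      rw [← h]
      constructor
      · rintro ⟨k, hk, hv⟩
        exact ⟨k, hk, W k z n, fun _ => Iff.rfl, hv⟩
      · rintro ⟨k, hk, b, hb, hv⟩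
        exact ⟨k, hk, by
          have : W k z n = b := Finset.ext hb
          rw [this]; exact hv⟩
  rw [this]
  exact MS.all fun v => MS.iff (MS.ex fun k => (MS.const _ _).and (MS.ex fun b =>
    (hW k n b).and (MS.const _ _))) (MS.const _ _)

private theorem unW_wd {W : ℕ → (I → Y) → Sl} {w : ℕ} (hW : ∀ k, Wd w (W k)) :
    Wd (w + 1) (unW W) := by
  intro z n
  calc (unW W z n).card ≤ ∑ k ∈ Finset.range (n + 1), (W k z n).card := Finset.card_biUnion_le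
    _ ≤ ∑ k ∈ Finset.range (n + 1), NN n ^ w := Finset.sum_le_sum fun k _ => hW k z n
    _ = (n + 1) * NN n ^ w := by simp
    _ ≤ NN n * NN n ^ w := Nat.mul_le_mul_right _ (NN_ge n)
    _ = NN n ^ (w + 1) := by ring

private theorem unW_sub {W : ℕ → (I → Y) → Sl} {k n : ℕ} (h : k ≤ n) (z : I → Y) :
    W k z n ⊆ unW W z n :=
  Finset.subset_biUnion_of_mem (fun k => W k z n) (Finset.mem_range.2 (Nat.lt_succ_of_le h))

variable [WellFoundedLT I] [OrderBot I]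

private theorem PIntD_dense {ζ β : I} (h2 : ζ ≤ β) {X X1 : (I → Y) → Sl} (hX : MSl β X)
    (hX1 : MSl β X1) {w : ℕ} (hw : Wd w X) (hw1 : Wd w X1) {t' : Cond I} (ht' : Low β t') :
    Dn ζ (PIntD ζ β X X1 w t') := by
  refine ⟨fun q hq => hq.1, ?_, ?_⟩
  · rintro q ⟨a1, a2⟩ q' hq' hle
    refine ⟨hq', ?_⟩
    rcases a2 with a2 | ⟨a2, s, Z, Z', a3⟩
    · exact Or.inl fun ⟨q2, b1, b2, b3⟩ => a2 ⟨q2, b1, b2.trans hle, b3⟩
    · exact Or.inr ⟨hle.trans a2, s, Z, Z',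
        ⟨fun j => ⟨(a3.low j).1, (a3.low j).2.1, Set.Subset.trans hle (a3.low j).2.2⟩, a3.m, a3.it⟩⟩
  · intro q hq
    by_cases hc : ∃ q1, Low ζ q1 ∧ q1 ≤ q ∧ q1 ≤ res t' ζ
    · obtain ⟨q1, b1, b2, b3⟩ := hc
      have b3' : Bod q1 ⊆ BodB t' ζ := by
        rw [le_iff, Bod_res] at b3; exact b3
      obtain ⟨u', c1, c2, s, Z, Z', c3, c4, c5, c6, c7, c8, c9⟩ :=
        interp h2 ht' hX hX1 hw hw1 b1 b3'
      exact ⟨u', c1.trans b2, c2, Or.inr ⟨c1.trans b3, s, Z, Z', ⟨c3, ⟨c4, c5, c6, c7⟩, ⟨c8, c9⟩⟩⟩⟩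
    · exact ⟨q, le_rfl, hq, Or.inl hc⟩

omit [OrderBot I] in
theorem AllB_ms (η : I) (t : ℕ → Cond I) : MS η (AllB η t) := MS.all fun k => BodB_ms (t k) η

/-- the data of a step exist below every condition (blueprint, Part 8) -/
theorem dc {η ζ β : I} (h1 : η ≤ ζ) (h2 : ζ ≤ β) {t : ℕ → Cond I} (ht : ∀ k, Low β (t k))
    {X Y0 X1 : (I → Y) → Sl} (hX : MSl β X) (hX1 : MSl β X1) (hY : MSl η Y0) {w : ℕ}
    (hw : Wd w X) (hw1 : Wd w X1) (hi : Itp t X Y0) {D : Set (Cond I)} (hD : Dn β D)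
    {u : Cond I} (hu : Low η u) (hut : Bod u ⊆ AllB η t) :
    ∃ u' ≤ u, Low η u' ∧ ∃ tt rr Z Z' W W' DW,
      DCP η ζ β t X Y0 X1 D w u' tt rr Z Z' W W' DW := by
  classical
  obtain ⟨Fs, FZ, FZ', hF⟩ := PInt_choice ζ β X X1 w
  -- the closed set
  have hcl : Cl (fun M : Set (Ob I) => (∀ t', .c t' ∈ M → .d (PIntD ζ β X X1 w t') ∈ M) ∧
      (∀ t' r, .c t' ∈ M → .c r ∈ M → ∀ j, .d (DecX ζ (FZ t' r) j) ∈ M ∧
        .d (DecX ζ (FZ' t' r) j) ∈ M)) := by
    refine Cl.and ?_ ?_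
    · exact (cl_fun (fun l : List (Ob I) => match l with
        | [.c t'] => .d (PIntD ζ β X X1 w t')
        | _ => .c (one I))).mono fun _ h t' ht' => h [.c t'] (by simp [ht'])
    · refine (cl_op (fun l : List (Ob I) => match l with
        | [.c t', .c r] => Set.range (fun j => .d (DecX ζ (FZ t' r) j)) ∪
            Set.range (fun j => .d (DecX ζ (FZ' t' r) j))
        | _ => ∅) fun l => ?_).mono fun M h t' r ht' hr j =>
          ⟨h [.c t', .c r] (by simp [ht', hr]) (Or.inl ⟨j, rfl⟩),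
            h [.c t', .c r] (by simp [ht', hr]) (Or.inr ⟨j, rfl⟩)⟩
      split
      · exact (Set.countable_range _).union (Set.countable_range _)
      · exact Set.countable_empty
  obtain ⟨M, hA, hM, ⟨hM1, hM2⟩, hηM, u', hu', hlu', hgen⟩ := gen_base hu hcl
    (A := {.o ζ, .o β, .d D} ∪ Set.range (fun n => .c (t n)))
    (((Set.countable_singleton _).insert _ |>.insert _).union (Set.countable_range _))
  have hζM : .o ζ ∈ M := hA (Or.inl (by simp))
  have hβM : .o β ∈ M := hA (Or.inl (by simp))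
  have hDM : .d D ∈ M := hA (Or.inl (by simp))
  have htM : ∀ n, .c (t n) ∈ M := fun n => hA (Or.inr ⟨n, rfl⟩)
  obtain ⟨e, he, he'⟩ := hM.enum
  -- the first choice: `t'` and `r`
  let RR : ℕ → Cond I → Cond I → Prop := fun k t' r => t' ∈ D ∧ t' ≤ t k ∧ Low β t' ∧ Low ζ r ∧
    r ≤ res t' ζ ∧ ∃ s Z Z', PInt ζ β X X1 w t' r s Z Z'
  have hsel : ∀ k, ∃ g : (I → Y) → ℕ, (∀ s, MS η {z | g z = s}) ∧ ∀ z ∈ Bod u',
      RR k (e (g z).unpair.1) (e (g z).unpair.2) ∧ z ∈ BodB (e (g z).unpair.1) η ∧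
        z ∈ BodB (e (g z).unpair.2) η := by
    intro k
    refine exists_sel (S := ℕ) (α := η) (E := Bod u') (fun z n =>
      RR k (e n.unpair.1) (e n.unpair.2) ∧ z ∈ BodB (e n.unpair.1) η ∧ z ∈ BodB (e n.unpair.2) η)
      (fun n => (MS.const _ _).and ((BodB_ms _ _).and (BodB_ms _ _))) ?_
    intro z hz
    obtain ⟨t', a1, a2, a3, a4, a5⟩ := step hM (h1.trans h2) (dec η) hβM hηM (htM k) (ht k)
      hDM hD (hut (hu' hz) k) (hgen z hz)
    obtain ⟨r, b1, b2, b3, b4, b5⟩ := step hM h1 (dec η) hζM hηM (hM.res _ _ a1 hζM)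
      (low_res t' ζ) (hM1 t' a1) (PIntD_dense h2 hX hX1 hw hw1 a2)
      (by rw [BodB_res _ h1]; exact a4) (hgen z hz)
    obtain ⟨_, b6⟩ := b5
    obtain ⟨m, rfl⟩ := he' _ a1
    obtain ⟨n, rfl⟩ := he' _ b1
    have b7 : ∃ s Z Z', PInt ζ β X X1 w (e m) (e n) s Z Z' := by
      rcases b6 with b6 | b6
      · exact absurd ⟨e n, b2, le_rfl, b3⟩ b6
      · exact b6.2
    exact ⟨Nat.pair m n, by simpa using ⟨⟨a5, a3, a2, b2, b3, b7⟩, a4, b4⟩⟩
  choose gk mgk hgk using hsel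
  -- the data belonging to an index
  let sI : ℕ → ℕ → Cond I := fun n j => Fs (e n.unpair.1) (e n.unpair.2) j
  let ZI : ℕ → (I → Y) → Sl := fun n => FZ (e n.unpair.1) (e n.unpair.2)
  let ZI' : ℕ → (I → Y) → Sl := fun n => FZ' (e n.unpair.1) (e n.unpair.2)
  have hsI : ∀ n j, Low β (sI n j) := fun n j => (hF _ _).1 j
  have hZI : ∀ n, MSl ζ (ZI n) := fun n => (hF _ _).2.1
  have hZI' : ∀ n, MSl ζ (ZI' n) := fun n => (hF _ _).2.2.1
  have hwZI : ∀ n, Wd w (ZI n) := fun n => (hF _ _).2.2.2.1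
  have hwZI' : ∀ n, Wd w (ZI' n) := fun n => (hF _ _).2.2.2.2.1
  have hPI : ∀ k, ∀ z ∈ Bod u', PInt ζ β X X1 w (e (gk k z).unpair.1) (e (gk k z).unpair.2)
      (sI (gk k z)) (ZI (gk k z)) (ZI' (gk k z)) := fun k z hz =>
    (hF _ _).2.2.2.2.2 (hgk k z hz).1.2.2.2.2.2
  -- the dense sets
  let DD : ℕ → ℕ → Set (Cond I) := fun n j =>
    if j % 2 = 0 then DecX ζ (ZI n) (j / 2) else DecX ζ (ZI' n) (j / 2)
  have DD0 : ∀ n j, DD n (2 * j) = DecX ζ (ZI n) j := by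
    intro n j
    have h1 : 2 * j % 2 = 0 := by omega
    have h2 : 2 * j / 2 = j := by omega
    simp only [DD, h1, h2, if_true]
  have DD1 : ∀ n j, DD n (2 * j + 1) = DecX ζ (ZI' n) j := by
    intro n j
    have h1 : ¬ (2 * j + 1) % 2 = 0 := by omega
    have h2 : (2 * j + 1) / 2 = j := by omega
    simp only [DD, h1, h2, if_false]
  have hDD : ∀ n j, .d (DD n j) ∈ M ∧ Dn ζ (DD n j) := by
    intro n j
    by_cases hj : j % 2 = 0
    · simp only [DD, hj, if_true]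
      exact ⟨(hM2 _ _ (he _) (he _) _).1, DecX_dense (hZI n) _⟩
    · simp only [DD, hj, if_false]
      exact ⟨(hM2 _ _ (he _) (he _) _).2, DecX_dense (hZI' n) _⟩
  -- the decreasing sequences
  have hseq := fun k => dec_seq dec hM h1 hηM hζM he he' hgen (gk k) (mgk k) DD hDD
    (fun z => (gk k z).unpair.2)
    (fun m => MS.subst (R := fun _ n => n.unpair.2 = m) (mgk k) fun _ => MS.const _ _)
    (fun z hz => ⟨(hgk k z hz).1.2.2.2.1, (hgk k z hz).2.2⟩)
  choose g g0 mg hg using hseq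
  have hle : ∀ k, ∀ z ∈ Bod u', ∀ i j, i ≤ j → e (g k j z) ≤ e (g k i z) := by
    intro k z hz i j hij
    induction j, hij using Nat.le_induction with
    | base => exact le_rfl
    | succ j _ ih => exact ((hg k z hz j).2.2.1).trans ih
  have hle0 : ∀ k, ∀ z ∈ Bod u', ∀ j, e (g k j z) ≤ e (gk k z).unpair.2 := by
    intro k z hz j
    have := hle k z hz 0 j (Nat.zero_le _)
    rw [g0 k] at this
    exact this
  -- the guarded conditions
  let eg : ℕ → Cond I := fun k => if Low ζ (e k) then e k else one I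
  have heg : ∀ k, Low ζ (eg k) := by
    intro k
    by_cases hk : Low ζ (e k)
    · simp only [eg, hk, if_true]
    · simp only [eg, hk, if_false]; exact low_one _
  have heg' : ∀ k, ∀ z ∈ Bod u', ∀ j, eg (g k j z) = e (g k j z) := by
    intro k z hz j
    simp only [eg, (hg k z hz j).1, if_true]
  let tt : ℕ → ℕ → Cond I := fun k j => mix u' η (gk k) (mgk k) (fun n => sI n j)
  let rr : ℕ → ℕ → Cond I := fun k j => mix u' η (g k (2 * j)) (mg k _) eg
  -- the points of the mixtures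
  have hu'B : ∀ (v : Cond I), BodB v η = BodB u' η → ∀ z ∈ Bod v, z ∈ Bod u' := by
    intro v hv z hz
    rw [Bod_of_low hlu', ← hv]
    exact Bod_sub_BodB _ η hz
  have hsη : ∀ k, ∀ z ∈ Bod u', ∀ j, z ∈ BodB (sI (gk k z) j) η := by
    intro k z hz j
    obtain ⟨z', hz', hzz'⟩ := exists_ext (e (gk k z).unpair.2) η (hgk k z hz).2.2
    have h3 := BodB_mono_right h1 (((hPI k z hz).low j).2.2 hz')
    exact (BodB_dep hzz').1 h3
  have htt : ∀ k j, ∀ z ∈ Bod (tt k j), z ∈ Bod u' ∧ z ∈ Bod (sI (gk k z) j) := by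
    intro k j z hz
    have h3 : z ∈ Bod u' := hu'B _ (BodB_mix le_rfl) z hz
    refine ⟨h3, ?_⟩
    have h4 := mem_BodB_of_mix (Bod_sub_BodB _ β hz) (hsη k z h3 j)
    rwa [← Bod_of_low (hsI _ j)] at h4
  have hrr : ∀ k j, ∀ z ∈ Bod (rr k j), z ∈ Bod u' ∧ z ∈ Bod (e (g k (2 * j) z)) := by
    intro k j z hz
    have h3 : z ∈ Bod u' := hu'B _ (BodB_mix le_rfl) z hz
    refine ⟨h3, ?_⟩
    have h4 := mem_BodB_of_mix (Bod_sub_BodB _ ζ hz)
      (by rw [heg' k z h3]; exact (hg k z h3 (2 * j)).2.1)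
    rw [heg' k z h3, ← Bod_of_low (hg k z h3 (2 * j)).1] at h4
    exact h4
  let Z : ℕ → (I → Y) → Sl := fun k z => ZI (gk k z) z
  let Z' : ℕ → (I → Y) → Sl := fun k z => ZI' (gk k z) z
  have mZ : ∀ k, MSl ζ (Z k) := fun k n s => MS.subst (R := fun z i => ZI i z n = s)
    (fun i => (mgk k i).mono h1) fun i => hZI i n s
  have mZ' : ∀ k, MSl ζ (Z' k) := fun k n s => MS.subst (R := fun z i => ZI' i z n = s)
    (fun i => (mgk k i).mono h1) fun i => hZI' i n s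
  -- the values
  let W : ℕ → (I → Y) → Sl := fun k z i => valX (ZI (gk k z)) i (e (g k (2 * i + 1) z))
  let W' : ℕ → (I → Y) → Sl := fun k z i => valX (ZI' (gk k z)) i (e (g k (2 * i + 2) z))
  have mW : ∀ k, MSl η (W k) := fun k i s => MS.subst (R := fun z n =>
    valX (ZI n) i (e (g k (2 * i + 1) z)) = s) (mgk k) fun n => valX_ms (mg k _) e i s
  have mW' : ∀ k, MSl η (W' k) := fun k i s => MS.subst (R := fun z n =>
    valX (ZI' n) i (e (g k (2 * i + 2) z)) = s) (mgk k) fun n => valX_ms (mg k _) e i s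
  have wW : ∀ k, Wd w (W k) := fun k z i => card_valX (hwZI _) i _
  have wW' : ∀ k, Wd w (W' k) := fun k z i => card_valX (hwZI' _) i _
  -- values on the conditions of the sequence
  have vW : ∀ k, ∀ z ∈ Bod u', ∀ i, ∀ z' ∈ Bod (e (g k (2 * i + 1) z)),
      ZI (gk k z) z' i = W k z i := by
    intro k z hz i z' hz'
    have h3 := (hg k z hz (2 * i)).2.2.2
    rw [DD0] at h3
    exact valX_eq h3 hz'
  have vW' : ∀ k, ∀ z ∈ Bod u', ∀ i, ∀ z' ∈ Bod (e (g k (2 * i + 2) z)),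
      ZI' (gk k z) z' i = W' k z i := by
    intro k z hz i z' hz'
    have h3 := (hg k z hz (2 * i + 1)).2.2.2
    rw [DD1] at h3
    exact valX_eq h3 hz'
  have hMD : {q : Cond I | .c q ∈ M ∧ q ∈ D}.Countable := by
    have : {q : Cond I | .c q ∈ M}.Countable := by
      refine hM.cnt.preimage_of_injOn ?_
      intro p _ q _ h
      simpa using h
    exact this.mono fun _ h => h.1
  refine ⟨u', hu', hlu', tt, rr, Z, Z', W, W', unW W, ?_⟩
  refine
    { tlow := ?_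
      rlow := ?_
      rt := ?_
      mZ := fun k => ⟨mZ k, mZ' k, fun z n => hwZI _ z n, fun z n => hwZI' _ z n⟩
      mW := fun k => ⟨mW k, mW' k, wW k, wW' k⟩
      itZ := ?_
      itW := ?_
      eqW := ?_
      mD := ⟨unW_ms mW, unW_wd wW, fun k z n h => unW_sub h z⟩ }
  · intro k j
    refine ⟨low_mix (hlu'.mono (h1.trans h2)) fun n => hsI n j, ?_, ?_⟩
    · intro z hz
      obtain ⟨a1, a2⟩ := htt k j z hz
      exact (hgk k z a1).1.2.1 (((hPI k z a1).low j).2.1 a2)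
    · refine ⟨{q | .c q ∈ M ∧ q ∈ D}, hMD, fun q h => h.2, ?_⟩
      intro z hz
      obtain ⟨a1, a2⟩ := htt k j z hz
      exact ⟨e (gk k z).unpair.1, ⟨he _, (hgk k z a1).1.1⟩, ((hPI k z a1).low j).2.1 a2⟩
  · intro k j
    refine ⟨low_mix (hlu'.mono h1) heg, ?_⟩
    intro z hz
    rw [BodB_mix le_rfl, ← Bod_of_low hlu']
    exact hz
  · intro k j j'
    rw [le_iff, Bod_res]
    intro z hz ξ hξ n
    obtain ⟨a1, a2⟩ := hrr k j z hz
    by_cases hξη : ξ < η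
    · have := a1 ξ n
      simpa only [tt, mix_C_lt hξη] using this
    · have h3 := ((hPI k z a1).low j').2.2 (hle0 k z a1 (2 * j) a2) ξ hξ n
      simpa only [tt, mix_C_ge (not_lt.1 hξη)] using h3
  · intro k
    constructor
    · intro j z hz i hij
      obtain ⟨a1, a2⟩ := htt k j z hz
      exact (hPI k z a1).it.1 j z a2 i hij
    · intro j z hz i hij
      obtain ⟨a1, a2⟩ := htt k j z hz
      exact (hPI k z a1).it.2 j z a2 i hij
  · intro k
    constructor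
    · intro j z hz i hij
      obtain ⟨a1, a2⟩ := hrr k j z hz
      exact vW k z a1 i z (hle k z a1 (2 * i + 1) (2 * j) (by omega) a2)
    · intro j z hz i hij
      obtain ⟨a1, a2⟩ := hrr k j z hz
      exact vW' k z a1 i z (hle k z a1 (2 * i + 2) (2 * j) (by omega) a2)
  · intro k z hz i hik
    -- extend `z` into the condition deciding the value
    obtain ⟨z2, b1, b2⟩ := exists_ext (e (g k (2 * i + 1) z)) η (hg k z hz (2 * i + 1)).2.1
    have b3 := ((hPI k z hz).low (i + 1)).2.2 (hle0 k z hz _ b1)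
    obtain ⟨z3, c1, c2⟩ := exists_ext (sI (gk k z) (i + 1)) ζ b3
    have d1 : ZI (gk k z) z2 i = W k z i := vW k z hz i z2 b1
    have d2 : ZI (gk k z) z3 i = ZI (gk k z) z2 i := by
      have := (hZI (gk k z) i (ZI (gk k z) z2 i)).dep (z := z3) (z' := z2) c2
      exact this.2 rfl
    have d3 : X z3 i = ZI (gk k z) z3 i := (hPI k z hz).it.1 (i + 1) z3 c1 i (Nat.lt_succ_self i)
    have d4 : X z3 i = Y0 z3 i :=
      hi k z3 ((hgk k z hz).1.2.1 (((hPI k z hz).low (i + 1)).2.1 c1)) i hik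
    have d5 : Y0 z3 i = Y0 z i := by
      have := (hY i (Y0 z i)).dep (z := z3) (z' := z) (fun ξ hξ => by
        rw [c2 ξ (hξ.trans_le h1), b2 ξ hξ])
      exact this.2 rfl
    rw [← d1, ← d2, ← d3, d4, d5]

theorem dcd_dense {η ζ β : I} (h1 : η ≤ ζ) (h2 : ζ ≤ β) {t : ℕ → Cond I} (ht : ∀ k, Low β (t k))
    {X Y0 X1 : (I → Y) → Sl} (hX : MSl β X) (hX1 : MSl β X1) (hY : MSl η Y0) {w : ℕ}
    (hw : Wd w X) (hw1 : Wd w X1) (hi : Itp t X Y0) {D : Set (Cond I)} (hD : Dn β D) :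
    Dn η (DCD η ζ β t X Y0 X1 D w) := by
  refine ⟨fun q hq => hq.1, ?_, ?_⟩
  · rintro q ⟨a1, a2⟩ q' hq' hle
    refine ⟨hq', ?_⟩
    rcases a2 with a2 | ⟨tt, rr, Z, Z', W, W', DW, a3⟩
    · exact Or.inl (a2.mono_left hle)
    · exact Or.inr ⟨tt, rr, Z, Z', W, W', DW,
        { tlow := a3.tlow
          rlow := fun k j => ⟨(a3.rlow k j).1, Set.Subset.trans hle (a3.rlow k j).2⟩
          rt := a3.rt
          mZ := a3.mZ
          mW := a3.mW
          itZ := a3.itZ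
          itW := a3.itW
          eqW := fun k z hz => a3.eqW k z (hle hz)
          mD := a3.mD }⟩
  · intro q hq
    obtain ⟨q1, b1, b2, b3⟩ := dec η (AllB η t) (AllB_ms η t) q hq
    rcases b3 with b3 | b3
    · obtain ⟨u', c1, c2, tt, rr, Z, Z', W, W', DW, c3⟩ :=
        dc h1 h2 ht hX hX1 hY hw hw1 hi hD b1 b3
      exact ⟨u', c1.trans b2, c2, Or.inr ⟨tt, rr, Z, Z', W, W', DW, c3⟩⟩
    · exact ⟨q1, b2, b1, Or.inl b3⟩

end Pool.Agent.DN
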