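import Pool.Agent.Lib.MP_d988c5_lc.Pres

/-!
# MP_d988c5_lc : the data of the step at one coordinate
-/

namespace Pool.Agent.DN

variable {I : Type} [LinearOrder I] [WellFoundedLT I] [OrderBot I]

omit [WellFoundedLT I] [OrderBot I] in
private theorem cl_decx : Cl (fun M : Set (Ob I) => ∀ β X n, .o β ∈ M → .x X ∈ M →
    .d (DecX β X n) ∈ M) :=
  (Cl.all (ι := ℕ) fun n => cl_fun (fun l : List (Ob I) => match l with
    | [.o β, .x X] => .d (DecX β X n)
    | _ => .c (one I))).mono fun _ h β X n hβ hX => h n [.o β, .x X] (by simp [hβ, hX])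

/-- in a positive tree there is a node off a given branch with big sets of children above it -/
private theorem exists_off {T : Set Node} (hT : Pos T) (y : Y) :
    ∃ σ, σ ∈ T ∧ (∀ m, nd y m ≠ σ) ∧ lev 2 T σ := by
  obtain ⟨τ, h1, -, h2⟩ := hT.exists_lev hT.nil 2
  have h3 : bgn 2 τ (suc T τ) := h2 τ h1 List.suffix_rfl
  -- a child different from the digit of the branch
  obtain ⟨c, hc, hne⟩ : ∃ c ∈ suc T τ, c ≠ y τ.length % (dat (ix τ)).kap := by
    by_contra hcon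
    push Not at hcon
    have h4 : suc T τ ⊆ {y τ.length % (dat (ix τ)).kap} := fun c hc => hcon c hc
    exact bg.not_singleton (bg.mono h3 h4)
  refine ⟨c :: τ, hc, fun m hm => ?_, h2.mono_node (List.suffix_cons _ _)⟩
  have hl : m = τ.length + 1 := by
    have := congrArg List.length hm
    simpa using this
  subst hl
  rw [nd_succ] at hm
  have h5 := List.cons.inj hm
  rw [h5.2] at h5
  exact hne h5.1.symm

omit [WellFoundedLT I] [OrderBot I] in
private theorem AllB_ms {η : I} (t : ℕ → Cond I) : MS η (AllB η t) :=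
  MS.all fun k => BodB_ms (t k) η

/-- covering a name by a name of the coordinates below the last one (blueprint, Part 7) -/
theorem dc2 {a ζ β : I} (ha : a < ζ) (hβ : ζ ⋖ β) {t : ℕ → Cond I} (ht : ∀ k, Low β (t k))
    {X : (I → Y) → Sl} (hX : MSl β X) {w : ℕ} (hw : Wd w X) {u : Cond I} (hu : Low ζ u)
    (hut : Bod u ⊆ AllB ζ t) :
    ∃ u' ≤ u, Low ζ u' ∧ ∃ q X', DC2P a ζ β t X w u' q X' := by
  classical
  obtain ⟨M, hAM, -, hM, hdx⟩ := (cl_suit.and cl_decx).exists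
    ({.c u, .x X, .o ζ, .o β, .o ⊥} ∪ Set.range fun k => (.c (t k) : Ob I))
    (((Set.toFinite _).countable).union (Set.countable_range _))
  have huM : .c u ∈ M := hAM (by simp)
  have hXM : .x X ∈ M := hAM (by simp)
  have hζM : .o ζ ∈ M := hAM (by simp)
  have hβM : .o β ∈ M := hAM (by simp)
  have hbM : .o (⊥ : I) ∈ M := hAM (by simp)
  have htM : ∀ k, .c (t k) ∈ M := fun k => hAM (Or.inr ⟨k, rfl⟩)
  -- a condition below `u` all of whose points are generic
  obtain ⟨c, hc⟩ := kl hM hζM ⊥ bot_le hbM Set.univ (MS.univ _) (fun _ => u)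
    (fun r => by simpa using MS.const _ _)
    (fun z _ => ⟨huM, hu, fun ξ hξ => absurd hξ (not_lt_bot), Gen_bot hM z⟩)
  set u' := res c ζ with hu'
  have hseg : ∀ z ∈ Bod u', z ∈ Bod u ∧ Gen M ζ z := by
    intro z hz
    rw [hu', Bod_res] at hz
    have h1 := hc z (Set.mem_univ z) (fun ξ _ hξ n => hz ξ hξ n)
    exact ⟨h1.1, h1.2.1⟩
  have hlow : Low ζ u' := low_res c ζ
  have hE : MS ζ (Bod u') := Bod_ms hlow
  -- the nodes off the branch
  have hsel : ∀ k, ∃ g : (I → Y) → Node, (∀ s, MS ζ {z | g z = s}) ∧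
      ∀ z ∈ (Set.univ : Set (I → Y)), g z ∈ (t k).C ζ z ∧ (∀ m, nd (z a) m ≠ g z) ∧
        lev 2 ((t k).C ζ z) (g z) := by
    intro k
    refine exists_sel (S := Node) (fun z σ => σ ∈ (t k).C ζ z ∧ (∀ m, nd (z a) m ≠ σ) ∧
      lev 2 ((t k).C ζ z) σ) (fun σ => ?_) (fun z _ => exists_off ((t k).pos ζ z) (z a))
    exact ((t k).meas ζ σ).and ((MS.all fun m => (MS.nd ha m σ).not).and
      (MS.lev (fun τ => (t k).meas ζ τ) 2 σ))
  choose σ0 mσ hσ using hsel
  -- rapid reading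
  have hrap := fun k => rapid hM hβ hβM hE (fun z hz => (hseg z hz).2)
    (p := fun _ => t k) (fun r => hE.and (MS.const _ _))
    (fun z hz => ⟨htM k, ht k, hut (hseg z hz).1 k⟩) (mσ k)
    (fun z _ => ⟨(hσ k z (Set.mem_univ z)).1, (hσ k z (Set.mem_univ z)).2.2⟩) hX
    (fun n => hdx β X n hβM hXM)
  choose T mT pT X' mX' hT using hrap
  -- the good states
  let Gs : (I → Y) → ℕ → ℕ → Node → Prop := fun z k n τ =>
    τ ∈ T k z ∧ IsSt (n + 1) τ ∧ (τ <:+ σ0 k z ∨ ∀ c ρ, τ = c :: ρ → ix ρ ≠ n)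
  let P : (I → Y) → (n : ℕ) → VV n → Prop := fun z n v =>
    z ∈ Bod u' ∧ ∃ k τ, k ≤ n ∧ Gs z k n τ ∧ v ∈ X' k z τ n
  let Xn : (I → Y) → Sl := fun z n => Finset.univ.filter fun v => P z n v
  have mGs : ∀ k n τ, MS ζ {z | Gs z k n τ} := fun k n τ =>
    (mT k τ).and ((MS.const _ _).and
      ((MS.subst (R := fun _ σ => τ <:+ σ) (mσ k) fun σ => MS.const _ _).or (MS.const _ _)))
  have mP : ∀ n v, MS ζ {z | P z n v} := fun n v =>
    hE.and (MS.ex fun k => MS.ex fun τ => (MS.const _ _).and ((mGs k n τ).and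
      (MS.subst (R := fun _ (s : Finset (VV n)) => v ∈ s) (g := fun z => X' k z τ n)
        (mX' k τ n) fun s => MS.const _ _)))
  have mXn : MSl ζ Xn := by
    intro n s
    have h1 : {z | Xn z n = s} = {z | ∀ v, P z n v ↔ v ∈ s} := by
      ext z
      simp [Xn, Finset.ext_iff]
    rw [h1]
    exact MS.all fun v => (mP n v).iff (MS.const _ _)
  -- the width of the read entries
  have hwX : ∀ z ∈ Bod u', ∀ k n τ, τ ∈ T k z → IsSt (n + 1) τ →
      (X' k z τ n).card ≤ NN n ^ w := by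
    intro z hz k n τ hτ hst
    obtain ⟨y, hy1, hy2⟩ := (pT k z).branch' hτ
    let z' : I → Y := fun ξ => if ξ = ζ then y else z ξ
    have h1 : ∀ ξ < ζ, z' ξ = z ξ := fun ξ hξ => by simp [z', hξ.ne]
    have h2 : z' ζ = y := by simp [z']
    have h3 := ((hT k z hz).2.2.2 z' h1 (fun n => by rw [h2]; exact hy1 n)).2.2 n τ.length
      (by rw [h2, hy2]; exact hst)
    rw [h2, hy2] at h3
    rw [← h3]
    exact hw z' n
  have hWd : Wd (w + 2) Xn := by
    intro z n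
    by_cases hz : z ∈ Bod u'
    swap
    · have : Xn z n = ∅ := by
        simp [Xn, P, hz]
      rw [this]
      simp
    have hex : ∀ v : VV n, ∃ k τ, v ∈ Xn z n → k ≤ n ∧ Gs z k n τ ∧ v ∈ X' k z τ n := by
      intro v
      by_cases hv : v ∈ Xn z n
      · obtain ⟨k, τ, h⟩ := (Finset.mem_filter.1 hv).2.2
        exact ⟨k, τ, fun _ => h⟩
      · exact ⟨0, [], fun h => absurd h hv⟩
    choose kk tt hkt using hex
    let S : ℕ → Finset Node := fun k => ((Xn z n).filter fun v => kk v = k).image tt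
    have hSub : Xn z n ⊆ (Finset.range (n + 1)).biUnion fun k => (S k).biUnion fun τ =>
        X' k z τ n := by
      intro v hv
      have h1 := hkt v hv
      refine Finset.mem_biUnion.2 ⟨kk v, Finset.mem_range.2 (by omega),
        Finset.mem_biUnion.2 ⟨tt v, ?_, h1.2.2⟩⟩
      exact Finset.mem_image.2 ⟨v, Finset.mem_filter.2 ⟨hv, rfl⟩, rfl⟩
    have hS : ∀ k, ∀ τ ∈ S k, Gs z k n τ := by
      intro k τ hτ
      obtain ⟨v, hv, rfl⟩ := Finset.mem_image.1 hτ
      obtain ⟨hv1, rfl⟩ := Finset.mem_filter.1 hv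
      exact (hkt v hv1).2.1
    have hScard : ∀ k, (S k).card ≤ NN n := fun k =>
      card_states (pT k z) (σ0 k z) (hT k z hz).2.2.1 n (S k) fun τ hτ => hS k τ hτ
    have h2 : ∀ k ∈ Finset.range (n + 1), ((S k).biUnion fun τ => X' k z τ n).card ≤
        NN n * NN n ^ w := by
      intro k _
      refine Finset.card_biUnion_le.trans ?_
      refine (Finset.sum_le_card_nsmul _ _ (NN n ^ w) fun τ hτ => ?_).trans ?_
      · exact hwX z hz k n τ (hS k τ hτ).1 (hS k τ hτ).2.1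
      · rw [smul_eq_mul]
        exact Nat.mul_le_mul_right _ (hScard k)
    calc (Xn z n).card ≤ _ := Finset.card_le_card hSub
      _ ≤ ∑ k ∈ Finset.range (n + 1), ((S k).biUnion fun τ => X' k z τ n).card :=
        Finset.card_biUnion_le
      _ ≤ (Finset.range (n + 1)).card • (NN n * NN n ^ w) := Finset.sum_le_card_nsmul _ _ _ h2
      _ = (n + 1) * (NN n * NN n ^ w) := by simp
      _ ≤ NN n * (NN n * NN n ^ w) := Nat.mul_le_mul_right _ (NN_ge n)
      _ = NN n ^ (w + 2) := by ring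
  -- the conditions
  let q : ℕ → Cond I := fun k => setC (glue u' (t k) ζ) ζ (T k) (mT k) (pT k)
  have hqB : ∀ k, BodB (q k) ζ = Bod u' := by
    intro k
    rw [Bod_of_low hlow, ← BodB_glue u' (t k) ζ]
    ext z
    simp only [mem_BodB]
    refine forall_congr' fun ξ => forall_congr' fun hξ => forall_congr' fun m => ?_
    rw [show (q k).C ξ z = (glue u' (t k) ζ).C ξ z from setC_ne _ hξ.ne _ _ _ _]
  have hqT : ∀ k, ∀ z ∈ Bod (q k), z ∈ Bod u' ∧ ∀ n, nd (z ζ) n ∈ T k z := by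
    intro k z hz
    refine ⟨?_, fun n => ?_⟩
    · rw [← hqB k]; exact Bod_sub_BodB _ _ hz
    · have h1 := hz ζ n
      rwa [show (q k).C ζ z = T k z from setC_eq _ _ _ _ _ _] at h1
  refine ⟨u', fun z hz => (hseg z hz).1, hlow, q, Xn, ?_, ⟨mXn, hWd⟩, ?_⟩
  · intro k
    refine ⟨?_, ?_, ?_⟩
    · intro ξ hξ z
      have h1 : ξ ≠ ζ := (lt_of_lt_of_le hβ.lt hξ).ne'
      show (setC (glue u' (t k) ζ) ζ (T k) (mT k) (pT k)).C ξ z = Ful
      rw [setC_ne _ h1, glue_C_ge _ _ (hβ.lt.le.trans hξ)]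
      exact ht k ξ hξ z
    · intro z hz
      obtain ⟨h1, h2⟩ := hqT k z hz
      exact ((hT k z h1).2.2.2 z (fun _ _ => rfl) h2).1
    · rw [hqB k]
  · intro k z hz n hn hkn v hv
    obtain ⟨h1, h2⟩ := hqT k z hz
    obtain ⟨m, hst⟩ := exists_isSt (z ζ) (n + 1)
    have h3 := (hT k z h1).2.2.2 z (fun _ _ => rfl) h2
    have h4 := h3.2.2 n m hst
    refine Finset.mem_filter.2 ⟨Finset.mem_univ _, h1, k, nd (z ζ) m, hkn,
      ⟨h2 m, hst, ?_⟩, by rw [← h4]; exact hv⟩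
    by_contra hcon
    push Not at hcon
    obtain ⟨h5, c, ρ, h6, h7⟩ := hcon
    obtain ⟨m', hm'⟩ := hn
    have h8 : ρ = nd (z a) m' := ix_inj (h7.trans hm')
    rcases (hT k z h1).2.2.1 _ (h2 m) with h9 | h9
    · exact h5 h9
    · rw [h6] at h9
      rcases suffix_cons_iff'.1 h9 with h10 | h10
      · exact h5 (by rw [h6, ← h10])
      · rw [h8] at h10
        exact (hσ k z (Set.mem_univ z)).2.1 _ (suffix_nd _ _ h10).symm

theorem dc2d_dense {a ζ β : I} (ha : a < ζ) (hβ : ζ ⋖ β) {t : ℕ → Cond I} (ht : ∀ k, Low β (t k))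
    {X : (I → Y) → Sl} (hX : MSl β X) {w : ℕ} (hw : Wd w X) : Dn ζ (DC2D a ζ β t X w) := by
  refine ⟨fun q hq => hq.1, ?_, ?_⟩
  · rintro u ⟨_, h⟩ u' hl hle
    refine ⟨hl, ?_⟩
    rcases h with h | ⟨q, X', h⟩
    · exact Or.inl (h.mono_left hle)
    · exact Or.inr ⟨q, X', fun k => ⟨(h.qlow k).1, (h.qlow k).2.1,
        Set.Subset.trans hle (h.qlow k).2.2⟩, h.mX, h.cov⟩
  · intro u hu
    obtain ⟨u1, a1, a2, a3⟩ := dec ζ (AllB ζ t) (AllB_ms t) u hu
    rcases a3 with a3 | a3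
    · obtain ⟨u2, b1, b2, q, X', b3⟩ := dc2 ha hβ ht hX hw a1 a3
      exact ⟨u2, b1.trans a2, b2, Or.inr ⟨q, X', b3⟩⟩
    · exact ⟨u1, a2, a1, Or.inl a3⟩

theorem rrd_dense {a ζ β : I} (ha : a < ζ) (hβ : ζ ⋖ β)
    {X : (I → Y) → Sl} (hX : MSl β X) {w : ℕ} (hw : Wd w X) : Dn β (RRD a ζ β X w) := by
  refine ⟨fun q hq => hq.1, ?_, ?_⟩
  · rintro q ⟨_, X', h1, h2, h3⟩ q' hl hle
    exact ⟨hl, X', h1, h2, fun z hz => h3 z (hle hz)⟩
  · intro q hq
    obtain ⟨u', h1, h2, q', X', h3⟩ := dc2 (t := fun _ => q) (u := res q ζ) ha hβ (fun _ => hq)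
      hX hw (low_res q ζ) (by
        intro z hz k
        rwa [Bod_res] at hz)
    exact ⟨q' 0, (h3.qlow 0).2.1, (h3.qlow 0).1, X', h3.mX.1, h3.mX.2,
      fun z hz n hn => h3.cov 0 z hz n hn (Nat.zero_le n)⟩

end Pool.Agent.DN
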