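import Mathlib

/-!
# MP_d988c5_lc : the data of one level (one node)

`V L = Fin L → ZMod 2` is a finite cube.  A `Dat` consists of a length `L`, a number `kap` of
digits, a set `K` of small density, sets `T c` of small density for the digits `c`, and a notion of
`u`-big sets of digits.
-/

namespace Pool.Agent.DN

/-- the data of one node -/
structure Dat where
  L : ℕ
  kap : ℕ
  b : ℕ
  K : Finset (Fin L → ZMod 2)
  T : ℕ → Finset (Fin L → ZMod 2)
  Big : ℕ → Set ℕ → Prop

/-- the properties of the data: `n` is the index, `pi` the bound for the number of possible values,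
`col` the number of colours to be dealt with, `U` the initial bigness -/
structure Dat.Ok (n pi col U : ℕ) (D : Dat) : Prop where
  colb : col ≤ D.b
  mono : ∀ u A B, A ⊆ B → D.Big u A → D.Big u B
  anti : ∀ u v A, u ≤ v → D.Big v A → D.Big u A
  split : ∀ u r (A : ℕ → Set ℕ), r ≤ D.b → D.Big (u + 1) (⋃ i ∈ Set.Iio r, A i) →
    ∃ i < r, D.Big u (A i)
  dep : ∀ u A, D.Big u A → D.Big u (A ∩ {c | c < D.kap})
  ne : ∀ u A, D.Big u A → (A ∩ {c | c < D.kap}).Nonempty
  full : D.Big U {c | c < D.kap}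
  test : ∀ u A (F : ℕ → Finset (Fin D.L → ZMod 2)),
    (∀ c ∈ A, (F c).card ≤ pi ∧ Disjoint (F c) (D.T c)) → D.Big (u + 1) A →
    {h : Fin D.L → ZMod 2 | ¬ D.Big u {c | c ∈ A ∧ ∀ v ∈ F c, v + h ∈ D.K}}.ncard * 2 ^ n ≤ 2 ^ D.L
  densT : ∀ c, (D.T c).card * 2 ^ n ≤ 2 ^ D.L
  densK : D.K.card * 2 ^ n ≤ 2 ^ D.L
  two : ∀ u c, ¬ D.Big u {c}

end Pool.Agent.DN
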