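import Pool.Agent.Lib.MP_d988c5_lc.Tree

/-!
# MP_d988c5_lc : the forcing conditions (definitions)

`I` is a well-ordered set of coordinates.  Points are `z : I → Y`, `Y = ℕ → ℕ`.
A condition is a family of trees `C ξ z` depending measurably on `z` restricted to the coordinates
below `ξ`.
-/

namespace Pool.Agent.DN

/-- the sets which depend measurably on the branches `nd (z η)`, `η < ξ` (a sigma-algebra) -/
@[reducible] def Flt {I : Type} [LinearOrder I] (ξ : I) : MeasurableSpace (I → Y) :=
  MeasurableSpace.generateFrom {A | ∃ η < ξ, ∃ (n : ℕ) (σ : Node), A = {z | nd (z η) n = σ}}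

/-- `A` depends measurably on the coordinates below `ξ` -/
def MS {I : Type} [LinearOrder I] (ξ : I) (A : Set (I → Y)) : Prop := @MeasurableSet _ (Flt ξ) A

/-- forcing conditions -/
@[ext] structure Cond (I : Type) [LinearOrder I] where
  C : I → (I → Y) → Set Node
  meas : ∀ ξ σ, MS ξ {z | σ ∈ C ξ z}
  pos : ∀ ξ z, Pos (C ξ z)
  supp : {ξ | ∃ z, C ξ z ≠ Ful}.Countable

variable {I : Type} [LinearOrder I]

/-- the set of all points satisfying the condition -/
def Bod (p : Cond I) : Set (I → Y) := {z | ∀ ξ n, nd (z ξ) n ∈ p.C ξ z}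

/-- the set of all points satisfying the condition below `α` -/
def BodB (p : Cond I) (α : I) : Set (I → Y) := {z | ∀ ξ < α, ∀ n, nd (z ξ) n ∈ p.C ξ z}

/-- the condition has only coordinates below `α` -/
def Low (α : I) (p : Cond I) : Prop := ∀ ξ, α ≤ ξ → ∀ z, p.C ξ z = Ful

instance : Preorder (Cond I) where
  le q p := Bod q ⊆ Bod p
  le_refl p := le_refl (Bod p)
  le_trans p q r h1 h2 := le_trans (α := Set (I → Y)) h1 h2

theorem le_iff {p q : Cond I} : q ≤ p ↔ Bod q ⊆ Bod p := Iff.rfl

end Pool.Agent.DN
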