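import Pool.Agent.Lib.MP_d988c5_lc.Null
import Pool.Agent.Lib.MP_d988c5_lc.CoverReal

/-!
# MP_d988c5_lc : the main lemma of the forcing argument
-/

namespace Pool.Agent.DN

/-! ### the next digit on a branch -/

/-- `c` is the next digit after the node with index `n` on the branch `y` -/
def NxD (y : Y) (n c : ℕ) : Prop := ∃ k, ix (nd y k) = n ∧ nd y (k + 1) = c :: nd y k

theorem NxD.unique {y : Y} {n c c' : ℕ} (h : NxD y n c) (h' : NxD y n c') : c = c' := by
  obtain ⟨k, h1, h2⟩ := h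
  obtain ⟨k', h1', h2'⟩ := h'
  have e : nd y k = nd y k' := ix_inj (h1.trans h1'.symm)
  have e' : k = k' := by have := congrArg List.length e; simpa using this
  subst e'
  have := h2.symm.trans h2'
  simpa using this

theorem exists_NxD {y : Y} {n : ℕ} (h : n ∈ Br y) : ∃ c, NxD y n c := by
  obtain ⟨k, rfl⟩ := h
  exact ⟨_, k, rfl, nd_succ y k⟩

open Classical in
/-- the set `T c` for the next digit `c` -/
noncomputable def Tc (y : Y) (n : ℕ) : Finset (VV n) :=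
  if h : ∃ c, NxD y n c then (dat n).T h.choose else ∅

theorem Tc_eq {y : Y} {n c : ℕ} (h : NxD y n c) : Tc y n = (dat n).T c := by
  have h1 : ∃ c, NxD y n c := ⟨c, h⟩
  unfold Tc
  rw [dif_pos h1, h1.choose_spec.unique h]

theorem Tc_dens (y : Y) (n : ℕ) : (Tc y n).card * 2 ^ n ≤ 2 ^ (dat n).L := by
  unfold Tc
  split
  · exact (dat_ok n).densT _
  · simp

variable {I : Type} [LinearOrder I]

theorem ms_nxD {α α' : I} (h : α < α') (n c : ℕ) : MS α' {z : I → Y | NxD (z α) n c} := by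
  have : {z : I → Y | NxD (z α) n c} = {z | ∃ k σ, nd (z α) k = σ ∧ nd (z α) (k + 1) = c :: σ ∧
      ix σ = n} := by
    ext z
    constructor
    · rintro ⟨k, h1, h2⟩; exact ⟨k, _, rfl, h2, h1⟩
    · rintro ⟨k, σ, h1, h2, h3⟩
      exact ⟨k, by rw [h1]; exact h3, by rw [h1]; exact h2⟩
  rw [this]
  exact MS.ex fun k => MS.ex fun σ => (MS.nd h _ _).and ((MS.nd h _ _).and (MS.const _ _))

theorem msl_tc {α α' : I} (h : α < α') : MSl α' (fun z : I → Y => Tc (z α)) := by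
  intro n s
  have : {z : I → Y | Tc (z α) n = s} = {z | (∃ c, NxD (z α) n c ∧ (dat n).T c = s) ∨
      ((¬ ∃ c, NxD (z α) n c) ∧ (∅ : Finset (VV n)) = s)} := by
    ext z
    by_cases hz : ∃ c, NxD (z α) n c
    · obtain ⟨c, hc⟩ := hz
      have hz : ∃ c, NxD (z α) n c := ⟨c, hc⟩
      simp only [Set.mem_ofPred_eq, Tc_eq hc, hz, not_true, false_and, or_false]
      constructor
      · intro e; exact ⟨c, hc, e⟩
      · rintro ⟨c', hc', e⟩; rw [hc.unique hc']; exact e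
    · have h1 : ¬ ∃ c, NxD (z α) n c ∧ (dat n).T c = s := fun ⟨c, hc, _⟩ => hz ⟨c, hc⟩
      simp only [Set.mem_ofPred_eq, hz, h1, not_false_eq_true, true_and, false_or]
      unfold Tc
      rw [dif_neg hz]
  rw [this]
  exact (MS.ex fun c => (ms_nxD h n c).and (MS.const _ ((dat n).T c = s))).or
    ((MS.ex fun c => ms_nxD h n c).not.and (MS.const _ ((∅ : Finset (VV n)) = s)))

theorem ms_br {α α' : I} (h : α < α') (n : ℕ) : MS α' {z : I → Y | n ∈ Br (z α)} := by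
  have : {z : I → Y | n ∈ Br (z α)} = {z | ∃ k σ, nd (z α) k = σ ∧ n = ix σ} := by
    ext z
    constructor
    · rintro ⟨k, h1⟩; exact ⟨k, _, rfl, h1⟩
    · rintro ⟨k, σ, h1, h2⟩; exact ⟨k, by rw [h1]; exact h2⟩
  rw [this]
  exact MS.ex fun k => MS.ex fun σ => (MS.nd h _ _).and (MS.const _ _)

theorem mr_blk {α : I} {g : (I → Y) → C2} (hg : MR α g) (n : ℕ) (v : VV n) :
    MS α {z | blk (g z) n = v} := by
  have : {z | blk (g z) n = v} = {z | ∀ i : Fin (dat n).L, g z (off n + i) = v i} := by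
    ext z; exact funext_iff
  rw [this]
  exact MS.all fun i => hg _ _

theorem msl_blk {α : I} {g : (I → Y) → C2} (hg : MR α g) :
    MSl α (fun z n => {blk (g z) n}) := by
  intro n s
  have : {z | ({blk (g z) n} : Finset (VV n)) = s} =
      {z | ∃ v, blk (g z) n = v ∧ ({v} : Finset (VV n)) = s} := by
    ext z; simp
  rw [this]
  exact MS.ex fun v => (mr_blk hg n v).and (MS.const _ _)

/-- relations between finitely valued names -/
theorem msl_rel {α : I} {X X' : (I → Y) → Sl} (hX : MSl α X) (hX' : MSl α X') (n : ℕ)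
    (R : Finset (VV n) → Finset (VV n) → Prop) : MS α {z | R (X z n) (X' z n)} := by
  have : {z | R (X z n) (X' z n)} = {z | ∃ s s', (X z n = s ∧ X' z n = s') ∧ R s s'} := by
    ext z; simp
  rw [this]
  exact MS.ex fun s => MS.ex fun s' => ((hX n s).and (hX' n s')).and (MS.const _ _)

theorem msl_mem {α : I} {X : (I → Y) → Sl} (hX : MSl α X) {g : (I → Y) → C2} (hg : MR α g)
    (n : ℕ) : MS α {z | blk (g z) n ∈ X z n} := by
  have : {z | blk (g z) n ∈ X z n} = {z | ∃ v s, (blk (g z) n = v ∧ X z n = s) ∧ v ∈ s} := by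
    ext z; simp
  rw [this]
  exact MS.ex fun v => MS.ex fun s => ((mr_blk hg n v).and (hX n s)).and (MS.const _ _)

/-! ### pruning -/

/-- the finite sets of values given by `P` for the digit `c`, if they are small and disjoint from
`T c` -/
noncomputable def Fv (P : Sl) (n c : ℕ) : Finset (VV n) :=
  open Classical in if (P n).card ≤ NN n ^ n ∧ Disjoint (P n) ((dat n).T c) then P n else ∅

theorem Fv_ok (P : Sl) (n c : ℕ) : (Fv P n c).card ≤ NN n ^ n ∧ Disjoint (Fv P n c) ((dat n).T c) := by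
  classical
  unfold Fv
  by_cases h : (P n).card ≤ NN n ^ n ∧ Disjoint (P n) ((dat n).T c)
  · rw [if_pos h]; exact h
  · rw [if_neg h]; simp

theorem Fv_eq {P : Sl} {n c : ℕ} (h : (P n).card ≤ NN n ^ n) (h' : Disjoint (P n) ((dat n).T c)) :
    Fv P n c = P n := by
  classical
  unfold Fv
  rw [if_pos ⟨h, h'⟩]

/-- the test: all values `v + h` are in `K` -/
def Tst (P : Node → Sl) (n : ℕ) (h : VV n) (σ : Node) (c : ℕ) : Prop :=
  ∀ v ∈ Fv (P (c :: σ)) n c, v + h ∈ (dat n).K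

/-- `j` is the bigness of the set of children of `σ` -/
def Jj (T : Set Node) (σ : Node) (j : ℕ) : Prop :=
  1 ≤ j ∧ j ≤ ix σ ∧ bgn j σ (suc T σ) ∧ ∀ i, j < i → i ≤ ix σ → ¬ bgn i σ (suc T σ)

theorem Jj.unique {T : Set Node} {σ : Node} {j j' : ℕ} (h : Jj T σ j) (h' : Jj T σ j') : j = j' := by
  rcases lt_trichotomy j j' with h1 | h1 | h1
  · exact absurd h'.2.2.1 (h.2.2.2 _ h1 h'.2.1)
  · exact h1
  · exact absurd h.2.2.1 (h'.2.2.2 _ h1 h.2.1)

theorem exists_Jj {T : Set Node} {σ : Node} {i : ℕ} (h1 : 1 ≤ i) (h2 : i ≤ ix σ)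
    (h3 : bgn i σ (suc T σ)) : ∃ j, i ≤ j ∧ Jj T σ j := by
  classical
  let P : ℕ → Prop := fun j => bgn j σ (suc T σ)
  refine ⟨Nat.findGreatest P (ix σ), Nat.le_findGreatest h2 h3, ?_, Nat.findGreatest_le _,
    Nat.findGreatest_spec (P := P) h2 h3, fun k hk hk' => Nat.findGreatest_is_greatest hk hk'⟩
  exact h1.trans (Nat.le_findGreatest h2 h3)

/-- the bad points at the node `σ` -/
def BadP (T : Set Node) (P : Node → Sl) (n : ℕ) (h : VV n) : Prop :=
  ∃ σ ∈ T, ix σ = n ∧ ∃ j, Jj T σ j ∧ ¬ bg (j * (ix σ + 1) ^ 3 - 1) σ {c | c ∈ suc T σ ∧ Tst P n h σ c}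

/-- the code of the bad points -/
noncomputable def BadS (T : Set Node) (P : Node → Sl) : Sl :=
  fun n => open Classical in Finset.univ.filter (fun h => BadP T P n h)

theorem BadS_dens (T : Set Node) (P : Node → Sl) (n : ℕ) :
    (BadS T P n).card * 2 ^ n ≤ 2 ^ (dat n).L := by
  classical
  by_cases hex : ∃ σ ∈ T, ix σ = n ∧ ∃ j, Jj T σ j
  swap
  · have : BadS T P n = ∅ := by
      unfold BadS
      rw [Finset.filter_eq_empty_iff]
      rintro h _ ⟨σ, h1, h2, j, h3, _⟩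
      exact hex ⟨σ, h1, h2, j, h3⟩
    rw [this]; simp
  obtain ⟨σ, hσ, rfl, j, hj⟩ := hex
  have hpos : 1 ≤ j * (ix σ + 1) ^ 3 := by
    have h1 : 0 < (ix σ + 1) ^ 3 := by positivity
    have := hj.1
    nlinarith
  have ht := (dat_ok (ix σ)).test (j * (ix σ + 1) ^ 3 - 1) (suc T σ)
    (fun c => Fv (P (c :: σ)) (ix σ) c) (fun c _ => Fv_ok _ _ _) (by
      rw [Nat.sub_add_cancel hpos]; exact hj.2.2.1)
  refine le_trans (Nat.mul_le_mul_right _ ?_) ht
  rw [← Set.ncard_coe_finset]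
  refine Set.ncard_le_ncard ?_ (Set.toFinite _)
  intro h hh
  have h1 : BadP T P (ix σ) h := by
    have := Finset.mem_coe.1 hh
    unfold BadS at this
    exact (Finset.mem_filter.1 this).2
  obtain ⟨σ', h2, h3, j', h4, h5⟩ := h1
  obtain rfl := ix_inj h3
  obtain rfl := h4.unique hj
  exact h5

/-- the pruned tree -/
def Prn (T : Set Node) (P : Node → Sl) (m0 : ℕ) (h : C2) : Set Node :=
  {τ | τ ∈ T ∧ ∀ c σ, c :: σ <:+ τ → m0 ≤ ix σ → (∃ j, Jj T σ j) →
    ¬ BadP T P (ix σ) (blk h (ix σ)) → Tst P (ix σ) (blk h (ix σ)) σ c}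

theorem Prn_suc {T : Set Node} {P : Node → Sl} {m0 : ℕ} {h : C2} {σ : Node}
    (hσ : σ ∈ Prn T P m0 h) {c : ℕ} (hc : c ∈ suc T σ)
    (hcond : m0 ≤ ix σ → (∃ j, Jj T σ j) → ¬ BadP T P (ix σ) (blk h (ix σ)) →
      Tst P (ix σ) (blk h (ix σ)) σ c) : c ∈ suc (Prn T P m0 h) σ := by
  refine ⟨hc, fun c' σ' hs h1 h2 h3 => ?_⟩
  rcases suffix_cons_iff'.1 hs with h4 | h4
  · obtain ⟨rfl, rfl⟩ := List.cons_eq_cons.1 h4
    exact hcond h1 h2 h3
  · exact hσ.2 c' σ' h4 h1 h2 h3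

theorem Prn_pos {T : Set Node} (hT : Pos T) (P : Node → Sl) (m0 : ℕ) (h : C2) :
    Pos (Prn T P m0 h) := by
  classical
  have key : ∀ σ ∈ Prn T P m0 h, (∀ j, Jj T σ j → bg (j * (ix σ + 1) ^ 3 - 1) σ
      (suc (Prn T P m0 h) σ)) ∧ ((¬ ∃ j, Jj T σ j) → suc T σ ⊆ suc (Prn T P m0 h) σ) := by
    intro σ hσ
    refine ⟨fun j hj => ?_, fun hno c hc => Prn_suc hσ hc fun _ h2 => absurd h2 hno⟩
    by_cases hb : BadP T P (ix σ) (blk h (ix σ))
    · refine bg.anti (v := j * (ix σ + 1) ^ 3) (hj.2.2.1.mono ?_) (Nat.sub_le _ _)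
      exact fun c hc => Prn_suc hσ hc fun _ _ h3 => absurd hb h3
    · by_contra hcon
      refine hb ⟨σ, hσ.1, rfl, j, hj, fun hbig => hcon (hbig.mono ?_)⟩
      rintro c ⟨hc, hc'⟩
      exact Prn_suc hσ hc fun _ _ _ => hc'
  refine ⟨⟨hT.nil, fun c σ hs => absurd hs (by simp)⟩, ?_, fun σ hσ => hT.ful σ hσ.1, ?_, ?_⟩
  · rintro c σ ⟨h1, h2⟩
    exact ⟨hT.closed _ _ h1, fun c' σ' hs => h2 c' σ' (hs.trans (List.suffix_cons _ _))⟩
  · intro σ hσ
    by_cases hj : ∃ j, Jj T σ j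
    · obtain ⟨j, hj⟩ := hj
      obtain ⟨c, hc, _⟩ := ((key σ hσ).1 j hj).nonempty
      exact ⟨c, hc⟩
    · obtain ⟨c, hc⟩ := hT.next σ hσ.1
      exact ⟨c, (key σ hσ).2 hj hc⟩
  · intro j
    obtain ⟨t, ht⟩ := hT.big (j + 1)
    refine ⟨max t (j + 1), fun σ hσ hle => ?_⟩
    have h1 := ht σ hσ.1 ((le_max_left _ _).trans hle)
    obtain ⟨i, hi, hJ⟩ := exists_Jj (Nat.succ_pos j) ((le_max_right _ _).trans hle) h1
    refine ((key σ hσ).1 i hJ).anti ?_
    have h2 : 0 < (ix σ + 1) ^ 3 := by positivity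
    have h3 : (j + 1) * (ix σ + 1) ^ 3 ≤ i * (ix σ + 1) ^ 3 := Nat.mul_le_mul_right _ hi
    have h4 : (j + 1) * (ix σ + 1) ^ 3 = j * (ix σ + 1) ^ 3 + (ix σ + 1) ^ 3 := by ring
    omega

/-! ### measurability of the pruning -/

section
variable {α : I} {T : (I → Y) → Set Node} (mT : ∀ σ, MS α {z | σ ∈ T z})
  {P : (I → Y) → Node → Sl} (mP : ∀ τ n (s : Finset (VV n)), MS α {z | P z τ n = s})
include mT

theorem ms_Jj (σ : Node) (j : ℕ) : MS α {z | Jj (T z) σ j} :=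
  (MS.const _ _).and ((MS.const _ _).and ((MS.bgn (fun c => mT (c :: σ)) _ _).and
    (MS.all fun i => MS.all fun _ => MS.all fun _ => (MS.bgn (fun c => mT (c :: σ)) i σ).not)))

include mP

omit mT in
theorem ms_Tst (n : ℕ) (h : VV n) (σ : Node) (c : ℕ) : MS α {z | Tst (P z) n h σ c} := by
  have : {z | Tst (P z) n h σ c} = {z | ∃ s : Finset (VV n), P z (c :: σ) n = s ∧
      (s.card ≤ NN n ^ n → Disjoint s ((dat n).T c) → ∀ v ∈ s, v + h ∈ (dat n).K)} := by
    ext z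
    simp only [Set.mem_ofPred_eq, exists_eq_left']
    constructor
    · intro h1 h2 h3
      have := h1
      unfold Tst at this
      rwa [Fv_eq h2 h3] at this
    · intro h1 v hv
      unfold Fv at hv
      split at hv
      · rename_i h2; exact h1 h2.1 h2.2 v hv
      · simp at hv
  rw [this]
  exact MS.ex fun s => (mP _ _ _).and (MS.const _ _)

theorem ms_BadP (n : ℕ) (h : VV n) : MS α {z | BadP (T z) (P z) n h} :=
  MS.ex fun σ => (mT σ).and ((MS.const _ _).and (MS.ex fun j => (ms_Jj mT σ j).and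
    (MS.bg (A := fun z => {c | c ∈ suc (T z) σ ∧ Tst (P z) n h σ c})
      (fun c => (mT (c :: σ)).and (ms_Tst mP n h σ c)) _ _).not))

theorem msl_BadS : MSl α (fun z => BadS (T z) (P z)) := by
  classical
  intro n s
  have : {z | BadS (T z) (P z) n = s} = {z | ∀ h : VV n, BadP (T z) (P z) n h ↔ h ∈ s} := by
    ext z
    simp only [Set.mem_ofPred_eq, BadS, Finset.ext_iff, Finset.mem_filter, Finset.mem_univ,
      true_and]
  rw [this]
  exact MS.all fun h => (ms_BadP mT mP n h).iff (MS.const _ _)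

theorem ms_Prn (m0 : ℕ) {h : (I → Y) → C2} (hh : MR α h) (τ : Node) :
    MS α {z | τ ∈ Prn (T z) (P z) m0 (h z)} := by
  refine (mT τ).and (MS.all fun c => MS.all fun σ => MS.all fun _ => MS.all fun _ =>
    (MS.ex fun j => ms_Jj mT σ j).imp (MS.imp (MS.not ?_) ?_))
  · have : {z | BadP (T z) (P z) (ix σ) (blk (h z) (ix σ))} =
        {z | ∃ v, blk (h z) (ix σ) = v ∧ BadP (T z) (P z) (ix σ) v} := by
      ext z; simp
    rw [this]
    exact MS.ex fun v => (mr_blk hh _ v).and (ms_BadP mT mP _ v)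
  · have : {z | Tst (P z) (ix σ) (blk (h z) (ix σ)) σ c} =
        {z | ∃ v, blk (h z) (ix σ) = v ∧ Tst (P z) (ix σ) v σ c} := by
      ext z; simp
    rw [this]
    exact MS.ex fun v => (mr_blk hh _ v).and (ms_Tst mP _ v σ c)

end

/-! ### the main lemma -/

variable [WellFoundedLT I] [OrderBot I] [OrderTop I]

/-- reading at the coordinate `α` -/
theorem read_at {α α' : I} (hs : α ⋖ α') {q : Cond I} (hq : Low ⊤ q) {g : (I → Y) → C2}
    (hg : MR ⊤ g) (hav : ∀ z ∈ Bod q, Av (fun z => Tc (z α)) z (g z)) :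
    ∃ q' ≤ q, Low ⊤ q' ∧ ∃ P : (I → Y) → Node → Sl,
      (∀ τ n (s : Finset (VV n)), MS α {z | P z τ n = s}) ∧
      ∃ m0, ∀ z ∈ Bod q', ∀ k c, m0 ≤ ix (nd (z α) k) → nd (z α) (k + 1) = c :: nd (z α) k →
        blk (g z) (ix (nd (z α) k)) ∈ Fv (P z (nd (z α) (k + 1))) (ix (nd (z α) k)) c := by
  classical
  have hα' : α' ≤ ⊤ := le_top
  have hlt : α < α' := hs.1
  -- covering
  obtain ⟨q2, h21, h22, S, mS, wS, m, hm⟩ := cover_real hs hα' hq (msl_blk hg) (by
    intro z n; simp)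
  -- the index from which on `g` avoids the sets
  obtain ⟨q3, h31, h32, m', h33⟩ := dec_nat h22 (ι := ℕ)
    (fun m' => {z | ∀ n, m' ≤ n → blk (g z) n ∉ Tc (z α) n})
    (fun m' => MS.all fun n => MS.all fun _ =>
      (msl_mem ((msl_tc hlt).mono hα') hg n).not)
    (fun z hz => hav z (h21 hz))
  let m0 := max m m'
  -- the name
  let Φ : (I → Y) → Sl := fun z n => if n ∈ Br (z α) then S z n \ Tc (z α) n else ∅
  have mΦ : MSl α' Φ := by
    intro n s
    have : {z | Φ z n = s} = {z | (n ∈ Br (z α) ∧ S z n \ Tc (z α) n = s) ∨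
        (n ∉ Br (z α) ∧ (∅ : Finset (VV n)) = s)} := by
      ext z
      by_cases h : n ∈ Br (z α) <;> simp [Φ, h]
    rw [this]
    exact ((ms_br hlt n).and (msl_rel mS (msl_tc hlt) n (fun a b => a \ b = s))).or
      ((ms_br hlt n).not.and (MS.const _ _))
  -- the countable set of objects
  obtain ⟨M, hA, _, hM⟩ := (cl_suit (I := I)).exists
    ({.o ⊥, .o α, .o α', .c (res q3 α), .c (res q3 α')} ∪
      Set.range (fun n => (.d (DecX α' Φ n) : Ob I)))
    (Set.Countable.union (by simp) (Set.countable_range _))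
  have hob : .o ⊥ ∈ M := hA (Or.inl (by simp))
  have hoα : .o α ∈ M := hA (Or.inl (by simp))
  have hoα' : .o α' ∈ M := hA (Or.inl (by simp))
  have hc1 : .c (res q3 α) ∈ M := hA (Or.inl (by simp))
  have hc2 : .c (res q3 α') ∈ M := hA (Or.inl (by simp))
  obtain ⟨c0, hc0⟩ := kl hM hoα ⊥ bot_le hob Set.univ (MS.univ _) (fun _ => res q3 α)
    (fun r => (MS.univ _).and (MS.const _ _))
    (fun z _ => ⟨hc1, low_res _ _, fun ξ hξ => absurd hξ not_lt_bot, Gen_bot hM z⟩)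
  let E : Set (I → Y) := Bod (res c0 α)
  have hE : MS α E := Bod_ms (low_res _ _)
  have hE1 : ∀ z ∈ E, z ∈ Bod (res q3 α) ∧ Gen M α z := by
    intro z hz
    have hz' : z ∈ BodB c0 α := by rw [← Bod_res]; exact hz
    obtain ⟨h1, h2, _⟩ := hc0 z trivial (fun ξ _ hξ n => hz' ξ hξ n)
    exact ⟨h1, h2⟩
  have hC : ∀ z, (res q3 α').C α z = q3.C α z := fun z => res_C_lt _ hlt z
  obtain ⟨σ0, mσ, hσ⟩ := exists_sel (S := Node) (α := α) (E := E)
    (fun z σ => σ ∈ (res q3 α').C α z ∧ lev 2 ((res q3 α').C α z) σ)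
    (fun σ => ((res q3 α').meas α σ).and (MS.lev (fun τ => (res q3 α').meas α τ) _ _))
    (fun z _ => by
      obtain ⟨τ, h1, _, h2⟩ := ((res q3 α').pos α z).exists_lev ((res q3 α').pos α z).nil 2
      exact ⟨τ, h1, h2⟩)
  obtain ⟨T, mT, hT, P, mP, hTP⟩ := rapid hM hs hoα' hE (fun z hz => (hE1 z hz).2)
    (p := fun _ => res q3 α') (fun r => hE.and (MS.const _ _))
    (fun z hz => ⟨hc2, low_res _ _, by
      rw [BodB_res _ hlt.le]
      have := (hE1 z hz).1
      rwa [Bod_res] at this⟩) mσ hσ mΦ (fun n => hA (Or.inr ⟨n, rfl⟩))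
  -- the condition
  let r : Cond I := setC (res c0 α) α T mT hT
  have hr : Low α' r := by
    intro ξ hξ z
    show (setC (res c0 α) α T mT hT).C ξ z = Ful
    rw [setC_ne _ (hlt.trans_le hξ).ne', res_C_ge _ (hlt.le.trans hξ)]
  have hrE : ∀ z, z ∈ BodB r α' → z ∈ E ∧ ∀ n, nd (z α) n ∈ T z := by
    intro z hz
    refine ⟨?_, fun n => ?_⟩
    · show z ∈ Bod (res c0 α)
      rw [Bod_of_low (low_res _ _)]
      intro ξ hξ n
      have := hz ξ (hξ.trans hlt) n
      rwa [show r.C ξ z = _ from setC_ne _ hξ.ne _ _ _ z] at this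
    · have := hz α hlt n
      rwa [show r.C α z = T z from setC_eq _ _ _ _ _ z] at this
  have hr1 : r ≤ res q3 α' := by
    intro z hz
    obtain ⟨h1, h2⟩ := hrE z (Bod_sub_BodB _ _ hz)
    exact ((hTP z h1).2.2.2 z (fun _ _ => rfl) h2).1
  refine ⟨glue r q3 α', (glue_le hr1).trans (h31.trans h21), low_glue (hr.mono hα') h32, P, mP, m0,
    fun z hz k c hk hc => ?_⟩
  have hz1 : z ∈ BodB r α' := by
    have := Bod_sub_BodB _ α' hz
    rwa [BodB_glue] at this
  obtain ⟨h1, h2⟩ := hrE z hz1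
  have h3 := (hTP z h1).2.2.2 z (fun _ _ => rfl) h2
  have hz3 : z ∈ Bod q3 := glue_le hr1 hz
  set n := ix (nd (z α) k) with hn
  have hbr : n ∈ Br (z α) := ⟨k, rfl⟩
  have hnx : NxD (z α) n c := ⟨k, rfl, hc⟩
  have h4 : Φ z n = P z (nd (z α) (k + 1)) n := h3.2.2 n (k + 1) (isSt_nd _ _)
  have h5 : Φ z n = S z n \ (dat n).T c := by
    show (if n ∈ Br (z α) then S z n \ Tc (z α) n else ∅) = _
    rw [if_pos hbr, Tc_eq hnx]
  have h6 : blk (g z) n ∈ S z n := by
    have := hm z (h31 hz3) n hbr ((le_max_left _ _).trans hk)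
    exact this (Finset.mem_singleton_self _)
  have h7 : blk (g z) n ∉ (dat n).T c := by
    have := h33 hz3 n ((le_max_right _ _).trans hk)
    rwa [Tc_eq hnx] at this
  rw [Fv_eq (by rw [← h4, h5]; exact (Finset.card_le_card Finset.sdiff_subset).trans (wS z n))
    (by rw [← h4, h5]; exact Finset.sdiff_disjoint), ← h4, h5]
  exact Finset.mem_sdiff.2 ⟨h6, h7⟩

/-- `R` is non-null below `p` in the coordinates below `α`, `R'` is non-null below `p` in all
coordinates; then `E` meets `R + R'` -/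
theorem tail {α α' : I} (hs : α ⋖ α') {R R' : Cond I → ((I → Y) → C2) → Prop}
    (hR : ∀ q f q', R q f → q' ≤ q → R q' f) (hR' : ∀ q f q', R' q f → q' ≤ q → R' q' f)
    {p : Cond I} (hp : Low α p) (hN : NonN α R p) (hN' : NonN ⊤ R' p) :
    ∀ q ≤ p, Low ⊤ q → ∃ q' ≤ q, Low ⊤ q' ∧ ∃ f g, MR ⊤ f ∧ MR ⊤ g ∧ R q' f ∧ R' q' g ∧
      ∀ z ∈ Bod q', f z + g z ∈ EE := by
  classical
  intro q hqp hq
  have hlt : α < α' := hs.1
  have hαt : α ≤ ⊤ := le_top
  obtain ⟨q1, h11, h12, g, hg, hRg, hgav⟩ := hN' q hqp hq (fun z => Tc (z α))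
    ⟨(msl_tc hlt).mono le_top, fun z n => Tc_dens _ _⟩
  obtain ⟨q4, h41, h42, P, mP, m0, h43⟩ := read_at hs h12 hg hgav
  let T : (I → Y) → Set Node := fun z => q4.C α z
  have mT : ∀ σ, MS α {z | σ ∈ T z} := fun σ => q4.meas α σ
  obtain ⟨q5, h51, h52, h, hh, hRh, hhav⟩ := hN (res q4 α) (by
      have := res_mono ((h41.trans h11).trans hqp) α
      rwa [res_eq_self hp] at this) (low_res _ _)
    (fun z => BadS (T z) (P z)) ⟨msl_BadS mT mP, fun z n => BadS_dens _ _ n⟩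
  let T' : (I → Y) → Set Node := fun z => Prn (T z) (P z) m0 (h z)
  have mT' : ∀ σ, MS α {z | σ ∈ T' z} := fun σ => ms_Prn mT mP m0 hh σ
  have hT' : ∀ z, Pos (T' z) := fun z => Prn_pos (q4.pos α z) _ _ _
  let r : Cond I := setC q4 α T' mT' hT'
  have hr4 : r ≤ q4 := by
    intro z hz ξ n
    have := hz ξ n
    by_cases hξ : ξ = α
    · subst hξ
      rw [show r.C ξ z = T' z from setC_eq _ _ _ _ _ z] at this
      exact this.1
    · rwa [show r.C ξ z = q4.C ξ z from setC_ne _ hξ _ _ _ z] at this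
  have hres : res r α = res q4 α := by
    apply Cond.ext
    funext ξ z
    by_cases hξ : ξ < α
    · rw [res_C_lt _ hξ, res_C_lt _ hξ]
      exact setC_ne _ hξ.ne _ _ _ z
    · rw [res_C_ge _ (not_lt.1 hξ), res_C_ge _ (not_lt.1 hξ)]
  have h5r : q5 ≤ res r α := by rw [hres]; exact h51
  have hrl : Low ⊤ r := by
    intro ξ hξ z
    rw [show r.C ξ z = q4.C ξ z from setC_ne _ ((hlt.trans_le le_top).trans_le hξ).ne' _ _ _ z]
    exact h42 ξ hξ z
  have h64 : glue q5 r α ≤ q4 := (glue_le h5r).trans hr4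
  have h65 : glue q5 r α ≤ q5 := by
    intro z hz
    have := Bod_sub_BodB _ α hz
    rw [BodB_glue] at this
    rw [Bod_of_low h52]; exact this
  refine ⟨glue q5 r α, (h64.trans h41).trans h11, low_glue (h52.mono hαt) hrl, h, g,
    fun n v => (hh n v).mono hαt, hg, hR _ _ _ hRh h65, hR' _ _ _ hRg (h64.trans h41), ?_⟩
  intro z hz
  obtain ⟨m1, hm1⟩ := hhav z (h65 hz)
  -- big children sets
  obtain ⟨t, ht⟩ := (q4.pos α z).big 1
  refine ⟨max (max m0 m1) (max t 1), fun k hk => ⟨nd (z α) k, nd_length _ _, vd_nd _ _, ?_⟩⟩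
  have hkx : k ≤ ix (nd (z α) k) := by
    have := length_le_ix (nd (z α) k)
    rwa [nd_length] at this
  have e1 : m0 ≤ ix (nd (z α) k) := ((le_max_left _ _).trans ((le_max_left _ _).trans hk)).trans hkx
  have e2 : m1 ≤ ix (nd (z α) k) := ((le_max_right _ _).trans ((le_max_left _ _).trans hk)).trans hkx
  have e3 : t ≤ ix (nd (z α) k) := ((le_max_left _ _).trans ((le_max_right _ _).trans hk)).trans hkx
  have e4 : 1 ≤ ix (nd (z α) k) := ((le_max_right _ _).trans ((le_max_right _ _).trans hk)).trans hkx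
  have hnk : ∀ n, nd (z α) n ∈ T' z := by
    intro n
    have := hz α n
    rw [glue_C_ge _ _ le_rfl] at this
    rwa [show r.C α z = T' z from setC_eq _ _ _ _ _ z] at this
  have hc := nd_succ (z α) k
  set c := z α k % (dat (ix (nd (z α) k))).kap with hcdef
  have h7 := (hnk (k + 1)).2 c (nd (z α) k) (by rw [hc]) e1 (by
    obtain ⟨j, _, hj⟩ := exists_Jj le_rfl e4 (ht _ (hnk k).1 e3)
    exact ⟨j, hj⟩) (by
    have := hm1 _ e2
    unfold BadS at this
    simpa using this)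
  have h8 := h43 z (h64 hz) k c e1 hc
  rw [hc] at h8
  have h9 := h7 _ h8
  rw [blk_add, add_comm]
  exact h9

end Pool.Agent.DN
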