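import Pool.Agent.Lib.MP_d988c5_lc.FW
import Pool.Agent.Lib.MP_d988c5_lc.Tail

/-!
# MP_d988c5_lc : worlds for the forcing with the conditions `Cond I`
-/

namespace Pool.Agent.DN

open Pool.Agent.CR (Nm V IsTransModelZFC nat natN)
open Pool.Agent (FW.Pr)

/-- the forcing notion -/
def PC (I : Type) [LinearOrder I] [OrderTop I] : Type := {q : Cond I // Low ⊤ q}

instance (I : Type) [LinearOrder I] [OrderTop I] : Preorder (PC I) :=
  inferInstanceAs (Preorder {q : Cond I // Low ⊤ q})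

/-- objects: names, conditions and coordinates and dense sets, functions with values in the Cantor
group, codes of null sets -/
inductive Obj (I : Type) [LinearOrder I] [OrderTop I] : Type 1
  | nm (τ : Nm (PC I)) : Obj I
  | ob (x : Ob I) : Obj I
  | fn (f : (I → Y) → C2) : Obj I
  | cd (U : (I → Y) → Sl) : Obj I

variable {I : Type} [LinearOrder I] [OrderTop I]

/-- the object given by a condition -/
def cn (p : PC I) : Obj I := .ob (.c p.1)

theorem cn_inj {p q : PC I} (h : cn p = cn q) : p = q := by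
  unfold cn at h
  simp only [Obj.ob.injEq, Ob.c.injEq] at h
  exact Subtype.ext h

/-- the name of an object -/
def unNm : Obj I → Nm (PC I)
  | .nm τ => τ
  | _ => Nm.emp

/-- the presentation -/
def ppi (I : Type) [LinearOrder I] [OrderTop I] : FW.Pr (PC I) (Obj I) where
  nm := .nm
  cn := cn
  un := unNm
  un_nm _ := rfl
  cn_inj _ _ := cn_inj

/-- the generic filter given by the point `z` -/
def Gf (M : Set (Obj I)) (z : I → Y) : Set (PC I) := {p | cn p ∈ M ∧ z ∈ Bod p.1}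

/-- the names in `M` -/
def HM (M : Set (Obj I)) : Set (Nm (PC I)) := {τ | Obj.nm τ ∈ M}

/-- the value of a name -/
noncomputable def vl (M : Set (Obj I)) (z : I → Y) (τ : Nm (PC I)) : V := (ppi I).vl M (Gf M z) τ

/-- the model -/
noncomputable def NM (M : Set (Obj I)) (z : I → Y) : Set V := (ppi I).N M (Gf M z)

theorem PC_le {p q : PC I} : p ≤ q ↔ Bod p.1 ⊆ Bod q.1 := Iff.rfl

/-- `M` is closed under the relations `Rel` and `z` is generic for the sets given by them -/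
structure WorldC (Rel : ℕ → List (Obj I) → Obj I → Prop) (M : Set (Obj I)) (z : I → Y) : Prop where
  cnt : M.Countable
  ne : (Gf M z).Nonempty
  el : ∀ i l, (∀ x ∈ l, x ∈ M) → (∃ x, Rel i l x) → ∃ x ∈ M, Rel i l x
  gen : ∀ i l, (∀ x ∈ l, x ∈ M) → (∃ s ∈ Gf M z, Rel i l (cn s)) ∨
    ∃ p ∈ Gf M z, ∀ s, Rel i l (cn s) → ∀ r ≤ p, ¬ r ≤ s

/-- `C` holds in all sufficiently rich worlds -/
def EvC (C : Set (Obj I) → (I → Y) → Prop) : Prop :=
  ∃ Rel : ℕ → List (Obj I) → Obj I → Prop, ∀ M z, WorldC Rel M z → C M z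

theorem EvC.mono {C C' : Set (Obj I) → (I → Y) → Prop} (h : EvC C) (h' : ∀ M z, C M z → C' M z) :
    EvC C' := by
  obtain ⟨Rel, hR⟩ := h
  exact ⟨Rel, fun M z hw => h' M z (hR M z hw)⟩

theorem EvC.all {ι : Type} [Countable ι] {C : ι → Set (Obj I) → (I → Y) → Prop}
    (h : ∀ i, EvC (C i)) : EvC (fun M z => ∀ i, C i M z) := by
  classical
  choose Rel hR using h
  have := Encodable.ofCountable (ι × ℕ)
  refine ⟨fun n => match (Encodable.decode n : Option (ι × ℕ)) with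
    | some x => Rel x.1 x.2
    | none => fun _ _ => False, fun M z hw i => hR i M z ⟨hw.cnt, hw.ne, fun j l hl hx => ?_,
      fun j l hl => ?_⟩⟩
  · have h1 := hw.el (Encodable.encode (i, j)) l hl
    simp only [Encodable.encodek] at h1
    exact h1 hx
  · have h1 := hw.gen (Encodable.encode (i, j)) l hl
    simp only [Encodable.encodek] at h1
    exact h1

theorem EvC.and {C C' : Set (Obj I) → (I → Y) → Prop} (h : EvC C) (h' : EvC C') :
    EvC (fun M z => C M z ∧ C' M z) := by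
  have h1 := EvC.all (ι := Bool) (C := fun b => if b then C else C') (by
    intro b
    cases b
    · simpa using h'
    · simpa using h)
  exact h1.mono fun M z hb => ⟨by simpa using hb true, by simpa using hb false⟩

theorem evc_gen (S : List (Obj I) → Set (PC I)) : EvC (fun M z => ∀ l, (∀ x ∈ l, x ∈ M) →
    (∃ s ∈ Gf M z, s ∈ S l) ∨ ∃ p ∈ Gf M z, ∀ s ∈ S l, ∀ r ≤ p, ¬ r ≤ s) := by
  refine ⟨fun _ l x => ∃ s ∈ S l, x = cn s, fun M z hw l hl => ?_⟩
  rcases hw.gen 0 l hl with ⟨s, h1, s', h2, h3⟩ | ⟨p, h1, h2⟩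
  · rw [← cn_inj h3] at h2
    exact Or.inl ⟨s, h1, h2⟩
  · exact Or.inr ⟨p, h1, fun s hs r hr => h2 s ⟨s, hs, rfl⟩ r hr⟩

section
variable [WellFoundedLT I] [OrderBot I]

/-- `G` decides measurable sets -/
theorem evc_ms (S : List (Obj I) → Set (I → Y)) : EvC (fun M z => ∀ l, (∀ x ∈ l, x ∈ M) →
    MS ⊤ (S l) → z ∈ S l → ∃ p ∈ Gf M z, Bod p.1 ⊆ S l) := by
  refine (evc_gen (fun l => {p : PC I | Bod p.1 ⊆ S l ∨ Disjoint (Bod p.1) (S l)})).mono
    fun M z h l hl hm hz => ?_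
  rcases h l hl with ⟨s, h1, h2⟩ | ⟨p, h1, h2⟩
  · rcases h2 with h2 | h2
    · exact ⟨s, h1, h2⟩
    · exact absurd hz (Set.disjoint_left.1 h2 h1.2)
  · obtain ⟨q, a1, a2, a3⟩ := dec ⊤ (S l) hm p.1 p.2
    exact absurd le_rfl (h2 ⟨q, a1⟩ a3 ⟨q, a1⟩ a2)

theorem evc_dir : EvC (fun (M : Set (Obj I)) z => ∀ p ∈ Gf M z, ∀ q ∈ Gf M z, ∃ r ∈ Gf M z,
    r ≤ p ∧ r ≤ q) := by
  refine (evc_ms (fun l : List (Obj I) => match l with
    | [.ob (.c p), .ob (.c q)] => Bod p ∩ Bod q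
    | _ => ∅)).mono fun M z h p hp q hq => ?_
  obtain ⟨r, h1, h2⟩ := h [cn p, cn q] (by simp [hp.1, hq.1]) ((Bod_ms p.2).inter (Bod_ms q.2))
    ⟨hp.2, hq.2⟩
  exact ⟨r, h1, fun x hx => (h2 hx).1, fun x hx => (h2 hx).2⟩

/-- general facts on worlds hold for the worlds given by generic points -/
theorem EvC.of {C : Set (Obj I) → Set (PC I) → Prop} (h : FW.Ev (ppi I) C) :
    EvC (fun M z => C M (Gf M z)) := by
  obtain ⟨Rel, hR⟩ := h
  have e : EvC (fun (M : Set (Obj I)) z => WorldC Rel M z) := ⟨Rel, fun M z hw => hw⟩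
  refine (e.and evc_dir).mono fun M z ⟨hw, hd⟩ => hR M (Gf M z) ?_
  exact ⟨hw.cnt, fun p hp => hp.1, hw.ne, fun p hp q hq hle => ⟨hq, hle hp.2⟩, hd, hw.el, hw.gen⟩

/-! ### existence -/

/-- the dense set given by a set of conditions -/
def Dd (S : Set (PC I)) : Set (Cond I) :=
  {x | ∃ h : Low ⊤ x, (∃ s ∈ S, (⟨x, h⟩ : PC I) ≤ s) ∨
    ∀ s ∈ S, ∀ r : PC I, r ≤ ⟨x, h⟩ → ¬ r ≤ s}

omit [WellFoundedLT I] [OrderBot I] in
theorem Dd_dense (S : Set (PC I)) : Dn ⊤ (Dd S) := by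
  refine ⟨fun q h => h.1, ?_, ?_⟩
  · rintro q ⟨h2, h3⟩ q' hq' hle
    refine ⟨hq', ?_⟩
    rcases h3 with ⟨t, ht, h3⟩ | h3
    · exact Or.inl ⟨t, ht, fun x hx => h3 (hle hx)⟩
    · exact Or.inr fun t ht r hr => h3 t ht r fun x hx => hle (hr hx)
  · intro q hq
    by_cases h : ∃ t ∈ S, ∃ r : PC I, r ≤ ⟨q, hq⟩ ∧ r ≤ t
    · obtain ⟨t, ht, r, h1, h2⟩ := h
      exact ⟨r.1, h1, r.2, Or.inl ⟨t, ht, h2⟩⟩
    · push Not at h
      exact ⟨q, le_rfl, hq, Or.inr fun t ht r hr => h t ht r hr⟩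

/-- the first order part of an object -/
def unOb : Obj I → Ob I
  | .ob x => x
  | _ => .c (one I)

open Classical in
/-- the operations for a world -/
noncomputable def WOpC (Op : List (Ob I) → Set (Ob I)) (Rel : ℕ → List (Obj I) → Obj I → Prop)
    (l : List (Obj I)) : Set (Obj I) :=
  (Obj.ob '' Op (l.map unOb)) ∪
  Set.range (fun i => if h : ∃ x, Rel i l x then h.choose else .ob (.c (one I))) ∪
  Set.range (fun i => .ob (.d (Dd {s | Rel i l (cn s)}))) ∪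
  Set.range (fun i => if h : ∃ s : PC I, Rel i l.tail (cn s) ∧ ∃ p, l.head? = some (cn p) ∧ p ≤ s
    then cn h.choose else .ob (.c (one I)))

omit [WellFoundedLT I] [OrderBot I] in
theorem WOpC_countable {Op : List (Ob I) → Set (Ob I)} (hOp : ∀ l, (Op l).Countable)
    (Rel : ℕ → List (Obj I) → Obj I → Prop) (l : List (Obj I)) :
    (WOpC Op Rel l).Countable :=
  ((((hOp _).image _).union (Set.countable_range _)).union
    (Set.countable_range _)).union (Set.countable_range _)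

theorem exists_worldC (Rel : ℕ → List (Obj I) → Obj I → Prop) (A : Set (Obj I)) (hA : A.Countable)
    (p0 : PC I) : ∃ M z, A ⊆ M ∧ p0 ∈ Gf M z ∧ WorldC Rel M z := by
  classical
  obtain ⟨Op, hOp1, hOp2⟩ := cl_suit (I := I)
  obtain ⟨M, h1, h2, h3⟩ := hull (WOpC Op Rel) (WOpC_countable hOp1 Rel)
    (A ∪ {cn p0, .ob (.o ⊤), .ob (.o ⊥)}) (hA.union (by simp))
  have hp0 : cn p0 ∈ M := h1 (Or.inr (by simp))
  have hot : Obj.ob (.o ⊤) ∈ M := h1 (Or.inr (by simp))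
  have hob : Obj.ob (.o ⊥) ∈ M := h1 (Or.inr (by simp))
  let M1 : Set (Ob I) := {x | Obj.ob x ∈ M}
  have hS : Suit M1 := by
    refine hOp2 M1 (h2.preimage_of_injOn fun x _ y _ h => by simpa using h) fun l hl y hy => ?_
    refine h3 (l.map Obj.ob) (fun x hx => by
      obtain ⟨y, hy, rfl⟩ := List.mem_map.1 hx
      exact hl y hy) (Or.inl (Or.inl (Or.inl ⟨y, ?_, rfl⟩)))
    have : (l.map Obj.ob).map unOb = l := by
      rw [List.map_map]
      conv_rhs => rw [← List.map_id l]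
      rfl
    rw [this]; exact hy
  obtain ⟨c, hc⟩ := kl hS (α := ⊤) hot ⊥ bot_le hob Set.univ (MS.univ _)
    (fun _ => p0.1) (fun r => (MS.univ _).and (MS.const _ _))
    (fun z _ => ⟨hp0, p0.2, fun ξ hξ => absurd hξ not_lt_bot, Gen_bot hS z⟩)
  obtain ⟨z, hz⟩ := Bod_nonempty (res c ⊤)
  rw [Bod_res] at hz
  obtain ⟨hz1, hgen, _⟩ := hc z trivial (fun ξ _ hξ n => hz ξ hξ n)
  refine ⟨M, z, Set.subset_union_left.trans h1, ⟨hp0, hz1⟩, h2, ⟨p0, hp0, hz1⟩, ?_, ?_⟩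
  · intro i l hl hx
    refine ⟨hx.choose, h3 l hl (Or.inl (Or.inl (Or.inr ⟨i, ?_⟩))), hx.choose_spec⟩
    exact dif_pos hx
  · intro i l hl
    obtain ⟨q, a1, a4, a3⟩ := hgen (Dd {s | Rel i l (cn s)})
      (h3 l hl (Or.inl (Or.inr ⟨i, rfl⟩))) (Dd_dense _)
    obtain ⟨b2, b3⟩ := a4
    rcases b3 with ⟨t, ht, ht'⟩ | b3
    · left
      have hex : ∃ s : PC I, Rel i (cn ⟨q, b2⟩ :: l).tail (cn s) ∧
          ∃ p, (cn ⟨q, b2⟩ :: l).head? = some (cn p) ∧ p ≤ s := ⟨t, ht, ⟨q, b2⟩, rfl, ht'⟩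
      obtain ⟨c1, p, c2, c3⟩ := hex.choose_spec
      have hp : p = ⟨q, b2⟩ := cn_inj (by simpa using c2.symm)
      subst hp
      refine ⟨hex.choose, ⟨h3 (cn ⟨q, b2⟩ :: l) ?_ (Or.inr ⟨i, ?_⟩), c3 a3⟩, c1⟩
      · intro x hx
        rcases List.mem_cons.1 hx with rfl | hx
        · exact a1
        · exact hl x hx
      · exact dif_pos hex
    · right
      exact ⟨⟨q, b2⟩, ⟨a1, a3⟩, fun s hs r hr => b3 s hs r hr⟩

/-- sufficiently rich worlds exist -/
theorem EvC.exists {C : Set (Obj I) → (I → Y) → Prop} (h : EvC C) (A : Set (Obj I))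
    (hA : A.Countable) (p0 : PC I) : ∃ M z, A ⊆ M ∧ p0 ∈ Gf M z ∧ C M z := by
  obtain ⟨Rel, hR⟩ := h
  obtain ⟨M, z, h1, h2, h3⟩ := exists_worldC Rel A hA p0
  exact ⟨M, z, h1, h2, hR M z h3⟩

end

end Pool.Agent.DN
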