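import Pool.Agent.Lib.MP_72b52d_lc.CR.Stmt

/-!
# MP_d988c5_lc : the statement

The points of the Cantor group in a transitive model of `ZFC`, the outer measure of the model,
measurability in the model, the ideal `𝓔` of the model, and the relativisation of the question to
the model. (`V`, `IsTransModelZFC`, `nat` are defined in the imported file: the universe of sets,
transitive models of `ZFC`, and the von Neumann numerals.)
-/

namespace Pool.Agent.DN

open Pool.Agent.CR (V IsTransModelZFC nat)

/-- The Cantor group: all functions from `ℕ` to `{0, 1}` with coordinatewise addition modulo 2. -/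
abbrev Pt : Type := ℕ → ZMod 2

/-- The function `x` as a set of the universe: the set of all ordered pairs `(n, x n)`. -/
noncomputable def pt (x : Pt) : V :=
  ZFSet.range (fun n : ℕ => ZFSet.pair (nat n) (nat (x n).val))

/-- The points of the Cantor group which belong to the model `N`. -/
def PN (N : Set V) : Set Pt := {x | pt x ∈ N}

/-- The set `A` of points as a set of the universe. -/
noncomputable def setP (A : Set Pt) : V := ZFSet.range (fun x : A => pt x.1)

/-- The basic clopen set given by the finite 0-1 sequence `s` (its measure is `2^(-length s)`). -/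
def cyl (s : List Bool) : Set Pt := {x | ∀ i, ∀ h : i < s.length, x i = if s[i] then 1 else 0}

/-- The set `C` of finite 0-1 sequences as a set of the universe (the finite sequences are coded by
natural numbers). -/
noncomputable def setS (C : Set (List Bool)) : V :=
  ZFSet.range (fun s : C => nat (Encodable.encode s.1))

/-- The sequence `S` of sets of finite 0-1 sequences as a set of the universe: the set of all pairs
`(k, s)` with `s ∈ S k`. -/
noncomputable def seqS (S : ℕ → Set (List Bool)) : V :=
  ZFSet.range (fun p : {p : ℕ × List Bool // p.2 ∈ S p.1} =>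
    ZFSet.pair (nat p.1.1) (nat (Encodable.encode p.1.2)))

/-- The outer measure of `A` in the model `N`: the infimum of the total measures of the coverings of
`A` by basic clopen sets which belong to `N`. -/
noncomputable def outer (N : Set V) (A : Set Pt) : ENNReal :=
  ⨅ (C : Set (List Bool)) (_ : setS C ∈ N) (_ : A ⊆ ⋃ s ∈ C, cyl s),
    ∑' s : C, (2⁻¹ : ENNReal) ^ s.1.length

/-- In the model `N` the set `A` of points (of `N`) is measurable: the outer measures (in `N`) of
`A` and of its complement have sum `1` (the sum is never smaller than `1`). -/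
def MeasurableIn (N : Set V) (A : Set Pt) : Prop := outer N A + outer N (PN N \ A) ≤ 1

/-- The closed set of all points which are in none of the basic clopen sets given by `S`. -/
def clo (S : Set (List Bool)) : Set Pt := {x | ∀ s ∈ S, x ∉ cyl s}

/-- In the model `N` the set `E` of points (of `N`) belongs to the ideal `𝓔`: it is covered by a
sequence (of `N`) of closed sets of measure zero. -/
def EIn (N : Set V) (E : Set Pt) : Prop :=
  E ⊆ PN N ∧ setP E ∈ N ∧ ∃ S : ℕ → Set (List Bool), seqS S ∈ N ∧
    (∀ k, outer N (clo (S k) ∩ PN N) = 0) ∧ E ⊆ ⋃ k, clo (S k)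

/-- `Q1` in the model `N`: for every `E` in the ideal `𝓔` of `N` there are a dense non-measurable
subgroup `G` and a point `x` such that `G` and `E + x` are disjoint. -/
def Q1 (N : Set V) : Prop :=
  ∀ E : Set Pt, EIn N E → ∃ G : AddSubgroup Pt, (G : Set Pt) ⊆ PN N ∧ setP G ∈ N ∧
    (∀ s : List Bool, ∃ g ∈ G, g ∈ cyl s) ∧ ¬ MeasurableIn N G ∧
      ∃ x ∈ PN N, ∀ e ∈ E, e + x ∉ G

/-- In the model `N` there is a set `E` in the ideal `𝓔` which meets `X + Y` for all sets `X`, `Y`
which are not null. -/
def StrongNo (N : Set V) : Prop :=
  ∃ E : Set Pt, EIn N E ∧ ∀ X Y : Set Pt, X ⊆ PN N → Y ⊆ PN N → setP X ∈ N → setP Y ∈ N →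
    outer N X ≠ 0 → outer N Y ≠ 0 → ∃ x ∈ X, ∃ y ∈ Y, x + y ∈ E

end Pool.Agent.DN
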