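import Pool.Agent.Lib.MP_d988c5_lc.FW
import Pool.Agent.Lib.MP_d988c5_lc.Stm

/-!
# MP_d988c5_lc : points, sets of points, sets of finite sequences as sets of the universe
-/

namespace Pool.Agent.DN

open Pool.Agent.CR (V IsTransModelZFC nat mem_nat)

theorem nat_inj {m n : ℕ} (h : nat m = nat n) : m = n := by
  rcases lt_trichotomy m n with h1 | h1 | h1
  · have h2 : nat m ∈ nat n := mem_nat.2 ⟨m, h1, rfl⟩
    rw [h] at h2
    exact absurd h2 (ZFSet.mem_irrefl _)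
  · exact h1
  · have h2 : nat n ∈ nat m := mem_nat.2 ⟨n, h1, rfl⟩
    rw [h] at h2
    exact absurd h2 (ZFSet.mem_irrefl _)

theorem pair_nat_inj {a b c d : ℕ} (h : ZFSet.pair (nat a) (nat b) = ZFSet.pair (nat c) (nat d)) :
    a = c ∧ b = d := by
  obtain ⟨h1, h2⟩ := ZFSet.pair_injective h
  exact ⟨nat_inj h1, nat_inj h2⟩

theorem mem_pt {x : Pt} {v : V} : v ∈ pt x ↔ ∃ n, ZFSet.pair (nat n) (nat (x n).val) = v := by
  rw [pt, ZFSet.mem_range]

theorem pair_mem_pt {x : Pt} {n i : ℕ} : ZFSet.pair (nat n) (nat i) ∈ pt x ↔ (x n).val = i := by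
  rw [mem_pt]
  constructor
  · rintro ⟨m, h⟩
    obtain ⟨rfl, h2⟩ := pair_nat_inj h
    exact h2
  · rintro rfl
    exact ⟨n, rfl⟩

theorem pt_inj {x y : Pt} (h : pt x = pt y) : x = y := by
  funext n
  apply ZMod.val_injective 2
  have h1 : ZFSet.pair (nat n) (nat (y n).val) ∈ pt x := by rw [h, pair_mem_pt]
  exact pair_mem_pt.1 h1

theorem mem_setP' {A : Set Pt} {v : V} : v ∈ setP A ↔ ∃ x ∈ A, pt x = v := by
  rw [setP, ZFSet.mem_range]
  constructor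
  · rintro ⟨y, rfl⟩
    exact ⟨y.1, y.2, rfl⟩
  · rintro ⟨y, hy, rfl⟩
    exact ⟨⟨y, hy⟩, rfl⟩

theorem mem_setP {A : Set Pt} {x : Pt} : pt x ∈ setP A ↔ x ∈ A := by
  rw [mem_setP']
  constructor
  · rintro ⟨y, hy, h⟩
    rw [← pt_inj h]; exact hy
  · intro h
    exact ⟨x, h, rfl⟩

theorem mem_setS' {C : Set (List Bool)} {v : V} :
    v ∈ setS C ↔ ∃ s ∈ C, nat (Encodable.encode s) = v := by
  rw [setS, ZFSet.mem_range]
  constructor
  · rintro ⟨y, rfl⟩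
    exact ⟨y.1, y.2, rfl⟩
  · rintro ⟨y, hy, rfl⟩
    exact ⟨⟨y, hy⟩, rfl⟩

theorem mem_setS {C : Set (List Bool)} {s : List Bool} :
    nat (Encodable.encode s) ∈ setS C ↔ s ∈ C := by
  rw [mem_setS']
  constructor
  · rintro ⟨y, hy, h⟩
    rw [← Encodable.encode_injective (nat_inj h)]; exact hy
  · intro h
    exact ⟨s, h, rfl⟩

theorem mem_seqS' {S : ℕ → Set (List Bool)} {v : V} :
    v ∈ seqS S ↔ ∃ k, ∃ s ∈ S k, ZFSet.pair (nat k) (nat (Encodable.encode s)) = v := by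
  rw [seqS, ZFSet.mem_range]
  constructor
  · rintro ⟨y, rfl⟩
    exact ⟨y.1.1, y.1.2, y.2, rfl⟩
  · rintro ⟨n, y, hy, rfl⟩
    exact ⟨⟨(n, y), hy⟩, rfl⟩

theorem mem_seqS {S : ℕ → Set (List Bool)} {k : ℕ} {s : List Bool} :
    ZFSet.pair (nat k) (nat (Encodable.encode s)) ∈ seqS S ↔ s ∈ S k := by
  rw [mem_seqS']
  constructor
  · rintro ⟨m, t, ht, h⟩
    obtain ⟨rfl, h2⟩ := pair_nat_inj h
    rw [← Encodable.encode_injective h2]; exact ht
  · intro h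
    exact ⟨k, s, h, rfl⟩

/-! ### the outer measure of a model -/

variable {N : Set V}

theorem outer_le {A : Set Pt} {C : Set (List Bool)} (hC : setS C ∈ N) (hA : A ⊆ ⋃ s ∈ C, cyl s) :
    outer N A ≤ ∑' s : C, (2⁻¹ : ENNReal) ^ s.1.length :=
  iInf_le_of_le C (iInf_le_of_le hC (iInf_le _ hA))

theorem outer_eq_zero {A : Set Pt} (h : ∀ k : ℕ, ∃ C : Set (List Bool), setS C ∈ N ∧
    A ⊆ ⋃ s ∈ C, cyl s ∧ ∑' s : C, (2⁻¹ : ENNReal) ^ s.1.length ≤ 2 * 2⁻¹ ^ k) : outer N A = 0 := by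
  refine le_antisymm ?_ zero_le
  refine ENNReal.le_of_forall_pos_le_add fun ε hε _ => ?_
  obtain ⟨k, hk⟩ : ∃ k : ℕ, (2 : ENNReal) * 2⁻¹ ^ k < ε := by
    have h1 : Filter.Tendsto (fun k : ℕ => (2 : ENNReal) * 2⁻¹ ^ k) Filter.atTop (nhds (2 * 0)) :=
      ENNReal.Tendsto.const_mul (ENNReal.tendsto_pow_atTop_nhds_zero_of_lt_one (by simp)) (by simp)
    rw [mul_zero] at h1
    exact (h1.eventually (gt_mem_nhds (by exact_mod_cast hε))).exists
  obtain ⟨C, h1, h2, h3⟩ := h k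
  rw [zero_add]
  exact (outer_le h1 h2).trans (h3.trans hk.le)

theorem cover_of_outer_lt {A : Set Pt} {r : ENNReal} (h : outer N A < r) :
    ∃ C : Set (List Bool), setS C ∈ N ∧ A ⊆ ⋃ s ∈ C, cyl s ∧
      ∑' s : C, (2⁻¹ : ENNReal) ^ s.1.length < r := by
  unfold outer at h
  simp only [iInf_lt_iff] at h
  obtain ⟨C, h1, h2, h3⟩ := h
  exact ⟨C, h1, h2, h3⟩

theorem cyl_nil : cyl [] = Set.univ := by
  ext x
  simp [cyl]

/-- a null set is measurable -/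
theorem measurableIn_of_null (h1 : setS {[]} ∈ N) {A : Set Pt} (hA : outer N A = 0) :
    MeasurableIn N A := by
  unfold MeasurableIn
  rw [hA, zero_add]
  refine (outer_le h1 ?_).trans ?_
  · rw [Set.biUnion_singleton, cyl_nil]
    exact Set.subset_univ _
  · rw [tsum_fintype]
    simp

end Pool.Agent.DN
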