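import Pool.Agent.Lib.MP_d988c5_lc.ReadC
import Pool.Agent.Lib.MP_d988c5_lc.PtB

/-!
# MP_d988c5_lc : the points of the Cantor group in rich worlds
-/

namespace Pool.Agent.DN

open Pool.Agent.CR (Nm V IsTransModelZFC nat natN Memf Memf_mono Mod_trans)

variable {I : Type} [LinearOrder I] [OrderTop I]

/-- the conditions which force `(f z n).val = i` -/
def fnD (f : (I → Y) → C2) (x : ℕ × ℕ) : Set (PC I) := {p | ∀ z ∈ Bod p.1, (f z x.1).val = x.2}

/-- the name of the point `f z` -/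
def fnN (f : (I → Y) → C2) : Nm (PC I) :=
  FW.csN (fun x : ℕ × ℕ => FW.opN (natN (PC I) x.1) (natN (PC I) x.2)) (fnD f)

theorem MR.val {f : (I → Y) → C2} {α : I} (hf : MR α f) (n i : ℕ) :
    MS α {z | (f z n).val = i} := by
  have : {z | (f z n).val = i} = {z | ∃ v : ZMod 2, f z n = v ∧ v.val = i} := by
    ext z; simp
  rw [this]
  have : Countable (ZMod 2) := inferInstanceAs (Countable (Fin 2))
  exact MS.ex fun v => (hf n v).and (MS.const _ _)

theorem MR.const {α : I} (x : C2) : MR α (fun _ => x) := fun _ _ => MS.const _ _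

theorem MR.mono {α β : I} (h : α ≤ β) {f : (I → Y) → C2} (hf : MR α f) : MR β f :=
  fun n v => (hf n v).mono h

section
variable [WellFoundedLT I] [OrderBot I]

theorem evc_fnN : EvC (fun (M : Set (Obj I)) z => ∀ f, Obj.fn f ∈ M → MR ⊤ f →
    fnN f ∈ HM M ∧ vl M z (fnN f) = pt (f z)) := by
  refine ((EvC.of (FW.ev_csN (π := ppi I)
      (fun x : ℕ × ℕ => FW.opN (natN (PC I) x.1) (natN (PC I) x.2)) _ FW.ev_nn
      (fun l => match l with
        | [.fn f] => fnD f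
        | _ => fun _ => ∅))).and
    (EvC.all fun x : ℕ × ℕ => evc_ms fun (l : List (Obj I)) => match l with
      | [.fn f] => {z | (f z x.1).val = x.2}
      | _ => ∅)).mono ?_
  rintro M z ⟨h1, h2⟩ f hf hm
  obtain ⟨h3, h4⟩ := h1 [.fn f] (by simpa using hf)
  refine ⟨h3, ?_⟩
  apply ZFSet.ext
  intro x
  rw [mem_pt]
  refine (h4 x).trans ?_
  constructor
  · rintro ⟨⟨n, i⟩, ⟨p, hp, hp'⟩, rfl⟩
    have h5 : (f z n).val = i := hp' z hp.2
    exact ⟨n, by rw [h5]⟩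
  · rintro ⟨n, rfl⟩
    obtain ⟨p, hp1, hp2⟩ := h2 (n, (f z n).val) [.fn f] (by simpa using hf)
      (hm.val n _) rfl
    exact ⟨(n, (f z n).val), ⟨p, hp1, fun z' hz' => hp2 hz'⟩, rfl⟩

theorem evc_PN_of : EvC (fun (M : Set (Obj I)) z => ∀ f, Obj.fn f ∈ M → MR ⊤ f →
    f z ∈ PN (NM M z)) := by
  refine evc_fnN.mono fun M z h f hf hm => ?_
  obtain ⟨h1, h2⟩ := h f hf hm
  exact ⟨fnN f, h1, h2⟩

open Classical in
/-- the function given by answers -/
private noncomputable def ep_fn (A : ℕ → (I → Y) → Prop) (z : I → Y) : C2 :=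
  fun n => if A n z then 1 else 0

omit [OrderTop I] [WellFoundedLT I] [OrderBot I] in
private theorem ep_fn_MR {α : I} {A : ℕ → (I → Y) → Prop} (hA : ∀ n, MS α {z | A n z}) :
    MR α (ep_fn A) := by
  intro n v
  have : {z | ep_fn A z n = v} = {z | (A n z ∧ (1 : ZMod 2) = v) ∨ (¬ A n z ∧ (0 : ZMod 2) = v)} := by
    ext z
    by_cases h : A n z <;> simp [ep_fn, h]
  rw [this]
  exact ((hA n).and (MS.const _ _)).or ((hA n).not.and (MS.const _ _))

theorem evc_PN : EvC (fun (M : Set (Obj I)) z => ∀ x ∈ PN (NM M z), ∃ f, Obj.fn f ∈ M ∧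
    MR ⊤ f ∧ f z = x) := by
  classical
  refine ((evc_read (ι := ℕ) (fun (l : List (Obj I)) n => match l with
      | [.nm τ] => {r | Memf (FW.opN (natN (PC I) n) (natN (PC I) 1)) τ r ∨
          ∀ r' ≤ r, ¬ Memf (FW.opN (natN (PC I) n) (natN (PC I) 1)) τ r'}
      | _ => ∅) (fun l s g => match l with
      | [.nm τ] => .fn (ep_fn fun n z =>
          Memf (FW.opN (natN (PC I) n) (natN (PC I) 1)) τ (s n (g n z)))
      | _ => .nm Nm.emp)).and ((EvC.of FW.ev_mem).and (evc_dir.and ((EvC.of FW.ev_nn).and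
        (EvC.of FW.ev_ne))))).mono ?_
  rintro M z ⟨h1, h2, h3, h4, h5⟩ x hx
  obtain ⟨τ, hτ, hv⟩ := hx
  obtain ⟨p, hp⟩ := h5
  obtain ⟨s, g, a1, a2, a3, a4⟩ := h1 [.nm τ] (fun y hy => by
    rw [List.mem_singleton] at hy
    rw [hy]
    exact hτ) p hp (by
    intro n q _
    by_cases h : ∃ r ≤ q, Memf (FW.opN (natN (PC I) n) (natN (PC I) 1)) τ r
    · obtain ⟨r, hr, hr'⟩ := h
      exact ⟨r, hr, Or.inl hr'⟩
    · push Not at h
      exact ⟨q, le_rfl, Or.inr h⟩)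
  refine ⟨_, a1, ep_fn_MR fun n => ?_, ?_⟩
  · exact MS.subst (R := fun _ k => Memf (FW.opN (natN (PC I) n) (natN (PC I) 1)) τ (s n k))
      (a3 n) fun k => MS.const _ _
  · funext n
    have hiff : Memf (FW.opN (natN (PC I) n) (natN (PC I) 1)) τ (s n (g n z)) ↔ (x n).val = 1 := by
      rw [← pair_mem_pt, ← hv, ← (h4 (n, 1)).2]
      refine Iff.trans ?_ (h2 _ (h4 (n, 1)).1 _ hτ).symm
      constructor
      · intro h
        exact ⟨_, a4 n, h⟩
      · rintro ⟨p', hp', h⟩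
        rcases a2 n (g n z) with h6 | h6
        · exact h6
        · obtain ⟨r, _, hr1, hr2⟩ := h3 _ (a4 n) p' hp'
          exact absurd (Memf_mono h hr2) (h6 r hr1)
    have hx : x n = 0 ∨ x n = 1 := by
      generalize x n = v
      revert v
      decide
    rcases hx with hx | hx
    · have : ¬ Memf (FW.opN (natN (PC I) n) (natN (PC I) 1)) τ (s n (g n z)) := by
        rw [hiff, hx]; simp
      show ep_fn _ z n = x n
      rw [hx]
      exact if_neg this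
    · have : Memf (FW.opN (natN (PC I) n) (natN (PC I) 1)) τ (s n (g n z)) := by
        rw [hiff, hx]; rfl
      show ep_fn _ z n = x n
      rw [hx]
      exact if_pos this

/-- measurable sets of finite sequences are in the model -/
theorem evc_setS (B : List (Obj I) → List Bool → Set (I → Y)) : EvC (fun M z =>
    ∀ l, (∀ x ∈ l, x ∈ M) → (∀ s, MS ⊤ (B l s)) → setS {s | z ∈ B l s} ∈ NM M z) := by
  have e : FW.Ev (ppi I) (fun M G => ∀ s : List Bool, natN (PC I) (Encodable.encode s) ∈ (ppi I).H M ∧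
      (ppi I).vl M G (natN (PC I) (Encodable.encode s)) = nat (Encodable.encode s)) :=
    FW.ev_natN.mono fun M G h s => h _
  refine ((EvC.of (FW.ev_csN (π := ppi I)
      (fun s : List Bool => natN (PC I) (Encodable.encode s)) _ e
      (fun l s => {p | ∀ z ∈ Bod p.1, z ∈ B l s}))).and
    (EvC.all fun s : List Bool => evc_ms fun (l : List (Obj I)) => B l s)).mono ?_
  rintro M z ⟨h1, h2⟩ l hl hB
  obtain ⟨h3, h4⟩ := h1 l hl
  refine ⟨_, h3, ?_⟩
  apply ZFSet.ext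
  intro x
  rw [mem_setS']
  refine (h4 x).trans ?_
  constructor
  · rintro ⟨s, ⟨p, hp, hp'⟩, rfl⟩
    exact ⟨s, hp' z hp.2, rfl⟩
  · rintro ⟨s, hs, rfl⟩
    obtain ⟨p, hp1, hp2⟩ := h2 s l hl (hB s) hs
    exact ⟨s, ⟨p, hp1, fun z' hz' => hp2 hz'⟩, rfl⟩

/-- sequences of sets of finite sequences of the ground model are in the model -/
theorem evc_seqS (S : ℕ → Set (List Bool)) : EvC (fun (M : Set (Obj I)) z => seqS S ∈ NM M z) := by
  have e : FW.Ev (ppi I) (fun M G => ∀ x : ℕ × List Bool,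
      FW.opN (natN (PC I) x.1) (natN (PC I) (Encodable.encode x.2)) ∈ (ppi I).H M ∧
      (ppi I).vl M G (FW.opN (natN (PC I) x.1) (natN (PC I) (Encodable.encode x.2))) =
        ZFSet.pair (nat x.1) (nat (Encodable.encode x.2))) :=
    FW.ev_nn.mono fun M G h x => h (x.1, Encodable.encode x.2)
  refine ((EvC.of (FW.ev_csN (π := ppi I)
      (fun x : ℕ × List Bool => FW.opN (natN (PC I) x.1) (natN (PC I) (Encodable.encode x.2))) _ e
      (fun _ x => {p | x.2 ∈ S x.1}))).and (EvC.of FW.ev_ne)).mono ?_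
  rintro M z ⟨h1, p, hp⟩
  obtain ⟨h3, h4⟩ := h1 [] (by simp)
  refine ⟨_, h3, ?_⟩
  apply ZFSet.ext
  intro x
  rw [mem_seqS']
  refine (h4 x).trans ?_
  constructor
  · rintro ⟨⟨k, s⟩, ⟨p, hp, hp'⟩, rfl⟩
    exact ⟨k, s, hp', rfl⟩
  · rintro ⟨k, s, hs, rfl⟩
    exact ⟨(k, s), ⟨p, hp, hs⟩, rfl⟩

/-- the name of a set of points -/
private def ep_set (B : (I → Y) → Set C2) : Nm (PC I) :=
  .mk {x : PC I × ((I → Y) → C2) // MR ⊤ x.2 ∧ ∀ z ∈ Bod x.1.1, x.2 z ∈ B z}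
    (fun x => fnN x.1.2) (fun x => x.1.1)

theorem evc_setP (B : List (Obj I) → (I → Y) → Set C2) : EvC (fun M z => ∀ l, (∀ x ∈ l, x ∈ M) →
    (∀ f, MR ⊤ f → MS ⊤ {z | f z ∈ B l z}) → setP (B l z ∩ PN (NM M z)) ∈ NM M z) := by
  refine ((EvC.of (FW.ev_fun (π := ppi I) fun l : List (Obj I) => Obj.nm (ep_set (B l)))).and
    ((EvC.of (FW.ev_rel (π := ppi I) fun (l : List (Obj I)) x => match l with
      | .nm σ :: .ob (.c q) :: l => ∃ f, x = Obj.fn f ∧ fnN f = σ ∧ MR ⊤ f ∧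
          ∀ z ∈ Bod q, f z ∈ B l z
      | _ => False)).and
    ((evc_ms fun (l : List (Obj I)) => match l with
      | .fn f :: l => {z | f z ∈ B l z}
      | _ => ∅).and
    (evc_fnN.and (evc_PN_of.and evc_PN))))).mono ?_
  rintro M z ⟨h1, h2, h3, h4, h5, h6⟩ l hl hB
  refine ⟨ep_set (B l), h1 l hl, ?_⟩
  apply ZFSet.ext
  intro x
  rw [mem_setP']
  have hval : x ∈ vl M z (ep_set (B l)) ↔ ∃ a, (ep_set (B l)).fn a ∈ HM M ∧
      (ep_set (B l)).cd a ∈ Gf M z ∧ x = vl M z ((ep_set (B l)).fn a) := by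
    unfold vl FW.Pr.vl
    rw [CR.mem_val]
    rfl
  refine hval.trans ?_
  constructor
  · rintro ⟨⟨⟨q, f⟩, hf1, hf2⟩, hb1, hb2, rfl⟩
    obtain ⟨y, hy, g, rfl, hg1, hg2, hg3⟩ := h2 (.nm (fnN f) :: cn q :: l) (by
      intro y hy
      rcases List.mem_cons.1 hy with rfl | hy
      · exact hb1
      rcases List.mem_cons.1 hy with rfl | hy
      · exact hb2.1
      · exact hl y hy) ⟨.fn f, f, rfl, rfl, hf1, hf2⟩
    refine ⟨g z, ⟨hg3 z hb2.2, h5 g hy hg2⟩, ?_⟩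
    rw [← (h4 g hy hg2).2, hg1]
    rfl
  · rintro ⟨y, ⟨hy1, hy2⟩, rfl⟩
    obtain ⟨f, hf1, hf2, hf3⟩ := h6 y hy2
    obtain ⟨p, hp1, hp2⟩ := h3 (.fn f :: l) (by
      intro y hy
      rcases List.mem_cons.1 hy with rfl | hy
      · exact hf1
      · exact hl y hy) (hB f hf2) (by rw [← hf3] at hy1; exact hy1)
    refine ⟨⟨(p, f), hf2, fun z hz => hp2 hz⟩, (h4 f hf1 hf2).1, hp1, ?_⟩
    rw [← hf3]
    exact (h4 f hf1 hf2).2.symm

end

end Pool.Agent.DN
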