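import Pool.Agent.Lib.MP_d988c5_lc.Closing
import Pool.Agent.Lib.MP_d988c5_lc.Tail

/-!
# MP_d988c5_lc : reflection, and the sum of two non-null sets meets `EE`
-/

namespace Pool.Agent.DN

variable {I : Type} [LinearOrder I] [WellFoundedLT I] [OrderBot I] [OrderTop I]

omit [WellFoundedLT I] [OrderBot I] [OrderTop I] in
theorem NonN.mono {α : I} {R : Cond I → ((I → Y) → C2) → Prop} {p q : Cond I} (h : NonN α R p)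
    (hq : q ≤ p) : NonN α R q := fun q' hq' => h q' (hq'.trans hq)

omit [WellFoundedLT I] [OrderBot I] [OrderTop I] in
theorem NC.mono {α β : I} (h : α ≤ β) {U : (I → Y) → Sl} (hU : NC α U) : NC β U :=
  ⟨fun n s => (hU.1 n s).mono h, hU.2⟩

theorem reflectN (hI : BigIx I) (hbt : (⊥ : I) < ⊤) {R : Cond I → ((I → Y) → C2) → Prop}
    {p : Cond I} (hp : Low ⊤ p) (hN : NonN ⊤ R p) :
    ∃ α α' : I, α ⋖ α' ∧ Low α p ∧ NonN α R p := by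
  classical
  have hch : ∀ q : Cond I, ∀ U : (I → Y) → Sl, ∃ x : Cond I × ((I → Y) → C2),
      (Low ⊤ x.1 ∧ MR ⊤ x.2) ∧ ((q ≤ p ∧ Low ⊤ q ∧ NC ⊤ U) →
        x.1 ≤ q ∧ R x.1 x.2 ∧ ∀ z ∈ Bod x.1, Av U z (x.2 z)) := by
    intro q U
    by_cases h : q ≤ p ∧ Low ⊤ q ∧ NC ⊤ U
    · obtain ⟨q', h1, h2, f, h3, h4, h5⟩ := hN q h.1 h.2.1 U h.2.2
      exact ⟨(q', f), ⟨h2, h3⟩, fun _ => ⟨h1, h4, h5⟩⟩
    · exact ⟨(one I, fun _ _ => 0), ⟨low_one _, fun n v => MS.const _ ((0 : ZMod 2) = v)⟩, fun h' => absurd h' h⟩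
  choose Φ hΦ1 hΦ2 using hch
  obtain ⟨α, hα, hpα, hcl⟩ := closing hI ⟨⊥, hbt⟩ Φ (fun q U _ _ => hΦ1 q U) p hp
  obtain ⟨α', hα'⟩ := exists_covBy_of_wellFoundedLT (a := α) (fun h => absurd (h le_top)
    (not_le.2 hα))
  refine ⟨α, α', hα', hpα, fun q hqp hq U hU => ?_⟩
  obtain ⟨a1, a2⟩ := hcl q U hq hU.1
  obtain ⟨b1, b2, b3⟩ := hΦ2 q U ⟨hqp, hq.mono le_top, hU.mono le_top⟩
  exact ⟨(Φ q U).1, b1, a1, (Φ q U).2, a2, b2, b3⟩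

theorem pair_dense (hI : BigIx I) (hbt : (⊥ : I) < ⊤) {R R' : Cond I → ((I → Y) → C2) → Prop}
    (hR : ∀ q f q', R q f → q' ≤ q → R q' f) (hR' : ∀ q f q', R' q f → q' ≤ q → R' q' f)
    {p : Cond I} (hp : Low ⊤ p) (hN : NonN ⊤ R p) (hN' : NonN ⊤ R' p) :
    ∀ q ≤ p, Low ⊤ q → ∃ q' ≤ q, Low ⊤ q' ∧ ∃ f g, MR ⊤ f ∧ MR ⊤ g ∧ R q' f ∧ R' q' g ∧
      ∀ z ∈ Bod q', f z + g z ∈ EE := by
  obtain ⟨α, α', hα, h1, h2⟩ := reflectN hI hbt hp hN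
  exact tail hα hR hR' h1 h2 hN'

end Pool.Agent.DN
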