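import Pool.Agent.Lib.MP_d988c5_lc.Null
import Pool.Agent.Lib.MP_d988c5_lc.PtB

/-!
# MP_d988c5_lc : coverings of the null sets given by slaloms; the set `EE`
-/

namespace Pool.Agent.DN

/-- the initial segment of length `n` -/
def str (x : Pt) (n : ℕ) : List Bool := List.ofFn fun i : Fin n => decide (x i = 1)

theorem zm_cases (v : ZMod 2) : v = 0 ∨ v = 1 := by
  revert v; decide

theorem ite_decide (v : ZMod 2) : (if (decide (v = 1) : Bool) then (1 : ZMod 2) else 0) = v := by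
  revert v; decide

theorem mem_cyl_str {x y : Pt} {n : ℕ} : y ∈ cyl (str x n) ↔ ∀ i < n, y i = x i := by
  unfold cyl str
  simp only [List.length_ofFn, List.getElem_ofFn, Set.mem_ofPred_eq]
  constructor
  · intro h i hi
    rw [h i hi]; exact ite_decide _
  · intro h i hi
    rw [h i hi]; exact (ite_decide _).symm

theorem self_mem_cyl_str (x : Pt) (n : ℕ) : x ∈ cyl (str x n) := mem_cyl_str.2 fun _ _ => rfl

theorem off_succ (n : ℕ) : off (n + 1) = off n + (dat n).L := by
  unfold off; rw [Finset.sum_range_succ]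

theorem off_mono {m n : ℕ} (h : m ≤ n) : off m ≤ off n := by
  induction n, h using Nat.le_induction with
  | base => exact le_rfl
  | succ n _ ih => rw [off_succ]; omega

theorem blk_congr {x y : Pt} {n m : ℕ} (hn : n < m) (h : ∀ i < off m, x i = y i) :
    blk x n = blk y n := by
  funext i
  have h1 := off_succ n
  have h2 := off_mono (show n + 1 ≤ m from hn)
  exact h _ (by have := i.2; omega)

/-- the function to finite sequences -/
noncomputable def covf (n : ℕ) (B : Finset (VV n)) (x : (Fin (off n) → Bool) × B) : List Bool :=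
  List.ofFn x.1 ++ List.ofFn fun i => decide (x.2.1 i = 1)

/-- the set of the finite sequences (ending at the end of the `n`-th interval) whose last part is in
`B` -/
def cov1 (n : ℕ) (B : Finset (VV n)) : Set (List Bool) := Set.range (covf n B)

theorem mem_cov1 {x : Pt} {n : ℕ} {B : Finset (VV n)} (h : blk x n ∈ B) :
    ∃ s ∈ cov1 n B, x ∈ cyl s := by
  refine ⟨_, ⟨(fun i => decide (x i = 1), ⟨blk x n, h⟩), rfl⟩, ?_⟩
  unfold cyl covf
  simp only [Set.mem_ofPred_eq]
  intro i hi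
  by_cases h1 : i < off n
  · rw [List.getElem_append_left (by simpa using h1), List.getElem_ofFn]
    exact (ite_decide _).symm
  · rw [List.getElem_append_right (by simpa using h1), List.getElem_ofFn]
    have h2 : blk x n (⟨i - (List.ofFn fun i : Fin (off n) => decide (x i = 1)).length, by
        simp only [List.length_append, List.length_ofFn] at hi ⊢
        omega⟩ : Fin (dat n).L) = x i := by
      unfold blk
      congr 1
      simp only [List.length_ofFn]
      omega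
    exact h2.symm.trans (ite_decide _).symm

theorem tsum_cov1 {n : ℕ} {B : Finset (VV n)} (h : B.card * 2 ^ n ≤ 2 ^ (dat n).L) :
    ∑' s : cov1 n B, (2⁻¹ : ENNReal) ^ s.1.length ≤ 2⁻¹ ^ n := by
  have h1 : ∑' s : cov1 n B, (2⁻¹ : ENNReal) ^ s.1.length ≤
      ∑' x : (Fin (off n) → Bool) × B, (2⁻¹ : ENNReal) ^ (covf n B x).length :=
    ENNReal.tsum_le_tsum_comp_of_surjective (f := Set.rangeFactorization (covf n B))
      Set.rangeFactorization_surjective fun s => (2⁻¹ : ENNReal) ^ s.1.length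
  refine h1.trans ?_
  have h2 : ∀ x : (Fin (off n) → Bool) × B, (covf n B x).length = off n + (dat n).L := by
    intro x; simp [covf]
  simp only [h2]
  rw [tsum_fintype, Finset.sum_const, Finset.card_univ, Fintype.card_prod, Fintype.card_fun,
    Fintype.card_bool, Fintype.card_fin, Fintype.card_coe, nsmul_eq_mul, pow_add]
  have h3 : (2 : ENNReal) ^ off n * (2⁻¹) ^ off n = 1 := by
    rw [← mul_pow, ENNReal.mul_inv_cancel (by simp) (by simp), one_pow]
  have h4 : (2 : ENNReal) ^ n * (2⁻¹) ^ n = 1 := by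
    rw [← mul_pow, ENNReal.mul_inv_cancel (by simp) (by simp), one_pow]
  have h5 : (2 : ENNReal) ^ (dat n).L * (2⁻¹) ^ (dat n).L = 1 := by
    rw [← mul_pow, ENNReal.mul_inv_cancel (by simp) (by simp), one_pow]
  have h6 : (B.card : ENNReal) * 2 ^ n ≤ 2 ^ (dat n).L := by exact_mod_cast h
  calc (((2 ^ off n * B.card : ℕ) : ENNReal)) * (2⁻¹ ^ off n * 2⁻¹ ^ (dat n).L)
      = (2 ^ off n * 2⁻¹ ^ off n) * (B.card * 2⁻¹ ^ (dat n).L) := by push_cast; ring
    _ = B.card * 2⁻¹ ^ (dat n).L * (2 ^ n * 2⁻¹ ^ n) := by rw [h3, h4, one_mul, mul_one]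
    _ = (B.card * 2 ^ n) * 2⁻¹ ^ (dat n).L * 2⁻¹ ^ n := by ring
    _ ≤ 2 ^ (dat n).L * 2⁻¹ ^ (dat n).L * 2⁻¹ ^ n := by gcongr
    _ = 2⁻¹ ^ n := by rw [h5, one_mul]

/-- the covering of the set of all `x` with `blk x n ∈ U n` for some `n ≥ k` -/
def covS (U : Sl) (k : ℕ) : Set (List Bool) := ⋃ j, cov1 (k + j) (U (k + j))

theorem mem_covS {U : Sl} {k : ℕ} {x : Pt} (h : ∃ n, k ≤ n ∧ blk x n ∈ U n) :
    x ∈ ⋃ s ∈ covS U k, cyl s := by
  obtain ⟨n, hn, h⟩ := h
  obtain ⟨j, rfl⟩ := Nat.exists_eq_add_of_le hn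
  obtain ⟨s, hs, hx⟩ := mem_cov1 h
  exact Set.mem_biUnion (Set.mem_iUnion.2 ⟨j, hs⟩) hx

theorem tsum_covS {U : Sl} (hU : ∀ n, (U n).card * 2 ^ n ≤ 2 ^ (dat n).L) (k : ℕ) :
    ∑' s : covS U k, (2⁻¹ : ENNReal) ^ s.1.length ≤ 2 * 2⁻¹ ^ k := by
  unfold covS
  refine (ENNReal.tsum_iUnion_le_tsum (fun s : List Bool => (2⁻¹ : ENNReal) ^ s.length) _).trans ?_
  refine (ENNReal.tsum_le_tsum fun j => tsum_cov1 (hU (k + j))).trans ?_
  simp only [pow_add]
  rw [ENNReal.tsum_mul_left, ENNReal.tsum_geometric, ENNReal.one_sub_inv_two, inv_inv, mul_comm]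

/-! ### the set `EE` -/

/-- the slalom of the sets `K` -/
noncomputable def KSl : Sl := fun n => (dat n).K

/-- the `m`-th closed set -/
def EF (m : ℕ) : Set Pt := {x | ∀ k, m ≤ k → ∃ σ : Node, σ.length = k ∧ Vd σ ∧
  blk x (ix σ) ∈ (dat (ix σ)).K}

/-- its code -/
def ES (m : ℕ) : Set (List Bool) := {s | Disjoint (cyl s) (EF m)}

theorem finite_vd (k : ℕ) : {σ : Node | σ.length = k ∧ Vd σ}.Finite := by
  induction k with
  | zero =>
    refine (Set.finite_singleton []).subset ?_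
    rintro σ ⟨h, _⟩
    exact List.length_eq_zero_iff.1 h
  | succ k ih =>
    refine (ih.biUnion (t := fun σ => (fun c => c :: σ) '' Set.Iio (dat (ix σ)).kap) fun σ _ =>
      (Set.finite_Iio _).image _).subset ?_
    rintro τ ⟨h1, h2⟩
    rcases τ with _ | ⟨c, σ⟩
    · simp at h1
    · exact Set.mem_biUnion (show σ ∈ {σ : Node | σ.length = k ∧ Vd σ} from
        ⟨by simpa using h1, h2.2⟩) ⟨c, h2.1, rfl⟩

theorem clo_ES (m : ℕ) : clo (ES m) = EF m := by
  apply Set.Subset.antisymm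
  · intro x hx
    by_contra hno
    unfold EF at hno
    simp only [Set.mem_ofPred_eq, not_forall] at hno
    obtain ⟨k, hk, hno⟩ := hno
    -- a bound for the intervals
    obtain ⟨b, hb⟩ := ((finite_vd k).image ix).bddAbove
    refine hx (str x (off (b + 1))) ?_ (self_mem_cyl_str _ _)
    show Disjoint _ _
    rw [Set.disjoint_left]
    intro y hy hyE
    obtain ⟨σ, h1, h2, h3⟩ := hyE k hk
    refine hno ⟨σ, h1, h2, ?_⟩
    have h4 : ix σ ≤ b := hb ⟨σ, ⟨h1, h2⟩, rfl⟩
    rwa [← blk_congr (Nat.lt_succ_of_le h4) (mem_cyl_str.1 hy)]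
  · intro x hx s hs hxs
    exact Set.disjoint_left.1 hs hxs hx

theorem EE_eq : EE = ⋃ m, EF m := by
  ext x
  simp [EE, EF]

theorem EF_covS (m k : ℕ) : EF m ⊆ ⋃ s ∈ covS KSl k, cyl s := by
  intro x hx
  obtain ⟨σ, h1, _, h3⟩ := hx (max m k) (le_max_left _ _)
  refine mem_covS ⟨ix σ, ?_, h3⟩
  have := length_le_ix σ
  have := le_max_right m k
  omega

theorem KSl_dens (n : ℕ) : (KSl n).card * 2 ^ n ≤ 2 ^ (dat n).L := (dat_ok n).densK

open Pool.Agent.CR (V)

theorem EIn_EE {N : Set V} (h1 : setP (EE ∩ PN N) ∈ N) (h2 : seqS ES ∈ N)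
    (h3 : ∀ k, setS (covS KSl k) ∈ N) : EIn N (EE ∩ PN N) := by
  refine ⟨Set.inter_subset_right, h1, ES, h2, fun m => ?_, ?_⟩
  · refine outer_eq_zero fun k => ⟨covS KSl k, h3 k, ?_, tsum_covS KSl_dens k⟩
    rw [clo_ES]
    exact Set.inter_subset_left.trans (EF_covS m k)
  · refine Set.inter_subset_left.trans ?_
    rw [EE_eq]
    exact Set.iUnion_mono fun m => (clo_ES m).ge

end Pool.Agent.DN
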