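import Pool.Agent.Lib.MP_d988c5_lc.EvP
import Pool.Agent.Lib.MP_d988c5_lc.SlC
import Pool.Agent.Lib.MP_d988c5_lc.Refl

/-!
# MP_d988c5_lc : the model in which the answer is negative
-/

namespace Pool.Agent.DN

open Pool.Agent.CR (Nm V IsTransModelZFC nat natN Memf Memf_mono Mod_trans)

variable {I : Type} [LinearOrder I] [WellFoundedLT I] [OrderBot I] [OrderTop I]

/-- `q` forces that the point `f` is in `τ` -/
def Rn (τ : Nm (PC I)) (q : Cond I) (f : (I → Y) → C2) : Prop :=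
  ∀ r : PC I, r.1 ≤ q → Memf (fnN f) τ r

omit [WellFoundedLT I] [OrderBot I] in
theorem Rn_iff {τ : Nm (PC I)} {p : PC I} {f : (I → Y) → C2} :
    Rn τ p.1 f ↔ Memf (fnN f) τ p :=
  ⟨fun h => h p le_rfl, fun h _ hr => Memf_mono h hr⟩

omit [WellFoundedLT I] [OrderBot I] in
theorem Rn_mono {τ : Nm (PC I)} (q : Cond I) (f : (I → Y) → C2) (q' : Cond I) (h : Rn τ q f)
    (hq : q' ≤ q) : Rn τ q' f := fun r hr => h r (hr.trans hq)

/-- `p` forces that `τ` is a subset of the null set given by the code `U` -/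
def Covd (τ : Nm (PC I)) (U : (I → Y) → Sl) (p : PC I) : Prop :=
  NC ⊤ U ∧ ∀ q ≤ p, ∀ f, MR ⊤ f → Memf (fnN f) τ q → ¬ ∀ z ∈ Bod q.1, Av U z (f z)

omit [WellFoundedLT I] [OrderBot I] in
theorem covd_dense (τ : Nm (PC I)) (p : PC I) :
    ∃ q ≤ p, NonN ⊤ (Rn τ) q.1 ∨ ∃ U, Covd τ U q := by
  by_cases h : NonN ⊤ (Rn τ) p.1
  · exact ⟨p, le_rfl, Or.inl h⟩
  · by_contra hno
    refine h fun q hq hl U hU => ?_
    by_contra hno2
    refine hno ⟨⟨q, hl⟩, hq, Or.inr ⟨U, hU, fun q2 h2 f hf hm hall => ?_⟩⟩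
    exact hno2 ⟨q2.1, h2, q2.2, f, hf, Rn_iff.2 hm, hall⟩

/-! ### measurability -/

omit [WellFoundedLT I] [OrderBot I] [OrderTop I] in
theorem MR.blk {α : I} {f : (I → Y) → C2} (hf : MR α f) (n : ℕ) (v : VV n) :
    MS α {z | blk (f z) n = v} := by
  have : {z | DN.blk (f z) n = v} = {z | ∀ i : Fin (dat n).L, f z (off n + i) = v i} := by
    ext z
    simp only [Set.mem_ofPred_eq, funext_iff, DN.blk]
  rw [this]
  exact MS.all fun i => hf _ _

omit [WellFoundedLT I] [OrderBot I] [OrderTop I] in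
theorem Av_ms {α : I} {f : (I → Y) → C2} (hf : MR α f) {U : (I → Y) → Sl} (hU : MSl α U) :
    MS α {z | Av U z (f z)} := by
  refine MS.ex fun m => MS.all fun n => MS.all fun _ => ?_
  have : {z | blk (f z) n ∉ U z n} = {z | ¬ ∃ s : Finset (VV n), U z n = s ∧
      ∃ v : VV n, blk (f z) n = v ∧ v ∈ s} := by
    ext z; simp
  rw [this]
  exact MS.not (MS.ex fun s => (hU n s).and (MS.ex fun v => (hf.blk n v).and (MS.const _ _)))

omit [WellFoundedLT I] [OrderBot I] [OrderTop I] in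
theorem EE_ms {α : I} {f : (I → Y) → C2} (hf : MR α f) : MS α {z | f z ∈ EE} := by
  refine MS.ex fun m => MS.all fun k => MS.all fun _ => MS.ex fun σ =>
    (MS.const _ _).and ((MS.const _ _).and ?_)
  have : {z | blk (f z) (ix σ) ∈ (dat (ix σ)).K} =
      {z | ∃ v : VV (ix σ), blk (f z) (ix σ) = v ∧ v ∈ (dat (ix σ)).K} := by
    ext z; simp
  rw [this]
  exact MS.ex fun v => (hf.blk _ v).and (MS.const _ _)

omit [WellFoundedLT I] [OrderBot I] [OrderTop I] in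
theorem covS_ms {α : I} {U : (I → Y) → Sl} (hU : MSl α U) (k : ℕ) (s : List Bool) :
    MS α {z | s ∈ covS (U z) k} := by
  have : {z | s ∈ covS (U z) k} = {z | ∃ j, ∃ F : Finset (VV (k + j)), U z (k + j) = F ∧
      s ∈ cov1 (k + j) F} := by
    ext z; simp [covS]
  rw [this]
  exact MS.ex fun j => MS.ex fun F => (hU _ F).and (MS.const _ _)

/-! ### the null case -/

theorem evc_null : EvC (fun (M : Set (Obj I)) z => ∀ τ ∈ HM M, ∀ U, Obj.cd U ∈ M →
    ∀ p ∈ Gf M z, Covd τ U p → ∀ X : Set Pt, setP X = vl M z τ → outer (NM M z) X = 0) := by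
  classical
  refine ((EvC.all (ι := ℕ) fun k => evc_setS (fun (l : List (Obj I)) s => match l with
      | [.cd U] => {z | s ∈ covS (U z) k}
      | _ => ∅)).and ((evc_ms (fun (l : List (Obj I)) => match l with
      | [.fn f, .cd U] => {z : I → Y | Av U z (f z)}
      | _ => ∅)).and ((evc_dir.and (evc_PN.and evc_fnN)).and (EvC.of FW.ev_mem)))).mono ?_
  rintro M z ⟨h1, h2, ⟨h3, h4, h5⟩, h7⟩ τ hτ U hU p hp ⟨c1, c3⟩ X hX
  have hXN : setP X ∈ NM M z := ⟨τ, hτ, hX.symm⟩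
  refine outer_eq_zero fun k => ⟨covS (U z) k, ?_, ?_, tsum_covS (c1.2 z) k⟩
  · exact h1 k [.cd U] (by simpa using hU) fun s => covS_ms c1.1 k s
  · intro x hx
    have hxN : x ∈ PN (NM M z) := Mod_trans _ hXN _ (mem_setP.2 hx)
    obtain ⟨f, hf1, hf2, rfl⟩ := h4 x hxN
    refine mem_covS ?_
    by_contra hno
    push Not at hno
    have hAv : Av U z (f z) := ⟨k, hno⟩
    obtain ⟨p1, hp1, hp2⟩ := h2 [.fn f, .cd U] (by simp [hf1, hU]) (Av_ms hf2 c1.1) hAv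
    have h9 : pt (f z) ∈ vl M z τ := by rw [← hX]; exact mem_setP.2 hx
    rw [← (h5 f hf1 hf2).2] at h9
    obtain ⟨p2, hp3, hp4⟩ := (h7 _ (h5 f hf1 hf2).1 τ hτ).1 h9
    obtain ⟨r, hr, hr1, hr2⟩ := h3 p1 hp1 p2 hp3
    obtain ⟨r', hr', hr3, hr4⟩ := h3 r hr p hp
    exact c3 r' hr4 f hf2 (Memf_mono hp4 (hr3.trans hr2)) fun z' hz' => hp2 (hr1 (hr3 hz'))

/-! ### the non-null case -/

omit [WellFoundedLT I] [OrderBot I] [OrderTop I] in
theorem MR.add {α : I} {f g : (I → Y) → C2} (hf : MR α f) (hg : MR α g) :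
    MR α (fun z => f z + g z) := by
  intro n v
  have : {z | (f z + g z) n = v} = {z | ∃ a b : ZMod 2, (f z n = a ∧ g z n = b) ∧ a + b = v} := by
    ext z; simp
  have hc : Countable (ZMod 2) := inferInstanceAs (Countable (Fin 2))
  show MS α {z | (f z + g z) n = v}
  rw [this]
  exact MS.ex fun a => MS.ex fun b => ((hf n a).and (hg n b)).and (MS.const _ _)

theorem add_self' (x : C2) : x + x = 0 := by
  funext n
  exact CharTwo.add_self_eq_zero _

theorem add_add_self (x y : C2) : x + y + y = x := by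
  rw [add_assoc, add_self', add_zero]

omit [WellFoundedLT I] [OrderBot I] in
/-- translates of non-null sets are non-null -/
theorem NonN.trans {R : Cond I → ((I → Y) → C2) → Prop} {p : Cond I} (h : NonN ⊤ R p)
    {c : (I → Y) → C2} (hc : MR ⊤ c) : NonN ⊤ (fun q f => R q (fun z => f z + c z)) p := by
  classical
  intro q hq hl U hU
  let U' : (I → Y) → Sl := fun z n => (U z n).image fun v => v + blk (c z) n
  have hU' : NC ⊤ U' := by
    refine ⟨fun n s => ?_, fun z n => ?_⟩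
    · have : {z | U' z n = s} = {z | ∃ F : Finset (VV n), U z n = F ∧ ∃ v : VV n,
          blk (c z) n = v ∧ F.image (fun w => w + v) = s} := by
        ext z; simp [U']
      rw [this]
      exact MS.ex fun F => (hU.1 n F).and (MS.ex fun v => (hc.blk n v).and (MS.const _ _))
    · exact (Nat.mul_le_mul_right _ Finset.card_image_le).trans (hU.2 z n)
  obtain ⟨q', h1, h2, f, h3, h4, h5⟩ := h q hq hl U' hU'
  refine ⟨q', h1, h2, fun z => f z + c z, h3.add hc, ?_, fun z hz => ?_⟩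
  · have e : (fun z => f z + c z + c z) = f := by
      funext z; exact add_add_self _ _
    show R q' (fun z => f z + c z + c z)
    rw [e]; exact h4
  · obtain ⟨m, hm⟩ := h5 z hz
    refine ⟨m, fun n hn hmem => hm n hn ?_⟩
    refine Finset.mem_image.2 ⟨_, hmem, ?_⟩
    rw [← blk_add, add_add_self]

/-- the condition `q` knows elements of the two sets with sum (translated by `c`) in `EE` -/
def PrQ (τ τ' : Nm (PC I)) (c : (I → Y) → C2) (q : Cond I) (f g : (I → Y) → C2) : Prop :=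
  MR ⊤ f ∧ MR ⊤ g ∧ Rn τ q f ∧ Rn τ' q (fun z => g z + c z) ∧ ∀ z ∈ Bod q, f z + g z ∈ EE

theorem evc_non (hI : BigIx I) (hbt : (⊥ : I) < ⊤) : EvC (fun (M : Set (Obj I)) z =>
    ∀ τ ∈ HM M, ∀ τ' ∈ HM M, ∀ c, Obj.fn c ∈ M → MR ⊤ c → ∀ p ∈ Gf M z,
      NonN ⊤ (Rn τ) p.1 → NonN ⊤ (Rn τ') p.1 →
      ∀ X X' : Set Pt, setP X = vl M z τ → setP X' = vl M z τ' →
        ∃ x ∈ X, ∃ y ∈ X', x + y + c z ∈ EE ∩ PN (NM M z)) := by
  classical
  have e1 := EvC.of (FW.ev_below (π := ppi I) (fun l => match l with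
    | [.nm τ, .nm τ', .fn c] => {q : PC I | ∃ f g, PrQ τ τ' c q.1 f g}
    | _ => ∅))
  have e2 := EvC.of (FW.ev_rel (π := ppi I) (fun l x => ∃ τ τ' c q f g,
    l = [.nm τ, .nm τ', .fn c, cn q] ∧ x = .fn f ∧ PrQ τ τ' c q.1 f g))
  have e3 := EvC.of (FW.ev_rel (π := ppi I) (fun l x => ∃ τ τ' c q f g,
    l = [.nm τ, .nm τ', .fn c, cn q, .fn f] ∧ x = .fn g ∧ PrQ τ τ' c q.1 f g))
  have e4 := EvC.of (FW.ev_fun (π := ppi I) (fun l => match l with
    | [.fn f, .fn g] => .fn (fun z => f z + g z)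
    | _ => .nm Nm.emp))
  refine ((e1.and (e2.and (e3.and e4))).and (evc_fnN.and ((EvC.of FW.ev_mem).and
    evc_PN_of))).mono ?_
  rintro M z ⟨⟨e1, e2, e3, e4⟩, e10, e11, e12⟩ τ hτ τ' hτ' c hcM hc p hp hN hN' X X' hX hX'
  have hl : ∀ x ∈ [Obj.nm τ, .nm τ', .fn c], x ∈ M := by
    intro x hx
    simp only [List.mem_cons, List.not_mem_nil, or_false] at hx
    rcases hx with rfl | rfl | rfl
    · exact hτ
    · exact hτ'
    · exact hcM
  obtain ⟨q, hq, _, f0, g0, hfg0⟩ := e1 [.nm τ, .nm τ', .fn c] hl p hp (fun q hq => by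
    obtain ⟨q', h1, h2, f, g, h3⟩ := pair_dense hI hbt (R := Rn τ)
      (R' := fun q f => Rn τ' q (fun z => f z + c z)) Rn_mono (fun q f q' h h' =>
        Rn_mono _ _ _ h h') p.2 hN (hN'.trans hc) q.1 hq q.2
    exact ⟨⟨q', h2⟩, h1, f, g, h3⟩)
  obtain ⟨y, hy, hy'⟩ := e2 [.nm τ, .nm τ', .fn c, cn q] (by
    intro x hx
    simp only [List.mem_cons, List.not_mem_nil, or_false] at hx
    rcases hx with rfl | rfl | rfl | rfl
    · exact hτ
    · exact hτ'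
    · exact hcM
    · exact hq.1) ⟨.fn f0, τ, τ', c, q, f0, g0, rfl, rfl, hfg0⟩
  obtain ⟨σ, σ', c', q', f, g1, h1, rfl, hg1⟩ := hy'
  simp only [List.cons.injEq, Obj.nm.injEq, Obj.fn.injEq, and_true] at h1
  obtain ⟨rfl, rfl, rfl, h1⟩ := h1
  obtain rfl := cn_inj h1
  obtain ⟨w, hw, hw'⟩ := e3 [.nm τ, .nm τ', .fn c, cn q, .fn f] (by
    intro x hx
    simp only [List.mem_cons, List.not_mem_nil, or_false] at hx
    rcases hx with rfl | rfl | rfl | rfl | rfl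
    · exact hτ
    · exact hτ'
    · exact hcM
    · exact hq.1
    · exact hy) ⟨.fn g1, τ, τ', c, q, f, g1, rfl, rfl, hg1⟩
  obtain ⟨σ, σ', c', q', f', g, h1, rfl, hg⟩ := hw'
  simp only [List.cons.injEq, Obj.nm.injEq, Obj.fn.injEq, and_true] at h1
  obtain ⟨rfl, rfl, rfl, h1, rfl⟩ := h1
  obtain rfl := cn_inj h1
  obtain ⟨h1, h2, h3, h4, h5⟩ := hg
  have hgc : Obj.fn (fun z => g z + c z) ∈ M := e4 [.fn g, .fn c] (by simp [hw, hcM])
  have hfg : Obj.fn (fun z => f z + g z) ∈ M := e4 [.fn f, .fn g] (by simp [hy, hw])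
  refine ⟨f z, ?_, g z + c z, ?_, ?_⟩
  · rw [← mem_setP, hX, ← (e10 f hy h1).2]
    exact (e11 _ (e10 f hy h1).1 τ hτ).2 ⟨q, hq, Rn_iff.1 h3⟩
  · rw [← mem_setP, hX', ← (e10 _ hgc (h2.add hc)).2]
    exact (e11 _ (e10 _ hgc (h2.add hc)).1 τ' hτ').2 ⟨q, hq, Rn_iff.1 h4⟩
  · have e : f z + (g z + c z) + c z = f z + g z := by
      rw [add_assoc, add_add_self]
    rw [e]
    have h6 := h5 z hq.2
    have h7 := e12 _ hfg (h1.add h2)
    exact Set.mem_inter h6 h7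

theorem evc_dich : EvC (fun (M : Set (Obj I)) z => ∀ τ ∈ HM M, ∃ p ∈ Gf M z,
    NonN ⊤ (Rn τ) p.1 ∨ ∃ U, Obj.cd U ∈ M ∧ Covd τ U p) := by
  classical
  refine ((EvC.of (FW.ev_dense (π := ppi I) (fun l => match l with
    | [.nm τ] => {q : PC I | NonN ⊤ (Rn τ) q.1 ∨ ∃ U, Covd τ U q}
    | _ => ∅))).and (EvC.of (FW.ev_rel (π := ppi I) (fun l x => match l, x with
    | [.nm τ, .ob (.c p)], .cd U => ∃ h : Low ⊤ p, Covd τ U ⟨p, h⟩
    | _, _ => False)))).mono ?_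
  rintro M z ⟨h3, h4⟩ τ hτ
  obtain ⟨p, hp, hp'⟩ := h3 [.nm τ] (fun x hx => by
    rw [List.mem_singleton.1 hx]; exact hτ) (fun p => covd_dense τ p)
  have hp' : NonN ⊤ (Rn τ) p.1 ∨ ∃ U, Covd τ U p := hp'
  rcases hp' with hp' | ⟨U0, hU0⟩
  · exact ⟨p, hp, Or.inl hp'⟩
  · obtain ⟨x, hx, hx'⟩ := h4 [.nm τ, cn p] (by
      intro x hx
      simp only [List.mem_cons, List.not_mem_nil, or_false] at hx
      rcases hx with rfl | rfl
      · exact hτ
      · exact hp.1) ⟨.cd U0, p.2, hU0⟩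
    obtain ⟨U, rfl⟩ : ∃ U, x = .cd U := by
      revert hx'
      unfold cn
      rcases x with _ | _ | _ | U <;> intro hx'
      · exact hx'.elim
      · exact hx'.elim
      · exact hx'.elim
      · exact ⟨U, rfl⟩
    obtain ⟨_, hU⟩ : ∃ h : Low ⊤ p.1, Covd τ U ⟨p.1, h⟩ := hx'
    exact ⟨p, hp, Or.inr ⟨U, hx, hU⟩⟩

theorem evc_EIn : EvC (fun (M : Set (Obj I)) z => EIn (NM M z) (EE ∩ PN (NM M z))) := by
  refine ((evc_setP fun (_ : List (Obj I)) _ => EE).and ((evc_seqS ES).and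
    (EvC.all fun k : ℕ => evc_setS fun (_ : List (Obj I)) s => {_z | s ∈ covS KSl k}))).mono ?_
  rintro M z ⟨h1, h2, h3⟩
  refine EIn_EE (h1 [] (by simp) fun f hf => EE_ms hf) h2 fun k => ?_
  exact h3 k [] (by simp) fun s => MS.const _ _

theorem evc_strong (hI : BigIx I) (hbt : (⊥ : I) < ⊤) : EvC (fun (M : Set (Obj I)) z =>
    ∀ X X' : Set Pt, setP X ∈ NM M z → setP X' ∈ NM M z → outer (NM M z) X ≠ 0 →
      outer (NM M z) X' ≠ 0 → ∀ x ∈ PN (NM M z), ∃ a ∈ X, ∃ b ∈ X',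
        a + b + x ∈ EE ∩ PN (NM M z)) := by
  refine ((evc_null (I := I)).and ((evc_non hI hbt).and (evc_dich.and (evc_dir.and evc_PN)))).mono ?_
  rintro M z ⟨h1, h2, h3, h4, h5⟩ X X' ⟨τ, hτ, hX⟩ ⟨τ', hτ', hX'⟩ hn hn' x hx
  obtain ⟨c, hc1, hc2, rfl⟩ := h5 x hx
  obtain ⟨p, hp, hp'⟩ := h3 τ hτ
  rcases hp' with hp' | ⟨U, hU, hU'⟩
  swap
  · exact absurd (h1 τ hτ U hU p hp hU' X hX.symm) hn
  obtain ⟨q, hq, hq'⟩ := h3 τ' hτ'
  rcases hq' with hq' | ⟨U, hU, hU'⟩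
  swap
  · exact absurd (h1 τ' hτ' U hU q hq hU' X' hX'.symm) hn'
  obtain ⟨r, hr, hr1, hr2⟩ := h4 p hp q hq
  exact h2 τ hτ τ' hτ' c hc1 hc2 r hr (hp'.mono hr1) (hq'.mono hr2) X X' hX.symm hX'.symm

/-! ### the conclusion -/

/-- everything that is needed -/
structure Good (N : Set V) : Prop where
  zfc : IsTransModelZFC N
  ein : EIn N (EE ∩ PN N)
  str : ∀ X X' : Set Pt, setP X ∈ N → setP X' ∈ N → outer N X ≠ 0 →
      outer N X' ≠ 0 → ∀ x ∈ PN N, ∃ a ∈ X, ∃ b ∈ X', a + b + x ∈ EE ∩ PN N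
  emp : setS {[]} ∈ N
  zero : (0 : Pt) ∈ PN N

theorem Good.no {N : Set V} (h : Good N) : StrongNo N ∧ ¬ Q1 N := by
  refine ⟨⟨EE ∩ PN N, h.ein, fun X X' _ _ hX hX' hn hn' => ?_⟩, fun hQ => ?_⟩
  · obtain ⟨a, ha, b, hb, hab⟩ := h.str X X' hX hX' hn hn' 0 h.zero
    exact ⟨a, ha, b, hb, by rwa [add_zero] at hab⟩
  · obtain ⟨G, hG1, hG2, _, hG3, x, hx, hG4⟩ := hQ _ h.ein
    have hn : outer N G ≠ 0 := fun h' => hG3 (measurableIn_of_null h.emp h')
    obtain ⟨a, ha, b, hb, hab⟩ := h.str G G hG2 hG2 hn hn x hx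
    refine hG4 _ hab ?_
    rw [add_add_self]
    exact G.add_mem ha hb

theorem evc_zero : EvC (fun (M : Set (Obj I)) z => (0 : Pt) ∈ PN (NM M z)) := by
  refine ((EvC.of (FW.ev_fun (π := ppi I) fun _ => Obj.fn (fun _ => (0 : C2)))).and
    evc_PN_of).mono fun M z h => ?_
  have h3 : Obj.fn (fun _ => (0 : C2)) ∈ M := h.1 [] (by simp)
  exact h.2 (fun _ => (0 : C2)) h3 (MR.const (0 : C2))

theorem evc_good (hI : BigIx I) (hbt : (⊥ : I) < ⊤) :
    EvC (fun (M : Set (Obj I)) z => Good (NM M z)) := by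
  refine ((EvC.of FW.ev_zfc).and (evc_EIn.and ((evc_strong hI hbt).and ((evc_setS
      fun _ s => {_z | s = []}).and evc_zero)))).mono ?_
  rintro M z ⟨h1, h2, h3, h4, h5⟩
  have h6 : setS {[]} ∈ NM M z := h4 [] (by simp) fun s => MS.const _ _
  exact ⟨h1, h2, h3, h6, h5⟩

omit [WellFoundedLT I] [OrderBot I] in
theorem NM_countable {M : Set (Obj I)} (h : M.Countable) (z : I → Y) : (NM M z).Countable := by
  refine Set.Countable.image ?_ _
  refine h.preimage_of_injOn fun x _ y _ h => ?_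
  have h : Obj.nm x = Obj.nm y := h
  simpa using h

theorem main_no : ∃ N : Set V, N.Countable ∧ IsTransModelZFC N ∧ StrongNo N ∧ ¬ Q1 N := by
  obtain ⟨I, i1, i2, i3, i4, hbt, hI⟩ := exists_index
  obtain ⟨M, z, _, _, h1, h2⟩ := ((EvC.of FW.ev_cnt).and (evc_good hI hbt)).exists
    ∅ Set.countable_empty ⟨one I, low_one _⟩
  exact ⟨NM M z, NM_countable h1 z, h2.zfc, h2.no⟩

end Pool.Agent.DN
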