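import Pool.Agent.Lib.MP_d988c5_lc.Model

/-!
# MP_d988c5_lc : the front lemma
-/

namespace Pool.Agent.DN

variable {I : Type} [LinearOrder I]

theorem Gd_mono {S S' : Set (Cond I)} (h : S ⊆ S') (β : I) (r : Cond I) (n n' : ℕ) (z : I → Y)
    (j : ℕ) : Gd S β r n n' z j ⊆ Gd S' β r n n' z j := by
  induction j with
  | zero =>
    rintro ρ ⟨h1, r', h2, h3⟩
    exact ⟨h1, r', h h2, h3⟩
  | succ j ih =>
    rintro ρ (h1 | ⟨h1, h2⟩)
    · exact Or.inl (ih h1)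
    · exact Or.inr ⟨h1, h2.mono fun c hc => ih hc⟩

theorem Gd_le (S : Set (Cond I)) (β : I) (r : Cond I) (n n' : ℕ) (z : I → Y) {j k : ℕ}
    (h : j ≤ k) : Gd S β r n n' z j ⊆ Gd S β r n n' z k := by
  induction k, h using Nat.le_induction with
  | base => exact Set.Subset.rfl
  | succ k _ ih => exact fun ρ hρ => Or.inl (ih hρ)

theorem Gd_sub (S : Set (Cond I)) (β : I) (r : Cond I) (n n' : ℕ) (z : I → Y) (j : ℕ) :
    Gd S β r n n' z j ⊆ r.C β z := by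
  induction j with
  | zero => exact fun ρ hρ => hρ.1
  | succ j ih =>
    rintro ρ (h1 | h1)
    · exact ih h1
    · exact h1.1

theorem Gd_ms {S : Set (Cond I)} (hS : S.Countable) (β : I) (r : Cond I) (n n' : ℕ) (j : ℕ)
    (ρ : Node) : MS β {z | ρ ∈ Gd S β r n n' z j} := by
  induction j generalizing ρ with
  | zero =>
    have hc : Countable {r' // r' ∈ S} := hS.to_subtype
    have : {z | ρ ∈ Gd S β r n n' z 0} = {z | ρ ∈ r.C β z ∧ ∃ r' : {r' // r' ∈ S},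
        z ∈ BodB r'.1 β ∧ ρ ∈ r'.1.C β z ∧ lev n' (r'.1.C β z) ρ} := by
      ext z
      constructor
      · rintro ⟨h1, r', h2, h3⟩
        exact ⟨h1, ⟨r', h2⟩, h3⟩
      · rintro ⟨h1, r', h3⟩
        exact ⟨h1, r'.1, r'.2, h3⟩
    rw [this]
    exact (r.meas β ρ).and (MS.ex fun r' => (BodB_ms r'.1 β).and
      ((r'.1.meas β ρ).and (MS.lev (fun τ => r'.1.meas β τ) n' ρ)))
  | succ j ih =>
    exact (ih ρ).or ((r.meas β ρ).and (MS.bgn (fun c => ih (c :: ρ)) n ρ))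

namespace Front

/-- a nonterminal initial segment of `σ` continues inside `σ` -/
theorem next_suffix {τ σ : Node} (h : τ <:+ σ) (hne : τ ≠ σ) : ∃ c, c :: τ <:+ σ := by
  obtain ⟨l, hl⟩ := h
  rcases List.eq_nil_or_concat l with rfl | ⟨l', c, rfl⟩
  · exact absurd hl hne
  · exact ⟨c, l', by rw [← hl]; simp⟩

/-- the tree of the nodes of `R` which are not above a good node -/
def TT (R : Set Node) (σ : Node) (Good : Node → Prop) : Set Node :=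
  {τ | τ ∈ R ∧ (τ <:+ σ ∨ (σ <:+ τ ∧ ∀ ρ, σ <:+ ρ → ρ <:+ τ → ¬ Good ρ))}

theorem key {R : Set Node} {Good : Node → Prop} {G : ℕ → Set Node} {n : ℕ}
    (hG : ∀ ρ, Good ρ ↔ ∃ j, ρ ∈ G j) (hmono : ∀ j k, j ≤ k → G j ⊆ G k)
    (hstep : ∀ j ρ, ρ ∈ R → bgn n ρ {c | c :: ρ ∈ G j} → ρ ∈ G (j + 1))
    {ρ : Node} (hρ : ρ ∈ R) (hng : ¬ Good ρ) {j : ℕ} (hj : n ≤ j)
    (hb : bgn (j + 1) ρ (suc R ρ)) : bgn j ρ {c | c :: ρ ∈ R ∧ ¬ Good (c :: ρ)} := by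
  classical
  have h1 : bgn (j + 1) ρ ({c | Good (c :: ρ)} ∪ {c | c :: ρ ∈ R ∧ ¬ Good (c :: ρ)}) := by
    refine hb.mono fun c hc => ?_
    by_cases hg : Good (c :: ρ)
    · exact Or.inl hg
    · exact Or.inr ⟨hc, hg⟩
  rcases h1.split2 with h2 | h2
  swap
  · exact h2
  exfalso
  have h3 : ∀ c, ∃ k, Good (c :: ρ) → c :: ρ ∈ G k := by
    intro c
    by_cases hg : Good (c :: ρ)
    · obtain ⟨k, hk⟩ := (hG _).1 hg
      exact ⟨k, fun _ => hk⟩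
    · exact ⟨0, fun h => absurd h hg⟩
  choose k hk using h3
  have h4 : bgn j ρ {c | c :: ρ ∈ G ((Finset.range (dat (ix ρ)).kap).sup k)} := by
    refine bg.mono (bg.inter h2) ?_
    rintro c ⟨hc1, hc2⟩
    exact hmono _ _ (Finset.le_sup (f := k) (Finset.mem_range.2 hc2)) (hk c hc1)
  exact hng ((hG ρ).2 ⟨_, hstep _ _ hρ (h4.anti hj)⟩)

theorem TT_pos {R : Set Node} (hR : Pos R) {σ : Node} (hσ : σ ∈ R) {Good : Node → Prop}
    {G : ℕ → Set Node} {n : ℕ}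
    (hG : ∀ ρ, Good ρ ↔ ∃ j, ρ ∈ G j) (hmono : ∀ j k, j ≤ k → G j ⊆ G k)
    (hstep : ∀ j ρ, ρ ∈ R → bgn n ρ {c | c :: ρ ∈ G j} → ρ ∈ G (j + 1))
    (hlev : lev (n + 1) R σ) (hng : ¬ Good σ) : Pos (TT R σ Good) := by
  -- the non-good children
  have hch : ∀ τ, τ ∈ R → σ <:+ τ → (∀ ρ, σ <:+ ρ → ρ <:+ τ → ¬ Good ρ) →
      {c | c :: τ ∈ R ∧ ¬ Good (c :: τ)} ⊆ suc (TT R σ Good) τ := by
    intro τ _ h2 h3 c hc
    refine ⟨hc.1, Or.inr ⟨h2.trans (List.suffix_cons _ _), fun ρ h4 h5 => ?_⟩⟩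
    rcases suffix_cons_iff'.1 h5 with h6 | h6
    · rw [h6]; exact hc.2
    · exact h3 ρ h4 h6
  have hself : ∀ ρ, σ <:+ ρ → ρ <:+ σ → ¬ Good ρ := by
    intro ρ h1 h2
    have : ρ = σ := h2.eq_of_length (le_antisymm h2.length_le h1.length_le)
    rw [this]; exact hng
  refine ⟨⟨hR.nil, Or.inl List.nil_suffix⟩, ?_, fun τ hτ => hR.ful τ hτ.1, ?_, ?_⟩
  · rintro c τ ⟨h1, h2⟩
    refine ⟨hR.closed _ _ h1, ?_⟩
    rcases h2 with h2 | ⟨h2, h3⟩
    · exact Or.inl ((List.suffix_cons _ _).trans h2)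
    · rcases suffix_cons_iff'.1 h2 with h4 | h4
      · exact Or.inl (h4 ▸ List.suffix_cons _ _)
      · exact Or.inr ⟨h4, fun ρ h5 h6 => h3 ρ h5 (h6.trans (List.suffix_cons _ _))⟩
  · rintro τ ⟨h1, h2⟩
    have hup : σ <:+ τ → (∀ ρ, σ <:+ ρ → ρ <:+ τ → ¬ Good ρ) → ∃ c, c :: τ ∈ TT R σ Good := by
      intro h3 h4
      have h5 := key hG hmono hstep h1 (h4 τ h3 List.suffix_rfl) le_rfl (hlev τ h1 h3)
      obtain ⟨c, hc, _⟩ := h5.nonempty
      exact ⟨c, hch τ h1 h3 h4 hc⟩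
    rcases h2 with h2 | ⟨h2, h3⟩
    · rcases eq_or_ne τ σ with rfl | hne
      · exact hup List.suffix_rfl hself
      · obtain ⟨c, hc⟩ := next_suffix h2 hne
        exact ⟨c, hR.closed' hc hσ, Or.inl hc⟩
    · exact hup h2 h3
  · intro j
    obtain ⟨t, ht⟩ := hR.big (max j n + 1)
    refine ⟨max t (ix σ), fun τ hτ hj => ?_⟩
    have h3 : σ <:+ τ ∧ ∀ ρ, σ <:+ ρ → ρ <:+ τ → ¬ Good ρ := by
      rcases hτ.2 with h3 | h3
      · have h4 := ix_le_of_suffix h3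
        have e : ix τ = ix σ := le_antisymm h4 ((le_max_right _ _).trans hj)
        have e' : τ = σ := ix_inj e
        rw [e']
        exact ⟨List.suffix_rfl, hself⟩
      · exact h3
    have h4 := key hG hmono hstep hτ.1 (h3.2 τ h3.1 List.suffix_rfl) (le_max_right j n)
      (ht τ hτ.1 ((le_max_left _ _).trans hj))
    exact (h4.anti (le_max_left j n)).mono (hch τ hτ.1 h3.1 h3.2)

end Front

variable [WellFoundedLT I]

/-- the front lemma (see the blueprint, Part 3) -/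
theorem front {α β : I} (hβ : β ⋖ α) (hc : Cov β) (hd : Dec β) {r : Cond I} (hr : Low α r)
    {D : Set (Cond I)} (hD : Dn α D) (n n' : ℕ) (σ : Node) {q : Cond I} (hq : Low β q)
    (h : Bod q ⊆ FrA β r n σ) :
    ∃ q' ≤ q, Low β q' ∧ ∃ S : Set (Cond I), S.Countable ∧ FrW β r D n n' σ q' S := by
  classical
  have hqr : q ≤ res r β := by
    rw [le_iff, Bod_res]; exact fun z hz => (h hz).1
  let G1 : Node → Set (Cond I) := fun ρ => {q1 | Low β q1 ∧ q1 ≤ q ∧ ∃ r', r' ∈ D ∧ r' ≤ r ∧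
    q1 ≤ res r' β ∧ ∀ z ∈ Bod q1, ρ ∈ r'.C β z ∧ lev n' (r'.C β z) ρ}
  obtain ⟨e, he⟩ := exists_surjective_nat Node
  obtain ⟨q0, a1, a2, S, a3, a4⟩ := hc q hq
    (fun k => {q1 | Low β q1 ∧ (q1 ∈ G1 (e k) ∨ ¬ ∃ q2 ≤ q1, Low β q2 ∧ q2 ∈ G1 (e k))}) (by
      intro k q' _ hl
      by_cases hex : ∃ q2 ≤ q', Low β q2 ∧ q2 ∈ G1 (e k)
      · obtain ⟨q2, b1, b2, b3⟩ := hex
        exact ⟨q2, b1, b2, b2, Or.inl b3⟩
      · exact ⟨q', le_rfl, hl, hl, Or.inr hex⟩)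
  have hch : ∀ ρ q1, q1 ∈ G1 ρ → ∃ r', r' ∈ D ∧ r' ≤ r ∧
      q1 ≤ res r' β ∧ ∀ z ∈ Bod q1, ρ ∈ r'.C β z ∧ lev n' (r'.C β z) ρ := fun ρ q1 h1 => h1.2.2
  choose! rr hrr using hch
  let S' : Set (Cond I) := ⋃ k, (rr (e k)) '' (S k ∩ G1 (e k))
  have hS' : S'.Countable :=
    Set.countable_iUnion fun k => ((a3 k).1.mono Set.inter_subset_left).image _
  have hS'D : S' ⊆ {r' | r' ≤ r ∧ r' ∈ D} := by
    intro r' hr'
    obtain ⟨k, hk⟩ := Set.mem_iUnion.1 hr'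
    obtain ⟨q1, h1, rfl⟩ := hk
    have h2 := hrr (e k) q1 h1.2
    exact ⟨h2.2.1, h2.1⟩
  obtain ⟨q', b1, b2, b3⟩ := hd {z | ∀ j, σ ∉ Gd S' β r n n' z j}
    (MS.all fun j => (Gd_ms hS' β r n n' j σ).not) q0 a2
  rcases b3 with b3 | b3
  swap
  · refine ⟨q', b2.trans a1, b1, S', hS', hS'D, fun z hz => ?_⟩
    by_contra hno
    push Not at hno
    exact Set.disjoint_left.1 b3 hz hno
  exfalso
  have hq'q : q' ≤ q := b2.trans a1
  -- the tree without good nodes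
  let T : (I → Y) → Set Node := fun z => {τ | Vd τ ∧ (z ∈ Bod q' →
    τ ∈ Front.TT (r.C β z) σ (fun ρ => ∃ j, ρ ∈ Gd S' β r n n' z j))}
  have hTm : ∀ τ, MS β {z | τ ∈ T z} := by
    intro τ
    refine (MS.const _ _).and ((Bod_ms b1).imp ((r.meas β τ).and ((MS.const _ _).or
      ((MS.const _ _).and (MS.all fun ρ => MS.all fun _ => MS.all fun _ =>
        (MS.ex fun j => Gd_ms hS' β r n n' j ρ).not)))))
  have hTin : ∀ z ∈ Bod q', T z = Front.TT (r.C β z) σ (fun ρ => ∃ j, ρ ∈ Gd S' β r n n' z j) := by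
    intro z hz
    ext τ
    constructor
    · rintro ⟨_, h2⟩; exact h2 hz
    · intro h2; exact ⟨(r.pos β z).ful τ h2.1, fun _ => h2⟩
  have hTp : ∀ z, Pos (T z) := by
    intro z
    by_cases hz : z ∈ Bod q'
    · rw [hTin z hz]
      have hz1 := h (hq'q hz)
      refine Front.TT_pos (n := n) (G := fun j => Gd S' β r n n' z j) (r.pos β z) hz1.2.1
        (fun ρ => Iff.rfl) (fun j k hjk => Gd_le S' β r n n' z hjk) ?_ hz1.2.2 ?_
      · intro j ρ h1 h2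
        exact Or.inr ⟨h1, h2⟩
      · rintro ⟨j, hj⟩
        exact b3 hz j hj
    · have : T z = Ful := by
        ext τ
        constructor
        · exact fun h1 => h1.1
        · exact fun h1 => ⟨h1, fun h2 => absurd h2 hz⟩
      rw [this]; exact Pos.univ
  let p1 : Cond I := setC (glue q' r β) β T hTm hTp
  have hp1B : BodB p1 β = Bod q' := by
    rw [Bod_of_low b1, ← BodB_glue q' r β]
    ext z
    simp only [mem_BodB]
    refine forall_congr' fun ξ => forall_congr' fun hξ => forall_congr' fun m => ?_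
    rw [setC_ne _ hξ.ne]
  have hp1low : Low α p1 := by
    intro ξ hξ z
    have h1 : ξ ≠ β := (lt_of_lt_of_le hβ.lt hξ).ne'
    show (setC (glue q' r β) β T hTm hTp).C ξ z = Ful
    rw [setC_ne _ h1, glue_C_ge _ _ (hβ.lt.le.trans hξ)]
    exact hr ξ hξ z
  have hp1r : p1 ≤ r := by
    refine le_trans ?_ (glue_le (q := q') (p := r) (α := β) (hq'q.trans hqr))
    intro z hz ξ m
    by_cases hξ : ξ = β
    · subst hξ
      have h1 := hz ξ m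
      have h2 : z ∈ Bod q' := by
        rw [← hp1B]; exact Bod_sub_BodB p1 ξ hz
      rw [show p1.C ξ z = T z from setC_eq _ _ _ _ _ _, hTin z h2] at h1
      rw [glue_C_ge _ _ le_rfl]
      exact h1.1
    · have h1 := hz ξ m
      rwa [show p1.C ξ z = (glue q' r β).C ξ z from setC_ne _ hξ _ _ _ _] at h1
  obtain ⟨r1, c1, c2⟩ := hD.dns p1 hp1low
  have hr1r : r1 ≤ r := c1.trans hp1r
  have hq1 : res r1 β ≤ q' := by
    rw [le_iff, Bod_res, ← hp1B]; exact BodB_mono c1 β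
  -- the nodes of `r1` at `β` are in the tree
  have hr1T : ∀ z ∈ Bod (res r1 β), r1.C β z ⊆
      Front.TT (r.C β z) σ (fun ρ => ∃ j, ρ ∈ Gd S' β r n n' z j) := by
    intro z hz
    have h1 : z ∈ BodB r1 β := by rwa [Bod_res] at hz
    have h2 := C_mono c1 h1
    rw [show p1.C β z = T z from setC_eq _ _ _ _ _ _, hTin z (hq1 hz)] at h2
    exact h2
  obtain ⟨ρ, q2, d1, d2, d3⟩ := dec_nat_of hc hd (ι := Node)
    (A := fun ρ => {z | ρ ∈ r1.C β z ∧ σ <:+ ρ ∧ lev n' (r1.C β z) ρ})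
    (fun ρ => (r1.meas β ρ).and ((MS.const _ _).and (MS.lev (fun τ => r1.meas β τ) n' ρ)))
    (low_res r1 β) (by
      intro z hz
      have h1 : σ ∈ r1.C β z := by
        refine mem_of_comp (r1.pos β z) fun τ hτ => ?_
        rcases (hr1T z hz hτ).2 with h2 | h2
        · exact Or.inl h2
        · exact Or.inr h2.1
      obtain ⟨ρ, h2, h3, h4⟩ := (r1.pos β z).exists_lev h1 n'
      exact ⟨ρ, h2, h3, h4⟩)
  have hG1 : ∀ q5 ≤ q2, Low β q5 → q5 ∈ G1 ρ := by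
    intro q5 h5 hl
    refine ⟨hl, (h5.trans (d1.trans hq1)).trans hq'q, r1, c2, hr1r, h5.trans d1, fun z hz => ?_⟩
    have := d3 (h5 hz)
    exact ⟨this.1, this.2.2⟩
  obtain ⟨k, rfl⟩ := he ρ
  have hcS : Countable {r2 // r2 ∈ S k} := (a3 k).1.to_subtype
  obtain ⟨⟨q3, hq3⟩, q5, f1, f2, f3⟩ := dec_nat_of hc hd (ι := {r2 // r2 ∈ S k})
    (A := fun r2 => Bod r2.1) (fun r2 => Bod_ms ((a3 k).2 r2.2).1) d2 (by
      intro z hz
      obtain ⟨r2, h1, h2⟩ := a4 z (b2 (hq1 (d1 hz))) k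
      exact ⟨⟨r2, h1⟩, h2⟩)
  have g1 : q3 ∈ G1 (e k) := by
    rcases ((a3 k).2 hq3).2 with g | g
    · exact g
    · exact absurd ⟨q5, f3, f2, hG1 q5 f1 f2⟩ g
  have g2 := hrr (e k) q3 g1
  have g3 : rr (e k) q3 ∈ S' := Set.mem_iUnion.2 ⟨k, q3, ⟨hq3, g1⟩, rfl⟩
  obtain ⟨z, hz⟩ := Bod_nonempty q5
  have g4 : z ∈ Bod q3 := f3 hz
  have g5 : z ∈ BodB (rr (e k) q3) β := by
    have := g2.2.2.1 g4
    rwa [Bod_res] at this
  have g6 := g2.2.2.2 z g4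
  have g7 : e k ∈ Gd S' β r n n' z 0 := ⟨C_mono g2.2.1 g5 g6.1, _, g3, g5, g6.1, g6.2⟩
  have g8 := d3 (f1 hz)
  have g9 := hr1T z (d1 (f1 hz)) g8.1
  rcases g9.2 with g | g
  · have : e k = σ := g.eq_of_length (le_antisymm g.length_le g8.2.1.length_le)
    rw [this] at g7
    exact b3 (hq1 (d1 (f1 hz))) 0 g7
  · exact g.2 (e k) g8.2.1 List.suffix_rfl ⟨0, g7⟩

/-- the front lemma at a generic point -/
theorem frontM {M : Set (Ob I)} (hM : Suit M) {α β : I} (hβ : β ⋖ α) (hα : .o α ∈ M)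
    (hc : Cov β) (hd : Dec β) {r : Cond I} (hrM : .c r ∈ M) (hr : Low α r)
    {D : Set (Cond I)} (hDM : .d D ∈ M) (hD : Dn α D) (n n' : ℕ) (σ : Node) {z : I → Y}
    (hg : Gen M β z) (hz : z ∈ FrA β r n σ) :
    ∃ j, σ ∈ Gd {r' | .c r' ∈ M ∧ r' ≤ r ∧ r' ∈ D} β r n n' z j := by
  have hβM : .o β ∈ M := hM.pred α β hα hβ
  have hdn : Dn β (FrD β r D n n' σ) := by
    refine ⟨fun q hq => hq.1, ?_, ?_⟩
    · rintro q ⟨_, h2⟩ q' hl hle
      refine ⟨hl, ?_⟩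
      rcases h2 with h2 | ⟨S, h2, h3, h4⟩
      · exact Or.inl (h2.mono_left hle)
      · exact Or.inr ⟨S, h2, h3, fun z hz => h4 z (hle hz)⟩
    · intro q hq
      obtain ⟨q1, a1, a2, a3⟩ := hd (FrA β r n σ)
        ((BodB_ms r β).and ((r.meas β σ).and (MS.lev (fun τ => r.meas β τ) (n + 1) σ))) q hq
      rcases a3 with a3 | a3
      · obtain ⟨q', b1, b2, S, b3, b4⟩ := front hβ hc hd hr hD n n' σ a1 a3
        exact ⟨q', b1.trans a2, b2, Or.inr ⟨S, b3, b4⟩⟩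
      · exact ⟨q1, a2, a1, Or.inl a3⟩
  obtain ⟨q, h1, h2, h3⟩ := hg _ (hM.frd β r D n n' σ hβM hrM hDM) hdn
  rcases h2.2 with h4 | h4
  · exact absurd hz (Set.disjoint_left.1 h4 h3)
  · obtain ⟨S, _, b2, b3, b4⟩ := hM.frw β r D n n' σ q hβM hrM hDM h1 h4
    obtain ⟨j, hj⟩ := b4 z h3
    have hsub : S ⊆ {r' | .c r' ∈ M ∧ r' ≤ r ∧ r' ∈ D} := by
      intro r' hr'
      have h5 := b3 hr'
      exact ⟨b2 r' hr', h5.1, h5.2⟩
    exact ⟨j, Gd_mono hsub β r n n' z j hj⟩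

end Pool.Agent.DN
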