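import Pool.Agent.Lib.MP_d988c5_lc.Sel

/-!
# MP_d988c5_lc : homogenisation of a tree (pure decision of finitely valued continuous functions)
-/

namespace Pool.Agent.DN

namespace Hom

/-- the nodes coloured by `v` in at most `j` steps -/
def Hj (T1 : Set Node) (q : Node → ℕ → Prop) : ℕ → Node → ℕ → Prop
  | 0, τ, v => q τ v
  | j + 1, τ, v => Hj T1 q j τ v ∨ ((∃ c, c :: τ ∈ T1 ∧ Hj T1 q j (c :: τ) v) ∧
      ∀ u, bg (u + 1) τ (suc T1 τ) → bg u τ {c | c :: τ ∈ T1 ∧ Hj T1 q j (c :: τ) v})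

/-- the nodes coloured by `v` -/
def HH (T1 : Set Node) (q : Node → ℕ → Prop) (τ : Node) (v : ℕ) : Prop := ∃ j, Hj T1 q j τ v

/-- the least colour -/
noncomputable def vv (T1 : Set Node) (q : Node → ℕ → Prop) (ρ : Node) : ℕ := sInf {v | HH T1 q ρ v}

theorem Hj_mono {T1 : Set Node} {q : Node → ℕ → Prop} {j k : ℕ} (h : j ≤ k) {τ : Node} {v : ℕ}
    (hj : Hj T1 q j τ v) : Hj T1 q k τ v := by
  induction k, h using Nat.le_induction with
  | base => exact hj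
  | succ k _ ih => exact Or.inl ih

theorem Hj_bound {T1 : Set Node} {q : Node → ℕ → Prop} {r : ℕ} (hq : ∀ τ v, q τ v → v < r)
    (j : ℕ) : ∀ τ v, Hj T1 q j τ v → v < r := by
  induction j with
  | zero => exact fun τ v h => hq τ v h
  | succ j ih =>
    rintro τ v (h | ⟨⟨c, _, h⟩, _⟩)
    · exact ih _ _ h
    · exact ih _ _ h

theorem Hj_unique {T T1 : Set Node} {q : Node → ℕ → Prop} (hT1 : T1 ⊆ T)
    (hup : ∀ c τ v, q τ v → c :: τ ∈ T → q (c :: τ) v)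
    (hu : ∀ τ ∈ T, ∀ v v', q τ v → q τ v' → v = v') (j : ℕ) :
    ∀ τ v v', τ ∈ T → Hj T1 q j τ v → q τ v' → v = v' := by
  induction j with
  | zero => exact fun τ v v' hτ h h' => hu τ hτ v v' h h'
  | succ j ih =>
    rintro τ v v' hτ (h | ⟨⟨c, hc, h⟩, _⟩) h'
    · exact ih _ _ _ hτ h h'
    · exact ih _ _ _ (hT1 hc) h (hup c τ v' h' (hT1 hc))

/-- if all children are coloured, then the node is coloured -/
theorem color_of_children {T1 : Set Node} (hv : ∀ σ ∈ T1, Vd σ) {q : Node → ℕ → Prop} {r : ℕ}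
    (hq : ∀ τ v, q τ v → v < r) {τ : Node} (hr : r ≤ (dat (ix τ)).b)
    (h1 : bg 1 τ (suc T1 τ)) (hch : ∀ c, c :: τ ∈ T1 → ∃ v, HH T1 q (c :: τ) v) :
    ∃ v, HH T1 q τ v := by
  classical
  -- a common number of steps
  have e1 : ∀ c, ∃ j, c :: τ ∈ T1 → ∃ v, Hj T1 q j (c :: τ) v := by
    intro c
    by_cases hc : c :: τ ∈ T1
    · obtain ⟨v, j, hj⟩ := hch c hc
      exact ⟨j, fun _ => ⟨v, hj⟩⟩
    · exact ⟨0, fun h => absurd h hc⟩
  choose jj hjj using e1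
  set j := (Finset.range (dat (ix τ)).kap).sup jj with hj
  have e2 : ∀ c, c :: τ ∈ T1 → ∃ v, Hj T1 q j (c :: τ) v := by
    intro c hc
    obtain ⟨v, h⟩ := hjj c hc
    have hlt : c < (dat (ix τ)).kap := (hv _ hc).1
    exact ⟨v, Hj_mono (Finset.le_sup (f := jj) (Finset.mem_range.2 hlt)) h⟩
  by_contra hno
  push Not at hno
  -- for every colour there is a witness
  have e3 : ∀ v, ∃ u, bg (u + 1) τ (suc T1 τ) ∧ ¬ bg u τ {c | c :: τ ∈ T1 ∧ Hj T1 q j (c :: τ) v} := by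
    intro v
    by_contra hcon
    push Not at hcon
    have hne : ∃ c, c :: τ ∈ T1 ∧ Hj T1 q j (c :: τ) v := by
      obtain ⟨c, hc, _⟩ := (hcon 0 h1).nonempty
      exact ⟨c, hc⟩
    exact hno v ⟨j + 1, Or.inr ⟨hne, hcon⟩⟩
  choose u hu1 hu2 using e3
  set U := (Finset.range r).sup u with hU
  have e4 : bg (U + 1) τ (suc T1 τ) := by
    rcases Nat.eq_zero_or_pos r with h0 | h0
    · have : U = 0 := by rw [hU, h0]; simp
      rw [this]; exact h1
    · obtain ⟨v, _, hv'⟩ := Finset.exists_mem_eq_sup (Finset.range r)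
        (Finset.nonempty_range_iff.2 h0.ne') u
      rw [hU, hv']
      exact hu1 v
  have e5 : bg (U + 1) τ (⋃ i ∈ Set.Iio r, {c | c :: τ ∈ T1 ∧ Hj T1 q j (c :: τ) i}) := by
    refine e4.mono fun c hc => ?_
    obtain ⟨v, h⟩ := e2 c hc
    exact Set.mem_biUnion (show v ∈ Set.Iio r from Hj_bound hq j _ _ h) ⟨hc, h⟩
  obtain ⟨v, hvr, h⟩ := (dat_ok _).split _ _ _ hr e5
  have h' : bg U τ {c | c :: τ ∈ T1 ∧ Hj T1 q j (c :: τ) v} := h
  exact hu2 v (h'.anti (Finset.le_sup (f := u) (Finset.mem_range.2 hvr)))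

/-- every node above `ρ` is coloured -/
theorem exists_color {T T1 : Set Node} (hT1 : T1 ⊆ T) (hc : ∀ c σ, c :: σ ∈ T1 → σ ∈ T1)
    (hv : ∀ σ ∈ T1, Vd σ) {q : Node → ℕ → Prop} {ρ : Node}
    (hq : ∀ τ v, q τ v → v < cols (ix ρ))
    (hup : ∀ c τ v, q τ v → c :: τ ∈ T → q (c :: τ) v)
    (hbar : ∀ y : Y, (∀ n, nd y n ∈ T) → ∃ n v, q (nd y n) v)
    (h1 : ∀ τ ∈ T1, ρ <:+ τ → bg 1 τ (suc T1 τ)) :
    ∀ τ ∈ T1, ρ <:+ τ → ∃ v, HH T1 q τ v := by
  classical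
  intro τ hτ hρτ
  by_contra hno
  -- the tree of the nodes which are not coloured
  let S : Set Node := {σ | σ ∈ T1 ∧ (σ <:+ τ ∨ τ <:+ σ ∧
    ∀ σ', τ <:+ σ' → σ' <:+ σ → ¬ ∃ v, HH T1 q σ' v)}
  have hself : ∀ σ', τ <:+ σ' → σ' <:+ τ → ¬ ∃ v, HH T1 q σ' v := by
    intro σ' a1 a2
    have : σ' = τ := a2.eq_of_length (le_antisymm a2.length_le a1.length_le)
    rw [this]; exact hno
  have Sc : ∀ c σ, c :: σ ∈ S → σ ∈ S := by
    rintro c σ ⟨a1, a2⟩
    refine ⟨hc _ _ a1, ?_⟩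
    rcases a2 with a2 | ⟨a2, a3⟩
    · exact Or.inl ((List.suffix_cons _ _).trans a2)
    · rcases suffix_cons_iff'.1 a2 with a4 | a4
      · exact Or.inl (a4 ▸ List.suffix_cons _ _)
      · exact Or.inr ⟨a4, fun σ' b1 b2 => a3 σ' b1 (b2.trans (List.suffix_cons _ _))⟩
  have Sn : ∀ σ ∈ S, ∃ c, c :: σ ∈ S := by
    rintro σ ⟨a1, a2⟩
    have hup' : τ <:+ σ → (∀ σ', τ <:+ σ' → σ' <:+ σ → ¬ ∃ v, HH T1 q σ' v) →
        ∃ c, c :: σ ∈ S := by
      intro b1 b2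
      by_contra hcon
      push Not at hcon
      refine b2 σ b1 List.suffix_rfl (color_of_children hv hq
        (cols_le_b (ix_le_of_suffix (hρτ.trans b1))) (h1 σ a1 (hρτ.trans b1)) fun c hcσ => ?_)
      by_contra hc'
      refine hcon c ⟨hcσ, Or.inr ⟨b1.trans (List.suffix_cons _ _), fun σ' d1 d2 => ?_⟩⟩
      rcases suffix_cons_iff'.1 d2 with d3 | d3
      · rw [d3]; exact hc'
      · exact b2 σ' d1 d3
    rcases a2 with a2 | ⟨a2, a3⟩
    · rcases eq_or_ne σ τ with rfl | hne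
      · exact hup' List.suffix_rfl hself
      · obtain ⟨l, hl⟩ := a2
        rcases List.eq_nil_or_concat l with rfl | ⟨l', c, rfl⟩
        · exact absurd hl hne
        · have e : l' ++ (c :: σ) = τ := by rw [← hl]; simp
          have h4 : c :: σ <:+ τ := ⟨l', e⟩
          exact ⟨c, closed' hc h4 hτ, Or.inl h4⟩
    · exact hup' a2 a3
  obtain ⟨y, hy, hyτ⟩ := exists_branch (T := S) Sc (fun σ hσ => hv σ hσ.1) Sn
    (σ := τ) ⟨hτ, Or.inl List.suffix_rfl⟩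
  obtain ⟨n, v, hn⟩ := hbar y fun n => hT1 (hy n).1
  -- go up to a node above `τ`
  have hup2 : ∀ m, n ≤ m → q (nd y m) v := by
    intro m hm
    induction m, hm using Nat.le_induction with
    | base => exact hn
    | succ m _ ih =>
      rw [nd_succ]
      refine hup _ _ _ ih ?_
      rw [← nd_succ]
      exact hT1 (hy _).1
  have hτm : τ <:+ nd y (max n τ.length) := by
    have := nd_suffix y (le_max_right n τ.length)
    rwa [hyτ] at this
  have h5 : ¬ ∃ v, HH T1 q (nd y (max n τ.length)) v := by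
    rcases (hy (max n τ.length)).2 with a | ⟨_, a⟩
    · exact hself _ hτm a
    · exact a _ hτm List.suffix_rfl
  exact h5 ⟨v, 0, hup2 _ (le_max_left _ _)⟩

/-- one step of the homogenisation -/
def stp (σ0 : Node) (q : Node → Node → ℕ → Prop) (k : ℕ) (T1 : Set Node) : Set Node :=
  {τ | τ ∈ T1 ∧ ∀ ρ : Node, ρ.length = k → σ0 <:+ ρ → ρ <:+ τ → ∀ τ', ρ <:+ τ' → τ' <:+ τ →
    HH T1 (q ρ) τ' (vv T1 (q ρ) ρ)}

/-- the sequence of trees -/
def TTs (σ0 : Node) (q : Node → Node → ℕ → Prop) (T : Set Node) : ℕ → Set Node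
  | 0 => T
  | k + 1 => stp σ0 q k (TTs σ0 q T k)

section pure

variable {T : Set Node} {σ0 : Node} {q : Node → Node → ℕ → Prop}

theorem TTs_anti {j k : ℕ} (h : j ≤ k) : TTs σ0 q T k ⊆ TTs σ0 q T j := by
  induction k, h using Nat.le_induction with
  | base => exact Set.Subset.rfl
  | succ k _ ih => exact fun τ hτ => ih hτ.1

theorem stp_closed {k : ℕ} {T1 : Set Node} (hc : ∀ c σ, c :: σ ∈ T1 → σ ∈ T1) :
    ∀ c σ, c :: σ ∈ stp σ0 q k T1 → σ ∈ stp σ0 q k T1 := by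
  rintro c σ ⟨h1, h2⟩
  exact ⟨hc _ _ h1, fun ρ a1 a2 a3 τ' a4 a5 =>
    h2 ρ a1 a2 (a3.trans (List.suffix_cons _ _)) τ' a4 (a5.trans (List.suffix_cons _ _))⟩

theorem TTs_closed (hc : ∀ c σ, c :: σ ∈ T → σ ∈ T) (k : ℕ) :
    ∀ c σ, c :: σ ∈ TTs σ0 q T k → σ ∈ TTs σ0 q T k := by
  induction k with
  | zero => exact hc
  | succ k ih => exact stp_closed ih

/-- the initial segment of length `k` -/
theorem exists_init {τ : Node} {k : ℕ} (h : k ≤ τ.length) : ∃ ρ, ρ.length = k ∧ ρ <:+ τ :=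
  ⟨τ.drop (τ.length - k), by rw [List.length_drop]; omega, List.drop_suffix _ _⟩

theorem init_unique {τ ρ ρ' : Node} (h : ρ <:+ τ) (h' : ρ' <:+ τ) (e : ρ.length = ρ'.length) :
    ρ = ρ' := (List.suffix_of_suffix_length_le h h' e.le).eq_of_length e

/-- the invariant of the construction -/
theorem inv (hT : Pos T) (h1 : ∀ τ ∈ T, τ <:+ σ0 ∨ σ0 <:+ τ) (h2 : lev 1 T σ0)
    (hqb : ∀ ρ τ v, q ρ τ v → v < cols (ix ρ))
    (hup : ∀ ρ c τ v, q ρ τ v → c :: τ ∈ T → q ρ (c :: τ) v)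
    (hbar : ∀ ρ, ∀ y : Y, (∀ n, nd y n ∈ T) → ∃ n v, q ρ (nd y n) v) (k : ℕ) :
    (∀ τ ∈ TTs σ0 q T k, σ0 <:+ τ → ∀ u, bg (u + min k (τ.length + 1)) τ (suc T τ) →
      bg u τ (suc (TTs σ0 q T k) τ)) ∧
    (∀ τ ∈ TTs σ0 q T k, τ.length ≤ k → τ ∈ TTs σ0 q T (k + 1)) := by
  induction k with
  | zero =>
    refine ⟨fun τ _ _ u h => ?_, ?_⟩
    · simpa [TTs] using h
    · intro τ hτ hl
      have hl0 : τ.length = 0 := Nat.le_zero.1 hl
      have hτ0 : τ = [] := List.length_eq_zero_iff.1 hl0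
      subst hτ0
      refine ⟨hτ, fun ρ a1 a2 a3 τ' a4 a5 => ?_⟩
      have e1 : ρ = [] := List.suffix_nil.1 a3
      have e2 : τ' = [] := List.suffix_nil.1 a5
      subst e1
      subst e2
      have hlev : ∀ σ ∈ T, ([] : Node) <:+ σ → bg 1 σ (suc T σ) := by
        intro σ hσ _
        have h3 : bgn 1 σ (suc T σ) := by
          have e : σ0 = [] := List.suffix_nil.1 a2
          exact h2 σ hσ (by rw [e]; exact List.nil_suffix)
        refine bg.anti h3 ?_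
        have : 0 < (ix σ + 1) ^ 3 := by positivity
        omega
      have := exists_color (T := T) (T1 := T) Set.Subset.rfl hT.closed hT.ful (q := q [])
        (ρ := []) (hqb _) (hup _) (hbar _) hlev [] hτ List.nil_suffix
      exact Nat.sInf_mem this
  | succ k ih =>
    obtain ⟨ih1, ih2⟩ := ih
    set T1 := TTs σ0 q T k with hT1
    have hT1T : T1 ⊆ T := TTs_anti (Nat.zero_le k)
    have hc1 : ∀ c σ, c :: σ ∈ T1 → σ ∈ T1 := TTs_closed hT.closed k
    have hv1 : ∀ σ ∈ T1, Vd σ := fun σ hσ => hT.ful σ (hT1T hσ)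
    -- the effect of the step `k` on the sets of children
    have step1 : ∀ τ ∈ TTs σ0 q T (k + 1), σ0 <:+ τ → k ≤ τ.length → ∀ u,
        bg (u + 1) τ (suc T1 τ) → bg u τ (suc (TTs σ0 q T (k + 1)) τ) := by
      rintro τ ⟨hτ1, hτ2⟩ hσ hk u hb
      obtain ⟨ρ, b1, b2⟩ := exists_init hk
      by_cases hσρ : σ0 <:+ ρ
      · obtain ⟨j, hj⟩ := hτ2 ρ b1 hσρ b2 τ b2 List.suffix_rfl
        set v := vv T1 (q ρ) ρ with hv
        -- the children with the right colour survive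
        have hsub : ∀ c, c :: τ ∈ T1 → HH T1 (q ρ) (c :: τ) v → c ∈ suc (TTs σ0 q T (k + 1)) τ := by
          intro c hcτ hcv
          refine ⟨hcτ, fun ρ' d1 d2 d3 τ' d4 d5 => ?_⟩
          have e : ρ' = ρ := init_unique d3 (b2.trans (List.suffix_cons _ _)) (d1.trans b1.symm)
          subst e
          rcases suffix_cons_iff'.1 d5 with d6 | d6
          · rw [d6]; exact hcv
          · exact hτ2 ρ' d1 d2 b2 τ' d4 d6
        clear_value v
        induction j with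
        | zero =>
          refine (bg.anti hb (Nat.le_succ u)).mono fun c hcτ => hsub c hcτ ⟨0, ?_⟩
          exact hup ρ c τ v hj (hT1T hcτ)
        | succ j ihj =>
          rcases hj with hj | ⟨_, hj⟩
          · exact ihj hj
          · exact (hj u hb).mono fun c hcτ => hsub c hcτ.1 ⟨j, hcτ.2⟩
      · -- `ρ` is a proper initial segment of `σ0`
        have e : suc T1 τ ⊆ suc (TTs σ0 q T (k + 1)) τ := by
          intro c hcτ
          refine ⟨hcτ, fun ρ' d1 d2 d3 => ?_⟩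
          have e : ρ' = ρ := init_unique d3 (b2.trans (List.suffix_cons _ _)) (d1.trans b1.symm)
          exact absurd (e ▸ d2) hσρ
        exact (bg.anti hb (Nat.le_succ u)).mono e
    have step2 : ∀ τ ∈ TTs σ0 q T (k + 1), τ.length < k →
        suc T1 τ ⊆ suc (TTs σ0 q T (k + 1)) τ := by
      intro τ _ hk c hcτ
      exact ih2 _ hcτ (by simp; omega)
    have first : ∀ τ ∈ TTs σ0 q T (k + 1), σ0 <:+ τ → ∀ u,
        bg (u + min (k + 1) (τ.length + 1)) τ (suc T τ) →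
        bg u τ (suc (TTs σ0 q T (k + 1)) τ) := by
      intro τ hτ hσ u hb
      rcases Nat.lt_or_ge τ.length k with hk | hk
      · have e : min (k + 1) (τ.length + 1) = min k (τ.length + 1) := by omega
        rw [e] at hb
        exact (ih1 τ hτ.1 hσ u hb).mono (step2 τ hτ hk)
      · have e : u + min (k + 1) (τ.length + 1) = (u + 1) + min k (τ.length + 1) := by omega
        rw [e] at hb
        exact step1 τ hτ hσ hk u (ih1 τ hτ.1 hσ (u + 1) hb)
    refine ⟨first, ?_⟩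
    intro τ hτ hl
    refine ⟨hτ, fun ρ a1 a2 a3 τ' a4 a5 => ?_⟩
    have e1 : ρ = τ := a3.eq_of_length (le_antisymm a3.length_le (a1 ▸ hl))
    have e2 : τ' = τ := a5.eq_of_length (le_antisymm a5.length_le (e1 ▸ a4).length_le)
    subst e1
    rw [e2]
    have hlev : ∀ σ ∈ TTs σ0 q T (k + 1), ρ <:+ σ → bg 1 σ (suc (TTs σ0 q T (k + 1)) σ) := by
      intro σ hσ hρσ
      have h3 : bgn 1 σ (suc T σ) := h2 σ (TTs_anti (Nat.zero_le _) hσ) (a2.trans hρσ)
      refine first σ hσ (a2.trans hρσ) 1 (bg.anti h3 ?_)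
      have h4 : k + 1 ≤ σ.length := a1 ▸ hρσ.length_le
      have h5 := length_le_ix σ
      have h6 : min (k + 1) (σ.length + 1) ≤ ix σ := by omega
      have h7 : ix σ + 1 ≤ (ix σ + 1) ^ 3 := by
        have : 1 ≤ (ix σ + 1) ^ 2 := Nat.one_le_pow _ _ (by omega)
        calc ix σ + 1 = (ix σ + 1) * 1 := by ring
          _ ≤ (ix σ + 1) * (ix σ + 1) ^ 2 := Nat.mul_le_mul_left _ this
          _ = _ := by ring
      omega
    have := exists_color (T := T) (T1 := TTs σ0 q T (k + 1)) (TTs_anti (Nat.zero_le _))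
      (TTs_closed hT.closed _) (fun σ hσ => hT.ful σ (TTs_anti (Nat.zero_le _) hσ)) (q := q ρ)
      (ρ := ρ) (hqb _) (hup _) (hbar _) hlev ρ hτ List.suffix_rfl
    exact Nat.sInf_mem this

/-- the homogeneous tree -/
def Tp (σ0 : Node) (q : Node → Node → ℕ → Prop) (T : Set Node) : Set Node :=
  {τ | ∀ k, τ ∈ TTs σ0 q T k}

theorem pure (hT : Pos T) (h0 : σ0 ∈ T) (h1 : ∀ τ ∈ T, τ <:+ σ0 ∨ σ0 <:+ τ) (h2 : lev 1 T σ0)
    (hqb : ∀ ρ τ v, q ρ τ v → v < cols (ix ρ))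
    (hup : ∀ ρ c τ v, q ρ τ v → c :: τ ∈ T → q ρ (c :: τ) v)
    (hqu : ∀ ρ, ∀ τ ∈ T, ∀ v v', q ρ τ v → q ρ τ v' → v = v')
    (hbar : ∀ ρ, ∀ y : Y, (∀ n, nd y n ∈ T) → ∃ n v, q ρ (nd y n) v) :
    Pos (Tp σ0 q T) ∧ Tp σ0 q T ⊆ T ∧ σ0 ∈ Tp σ0 q T ∧
      ∀ ρ ∈ Tp σ0 q T, σ0 <:+ ρ → ∀ y : Y, (∀ n, nd y n ∈ Tp σ0 q T) → nd y ρ.length = ρ →
        ∀ n v, q ρ (nd y n) v → v = vv (TTs σ0 q T ρ.length) (q ρ) ρ := by
  have hinv := inv hT h1 h2 hqb hup hbar
  -- membership is decided at the length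
  have hmem : ∀ τ k, τ.length ≤ k → τ ∈ TTs σ0 q T k → τ ∈ Tp σ0 q T := by
    intro τ k hk hτ m
    rcases le_total m k with h | h
    · exact TTs_anti h hτ
    · induction m, h using Nat.le_induction with
      | base => exact hτ
      | succ m hm ih => exact (hinv m).2 τ ih (hk.trans hm)
  have hsub : Tp σ0 q T ⊆ T := fun τ hτ => hτ 0
  -- nodes comparable with `σ0` from below are never removed
  have hlow : ∀ τ, τ <:+ σ0 → τ ∈ Tp σ0 q T := by
    intro τ hτ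
    refine hmem τ τ.length le_rfl ?_
    -- all steps before the length of `τ` do nothing at `τ`
    have : ∀ k, k ≤ τ.length → τ ∈ TTs σ0 q T k := by
      intro k
      induction k with
      | zero => exact fun _ => hT.closed' hτ h0
      | succ k ih =>
        intro hk
        refine ⟨ih (by omega), fun ρ a1 a2 a3 => ?_⟩
        have b1 := a2.length_le
        have b2 := hτ.length_le
        omega
    exact this _ le_rfl
  have hbig : ∀ τ ∈ Tp σ0 q T, σ0 <:+ τ → ∀ u, bg (u + (τ.length + 1)) τ (suc T τ) →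
      bg u τ (suc (Tp σ0 q T) τ) := by
    intro τ hτ hσ u hb
    have h3 := (hinv (τ.length + 1)).1 τ (hτ _) hσ u (by
      rw [min_self]; exact hb)
    refine h3.mono fun c hc => ?_
    exact hmem (c :: τ) (τ.length + 1) (by simp) hc
  have hcube : ∀ τ : Node, τ.length + 1 ≤ (ix τ + 1) ^ 3 := by
    intro τ
    have h5 := length_le_ix τ
    have : 1 ≤ (ix τ + 1) ^ 2 := Nat.one_le_pow _ _ (by omega)
    calc τ.length + 1 ≤ (ix τ + 1) * 1 := by omega
      _ ≤ (ix τ + 1) * (ix τ + 1) ^ 2 := Nat.mul_le_mul_left _ this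
      _ = _ := by ring
  refine ⟨⟨hlow [] List.nil_suffix, ?_, fun τ hτ => hT.ful τ (hsub hτ), ?_, ?_⟩, hsub,
    hlow σ0 List.suffix_rfl, ?_⟩
  · intro c τ h k
    exact TTs_closed hT.closed k c τ (h k)
  · intro τ hτ
    rcases h1 τ (hsub hτ) with h3 | h3
    · rcases eq_or_ne τ σ0 with rfl | hne
      · have h4 : bgn 1 τ (suc T τ) := h2 τ h0 List.suffix_rfl
        have h5 := hbig τ hτ List.suffix_rfl 0 (bg.anti h4 (by have := hcube τ; omega))
        obtain ⟨c, hc, _⟩ := h5.nonempty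
        exact ⟨c, hc⟩
      · obtain ⟨l, hl⟩ := h3
        rcases List.eq_nil_or_concat l with rfl | ⟨l', c, rfl⟩
        · exact absurd hl hne
        · have e : l' ++ (c :: τ) = σ0 := by rw [← hl]; simp
          exact ⟨c, hlow _ ⟨l', e⟩⟩
    · have h4 : bgn 1 τ (suc T τ) := h2 τ (hsub hτ) h3
      have h5 := hbig τ hτ h3 0 (bg.anti h4 (by have := hcube τ; omega))
      obtain ⟨c, hc, _⟩ := h5.nonempty
      exact ⟨c, hc⟩
  · intro j
    obtain ⟨t, ht⟩ := hT.big (j + 1)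
    refine ⟨max t (ix σ0), fun τ hτ hj => ?_⟩
    have hσ : σ0 <:+ τ := by
      rcases h1 τ (hsub hτ) with h3 | h3
      · have h4 := ix_le_of_suffix h3
        have e : ix τ = ix σ0 := le_antisymm h4 ((le_max_right _ _).trans hj)
        rw [ix_inj e]
      · exact h3
    have h4 : bgn (j + 1) τ (suc T τ) := ht τ (hsub hτ) ((le_max_left _ _).trans hj)
    refine hbig τ hτ hσ _ (bg.anti h4 ?_)
    have := hcube τ
    calc j * (ix τ + 1) ^ 3 + (τ.length + 1) ≤ j * (ix τ + 1) ^ 3 + (ix τ + 1) ^ 3 :=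
          Nat.add_le_add_left this _
      _ = (j + 1) * (ix τ + 1) ^ 3 := by ring
  · intro ρ hρ hσρ y hy hyρ n v hq
    -- go up to a node above `ρ`
    have hup2 : ∀ m, n ≤ m → q ρ (nd y m) v := by
      intro m hm
      induction m, hm using Nat.le_induction with
      | base => exact hq
      | succ m _ ih =>
        rw [nd_succ]
        refine hup _ _ _ _ ih ?_
        rw [← nd_succ]
        exact hsub (hy _)
    set m := max n ρ.length with hm
    have hρm : ρ <:+ nd y m := by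
      have := nd_suffix y (le_max_right n ρ.length)
      rwa [hyρ] at this
    have h3 : nd y m ∈ TTs σ0 q T (ρ.length + 1) := hy m _
    obtain ⟨j, hj⟩ := h3.2 ρ rfl hσρ hρm (nd y m) hρm List.suffix_rfl
    exact (Hj_unique (T := T) (TTs_anti (Nat.zero_le _)) (hup ρ) (hqu ρ) j _ _ _
      (hsub (hy m)) hj (hup2 m (le_max_left _ _))).symm

end pure

end Hom

variable {I : Type} [LinearOrder I]

theorem Hom.Hj_ms {β : I} {T1 : (I → Y) → Set Node} (mT : ∀ σ, MS β {z | σ ∈ T1 z})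
    {q : (I → Y) → Node → ℕ → Prop} (mq : ∀ τ v, MS β {z | q z τ v}) (j : ℕ) :
    ∀ τ v, MS β {z | Hom.Hj (T1 z) (q z) j τ v} := by
  induction j with
  | zero => exact mq
  | succ j ih =>
    intro τ v
    refine (ih τ v).or ((MS.ex fun c => (mT (c :: τ)).and (ih (c :: τ) v)).and
      (MS.all fun u => (MS.bg (fun c => mT (c :: τ)) (u + 1) τ).imp
        (MS.bg (fun c => (mT (c :: τ)).and (ih (c :: τ) v)) u τ)))

theorem Hom.HH_ms {β : I} {T1 : (I → Y) → Set Node} (mT : ∀ σ, MS β {z | σ ∈ T1 z})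
    {q : (I → Y) → Node → ℕ → Prop} (mq : ∀ τ v, MS β {z | q z τ v}) (τ : Node) (v : ℕ) :
    MS β {z | Hom.HH (T1 z) (q z) τ v} := MS.ex fun j => Hom.Hj_ms mT mq j τ v

theorem Hom.vv_ms {β : I} {T1 : (I → Y) → Set Node} (mT : ∀ σ, MS β {z | σ ∈ T1 z})
    {q : (I → Y) → Node → ℕ → Prop} (mq : ∀ τ v, MS β {z | q z τ v}) (τ : Node) (v : ℕ) :
    MS β {z | Hom.vv (T1 z) (q z) τ = v} := by
  have : {z | Hom.vv (T1 z) (q z) τ = v} = {z | (Hom.HH (T1 z) (q z) τ v ∧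
      ∀ w, w < v → ¬ Hom.HH (T1 z) (q z) τ w) ∨ ((∀ w, ¬ Hom.HH (T1 z) (q z) τ w) ∧ v = 0)} := by
    ext z
    simp only [Set.mem_ofPred_eq]
    unfold Hom.vv
    constructor
    · intro h
      by_cases hne : ∃ w, Hom.HH (T1 z) (q z) τ w
      · left
        refine ⟨?_, fun w hw hh => ?_⟩
        · rw [← h]
          exact Nat.sInf_mem (s := {v | Hom.HH (T1 z) (q z) τ v}) hne
        · have := Nat.sInf_le (s := {v | Hom.HH (T1 z) (q z) τ v}) hh
          omega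
      · right
        push Not at hne
        refine ⟨hne, ?_⟩
        rw [← h]
        have : {v | Hom.HH (T1 z) (q z) τ v} = ∅ := by
          ext w; simpa using hne w
        rw [this]
        exact Nat.sInf_empty
    · rintro (⟨h1, h2⟩ | ⟨h1, h2⟩)
      · apply le_antisymm
        · exact Nat.sInf_le h1
        · by_contra hlt
          push Not at hlt
          exact h2 _ hlt (Nat.sInf_mem (s := {v | Hom.HH (T1 z) (q z) τ v}) ⟨v, h1⟩)
      · have : {v | Hom.HH (T1 z) (q z) τ v} = ∅ := by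
          ext w; simpa using h1 w
        rw [this, h2]
        exact Nat.sInf_empty
  rw [this]
  exact ((Hom.HH_ms mT mq τ v).and (MS.all fun w => MS.all fun _ =>
    (Hom.HH_ms mT mq τ w).not)).or ((MS.all fun w => (Hom.HH_ms mT mq τ w).not).and
      (MS.const _ _))

theorem Hom.TTs_ms {β : I} {T : (I → Y) → Set Node} (mT : ∀ σ, MS β {z | σ ∈ T z})
    {σ0 : (I → Y) → Node} (mσ : ∀ σ, MS β {z | σ0 z = σ})
    {Q : (I → Y) → Node → Node → ℕ → Prop} (mQ : ∀ ρ τ v, MS β {z | Q z ρ τ v}) (k : ℕ) :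
    ∀ τ, MS β {z | τ ∈ Hom.TTs (σ0 z) (Q z) (T z) k} := by
  induction k with
  | zero => exact mT
  | succ k ih =>
    intro τ
    refine (ih τ).and (MS.all fun ρ => MS.all fun _ => MS.imp ?_ (MS.all fun _ => MS.all fun τ' =>
      MS.all fun _ => MS.all fun _ => ?_))
    · exact MS.subst (R := fun _ σ => σ <:+ ρ) mσ fun σ => MS.const _ _
    · exact MS.subst (R := fun z v => Hom.HH (Hom.TTs (σ0 z) (Q z) (T z) k) (Q z ρ) τ' v)
        (fun v => Hom.vv_ms ih (mQ ρ) ρ v) (fun v => Hom.HH_ms ih (mQ ρ) τ' v)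

/-- homogenisation (see the blueprint, Part 6).  `Q z ρ τ v` : at the node `τ` it is decided that
the colour for `ρ` is `v`.  The trees `T' z` have the same trunk `σ0 z`, and above every node `ρ`
beyond the trunk the colour for `ρ` is constant. -/
theorem hom {β : I} {E : Set (I → Y)} (hE : MS β E)
    {T : (I → Y) → Set Node} (mT : ∀ σ, MS β {z | σ ∈ T z}) (hT : ∀ z ∈ E, Pos (T z))
    {σ0 : (I → Y) → Node} (mσ : ∀ σ, MS β {z | σ0 z = σ})
    (h0 : ∀ z ∈ E, σ0 z ∈ T z ∧ (∀ τ ∈ T z, τ <:+ σ0 z ∨ σ0 z <:+ τ) ∧ lev 1 (T z) (σ0 z))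
    (Q : (I → Y) → Node → Node → ℕ → Prop) (mQ : ∀ ρ τ v, MS β {z | Q z ρ τ v})
    (hQb : ∀ z ∈ E, ∀ ρ τ v, Q z ρ τ v → v < cols (ix ρ))
    (hQup : ∀ z ∈ E, ∀ ρ c τ v, Q z ρ τ v → c :: τ ∈ T z → Q z ρ (c :: τ) v)
    (hQu : ∀ z ∈ E, ∀ ρ, ∀ τ ∈ T z, ∀ v v', Q z ρ τ v → Q z ρ τ v' → v = v')
    (hbar : ∀ z ∈ E, ∀ ρ, ∀ y : Y, (∀ n, nd y n ∈ T z) → ∃ n v, Q z ρ (nd y n) v) :
    ∃ T' : (I → Y) → Set Node, (∀ σ, MS β {z | σ ∈ T' z}) ∧ (∀ z, Pos (T' z)) ∧
      ∃ V : (I → Y) → Node → ℕ, (∀ ρ v, MS β {z | V z ρ = v}) ∧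
      ∀ z ∈ E, T' z ⊆ T z ∧ σ0 z ∈ T' z ∧
        ∀ ρ ∈ T' z, σ0 z <:+ ρ → ∀ y : Y, (∀ n, nd y n ∈ T' z) → nd y ρ.length = ρ →
          ∀ n v, Q z ρ (nd y n) v → v = V z ρ := by
  classical
  have key : ∀ z ∈ E, _ := fun z hz => Hom.pure (hT z hz) (h0 z hz).1 (h0 z hz).2.1
    (h0 z hz).2.2 (hQb z hz) (hQup z hz) (hQu z hz) (hbar z hz)
  have mP : ∀ τ, MS β {z | τ ∈ Hom.Tp (σ0 z) (Q z) (T z)} := fun τ =>
    MS.all fun k => Hom.TTs_ms mT mσ mQ k τ
  refine ⟨fun z => {τ | (z ∈ E ∧ τ ∈ Hom.Tp (σ0 z) (Q z) (T z)) ∨ (¬ z ∈ E ∧ τ ∈ Ful)}, ?_, ?_,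
    fun z ρ => Hom.vv (Hom.TTs (σ0 z) (Q z) (T z) ρ.length) (Q z ρ) ρ, ?_, ?_⟩
  · intro τ
    exact (MS.and (p := fun z => z ∈ E) hE (mP τ)).or
      ((MS.not (p := fun z => z ∈ E) hE).and (MS.const _ _))
  · intro z
    show Pos {τ | (z ∈ E ∧ τ ∈ Hom.Tp (σ0 z) (Q z) (T z)) ∨ (¬ z ∈ E ∧ τ ∈ Ful)}
    by_cases hz : z ∈ E
    · have : {τ | (z ∈ E ∧ τ ∈ Hom.Tp (σ0 z) (Q z) (T z)) ∨ (¬ z ∈ E ∧ τ ∈ Ful)} =
          Hom.Tp (σ0 z) (Q z) (T z) := by
        ext τ; simp [hz]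
      rw [this]
      exact (key z hz).1
    · have : {τ | (z ∈ E ∧ τ ∈ Hom.Tp (σ0 z) (Q z) (T z)) ∨ (¬ z ∈ E ∧ τ ∈ Ful)} = Ful := by
        ext τ; simp [hz]
      rw [this]
      exact Pos.univ
  · intro ρ v
    exact Hom.vv_ms (fun τ => Hom.TTs_ms mT mσ mQ ρ.length τ) (mQ ρ) ρ v
  · intro z hz
    have e : {τ | (z ∈ E ∧ τ ∈ Hom.Tp (σ0 z) (Q z) (T z)) ∨ (¬ z ∈ E ∧ τ ∈ Ful)} =
          Hom.Tp (σ0 z) (Q z) (T z) := by
        ext τ; simp [hz]
    simp only [e]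
    exact (key z hz).2

end Pool.Agent.DN
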