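import Pool.Agent.Lib.MP_d988c5_lc.KSucc

/-!
# MP_d988c5_lc : the extension lemma, limit step and induction; decision of measurable sets
-/

namespace Pool.Agent.DN

variable {I : Type} [LinearOrder I] [WellFoundedLT I]

theorem KL_lim {M : Set (Ob I)} (hM : Suit M) {α : I} (hα : .o α ∈ M) (hl : ∀ β, ¬ β ⋖ α)
    (hK : ∀ β < α, .o β ∈ M → KL M β) (hd : ∀ β < α, Dec β) : KL M α := by
  classical
  intro η hη hηM E hE p hp h
  rcases hη.eq_or_lt with rfl | hηα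
  · exact KL_self h
  obtain ⟨e, he, he'⟩ := hM.enum
  obtain ⟨dd, hdd⟩ := hM.enumd
  -- the cofinal sequence
  obtain ⟨b, hb⟩ : ∃ b : ℕ → I, Set.range b = {β | .o β ∈ M ∧ η ≤ β ∧ β < α} := by
    have h1 : {β : I | .o β ∈ M ∧ η ≤ β ∧ β < α}.Countable := by
      have : {β : I | .o β ∈ M}.Countable := by
        refine hM.cnt.preimage_of_injOn ?_
        intro p _ q _ h
        simpa using h
      exact this.mono fun _ h => h.1
    obtain ⟨b, hb⟩ := h1.exists_eq_range ⟨η, hηM, le_rfl, hηα⟩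
    exact ⟨b, hb.symm⟩
  have hb' : ∀ n, .o (b n) ∈ M ∧ η ≤ b n ∧ b n < α := by
    intro n
    have : b n ∈ {β | .o β ∈ M ∧ η ≤ β ∧ β < α} := by rw [← hb]; exact ⟨n, rfl⟩
    exact this
  let a : ℕ → I := fun n => Nat.rec (motive := fun _ => I) η (fun n x => max x (b n)) n
  have as : ∀ n, a (n + 1) = max (a n) (b n) := fun n => rfl
  have ha : ∀ n, .o (a n) ∈ M ∧ η ≤ a n ∧ a n < α := by
    intro n
    induction n with
    | zero => exact ⟨hηM, le_rfl, hηα⟩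
    | succ n ih =>
      rw [as]
      rcases max_choice (a n) (b n) with h | h
      · rw [h]; exact ih
      · rw [h]; exact hb' n
  have hmono : Monotone a := monotone_nat_of_le_succ fun n => by rw [as]; exact le_max_left _ _
  have hcof : ∀ ξ, .o ξ ∈ M → ξ < α → ∃ n, ξ < a n := by
    intro ξ hξM hξ
    obtain ⟨ζ, h1, h2, h3⟩ := hM.btw ξ α hξM hα (by
      by_contra hc
      exact hl ξ ⟨hξ, fun ζ h1 h2 => hc ⟨ζ, h1, h2⟩⟩)
    rcases le_or_gt η ζ with h4 | h4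
    · have : ζ ∈ Set.range b := by rw [hb]; exact ⟨h1, h4, h3⟩
      obtain ⟨n, rfl⟩ := this
      exact ⟨n + 1, h2.trans_le (by rw [as]; exact le_max_right _ _)⟩
    · exact ⟨0, h2.trans h4⟩
  -- the invariant
  let Inv : ℕ → Set (I → Y) × ((I → Y) → Cond I) → Prop := fun n x =>
    MS (a n) x.1 ∧ (∀ r, MS (a n) {z | z ∈ x.1 ∧ x.2 z = r}) ∧
    ∀ z ∈ x.1, .c (x.2 z) ∈ M ∧ Low α (x.2 z) ∧ z ∈ BodB (x.2 z) (a n) ∧ Gen M (a n) z
  have hstep : ∀ n x, Inv n x → ∃ y : (Set (I → Y) × ((I → Y) → Cond I)) × Cond I,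
      Inv (n + 1) y.1 ∧ (∀ z ∈ x.1, Seg y.2 (a n) (a (n + 1)) z → z ∈ y.1.1) ∧
      (∀ z ∈ x.1, y.1.2 z ≤ x.2 z ∧
        ((.d (dd n) ∈ M ∧ Dn α (dd n)) → y.1.2 z ∈ dd n)) := by
    rintro n ⟨E', p'⟩ ⟨x1, x2, x3⟩
    simp only at x1 x2 x3
    -- choose the next condition
    obtain ⟨g, mg, hg⟩ := exists_sel (S := ℕ) (α := a n) (E := E')
      (fun z k => ∃ k0, (z ∈ E' ∧ p' z = e k0) ∧ Low α (e k) ∧ e k ≤ e k0 ∧
        z ∈ BodB (e k) (a n) ∧
        ((.d (dd n) ∈ M ∧ Dn α (dd n)) → e k ∈ dd n))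
      (fun k => MS.ex fun k0 => (x2 _).and ((MS.const _ _).and ((MS.const _ _).and
        ((BodB_ms _ _).and (MS.imp (MS.const _ _) (MS.const _ _))))))
      (by
        intro z hz
        obtain ⟨y1, y2, y3, y4⟩ := x3 z hz
        obtain ⟨k0, hk0⟩ := he' _ y1
        by_cases hD : .d (dd n) ∈ M ∧ Dn α (dd n)
        · obtain ⟨r', c1, c2, c3, c4, c5⟩ :=
            step hM (ha n).2.2.le (hd _ (ha n).2.2) hα (ha n).1 y1 y2 hD.1 hD.2 y3 y4
          obtain ⟨k, rfl⟩ := he' _ c1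
          exact ⟨k, k0, ⟨hz, hk0.symm⟩, c2, by rw [hk0]; exact c3, c4, fun _ => c5⟩
        · exact ⟨k0, k0, ⟨hz, hk0.symm⟩, by rw [hk0]; exact y2, le_rfl, by rw [hk0]; exact y3,
            fun h => absurd h hD⟩)
    let p1 : (I → Y) → Cond I := fun z => e (g z)
    have mp1 : ∀ β, a n ≤ β → ∀ r, MS β {z | z ∈ E' ∧ p1 z = r} := by
      intro β hβ r
      have : {z | z ∈ E' ∧ p1 z = r} = {z | ∃ k, (z ∈ E' ∧ g z = k) ∧ e k = r} := by
        ext z; simp [p1]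
      rw [this]
      exact MS.ex fun k => ((x1.mono hβ).and ((mg k).mono hβ)).and (MS.const _ _)
    have hp1 : ∀ z ∈ E', p1 z ≤ p' z ∧ Low α (p1 z) ∧ z ∈ BodB (p1 z) (a n) ∧
        ((.d (dd n) ∈ M ∧ Dn α (dd n)) → p1 z ∈ dd n) := by
      intro z hz
      obtain ⟨k0, ⟨_, y1⟩, y2, y3, y4, y5⟩ := hg z hz
      exact ⟨by rw [y1]; exact y3, y2, y4, y5⟩
    obtain ⟨c, hc⟩ := hK (a (n + 1)) (ha (n + 1)).2.2 (ha (n + 1)).1 (a n)
      (hmono (Nat.le_succ n)) (ha n).1 E' x1 (fun z => res (p1 z) (a (n + 1)))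
      (by
        intro r
        have : {z | z ∈ E' ∧ res (p1 z) (a (n + 1)) = r} =
            {z | ∃ k, (z ∈ E' ∧ g z = k) ∧ res (e k) (a (n + 1)) = r} := by
          ext z; simp [p1]
        rw [this]
        exact MS.ex fun k => (x1.and (mg k)).and (MS.const _ _))
      (by
        intro z hz
        obtain ⟨y1, y2, y3, y4⟩ := hp1 z hz
        exact ⟨hM.res _ _ (he _) (ha (n + 1)).1, low_res _ _,
          by rw [BodB_res _ (hmono (Nat.le_succ n))]; exact y3, (x3 z hz).2.2.2⟩)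
    refine ⟨(({z | z ∈ E' ∧ Seg c (a n) (a (n + 1)) z}, p1), c), ⟨?_, ?_, ?_⟩, ?_, ?_⟩
    · exact (x1.mono (hmono (Nat.le_succ n))).and (Seg_ms _ _ _)
    · intro r
      have : {z | z ∈ {z | z ∈ E' ∧ Seg c (a n) (a (n + 1)) z} ∧ p1 z = r} =
          {z | Seg c (a n) (a (n + 1)) z ∧ (z ∈ E' ∧ p1 z = r)} := by
        ext z; simp only [Set.mem_ofPred_eq]; tauto
      rw [this]
      exact (Seg_ms _ _ _).and (mp1 _ (hmono (Nat.le_succ n)) r)
    · rintro z ⟨hz, hs⟩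
      obtain ⟨y1, y2, _⟩ := hc z hz hs
      rw [Bod_res] at y1
      exact ⟨he _, (hp1 z hz).2.1, y1, y2⟩
    · exact fun z hz hs => ⟨hz, hs⟩
    · exact fun z hz => ⟨(hp1 z hz).1, (hp1 z hz).2.2.2⟩
  have : Nonempty ((Set (I → Y) × ((I → Y) → Cond I)) × Cond I) :=
    ⟨((∅, fun _ => one I), one I)⟩
  choose! f hf using hstep
  let st : ℕ → Set (I → Y) × ((I → Y) → Cond I) := fun n =>
    Nat.rec (motive := fun _ => Set (I → Y) × ((I → Y) → Cond I)) (E, p) (fun n x => (f n x).1) n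
  have hst : ∀ n, st (n + 1) = (f n (st n)).1 := fun n => rfl
  have hInv : ∀ n, Inv n (st n) := by
    intro n
    induction n with
    | zero => exact ⟨hE, hp, h⟩
    | succ n ih => rw [hst]; exact (hf n _ ih).1
  obtain ⟨c, hc⟩ := exists_concat a hmono (fun n => (f n (st n)).2)
  refine ⟨c, fun z hz hs => ?_⟩
  have hzn : ∀ n, z ∈ (st n).1 := by
    intro n
    induction n with
    | zero => exact hz
    | succ n ih =>
      rw [hst]
      refine (hf n _ (hInv n)).2.1 z ih fun ξ h1 h2 m => ?_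
      rw [← hc n ξ h1 h2 z]
      exact hs ξ ((ha n).2.1.trans h1) (h2.trans (ha (n + 1)).2.2) m
  have hle : ∀ m n, m ≤ n → (st n).2 z ≤ (st m).2 z := by
    intro m n hmn
    induction n, hmn using Nat.le_induction with
    | base => exact le_rfl
    | succ n _ ih =>
      rw [hst]
      exact ((hf n _ (hInv n)).2.2 z (hzn n)).1.trans ih
  have hbod : ∀ n, z ∈ Bod ((st n).2 z) := by
    intro n
    obtain ⟨y1, y2, y3, y4⟩ := (hInv n).2.2 z (hzn n)
    rw [Bod_of_low y2]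
    intro ξ hξ k
    by_cases hsupp : ∃ z', ((st n).2 z).C ξ z' ≠ Ful
    · obtain ⟨m, hm⟩ := hcof ξ (hM.supp _ y1 ξ hsupp) hξ
      have h1 := (hInv (max n m)).2.2 z (hzn _)
      have h2 : ξ < a (max n m) := hm.trans_le (hmono (le_max_right _ _))
      have h3 : nd (z ξ) k ∈ ((st (max n m)).2 z).C ξ z := h1.2.2.1 ξ h2 k
      exact C_mono (hle _ _ (le_max_left n m)) (BodB_mono_right h2.le h1.2.2.1) h3
    · have : ((st n).2 z).C ξ z = Ful := by
        by_contra hcc; exact hsupp ⟨z, hcc⟩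
      rw [this]; exact vd_nd _ _
  have hG : GenB M α z (p z) := by
    intro D hD hdn
    obtain ⟨n, rfl⟩ := hdd D hD
    exact ⟨(st (n + 1)).2 z, ((hInv (n + 1)).2.2 z (hzn (n + 1))).1,
      ((hf n _ (hInv n)).2.2 z (hzn n)).2 ⟨hD, hdn⟩, hle 0 (n + 1) (Nat.zero_le _), hbod (n + 1)⟩
  exact ⟨hbod 0, hG.gen, fun _ => hG⟩

/-! ### the covering lemma and decision of measurable sets -/

variable [OrderBot I]

/-- low conditions below the bottom are trivial -/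
theorem low_bot {p : Cond I} (hp : Low ⊥ p) : p = one I := by
  apply Cond.ext
  funext ξ z
  exact hp ξ bot_le z

theorem Gen_bot {M : Set (Ob I)} (hM : Suit M) (z : I → Y) : Gen M ⊥ z := by
  intro D hD hdn
  obtain ⟨q, h1, h3⟩ := hdn.dns (one I) (low_one _)
  have := low_bot (hdn.sub _ h3)
  subst this
  exact ⟨one I, hM.one, h3, fun ξ n => vd_nd _ _⟩

theorem cover_of_KL {α : I} (hK : ∀ M : Set (Ob I), Suit M → .o α ∈ M → KL M α) : Cov α := by
  classical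
  intro q hq D hD
  rcases eq_bot_or_bot_lt α with rfl | hbot
  · have h1 := low_bot hq
    subst h1
    refine ⟨one I, le_rfl, hq, fun _ => {one I}, fun n => ⟨Set.countable_singleton _, ?_⟩,
      fun z hz n => ⟨one I, rfl, hz⟩⟩
    rintro _ rfl
    obtain ⟨q'', _, a2, a3⟩ := hD n (one I) le_rfl hq
    rw [low_bot a2] at a3
    exact a3
  -- the dense sets
  let DD : ℕ → Set (Cond I) := fun n => {x | Low α x ∧
    ((∃ r ∈ D n, x ≤ r) ∨ ¬ ∃ t, Low α t ∧ t ≤ x ∧ t ≤ q)}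
  have hDD : ∀ n, Dn α (DD n) := by
    intro n
    refine ⟨fun q h => h.1, ?_, ?_⟩
    · rintro q1 ⟨a1, a3⟩ q2 b1 b2
      refine ⟨b1, ?_⟩
      rcases a3 with ⟨r, hr, hr'⟩ | a3
      · exact Or.inl ⟨r, hr, b2.trans hr'⟩
      · exact Or.inr fun ⟨t, c1, c2, c3⟩ => a3 ⟨t, c1, c2.trans b2, c3⟩
    · intro q1 a1
      by_cases hc : ∃ t, Low α t ∧ t ≤ q1 ∧ t ≤ q
      · obtain ⟨t, c1, c2, c3⟩ := hc
        obtain ⟨t', d1, d2, d3⟩ := hD n t c3 c1
        exact ⟨t', d1.trans c2, d2, Or.inl ⟨t', d3, le_rfl⟩⟩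
      · exact ⟨q1, le_rfl, a1, Or.inr hc⟩
  obtain ⟨M, hA, -, hM⟩ := (cl_suit (I := I)).exists
    ({.o ⊥, .o α, .c q} ∪ Set.range (fun n => .d (DD n)))
    (((Set.countable_singleton _).insert _ |>.insert _).union (Set.countable_range _))
  have hbM : .o (⊥ : I) ∈ M := hA (Or.inl (by simp))
  have hαM : .o α ∈ M := hA (Or.inl (by simp))
  have hqM : .c q ∈ M := hA (Or.inl (by simp))
  obtain ⟨c, hc⟩ := hK M hM hαM ⊥ bot_le hbM Set.univ (MS.univ _)
    (fun _ => q) (fun r => (MS.univ _).and (MS.const _ _))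
    (fun z _ => ⟨hqM, hq, fun ξ hξ => absurd hξ not_lt_bot, Gen_bot hM z⟩)
  have hsub : ∀ z ∈ Bod (res c α), z ∈ Bod q ∧ GenB M α z q := by
    intro z hz
    rw [Bod_res] at hz
    obtain ⟨a1, _, a3⟩ := hc z trivial fun ξ _ h2 n => hz ξ h2 n
    exact ⟨a1, a3 hbot⟩
  have hch : ∀ n (r : Cond I), ∃ r', (∃ r1 ∈ D n, r ≤ r1) → r' ∈ D n ∧ r ≤ r' := by
    intro n r
    by_cases h : ∃ r1 ∈ D n, r ≤ r1
    · obtain ⟨r1, h1, h2⟩ := h
      exact ⟨r1, fun _ => ⟨h1, h2⟩⟩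
    · exact ⟨r, fun h' => absurd h' h⟩
  choose g hg using hch
  have hMc : {p : Cond I | .c p ∈ M}.Countable := by
    refine hM.cnt.preimage_of_injOn ?_
    intro p _ q _ h
    simpa using h
  refine ⟨res c α, fun z hz => (hsub z hz).1, low_res _ _,
    fun n => g n '' {r | .c r ∈ M ∧ ∃ r1 ∈ D n, r ≤ r1}, fun n => ⟨?_, ?_⟩, ?_⟩
  · exact (hMc.mono fun r h => h.1).image _
  · rintro _ ⟨r, ⟨_, h2⟩, rfl⟩
    exact (hg n r h2).1
  · intro z hz n
    obtain ⟨r, h1, h4, h2, h3⟩ := (hsub z hz).2 (DD n) (hA (Or.inr ⟨n, rfl⟩)) (hDD n)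
    obtain ⟨a1, a3⟩ := h4
    rcases a3 with a3 | a3
    · exact ⟨g n r, ⟨r, ⟨h1, a3⟩, rfl⟩, (hg n r a3).2 h3⟩
    · exact absurd ⟨r, a1, le_rfl, h2⟩ a3

omit [OrderBot I] [WellFoundedLT I] in
theorem Dec_of_induction {α : I} (hcov : Cov α)
    (hgen : ∀ η < α, ∀ (n : ℕ) (σ : Node), ∀ q : Cond I, Low α q → ∃ q', Low α q' ∧ q' ≤ q ∧
      (Bod q' ⊆ {z | nd (z η) n = σ} ∨ Disjoint (Bod q') {z | nd (z η) n = σ})) : Dec α := by
  intro A hA
  refine MeasurableSpace.generateFrom_induction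
    {A : Set (I → Y) | ∃ η < α, ∃ (n : ℕ) (σ : Node), A = {z | nd (z η) n = σ}}
    (fun A _ => ∀ q : Cond I, Low α q → ∃ q', Low α q' ∧ q' ≤ q ∧
      (Bod q' ⊆ A ∨ Disjoint (Bod q') A)) ?_ ?_ ?_ ?_ A hA
  · rintro _ ⟨η, hη, n, w, rfl⟩ _
    exact hgen η hη n w
  · intro q hq
    exact ⟨q, hq, le_rfl, Or.inr (Set.disjoint_empty _)⟩
  · intro t _ ih q hq
    obtain ⟨q', h1, h2, h3⟩ := ih q hq
    refine ⟨q', h1, h2, ?_⟩
    rcases h3 with h3 | h3
    · exact Or.inr (Set.disjoint_left.2 fun z hz hz' => hz' (h3 hz))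
    · exact Or.inl fun z hz hz' => Set.disjoint_left.1 h3 hz hz'
  · intro s _ ih q hq
    by_cases hc : ∃ n, ∃ q' ≤ q, Low α q' ∧ Bod q' ⊆ s n
    · obtain ⟨n, q', h1, h2, h3⟩ := hc
      exact ⟨q', h2, h1, Or.inl (h3.trans (Set.subset_iUnion s n))⟩
    · obtain ⟨q', h1, h2, S, h3, h4⟩ := hcov q hq (fun n => {r | Disjoint (Bod r) (s n)}) (by
        intro n q' hq' hl
        obtain ⟨q'', a1, a2, a3⟩ := ih n q' hl
        rcases a3 with a3 | a3
        · exact absurd ⟨n, q'', a2.trans hq', a1, a3⟩ hc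
        · exact ⟨q'', a2, a1, a3⟩)
      refine ⟨q', h2, h1, Or.inr ?_⟩
      rw [Set.disjoint_iUnion_right]
      intro n
      refine Set.disjoint_left.2 fun z hz hz' => ?_
      obtain ⟨r, hr, hr'⟩ := h4 z hz n
      exact Set.disjoint_left.1 ((h3 n).2 hr) hr' hz'

omit [OrderBot I] in
/-- decision of the basic sets -/
theorem Dec_basic {α η : I} (hη : η < α) (hd : Dec η) (n : ℕ) (σ : Node) {q : Cond I}
    (hq : Low α q) : ∃ q', Low α q' ∧ q' ≤ q ∧
      (Bod q' ⊆ {z | nd (z η) n = σ} ∨ Disjoint (Bod q') {z | nd (z η) n = σ}) := by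
  classical
  by_cases hn : σ.length = n
  swap
  · refine ⟨q, hq, le_rfl, Or.inr (Set.disjoint_left.2 fun z _ hz => hn ?_)⟩
    have hz' : nd (z η) n = σ := hz
    rw [← hz', nd_length]
  subst hn
  obtain ⟨q1, h1, h2, h3⟩ := hd {z | σ ∈ q.C η z} (q.meas η σ) (res q η) (low_res _ _)
  have hglue : glue q1 q η ≤ q := glue_le h2
  rcases h3 with h3 | h3
  · -- restrict the tree at `η` to the node
    let T : (I → Y) → Set Node := fun z => cutT (q.C η z) σ
    have hT1 : ∀ τ, MS η {z | τ ∈ T z} := fun τ =>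
      (q.meas η τ).and ((q.meas η σ).imp (MS.const _ _))
    have hT2 : ∀ z, Pos (T z) := fun z => (q.pos η z).cut _
    refine ⟨setC (glue q1 q η) η T hT1 hT2, ?_, ?_, Or.inl ?_⟩
    · intro ξ hξ z
      rw [setC_ne _ (hη.trans_le hξ).ne', glue_C_ge _ _ (hη.le.trans hξ)]
      exact hq ξ hξ z
    · refine le_trans ?_ hglue
      intro z hz ξ m
      have := hz ξ m
      by_cases hξ : ξ = η
      · subst hξ
        rw [setC_eq] at this
        rw [glue_C_ge _ _ le_rfl]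
        exact this.1
      · rwa [setC_ne _ hξ] at this
    · intro z hz
      have hz1 : z ∈ BodB q1 η := by
        intro ξ hξ m
        have := hz ξ m
        rwa [setC_ne _ hξ.ne, glue_C_lt _ _ hξ] at this
      rw [← Bod_of_low h1] at hz1
      have a1 : σ ∈ q.C η z := h3 hz1
      have h4 := hz η σ.length
      rw [setC_eq] at h4
      show nd (z η) σ.length = σ
      rcases h4.2 a1 with h | h
      · exact h.eq_of_length (by simp)
      · exact (h.eq_of_length (by simp)).symm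
  · refine ⟨glue q1 q η, low_glue (h1.mono hη.le) hq, hglue, Or.inr ?_⟩
    refine Set.disjoint_left.2 fun z hz hz' => ?_
    have hz1 : z ∈ BodB q1 η := by
      have := Bod_sub_BodB _ η hz
      rwa [BodB_glue] at this
    rw [← Bod_of_low h1] at hz1
    refine Set.disjoint_left.1 h3 hz1 ?_
    have h4 := hz η σ.length
    rw [glue_C_ge _ _ le_rfl] at h4
    have hz'' : nd (z η) σ.length = σ := hz'
    rw [hz''] at h4
    exact h4

/-- the extension lemma, the covering property and decision of measurable sets -/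
theorem KL_and_Cov_and_Dec (α : I) :
    (∀ M : Set (Ob I), Suit M → .o α ∈ M → KL M α) ∧ Cov α ∧ Dec α := by
  induction α using WellFoundedLT.induction with
  | ind α ih =>
    have hK : ∀ M : Set (Ob I), Suit M → .o α ∈ M → KL M α := by
      intro M hM hα
      by_cases hs : ∃ β, β ⋖ α
      · obtain ⟨β, hβ⟩ := hs
        obtain ⟨h1, h2, h3⟩ := ih β hβ.1
        exact KL_succ hM hα hβ (h1 M hM (hM.pred _ _ hα hβ)) h2 h3
      · exact KL_lim hM hα (fun β hβ => hs ⟨β, hβ⟩) (fun β hβ hβM => (ih β hβ).1 M hM hβM)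
          (fun β hβ => (ih β hβ).2.2)
    have hC : Cov α := cover_of_KL hK
    exact ⟨hK, hC, Dec_of_induction hC fun η hη n w q hq => Dec_basic hη (ih η hη).2.2 n w hq⟩

theorem kl {M : Set (Ob I)} (hM : Suit M) {α : I} (hα : .o α ∈ M) : KL M α :=
  (KL_and_Cov_and_Dec α).1 M hM hα

theorem cov (α : I) : Cov α := (KL_and_Cov_and_Dec α).2.1

theorem dec (α : I) : Dec α := (KL_and_Cov_and_Dec α).2.2

theorem cover {α : I} {q : Cond I} (hq : Low α q) (D : ℕ → Set (Cond I))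
    (hD : ∀ n, ∀ q' ≤ q, Low α q' → ∃ q'' ≤ q', Low α q'' ∧ q'' ∈ D n) :
    ∃ q' ≤ q, Low α q' ∧ ∃ S : ℕ → Set (Cond I), (∀ n, (S n).Countable ∧ S n ⊆ D n) ∧
      ∀ z ∈ Bod q', ∀ n, ∃ r ∈ S n, z ∈ Bod r :=
  cov α q hq D hD

/-- decision of the value of a countably valued measurable function (or of a covering by countably
many measurable sets) -/
theorem dec_nat {ι : Type*} [Countable ι] {α : I} {q : Cond I} (hq : Low α q)
    (A : ι → Set (I → Y)) (hA : ∀ i, MS α (A i)) (h : ∀ z ∈ Bod q, ∃ i, z ∈ A i) :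
    ∃ q' ≤ q, Low α q' ∧ ∃ i, Bod q' ⊆ A i := by
  obtain ⟨i, q', h1, h2, h3⟩ := dec_nat_of (cov α) (dec α) hA hq h
  exact ⟨q', h1, h2, i, h3⟩

end Pool.Agent.DN
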