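import Pool.Agent.Lib.MP_d988c5_lc.Scl

/-!
# MP_d988c5_lc : the extension lemma, successor step
-/

namespace Pool.Agent.DN

variable {I : Type} [LinearOrder I] [WellFoundedLT I]

theorem KL_succ {M : Set (Ob I)} (hM : Suit M) {α β : I} (hα : .o α ∈ M) (hβ : β ⋖ α)
    (hK : KL M β) (hc : Cov β) (hd : Dec β) : KL M α := by
  classical
  intro η hη hηM E hE p hp h
  rcases hη.eq_or_lt with rfl | hηα
  · exact KL_self h
  have hηβ : η ≤ β := by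
    by_contra hc
    exact hβ.2 (not_le.1 hc) hηα
  have hβM : .o β ∈ M := hM.pred _ _ hα hβ
  have hlt : β < α := hβ.1
  obtain ⟨e, he, he'⟩ := hM.enum
  -- below `β`
  obtain ⟨c1, hc1⟩ := hK η hηβ hηM E hE (fun z => res (p z) β) (by
      intro r
      have : {z | z ∈ E ∧ res (p z) β = r} = {z | ∃ k, (z ∈ E ∧ p z = e k) ∧ res (e k) β = r} := by
        ext z
        constructor
        · rintro ⟨a, b⟩
          obtain ⟨k, hk⟩ := he' _ (h z a).1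
          exact ⟨k, ⟨a, hk.symm⟩, by rw [hk]; exact b⟩
        · rintro ⟨k, ⟨a, b⟩, c⟩
          exact ⟨a, by rw [b]; exact c⟩
      rw [this]
      exact MS.ex fun k => (hp (e k)).and (MS.const _ _)) (by
      intro z hz
      obtain ⟨a1, a2, a3, a4⟩ := h z hz
      exact ⟨hM.res _ _ a1 hβM, low_res _ _, by rw [BodB_res _ hηβ]; exact a3, a4⟩)
  let E1 : Set (I → Y) := {z | z ∈ E ∧ Seg c1 η β z}
  have hE1 : MS β E1 := (hE.mono hηβ).and (Seg_ms c1 η β)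
  have hg : ∀ z ∈ E1, z ∈ BodB (p z) β ∧ Gen M β z := by
    rintro z ⟨hz, hs⟩
    obtain ⟨a, b, _⟩ := hc1 z hz hs
    rw [Bod_res] at a
    exact ⟨a, b⟩
  have mC : ∀ k σ, MS β {z | σ ∈ (e k).C β z} := fun k σ => (e k).meas β σ
  have hp1 : ∀ r, MS β {z | z ∈ E1 ∧ p z = r} := by
    intro r
    have : {z | z ∈ E1 ∧ p z = r} = {z | (z ∈ E ∧ p z = r) ∧ Seg c1 η β z} := by
      ext z
      constructor
      · rintro ⟨⟨a, b⟩, c⟩
        exact ⟨⟨a, c⟩, b⟩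
      · rintro ⟨⟨a, c⟩, b⟩
        exact ⟨⟨a, b⟩, c⟩
    rw [this]
    exact ((hp r).mono hηβ).and (Seg_ms c1 η β)
  -- the trunk
  obtain ⟨σ0, mσ, hσ⟩ := exists_sel (S := Node) (α := β) (E := E1)
    (fun z s => ∃ k, (z ∈ E ∧ p z = e k) ∧ s ∈ (e k).C β z ∧ lev (0 + 1) ((e k).C β z) s)
    (fun s => MS.ex fun k => ((hp _).mono hηβ).and ((mC _ _).and (MS.lev (mC k) _ _)))
    (by
      rintro z ⟨hz, hs⟩
      obtain ⟨k, hk⟩ := he' _ (h z hz).1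
      obtain ⟨τ, hτ, _, hB⟩ := ((e k).pos β z).exists_lev ((e k).pos β z).nil (0 + 1)
      exact ⟨τ, k, ⟨hz, hk.symm⟩, hτ, hB⟩)
  obtain ⟨T, hT1, hT2, hT3⟩ := scl hM hβ hα hc hd hE1 (fun z hz => (hg z hz).2) hp1
    (fun z hz => ⟨(h z hz.1).1, (h z hz.1).2.1, (hg z hz).1⟩) mσ 0 (by
      intro z hz
      obtain ⟨k, ⟨_, a2⟩, a3, a4⟩ := hσ z hz
      rw [a2]
      exact ⟨a3, a4⟩)
  refine ⟨setC c1 β T hT1 hT2, fun z hz hs => ?_⟩
  have hz1 : z ∈ E1 := by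
    refine ⟨hz, fun ξ h1 h2 n => ?_⟩
    have := hs ξ h1 (h2.trans hlt) n
    rwa [setC_ne _ h2.ne] at this
  have hy : ∀ n, nd (z β) n ∈ T z := by
    intro n
    have := hs β hηβ hlt n
    rwa [setC_eq] at this
  obtain ⟨b1, -, -, -, b5⟩ := hT3 z hz1
  have key : ∀ r : Cond I, Low α r → z ∈ BodB r β → (∀ n, nd (z β) n ∈ r.C β z) → z ∈ Bod r := by
    intro r h1 h2 h3
    rw [Bod_of_low h1]
    intro ξ hξ n
    rcases lt_or_eq_of_le (hβ.le_of_lt hξ) with h4 | rfl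
    · exact h2 ξ h4 n
    · exact h3 n
  have hG : GenB M α z (p z) := by
    intro D hD hdn
    obtain ⟨m, r, c2, c3, c4, c5, c6⟩ := b5 D hD hdn (z β) hy
    refine ⟨r, c2, c3, c4, key r (hdn.sub _ c3) c5 fun n => ?_⟩
    rcases le_total m n with h1 | h1
    · exact c6 _ (hy n) (nd_suffix _ h1)
    · exact (r.pos β z).closed' (nd_suffix _ h1) (c6 _ (hy m) List.suffix_rfl)
  exact ⟨key _ (h z hz).2.1 (hg z hz1).1 fun n => b1 (hy n), hG.gen, fun _ => hG⟩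

end Pool.Agent.DN
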