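import Pool.Agent.Lib.MP_d988c5_lc.Params
import Pool.Agent.Lib.MP_d988c5_lc.Dat

/-!
# MP_d988c5_lc : the parameters of one level, in the form used by the forcing
-/

namespace Pool.Agent.DN

theorem exists_lv (n pi col U : ℕ) : ∃ D : Dat, D.Ok n pi col U := by
  classical
  obtain ⟨P⟩ := D9.exists_lv n pi col U
  refine ⟨⟨P.L, P.κ, P.b, P.K, P.T, P.Big⟩, P.col_le, fun u A B h hA => P.mono le_rfl h hA,
    fun u v A h hA => P.mono h le_rfl hA, ?_, fun u A h => P.inter h, ?_, P.top, ?_, P.card_T,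
    P.card_K, P.single⟩
  · intro u r A hr hA
    obtain ⟨i, hi⟩ := P.pigeon (fun i : Fin r => A i.1) hr (by
      intro c hc
      simp only [Set.mem_iUnion] at hc ⊢
      obtain ⟨i, hi, hci⟩ := hc
      exact ⟨⟨i, hi⟩, hci⟩) hA
    exact ⟨i.1, i.2, hi⟩
  · intro u A h
    obtain ⟨c, h1, h2⟩ := P.nonempty h
    exact ⟨c, h1, h2⟩
  · intro u A F hF hA
    have h := P.test F (fun c hc => (hF c hc).1) (fun c hc => (hF c hc).2) hA
    refine le_trans (Nat.mul_le_mul_right _ (le_of_eq ?_)) h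
    rw [Set.ncard_eq_toFinset_card']
    congr 1
    ext x
    simp

end Pool.Agent.DN
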