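import Pool.Agent.Lib.MP_d988c5_lc.Stm

/-!
# MP_d988c5_lc : coverings by basic clopen sets and the coin tossing measure
-/

open MeasureTheory

namespace Pool.Agent.DN

/-- the fair coin -/
noncomputable def coin : Measure Bool := (2⁻¹ : ENNReal) • Measure.count

theorem coin_singleton (b : Bool) : coin {b} = 2⁻¹ := by
  simp [coin]

instance : IsProbabilityMeasure coin := ⟨by
  have h : (Set.univ : Set Bool) = ({true, false} : Set Bool) := by ext b; simp
  have h2 : Measure.count (Set.univ : Set Bool) = 2 := by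
    rw [h, Measure.count_apply_finite' (Set.toFinite _) (MeasurableSet.of_discrete)]
    simp
  unfold coin
  rw [Measure.smul_apply, h2, smul_eq_mul, ENNReal.inv_mul_cancel (by simp) (by simp)]⟩

/-- the coin tossing measure -/
noncomputable def mu : Measure (ℕ → Bool) := Measure.infinitePi fun _ => coin

noncomputable instance : IsProbabilityMeasure mu := by unfold mu; infer_instance

/-- the identification -/
def b2z (x : ℕ → Bool) : Pt := fun n => if x n then 1 else 0

theorem b2z_surj : Function.Surjective b2z := by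
  intro x
  refine ⟨fun n => decide (x n = 1), ?_⟩
  funext n
  show (if (decide (x n = 1) : Bool) then (1 : ZMod 2) else 0) = x n
  generalize x n = v
  revert v; decide

theorem mu_cyl (s : List Bool) : mu (b2z ⁻¹' cyl s) = 2⁻¹ ^ s.length := by
  have h : b2z ⁻¹' cyl s = Set.pi (Finset.range s.length : Set ℕ) (fun i => {s.getD i false}) := by
    ext x
    simp only [Set.mem_preimage, cyl, Set.mem_ofPred_eq, Set.mem_pi, Finset.coe_range, Set.mem_Iio,
      Set.mem_singleton_iff]
    refine forall_congr' fun i => forall_congr' fun hi => ?_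
    rw [List.getD_eq_getElem _ _ hi]
    unfold b2z
    cases x i <;> cases s[i] <;> simp
  rw [h, mu, Measure.infinitePi_pi _ (fun i _ => MeasurableSet.of_discrete)]
  simp [coin_singleton]

/-- null sets -/
def Nl (A : Set Pt) : Prop := mu (b2z ⁻¹' A) = 0

/-- null sets, by coverings -/
def NlC (A : Set Pt) : Prop := ∀ k : ℕ, ∃ C : Set (List Bool), A ⊆ ⋃ s ∈ C, cyl s ∧
  ∑' s : C, (2⁻¹ : ENNReal) ^ s.1.length ≤ 2 * 2⁻¹ ^ k

theorem mu_cover (C : Set (List Bool)) : mu (b2z ⁻¹' ⋃ s ∈ C, cyl s) ≤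
    ∑' s : C, (2⁻¹ : ENNReal) ^ s.1.length := by
  rw [Set.preimage_iUnion₂]
  refine (measure_biUnion_le mu (Set.to_countable C) _).trans ?_
  exact ENNReal.tsum_le_tsum fun s => (mu_cyl s.1).le

theorem NlC.nl {A : Set Pt} (h : NlC A) : Nl A := by
  refine le_antisymm ?_ zero_le
  refine ENNReal.le_of_forall_pos_le_add fun ε hε _ => ?_
  obtain ⟨k, hk⟩ : ∃ k : ℕ, (2 : ENNReal) * 2⁻¹ ^ k < ε := by
    have h1 : Filter.Tendsto (fun k : ℕ => (2 : ENNReal) * 2⁻¹ ^ k) Filter.atTop (nhds (2 * 0)) :=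
      ENNReal.Tendsto.const_mul (ENNReal.tendsto_pow_atTop_nhds_zero_of_lt_one (by simp)) (by simp)
    rw [mul_zero] at h1
    exact (h1.eventually (gt_mem_nhds (by exact_mod_cast hε))).exists
  obtain ⟨C, h2, h3⟩ := h k
  rw [zero_add]
  exact (measure_mono (Set.preimage_mono h2)).trans ((mu_cover C).trans (h3.trans hk.le))

theorem Nl.mono {A B : Set Pt} (h : Nl B) (hAB : A ⊆ B) : Nl A :=
  measure_mono_null (Set.preimage_mono hAB) h

theorem Nl.iUnion {ι : Type*} [Countable ι] {A : ι → Set Pt} (h : ∀ i, Nl (A i)) :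
    Nl (⋃ i, A i) := by
  unfold Nl
  rw [Set.preimage_iUnion]
  exact measure_iUnion_null h

theorem Nl.biUnion {ι : Type*} {S : Set ι} (hS : S.Countable) {A : ι → Set Pt}
    (h : ∀ i ∈ S, Nl (A i)) : Nl (⋃ i ∈ S, A i) := by
  have := hS.to_subtype
  rw [Set.biUnion_eq_iUnion]
  exact Nl.iUnion fun i => h i.1 i.2

theorem Nl.union {A B : Set Pt} (hA : Nl A) (hB : Nl B) : Nl (A ∪ B) := by
  unfold Nl
  rw [Set.preimage_union]
  exact measure_union_null hA hB

/-- a covering of total measure less than one leaves a non-null set uncovered -/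
theorem not_nl_compl {C : Set (List Bool)} (h : ∑' s : C, (2⁻¹ : ENNReal) ^ s.1.length < 1) :
    ¬ Nl {x | ∀ s ∈ C, x ∉ cyl s} := by
  intro h0
  have h1 : mu (b2z ⁻¹' (⋃ s ∈ C, cyl s)) < 1 := (mu_cover C).trans_lt h
  have h2 : mu Set.univ ≤ mu (b2z ⁻¹' (⋃ s ∈ C, cyl s)) +
      mu (b2z ⁻¹' {x | ∀ s ∈ C, x ∉ cyl s}) := by
    refine (measure_mono ?_).trans (measure_union_le _ _)
    intro x _
    by_cases hx : ∃ s ∈ C, b2z x ∈ cyl s
    · obtain ⟨s, hs, hx⟩ := hx
      exact Or.inl (Set.mem_biUnion hs hx)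
    · push Not at hx
      exact Or.inr hx
  rw [measure_univ, h0, add_zero] at h2
  exact absurd h2 (not_le.2 h1)

theorem not_nl_cyl (s : List Bool) : ¬ Nl (cyl s) := by
  unfold Nl
  rw [mu_cyl]
  exact pow_ne_zero _ (by simp)

theorem exists_of_not_nl {W A : Set Pt} (hW : ¬ Nl W) (hA : Nl A) : ∃ x ∈ W, x ∉ A := by
  by_contra hno
  push Not at hno
  exact hW (hA.mono hno)

/-! ### translations -/

/-- the translation of a finite sequence -/
def trs (h : Pt) (s : List Bool) : List Bool :=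
  List.ofFn fun i : Fin s.length => xor s[i] (decide (h i = 1))

@[simp] theorem trs_length (h : Pt) (s : List Bool) : (trs h s).length = s.length := by
  simp [trs]

theorem mem_cyl_trs {h x : Pt} {s : List Bool} : x ∈ cyl (trs h s) ↔ x + h ∈ cyl s := by
  unfold cyl
  simp only [trs_length, Set.mem_ofPred_eq]
  refine forall_congr' fun i => forall_congr' fun hi => ?_
  simp only [trs, List.getElem_ofFn, Pi.add_apply]
  generalize s[i] = b
  generalize x i = v
  generalize h i = w
  revert b v w; decide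

theorem tsum_trs (h : Pt) (C : Set (List Bool)) :
    ∑' s : trs h '' C, (2⁻¹ : ENNReal) ^ s.1.length ≤ ∑' s : C, (2⁻¹ : ENNReal) ^ s.1.length := by
  have h1 : ∑' s : trs h '' C, (2⁻¹ : ENNReal) ^ s.1.length ≤
      ∑' s : C, (2⁻¹ : ENNReal) ^ (trs h s.1).length :=
    ENNReal.tsum_le_tsum_comp_of_surjective (f := fun s : C => (⟨trs h s.1, s.1, s.2, rfl⟩ :
      trs h '' C)) (by rintro ⟨_, s, hs, rfl⟩; exact ⟨⟨s, hs⟩, rfl⟩)
        fun s => (2⁻¹ : ENNReal) ^ s.1.length
  simpa using h1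

theorem NlC.trans {A : Set Pt} (hA : NlC A) (h : Pt) : NlC {x | x + h ∈ A} := by
  intro k
  obtain ⟨C, h1, h2⟩ := hA k
  refine ⟨trs h '' C, fun x hx => ?_, (tsum_trs h C).trans h2⟩
  obtain ⟨s, hs, hxs⟩ := Set.mem_iUnion₂.1 (h1 hx)
  exact Set.mem_biUnion ⟨s, hs, rfl⟩ (mem_cyl_trs.2 hxs)

theorem nlC_singleton (x : Pt) : NlC {x} := by
  intro k
  refine ⟨{List.ofFn fun i : Fin k => decide (x i = 1)}, ?_, ?_⟩
  · intro y hy
    obtain rfl : y = x := hy
    rw [Set.biUnion_singleton]
    unfold cyl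
    simp only [List.length_ofFn, List.getElem_ofFn, Set.mem_ofPred_eq]
    intro i hi
    generalize y i = v
    revert v; decide
  · rw [tsum_fintype]
    simp only [Finset.univ_unique, Set.default_coe_singleton, Finset.sum_singleton, List.length_ofFn]
    exact le_mul_of_one_le_left zero_le (by norm_num)

end Pool.Agent.DN
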