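import Pool.Agent.Lib.MP_d988c5_lc.Defs

/-!
# MP_d988c5_lc : calculus of measurable sets of points
-/

namespace Pool.Agent.DN

variable {I : Type} [LinearOrder I]

theorem MS.dep {ξ : I} {A : Set (I → Y)} (hA : MS ξ A) {z z' : I → Y} (h : ∀ η < ξ, z η = z' η) :
    z ∈ A ↔ z' ∈ A := by
  refine MeasurableSpace.generateFrom_induction
    {A : Set (I → Y) | ∃ η < ξ, ∃ (n : ℕ) (σ : Node), A = {z | nd (z η) n = σ}} (fun t _ => z ∈ t ↔ z' ∈ t)
    ?_ ?_ ?_ ?_ A hA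
  · rintro t ⟨η, hη, n, w, rfl⟩ _
    simp [h η hη]
  · simp
  · intro t _ ih; simp [ih]
  · intro s _ ih; simp [ih]

theorem MS.mono {ξ ξ' : I} (h : ξ ≤ ξ') {A : Set (I → Y)} (hA : MS ξ A) : MS ξ' A := by
  refine MeasurableSpace.generateFrom_mono ?_ A hA
  rintro t ⟨η, hη, n, w, rfl⟩
  exact ⟨η, lt_of_lt_of_le hη h, n, w, rfl⟩

theorem MS.compl {ξ : I} {A : Set (I → Y)} (hA : MS ξ A) : MS ξ Aᶜ := MeasurableSet.compl hA

theorem MS.empty (ξ : I) : MS ξ (∅ : Set (I → Y)) := @MeasurableSet.empty _ (Flt ξ)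

theorem MS.univ (ξ : I) : MS ξ (Set.univ : Set (I → Y)) := @MeasurableSet.univ _ (Flt ξ)

theorem MS.iUnion {ξ : I} {ι : Type*} [Countable ι] {A : ι → Set (I → Y)} (hA : ∀ i, MS ξ (A i)) :
    MS ξ (⋃ i, A i) := MeasurableSet.iUnion hA

theorem MS.iInter {ξ : I} {ι : Type*} [Countable ι] {A : ι → Set (I → Y)} (hA : ∀ i, MS ξ (A i)) :
    MS ξ (⋂ i, A i) := MeasurableSet.iInter hA

theorem MS.inter {ξ : I} {A B : Set (I → Y)} (hA : MS ξ A) (hB : MS ξ B) : MS ξ (A ∩ B) :=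
  MeasurableSet.inter hA hB

theorem MS.union {ξ : I} {A B : Set (I → Y)} (hA : MS ξ A) (hB : MS ξ B) : MS ξ (A ∪ B) :=
  MeasurableSet.union hA hB

theorem MS.diff {ξ : I} {A B : Set (I → Y)} (hA : MS ξ A) (hB : MS ξ B) : MS ξ (A \ B) :=
  MeasurableSet.diff hA hB

theorem MS.const (ξ : I) (p : Prop) : MS ξ ({_z : I → Y | p}) := by
  by_cases h : p
  · simpa [h] using MS.univ ξ
  · simpa [h] using MS.empty ξ

theorem MS.not {ξ : I} {p : (I → Y) → Prop} (h : MS ξ {z | p z}) : MS ξ {z | ¬ p z} := h.compl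

theorem MS.and {ξ : I} {p q : (I → Y) → Prop} (h : MS ξ {z | p z}) (h' : MS ξ {z | q z}) :
    MS ξ {z | p z ∧ q z} := h.inter h'

theorem MS.or {ξ : I} {p q : (I → Y) → Prop} (h : MS ξ {z | p z}) (h' : MS ξ {z | q z}) :
    MS ξ {z | p z ∨ q z} := h.union h'

theorem MS.imp {ξ : I} {p q : (I → Y) → Prop} (h : MS ξ {z | p z}) (h' : MS ξ {z | q z}) :
    MS ξ {z | p z → q z} := by
  have : {z : I → Y | p z → q z} = {z | ¬ p z ∨ q z} := by
    ext z; simp [imp_iff_not_or]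
  rw [this]; exact h.not.or h'

theorem MS.iff {ξ : I} {p q : (I → Y) → Prop} (h : MS ξ {z | p z}) (h' : MS ξ {z | q z}) :
    MS ξ {z | p z ↔ q z} := by
  have : {z : I → Y | p z ↔ q z} = {z | (p z → q z) ∧ (q z → p z)} := by
    ext z; simp [iff_def]
  rw [this]; exact (h.imp h').and (h'.imp h)

theorem MS.ex {ξ : I} {ι : Sort*} [Countable ι] {p : (I → Y) → ι → Prop}
    (h : ∀ i, MS ξ {z | p z i}) : MS ξ {z | ∃ i, p z i} := by
  have : {z : I → Y | ∃ i, p z i} = ⋃ i : PLift ι, {z | p z i.down} := by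
    ext z; simp [PLift.exists]
  rw [this]; exact MS.iUnion fun i => h i.down

theorem MS.all {ξ : I} {ι : Sort*} [Countable ι] {p : (I → Y) → ι → Prop}
    (h : ∀ i, MS ξ {z | p z i}) : MS ξ {z | ∀ i, p z i} := by
  have : {z : I → Y | ∀ i, p z i} = ⋂ i : PLift ι, {z | p z i.down} := by
    ext z; simp [PLift.forall]
  rw [this]; exact MS.iInter fun i => h i.down

theorem MS.nd {ξ η : I} (h : η < ξ) (n : ℕ) (σ : Node) :
    MS ξ {z : I → Y | nd (z η) n = σ} :=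
  MeasurableSpace.measurableSet_generateFrom ⟨η, h, n, σ, rfl⟩

/-- membership of an initial segment in a measurable tree -/
theorem MS.nd_mem {ξ η : I} (h : η < ξ) {T : (I → Y) → Set Node}
    (hT : ∀ σ, MS ξ {z | σ ∈ T z}) (n : ℕ) : MS ξ {z : I → Y | DN.nd (z η) n ∈ T z} := by
  have : {z : I → Y | DN.nd (z η) n ∈ T z} = {z | ∃ σ, DN.nd (z η) n = σ ∧ σ ∈ T z} := by
    ext z; simp
  rw [this]
  exact MS.ex fun σ => (MS.nd h n σ).and (hT σ)

/-- bigness of a measurable set of digits -/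
theorem MS.bg {ξ : I} {A : (I → Y) → Set ℕ} (hA : ∀ c, MS ξ {z | c ∈ A z}) (u : ℕ) (σ : Node) :
    MS ξ {z | DN.bg u σ (A z)} := by
  classical
  have : {z : I → Y | DN.bg u σ (A z)} = {z | ∃ s : Finset ℕ, (∀ c ∈ s, c ∈ A z) ∧
      DN.bg u σ (s : Set ℕ)} := by
    ext z
    constructor
    · intro h
      refine ⟨(Finset.range (dat (ix σ)).kap).filter (fun c => c ∈ A z), ?_, ?_⟩
      · intro c hc; exact (Finset.mem_filter.1 hc).2
      · refine (DN.bg.inter h).mono ?_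
        rintro c ⟨h1, h2⟩
        simp only [Finset.coe_filter, Finset.mem_range, Set.mem_ofPred_eq]
        exact ⟨h2, h1⟩
    · rintro ⟨s, h1, h2⟩
      exact DN.bg.mono h2 fun c hc => h1 c hc
  rw [this]
  exact MS.ex fun s => (MS.all fun c => MS.all fun _ => hA c).and (MS.const _ _)

theorem MS.bgn {ξ : I} {A : (I → Y) → Set ℕ} (hA : ∀ c, MS ξ {z | c ∈ A z}) (u : ℕ) (σ : Node) :
    MS ξ {z | DN.bgn u σ (A z)} := MS.bg hA _ _

/-- all nodes above `σ` are big -/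
theorem MS.lev {ξ : I} {T : (I → Y) → Set Node} (hT : ∀ σ, MS ξ {z | σ ∈ T z}) (j : ℕ) (σ : Node) :
    MS ξ {z | DN.lev j (T z) σ} :=
  MS.all fun τ => (hT τ).imp (MS.all fun _ => MS.bgn (fun c => hT (c :: τ)) _ _)

/-- the value of a countably valued measurable function, in a measurable relation -/
theorem MS.subst {ξ : I} {ι : Type*} [Countable ι] {g : (I → Y) → ι}
    (hg : ∀ i, MS ξ {z | g z = i}) {R : (I → Y) → ι → Prop} (hR : ∀ i, MS ξ {z | R z i}) :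
    MS ξ {z | R z (g z)} := by
  have : {z : I → Y | R z (g z)} = {z | ∃ i, g z = i ∧ R z i} := by
    ext z; simp
  rw [this]
  exact MS.ex fun i => (hg i).and (hR i)

end Pool.Agent.DN
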