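import Pool.Agent.Lib.MP_d988c5_lc.Sel
import Pool.Agent.Lib.MP_d988c5_lc.Cl

/-!
# MP_d988c5_lc : suitable countable sets of objects, genericity
-/

namespace Pool.Agent.DN

/-- slaloms: for every index a finite set of points of the cube -/
abbrev Sl : Type := (n : ℕ) → Finset (VV n)

/-- the objects: conditions, coordinates, sets of conditions, names of slaloms, sequences of
conditions -/
inductive Ob (I : Type) [LinearOrder I] : Type
  | c (p : Cond I) : Ob I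
  | o (α : I) : Ob I
  | d (D : Set (Cond I)) : Ob I
  | x (X : (I → Y) → Sl) : Ob I
  | s (t : ℕ → Cond I) : Ob I

variable {I : Type} [LinearOrder I]

/-- open dense sets of conditions with coordinates below `α` -/
structure Dn (α : I) (D : Set (Cond I)) : Prop where
  sub : ∀ q ∈ D, Low α q
  opn : ∀ q ∈ D, ∀ q', Low α q' → q' ≤ q → q' ∈ D
  dns : ∀ q, Low α q → ∃ q' ≤ q, q' ∈ D

/-- the projection of a dense set below a condition -/
def Lift (α β : I) (r : Cond I) (D : Set (Cond I)) : Set (Cond I) :=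
  {q | Low β q ∧ ((¬ ∃ t, Low β t ∧ t ≤ q ∧ t ≤ res r β) ∨
    ∃ r', Low α r' ∧ r' ≤ r ∧ q ≤ res r' β ∧ r' ∈ D)}

/-- the part of a dense set below a condition -/
def Upg (α : I) (r : Cond I) (D : Set (Cond I)) : Set (Cond I) :=
  {q | Low α q ∧ (Disjoint (Bod q) (Bod r) ∨ (q ≤ r ∧ q ∈ D))}

/-- the good nodes of rank at most `j` (for the tree of `r` at `β`; `S` is a set of conditions below
`r`, `n` is the level on the way, `n'` the level of the target) -/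
def Gd (S : Set (Cond I)) (β : I) (r : Cond I) (n n' : ℕ) (z : I → Y) : ℕ → Set Node
  | 0 => {ρ | ρ ∈ r.C β z ∧ ∃ r' ∈ S, z ∈ BodB r' β ∧ ρ ∈ r'.C β z ∧ lev n' (r'.C β z) ρ}
  | j + 1 => Gd S β r n n' z j ∪
      {ρ | ρ ∈ r.C β z ∧ bgn n ρ {c | c :: ρ ∈ Gd S β r n n' z j}}

/-- the points at which the front lemma can be applied -/
def FrA (β : I) (r : Cond I) (n : ℕ) (σ : Node) : Set (I → Y) :=
  {z | z ∈ BodB r β ∧ σ ∈ r.C β z ∧ lev (n + 1) (r.C β z) σ}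

/-- the set `S` of conditions shows that `σ` is good on `q` -/
def FrW (β : I) (r : Cond I) (D : Set (Cond I)) (n n' : ℕ) (σ : Node) (q : Cond I)
    (S : Set (Cond I)) : Prop :=
  S ⊆ {r' | r' ≤ r ∧ r' ∈ D} ∧ ∀ z ∈ Bod q, ∃ j, σ ∈ Gd S β r n n' z j

/-- the dense set of the front lemma -/
def FrD (β : I) (r : Cond I) (D : Set (Cond I)) (n n' : ℕ) (σ : Node) : Set (Cond I) :=
  {q | Low β q ∧ (Disjoint (Bod q) (FrA β r n σ) ∨ ∃ S : Set (Cond I), S.Countable ∧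
    FrW β r D n n' σ q S)}

/-- suitable countable sets of objects -/
structure Suit (M : Set (Ob I)) : Prop where
  cnt : M.Countable
  one : .c (one I) ∈ M
  supp : ∀ p, .c p ∈ M → ∀ ξ, (∃ z, p.C ξ z ≠ Ful) → .o ξ ∈ M
  res : ∀ p α, .c p ∈ M → .o α ∈ M → .c (res p α) ∈ M
  sp : ∀ p α σ, .c p ∈ M → .o α ∈ M → .c (sp p α σ) ∈ M
  pred : ∀ α β, .o α ∈ M → β ⋖ α → .o β ∈ M
  btw : ∀ α β, .o α ∈ M → .o β ∈ M → (∃ ζ, α < ζ ∧ ζ < β) → ∃ ζ, .o ζ ∈ M ∧ α < ζ ∧ ζ < β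
  lift : ∀ α β r D, .o α ∈ M → .o β ∈ M → .c r ∈ M → .d D ∈ M → .d (Lift α β r D) ∈ M
  upg : ∀ α r D, .o α ∈ M → .c r ∈ M → .d D ∈ M → .d (Upg α r D) ∈ M
  wit : ∀ α β r D q, .o α ∈ M → .o β ∈ M → .c r ∈ M → .d D ∈ M → .c q ∈ M →
    (∃ r', Low α r' ∧ r' ≤ r ∧ q ≤ DN.res r' β ∧ r' ∈ D) →
    ∃ r', .c r' ∈ M ∧ Low α r' ∧ r' ≤ r ∧ q ≤ DN.res r' β ∧ r' ∈ D
  lowd : ∀ α, .o α ∈ M → .d {q | Low α q} ∈ M
  frd : ∀ β r D n n' σ, .o β ∈ M → .c r ∈ M → .d D ∈ M → .d (FrD β r D n n' σ) ∈ M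
  frw : ∀ β r D n n' σ q, .o β ∈ M → .c r ∈ M → .d D ∈ M → .c q ∈ M →
    (∃ S : Set (Cond I), S.Countable ∧ FrW β r D n n' σ q S) →
    ∃ S : Set (Cond I), S.Countable ∧ (∀ r' ∈ S, .c r' ∈ M) ∧ FrW β r D n n' σ q S

private theorem cl_one : Cl (fun M : Set (Ob I) => .c (one I) ∈ M) :=
  (cl_fun (fun _ : List (Ob I) => .c (one I))).mono fun _ h => h [] (by simp)

private theorem cl_supp : Cl (fun M : Set (Ob I) => ∀ p, .c p ∈ M → ∀ ξ,
    (∃ z, p.C ξ z ≠ Ful) → .o ξ ∈ M) := by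
  refine (cl_op (fun l : List (Ob I) => match l with
    | [.c p] => {x | ∃ ξ, (∃ z, p.C ξ z ≠ Ful) ∧ x = .o ξ}
    | _ => ∅) fun l => ?_).mono fun M h p hp ξ hξ => h [.c p] (by simp [hp]) ⟨ξ, hξ, rfl⟩
  split
  · rename_i p
    refine (p.supp.image (fun ξ => (.o ξ : Ob I))).mono ?_
    rintro x ⟨ξ, h, rfl⟩
    exact ⟨ξ, h, rfl⟩
  · exact Set.countable_empty

private theorem cl_res : Cl (fun M : Set (Ob I) => ∀ p α, .c p ∈ M → .o α ∈ M →
    .c (res p α) ∈ M) :=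
  (cl_fun (fun l : List (Ob I) => match l with
    | [.c p, .o α] => .c (res p α)
    | _ => .c (one I))).mono fun _ h p α hp hα => h [.c p, .o α] (by simp [hp, hα])

private theorem cl_sp : Cl (fun M : Set (Ob I) => ∀ p α σ, .c p ∈ M → .o α ∈ M →
    .c (sp p α σ) ∈ M) :=
  (Cl.all (ι := Node) fun σ => cl_fun (fun l : List (Ob I) => match l with
    | [.c p, .o α] => .c (sp p α σ)
    | _ => .c (one I))).mono fun _ h p α σ hp hα => h σ [.c p, .o α] (by simp [hp, hα])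

private theorem cl_pred : Cl (fun M : Set (Ob I) => ∀ α β, .o α ∈ M → β ⋖ α → .o β ∈ M) := by
  refine (cl_op (fun l : List (Ob I) => match l with
    | [.o α] => {x | ∃ β, β ⋖ α ∧ x = .o β}
    | _ => ∅) fun l => ?_).mono fun M h α β hα hβ => h [.o α] (by simp [hα]) ⟨β, hβ, rfl⟩
  split
  · rename_i α
    have : {x : Ob I | ∃ β, β ⋖ α ∧ x = .o β}.Subsingleton := by
      rintro x ⟨β, hβ, rfl⟩ y ⟨γ, hγ, rfl⟩
      rw [hβ.unique_left hγ]
    exact this.countable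
  · exact Set.countable_empty

private theorem cl_btw : Cl (fun M : Set (Ob I) => ∀ α β, .o α ∈ M → .o β ∈ M →
    (∃ ζ, α < ζ ∧ ζ < β) → ∃ ζ, .o ζ ∈ M ∧ α < ζ ∧ ζ < β) := by
  refine (cl_rel (fun (l : List (Ob I)) x => match l with
    | [.o α, .o β] => ∃ ζ, x = .o ζ ∧ α < ζ ∧ ζ < β
    | _ => False)).mono fun M h α β hα hβ hζ => ?_
  obtain ⟨x, hx, ζ, rfl, h1⟩ := h [.o α, .o β] (by simp [hα, hβ])
    ⟨.o hζ.choose, hζ.choose, rfl, hζ.choose_spec⟩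
  exact ⟨ζ, hx, h1⟩

private theorem cl_lift : Cl (fun M : Set (Ob I) => ∀ α β r D, .o α ∈ M → .o β ∈ M → .c r ∈ M →
    .d D ∈ M → .d (Lift α β r D) ∈ M) :=
  (cl_fun (fun l : List (Ob I) => match l with
    | [.o α, .o β, .c r, .d D] => .d (Lift α β r D)
    | _ => .c (one I))).mono fun _ h α β r D hα hβ hr hD =>
      h [.o α, .o β, .c r, .d D] (by simp [hα, hβ, hr, hD])

private theorem cl_upg : Cl (fun M : Set (Ob I) => ∀ α r D, .o α ∈ M → .c r ∈ M → .d D ∈ M →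
    .d (Upg α r D) ∈ M) :=
  (cl_fun (fun l : List (Ob I) => match l with
    | [.o α, .c r, .d D] => .d (Upg α r D)
    | _ => .c (one I))).mono fun _ h α r D hα hr hD =>
      h [.o α, .c r, .d D] (by simp [hα, hr, hD])

private theorem cl_wit : Cl (fun M : Set (Ob I) => ∀ α β r D q, .o α ∈ M → .o β ∈ M → .c r ∈ M →
    .d D ∈ M → .c q ∈ M → (∃ r', Low α r' ∧ r' ≤ r ∧ q ≤ DN.res r' β ∧ r' ∈ D) →
    ∃ r', .c r' ∈ M ∧ Low α r' ∧ r' ≤ r ∧ q ≤ DN.res r' β ∧ r' ∈ D) := by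
  refine (cl_rel (fun (l : List (Ob I)) x => match l with
    | [.o α, .o β, .c r, .d D, .c q] =>
      ∃ r', x = .c r' ∧ Low α r' ∧ r' ≤ r ∧ q ≤ DN.res r' β ∧ r' ∈ D
    | _ => False)).mono fun M h α β r D q hα hβ hr hD hq hw => ?_
  obtain ⟨x, hx, r', rfl, h1⟩ := h [.o α, .o β, .c r, .d D, .c q]
    (by simp [hα, hβ, hr, hD, hq]) ⟨.c hw.choose, hw.choose, rfl, hw.choose_spec⟩
  exact ⟨r', hx, h1⟩

private theorem cl_lowd : Cl (fun M : Set (Ob I) => ∀ α, .o α ∈ M → .d {q | Low α q} ∈ M) :=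
  (cl_fun (fun l : List (Ob I) => match l with
    | [.o α] => .d {q | Low α q}
    | _ => .c (one I))).mono fun _ h α hα => h [.o α] (by simp [hα])

private theorem cl_frd : Cl (fun M : Set (Ob I) => ∀ β r D n n' σ, .o β ∈ M → .c r ∈ M →
    .d D ∈ M → .d (FrD β r D n n' σ) ∈ M) :=
  (Cl.all (ι := ℕ) fun n => Cl.all (ι := ℕ) fun n' => Cl.all (ι := Node) fun σ =>
    cl_fun (fun l : List (Ob I) => match l with
    | [.o β, .c r, .d D] => .d (FrD β r D n n' σ)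
    | _ => .c (one I))).mono fun _ h β r D n n' σ hβ hr hD =>
      h n n' σ [.o β, .c r, .d D] (by simp [hβ, hr, hD])

private theorem cl_frw : Cl (fun M : Set (Ob I) => ∀ β r D n n' σ q, .o β ∈ M → .c r ∈ M →
    .d D ∈ M → .c q ∈ M →
    (∃ S : Set (Cond I), S.Countable ∧ FrW β r D n n' σ q S) →
    ∃ S : Set (Cond I), S.Countable ∧ (∀ r' ∈ S, .c r' ∈ M) ∧ FrW β r D n n' σ q S) := by
  refine (Cl.all (ι := ℕ) fun n => Cl.all (ι := ℕ) fun n' => Cl.all (ι := Node) fun σ =>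
    cl_set (fun (l : List (Ob I)) T => match l with
    | [.o β, .c r, .d D, .c q] =>
      ∃ S : Set (Cond I), S.Countable ∧ T = (fun p => (.c p : Ob I)) '' S ∧ FrW β r D n n' σ q S
    | _ => False)).mono fun M h β r D n n' σ q hβ hr hD hq hS => ?_
  obtain ⟨S, hS1, hS2⟩ := hS
  obtain ⟨T, hT, -, S', a1, rfl, a3⟩ := h n n' σ [.o β, .c r, .d D, .c q]
    (by simp [hβ, hr, hD, hq]) ⟨_, hS1.image _, S, hS1, rfl, hS2⟩
  exact ⟨S', a1, fun r' hr' => hT ⟨r', hr', rfl⟩, a3⟩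

theorem cl_suit : Cl (fun M : Set (Ob I) => Suit M) :=
  ((((cl_countable.and cl_one).and (cl_supp.and cl_res)).and
    ((cl_sp.and cl_pred).and (cl_btw.and cl_lift))).and
    (((cl_upg.and cl_wit).and cl_lowd).and (cl_frd.and cl_frw))).mono
    fun _ ⟨⟨⟨⟨h1, h2⟩, h3, h4⟩, ⟨h5, h6⟩, h7, h8⟩, ⟨⟨h9, h10⟩, h11⟩, h12, h13⟩ =>
      ⟨h1, h2, h3, h4, h5, h6, h7, h8, h9, h10, h11, h12, h13⟩

/-! ### enumerations -/

theorem Suit.enum {M : Set (Ob I)} (hM : Suit M) : ∃ e : ℕ → Cond I, (∀ n, .c (e n) ∈ M) ∧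
    ∀ p, .c p ∈ M → ∃ n, e n = p := by
  have h1 : {p : Cond I | .c p ∈ M}.Countable := by
    refine hM.cnt.preimage_of_injOn ?_
    intro p _ q _ h
    simpa using h
  obtain ⟨e, he⟩ := h1.exists_eq_range ⟨DN.one I, hM.one⟩
  refine ⟨e, fun n => ?_, fun p hp => ?_⟩
  · have : e n ∈ {p : Cond I | .c p ∈ M} := by rw [he]; exact ⟨n, rfl⟩
    exact this
  · have : p ∈ Set.range e := by rw [← he]; exact hp
    exact this

theorem Suit.enumd {M : Set (Ob I)} (hM : Suit M) : ∃ e : ℕ → Set (Cond I),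
    ∀ D, .d D ∈ M → ∃ n, e n = D := by
  have h1 : (insert ∅ {D : Set (Cond I) | .d D ∈ M}).Countable := by
    refine (hM.cnt.preimage_of_injOn ?_).insert _
    intro p _ q _ h
    simpa using h
  obtain ⟨e, he⟩ := h1.exists_eq_range ⟨∅, Or.inl rfl⟩
  refine ⟨e, fun D hD => ?_⟩
  have : D ∈ Set.range e := by rw [← he]; exact Or.inr hD
  exact this

/-! ### genericity -/

/-- the point `z` is generic over `M` below `α` -/
def Gen (M : Set (Ob I)) (α : I) (z : I → Y) : Prop :=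
  ∀ D, .d D ∈ M → Dn α D → ∃ q, .c q ∈ M ∧ q ∈ D ∧ z ∈ Bod q

/-- conditions with coordinates below `α` decide measurable sets -/
def Dec (α : I) : Prop := ∀ A, MS α A → ∀ q, Low α q →
  ∃ q', Low α q' ∧ q' ≤ q ∧ (Bod q' ⊆ A ∨ Disjoint (Bod q') A)

theorem Bod_dep {α : I} {p : Cond I} (hp : Low α p) {z z' : I → Y} (h : ∀ ξ < α, z ξ = z' ξ) :
    z ∈ Bod p ↔ z' ∈ Bod p := by
  rw [Bod_of_low hp]; exact BodB_dep h

theorem Gen.dep {M : Set (Ob I)} {α : I} {z z' : I → Y}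
    (h : ∀ ξ < α, z ξ = z' ξ) (hg : Gen M α z) : Gen M α z' := by
  intro D hD hd
  obtain ⟨q, h1, h2, h3⟩ := hg D hD hd
  exact ⟨q, h1, h2, (Bod_dep (hd.sub _ h2) h).1 h3⟩

theorem Upg_dense {α : I} (hdec : Dec α) {r : Cond I} (hr : Low α r)
    {D : Set (Cond I)} (hD : Dn α D) : Dn α (Upg α r D) := by
  refine ⟨fun q hq => hq.1, ?_, ?_⟩
  · rintro q ⟨h1, h3⟩ q' hq' hle
    refine ⟨hq', ?_⟩
    rcases h3 with h3 | ⟨h3, h4⟩
    · exact Or.inl (h3.mono_left hle)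
    · exact Or.inr ⟨hle.trans h3, hD.opn _ h4 _ hq' hle⟩
  · intro q hq
    obtain ⟨q1, a1, a2, a3⟩ := hdec (Bod r) (Bod_ms hr) q hq
    rcases a3 with a3 | a3
    · obtain ⟨q2, b1, b3⟩ := hD.dns q1 a1
      exact ⟨q2, b1.trans a2, hD.sub _ b3, Or.inr ⟨b1.trans a3, b3⟩⟩
    · exact ⟨q1, a2, a1, Or.inl a3⟩

/-- dense sets are met below every condition of `M` which contains the generic point -/
theorem Gen.below {M : Set (Ob I)} (hM : Suit M) {α : I} (hα : .o α ∈ M)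
    (hdec : Dec α) {z : I → Y} (hg : Gen M α z) {r : Cond I} (h1 : .c r ∈ M) (h2 : Low α r)
    (h3 : z ∈ Bod r) {D : Set (Cond I)} (hD : .d D ∈ M) (hd : Dn α D) :
    ∃ q, .c q ∈ M ∧ q ≤ r ∧ z ∈ Bod q ∧ q ∈ D := by
  obtain ⟨q, a1, a2, a3⟩ := hg (Upg α r D) (hM.upg _ _ _ hα h1 hD) (Upg_dense hdec h2 hd)
  rcases a2.2 with b | b
  · exact absurd h3 (Set.disjoint_left.1 b a3)
  · exact ⟨q, a1, b.1, a3, b.2⟩

/-- `M`-generic points: a measurable set defined in `M` -/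
theorem Gen.decide {M : Set (Ob I)} (hM : Suit M) {α : I} (hα : .o α ∈ M)
    (hdec : Dec α) {z : I → Y} (hg : Gen M α z) {A : Set (I → Y)} (hA : MS α A)
    (hAM : .d {q | Low α q ∧ (Bod q ⊆ A ∨ Disjoint (Bod q) A)} ∈ M)
    {r : Cond I} (h1 : .c r ∈ M) (h2 : Low α r) (h3 : z ∈ Bod r) (hz : z ∈ A) :
    ∃ q, .c q ∈ M ∧ Low α q ∧ q ≤ r ∧ z ∈ Bod q ∧ Bod q ⊆ A := by
  have hd : Dn α {q | Low α q ∧ (Bod q ⊆ A ∨ Disjoint (Bod q) A)} := by
    refine ⟨fun q hq => hq.1, ?_, ?_⟩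
    · rintro q ⟨_, a2⟩ q' hq' hle
      refine ⟨hq', ?_⟩
      rcases a2 with a2 | a2
      · exact Or.inl (Set.Subset.trans hle a2)
      · exact Or.inr (a2.mono_left hle)
    · intro q hq
      obtain ⟨q', a1, a2, a3⟩ := hdec A hA q hq
      exact ⟨q', a2, a1, a3⟩
  obtain ⟨q, b1, b2, b3, b4, b5⟩ := hg.below hM hα hdec h1 h2 h3 hAM hd
  rcases b5 with b5 | b5
  · exact ⟨q, b1, b4, b2, b3, b5⟩
  · exact absurd hz (Set.disjoint_left.1 b5 b3)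

variable [WellFoundedLT I]

theorem Lift_dense {α β : I} (h : β ≤ α) {r : Cond I} (hr : Low α r)
    {D : Set (Cond I)} (hD : Dn α D) : Dn β (Lift α β r D) := by
  refine ⟨fun q hq => hq.1, ?_, ?_⟩
  · rintro q ⟨h1, h3⟩ q' hq' hle
    refine ⟨hq', ?_⟩
    rcases h3 with h3 | ⟨r', a1, a2, a3, a4⟩
    · left
      rintro ⟨t, b1, b2, b3⟩
      exact h3 ⟨t, b1, b2.trans hle, b3⟩
    · right
      exact ⟨r', a1, a2, hle.trans a3, a4⟩
  · intro q hq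
    by_cases hc : ∃ t, Low β t ∧ t ≤ q ∧ t ≤ res r β
    · obtain ⟨t, b1, b2, b3⟩ := hc
      obtain ⟨r', c1, c3⟩ := hD.dns (glue t r β) (low_glue (b1.mono h) hr)
      refine ⟨res r' β, ?_, low_res _ _, Or.inr ⟨r', hD.sub _ c3, c1.trans (glue_le b3), le_rfl, c3⟩⟩
      have := res_mono c1 β
      rw [res_glue, res_eq_self b1] at this
      exact this.trans b2
    · exact ⟨q, le_rfl, hq, Or.inl hc⟩

/-- the fundamental step: a dense set of the longer iteration is met by a condition of `M` which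
is compatible with the generic point -/
theorem step {M : Set (Ob I)} (hM : Suit M) {α β : I} (h : β ≤ α) (hdec : Dec β)
    (hα : .o α ∈ M) (hβ : .o β ∈ M) {r : Cond I} (hrM : .c r ∈ M) (hr : Low α r)
    {D : Set (Cond I)} (hDM : .d D ∈ M) (hD : Dn α D) {z : I → Y}
    (hz : z ∈ BodB r β) (hg : Gen M β z) :
    ∃ r', .c r' ∈ M ∧ Low α r' ∧ r' ≤ r ∧ z ∈ BodB r' β ∧ r' ∈ D := by
  obtain ⟨q, h1, h2, h3, h4⟩ := hg.below hM hβ hdec (hM.res _ _ hrM hβ) (low_res _ _)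
    (by rw [Bod_res]; exact hz) (hM.lift _ _ _ _ hα hβ hrM hDM) (Lift_dense h hr hD)
  obtain ⟨a1, a3⟩ := h4
  rcases a3 with a3 | a3
  · exact absurd ⟨q, a1, le_rfl, h2⟩ a3
  · obtain ⟨r', b1, b2, b3, b4, b5⟩ := hM.wit _ _ _ _ _ hα hβ hrM hDM h1 a3
    refine ⟨r', b1, b2, b3, ?_, b5⟩
    have := b4 h3
    rwa [Bod_res] at this

/-- the dense sets are met by conditions below `r` -/
def GenB (M : Set (Ob I)) (α : I) (z : I → Y) (r : Cond I) : Prop :=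
  ∀ D, .d D ∈ M → Dn α D → ∃ q, .c q ∈ M ∧ q ∈ D ∧ q ≤ r ∧ z ∈ Bod q

/-- the extension lemma for `M` and `α` -/
def KL (M : Set (Ob I)) (α : I) : Prop :=
  ∀ (η : I), η ≤ α → .o η ∈ M → ∀ E : Set (I → Y), MS η E →
    ∀ p : (I → Y) → Cond I, (∀ r, MS η {z | z ∈ E ∧ p z = r}) →
    (∀ z ∈ E, .c (p z) ∈ M ∧ Low α (p z) ∧ z ∈ BodB (p z) η ∧ Gen M η z) →
    ∃ c : Cond I, ∀ z ∈ E, Seg c η α z → z ∈ Bod (p z) ∧ Gen M α z ∧
      (η < α → GenB M α z (p z))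

/-- the covering property -/
def Cov (α : I) : Prop := ∀ q : Cond I, Low α q → ∀ D : ℕ → Set (Cond I),
  (∀ n, ∀ q' ≤ q, Low α q' → ∃ q'' ≤ q', Low α q'' ∧ q'' ∈ D n) →
  ∃ q' ≤ q, Low α q' ∧ ∃ S : ℕ → Set (Cond I), (∀ n, (S n).Countable ∧ S n ⊆ D n) ∧
      ∀ z ∈ Bod q', ∀ n, ∃ r ∈ S n, z ∈ Bod r

omit [WellFoundedLT I] in
theorem GenB.gen {M : Set (Ob I)} {α : I} {z : I → Y} {r : Cond I} (h : GenB M α z r) :
    Gen M α z := by
  intro D hD hd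
  obtain ⟨q, h1, h2, _, h3⟩ := h D hD hd
  exact ⟨q, h1, h2, h3⟩

omit [WellFoundedLT I] in
theorem KL_self {M : Set (Ob I)} {α : I} {E : Set (I → Y)}
    {p : (I → Y) → Cond I}
    (h : ∀ z ∈ E, .c (p z) ∈ M ∧ Low α (p z) ∧ z ∈ BodB (p z) α ∧ Gen M α z) :
    ∃ c : Cond I, ∀ z ∈ E, Seg c α α z → z ∈ Bod (p z) ∧ Gen M α z ∧
      (α < α → GenB M α z (p z)) := by
  refine ⟨one I, fun z hz _ => ?_⟩
  obtain ⟨h1, h2, h3, h4⟩ := h z hz
  exact ⟨by rw [Bod_of_low h2]; exact h3, h4, fun h => absurd h (lt_irrefl _)⟩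

/-- decision of a countably valued function, from the covering property -/
theorem dec_nat_of {α : I} (hc : Cov α) (hd : Dec α) {ι : Type*} [Countable ι]
    {A : ι → Set (I → Y)} (hA : ∀ i, MS α (A i)) {q : Cond I} (hq : Low α q)
    (h : ∀ z ∈ Bod q, ∃ i, z ∈ A i) : ∃ i, ∃ q' ≤ q, Low α q' ∧ Bod q' ⊆ A i := by
  by_contra hno
  push Not at hno
  have hne : Nonempty ι := by
    obtain ⟨z, hz⟩ := Bod_nonempty q
    exact ⟨(h z hz).choose⟩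
  obtain ⟨e, he⟩ := exists_surjective_nat ι
  obtain ⟨q', h1, h2, S, h3, h4⟩ := hc q hq (fun n => {r | Disjoint (Bod r) (A (e n))}) (by
    intro n q' hq' hl
    obtain ⟨q'', a1, a2, a3⟩ := hd (A (e n)) (hA _) q' hl
    rcases a3 with a3 | a3
    · exact absurd a3 (hno (e n) q'' (a2.trans hq') a1)
    · exact ⟨q'', a2, a1, a3⟩)
  obtain ⟨z, hz⟩ := Bod_nonempty q'
  obtain ⟨i, hi⟩ := h z (h1 hz)
  obtain ⟨n, rfl⟩ := he i
  obtain ⟨r, hr, hr'⟩ := h4 z hz n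
  exact Set.disjoint_left.1 ((h3 n).2 hr) hr' hi

end Pool.Agent.DN
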