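import Pool.Agent.Lib.MP_d988c5_lc.KLim

/-!
# MP_d988c5_lc : names of slaloms, states, the branch set
-/

namespace Pool.Agent.DN

/-- `τ` is the state at time `m`: the first initial segment with index at least `m` -/
def IsSt (m : ℕ) (τ : Node) : Prop := m ≤ ix τ ∧ ∀ ρ, ρ <:+ τ → ρ ≠ τ → ix ρ < m

/-- the set of the indices of the nodes on the branch `y` -/
def Br (y : Y) : Set ℕ := {n | ∃ k, n = ix (nd y k)}

variable {I : Type} [LinearOrder I]

/-- a name of a slalom which depends measurably on the coordinates below `β` -/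
def MSl (β : I) (X : (I → Y) → Sl) : Prop := ∀ n (s : Finset (VV n)), MS β {z | X z n = s}

/-- width at most `NN n ^ w` -/
def Wd (w : ℕ) (X : (I → Y) → Sl) : Prop := ∀ z n, (X z n).card ≤ NN n ^ w

/-- the conditions deciding the `n`-th entry of the name `X` -/
def DecX (β : I) (X : (I → Y) → Sl) (n : ℕ) : Set (Cond I) :=
  {q | Low β q ∧ ∃ s : Finset (VV n), ∀ z ∈ Bod q, X z n = s}

/-- the union of `X` and of the part of `X'` from `m` on -/
noncomputable def unX (X X' : (I → Y) → Sl) (m : ℕ) : (I → Y) → Sl :=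
  fun z n => X z n ∪ (if m ≤ n then X' z n else ∅)

/-- the part of `X` from `m` on -/
noncomputable def trX (X : (I → Y) → Sl) (m : ℕ) : (I → Y) → Sl := fun z n => if m ≤ n then X z n else ∅

/-- the condition `q` is covered by a countable part of `D` -/
def UD (D : Set (Cond I)) (q : Cond I) : Prop :=
  ∃ S : Set (Cond I), S.Countable ∧ S ⊆ D ∧ ∀ z ∈ Bod q, ∃ r ∈ S, z ∈ Bod r

/-- the sequence `t` of conditions interprets the name `X` as `X'` -/
def Itp (t : ℕ → Cond I) (X X' : (I → Y) → Sl) : Prop :=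
  ∀ j, ∀ z ∈ Bod (t j), ∀ i < j, X z i = X' z i

/-- the points which are in all `t k` below `η` -/
def AllB (η : I) (t : ℕ → Cond I) : Set (I → Y) := {z | ∀ k, z ∈ BodB (t k) η}

theorem isSt_nd (y : Y) (k : ℕ) : IsSt (ix (nd y k) + 1) (nd y (k + 1)) := by
  refine ⟨Nat.succ_le_of_lt (by rw [nd_succ]; exact ix_lt _ _), fun ρ hρ hne => ?_⟩
  rw [nd_succ] at hρ hne
  rcases suffix_cons_iff'.1 hρ with h | h
  · exact absurd h hne
  · exact Nat.lt_succ_of_le (ix_le_of_suffix h)

/-- every branch has a state at every time -/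
theorem exists_isSt (y : Y) (m : ℕ) : ∃ k, IsSt m (nd y k) := by
  classical
  have h : ∃ k, m ≤ ix (nd y k) := by
    refine ⟨m, ?_⟩
    have := length_le_ix (nd y m)
    rwa [nd_length] at this
  refine ⟨Nat.find h, Nat.find_spec h, fun ρ hρ hne => ?_⟩
  have h1 := suffix_nd y _ hρ
  have h2 : ρ.length ≤ Nat.find h := by
    have := hρ.length_le
    rwa [nd_length] at this
  have h3 : ρ.length < Nat.find h := by
    refine lt_of_le_of_ne h2 fun h4 => hne ?_
    rw [h4] at h1
    exact h1
  have h4 := Nat.find_min h h3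
  rw [← h1] at h4
  omega

/-- the state is unique -/
theorem isSt_unique {y : Y} {m k k' : ℕ} (h : IsSt m (nd y k)) (h' : IsSt m (nd y k')) :
    k = k' := by
  have key : ∀ {k k' : ℕ}, IsSt m (nd y k) → IsSt m (nd y k') → ¬ k < k' := by
    intro k k' h h' hlt
    have h1 := h'.2 (nd y k) (nd_suffix y hlt.le) (by
      intro e
      have := congrArg List.length e
      rw [nd_length, nd_length] at this
      omega)
    have := h.1
    omega
  rcases lt_trichotomy k k' with h1 | h1 | h1
  · exact absurd h1 (key h h')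
  · exact h1
  · exact absurd h1 (key h' h)

/-- comparable states are equal -/
theorem IsSt.eq_of_suffix {m : ℕ} {τ τ' : Node} (h : IsSt m τ) (h' : IsSt m τ') (hs : τ <:+ τ') :
    τ = τ' := by
  by_contra hne
  have h1 := h'.2 τ hs hne
  have := h.1
  omega

/-- the number of valid nodes which are states at time `m` and whose parent has index `< m - 1`
or which lie on a trunk is small: a set of valid states at time `n + 1`, each of which is either
an initial segment of `σ0` or has a parent of index different from `n`, all comparable with `σ0`,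
has at most `NN n` elements -/
theorem card_states {T : Set Node} (hT : Pos T) (σ0 : Node) (h0 : ∀ τ ∈ T, τ <:+ σ0 ∨ σ0 <:+ τ)
    (n : ℕ) (S : Finset Node)
    (hS : ∀ τ ∈ S, τ ∈ T ∧ IsSt (n + 1) τ ∧ (τ <:+ σ0 ∨ ∀ c ρ, τ = c :: ρ → ix ρ ≠ n)) :
    S.card ≤ NN n := by
  classical
  have _ := h0
  have h1 : (S.filter fun τ => τ <:+ σ0).card ≤ 1 := by
    rw [Finset.card_le_one]
    intro τ hτ τ' hτ'
    rw [Finset.mem_filter] at hτ hτ'
    have a1 := (hS τ hτ.1).2.1
    have a2 := (hS τ' hτ'.1).2.1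
    rcases List.suffix_or_suffix_of_suffix hτ.2 hτ'.2 with h | h
    · exact a1.eq_of_suffix a2 h
    · exact (a2.eq_of_suffix a1 h).symm
  have key : ∀ τ ∈ S.filter (fun τ => ¬ τ <:+ σ0), ∃ c ρ, τ = c :: ρ ∧ ix ρ < n ∧
      c < (dat (ix ρ)).kap := by
    intro τ hτ
    rw [Finset.mem_filter] at hτ
    obtain ⟨a1, a2, a3⟩ := hS τ hτ.1
    have a4 := hT.ful τ a1
    rcases τ with _ | ⟨c, ρ⟩
    · exact absurd (List.nil_suffix) hτ.2
    · refine ⟨c, ρ, rfl, ?_, a4.1⟩
      have b1 := a2.2 ρ (List.suffix_cons _ _) (by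
        intro e
        have := congrArg List.length e
        rw [List.length_cons] at this
        omega)
      rcases a3 with a3 | a3
      · exact absurd a3 hτ.2
      · have := a3 c ρ rfl
        omega
  have h2 : (S.filter fun τ => ¬ τ <:+ σ0).card ≤
      ((Finset.range n).sigma fun i => Finset.range (dat i).kap).card := by
    refine Finset.card_le_card_of_injOn
      (fun τ => (⟨ix τ.tail, τ.headD 0⟩ : Σ _ : ℕ, ℕ)) ?_ ?_
    · intro τ hτ
      obtain ⟨c, ρ, rfl, b1, b2⟩ := key τ (Finset.mem_coe.1 hτ)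
      rw [Finset.mem_coe, Finset.mem_sigma, Finset.mem_range, Finset.mem_range]
      exact ⟨b1, b2⟩
    · intro τ hτ τ' hτ' e
      obtain ⟨c, ρ, rfl, -, -⟩ := key τ (Finset.mem_coe.1 hτ)
      obtain ⟨c', ρ', rfl, -, -⟩ := key τ' (Finset.mem_coe.1 hτ')
      simp only [List.tail_cons, List.headD_cons, Sigma.mk.injEq, heq_eq_eq] at e
      rw [ix_inj e.1, e.2]
  rw [Finset.card_sigma] at h2
  simp only [Finset.card_range] at h2
  have h3 : (S.filter fun τ => τ <:+ σ0).card + (S.filter fun τ => ¬ τ <:+ σ0).card = S.card := by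
    convert Finset.card_filter_add_card_filter_not (s := S) (fun τ => τ <:+ σ0)
  have h4 : NN n = 2 + ∑ i ∈ Finset.range n, (dat i).kap := rfl
  omega

theorem MSl.mono {β β' : I} (h : β ≤ β') {X : (I → Y) → Sl} (hX : MSl β X) : MSl β' X :=
  fun n s => (hX n s).mono h

theorem MSl.unX {β : I} {X X' : (I → Y) → Sl} (hX : MSl β X) (hX' : MSl β X') (m : ℕ) :
    MSl β (DN.unX X X' m) := by
  intro n s
  by_cases h : m ≤ n
  · have : {z | DN.unX X X' m z n = s} =
        {z | ∃ a b : Finset (VV n), (X z n = a ∧ X' z n = b) ∧ a ∪ b = s} := by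
      ext z; simp [DN.unX, h]
    rw [this]
    exact MS.ex fun a => MS.ex fun b => ((hX n a).and (hX' n b)).and (MS.const _ _)
  · have : {z | DN.unX X X' m z n = s} = {z | X z n = s} := by
      ext z; simp [DN.unX, h]
    rw [this]; exact hX n s

theorem Wd.mono {w w' : ℕ} (h : w ≤ w') {X : (I → Y) → Sl} (hX : Wd w X) : Wd w' X :=
  fun z n => (hX z n).trans (Nat.pow_le_pow_right (by have := NN_ge n; omega) h)

variable [WellFoundedLT I] [OrderBot I]

theorem DecX_dense {β : I} {X : (I → Y) → Sl} (hX : MSl β X) (n : ℕ) : Dn β (DecX β X n) := by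
  refine ⟨fun q hq => hq.1, ?_, ?_⟩
  · rintro q ⟨_, s, hs⟩ q' hq' hle
    exact ⟨hq', s, fun z hz => hs z (hle hz)⟩
  · intro q hq
    obtain ⟨q', h1, h2, s, h3⟩ := dec_nat hq (fun s : Finset (VV n) => {z | X z n = s})
      (fun s => hX n s) (fun z _ => ⟨X z n, rfl⟩)
    exact ⟨q', h1, h2, s, fun z hz => h3 hz⟩

end Pool.Agent.DN
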