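import Pool.Agent.Lib.MP_d988c5_lc.Names

/-!
# MP_d988c5_lc : points of the Cantor group, codes of null sets, the set `EE`
-/

namespace Pool.Agent.DN

/-- the Cantor group -/
abbrev C2 : Type := ℕ → ZMod 2

/-- the beginning of the `n`-th interval -/
noncomputable def off (n : ℕ) : ℕ := ∑ i ∈ Finset.range n, (dat i).L

/-- the restriction of `x` to the `n`-th interval -/
noncomputable def blk (x : C2) (n : ℕ) : VV n := fun i => x (off n + i)

theorem blk_add (x y : C2) (n : ℕ) : blk (x + y) n = blk x n + blk y n := rfl

/-- the set `E`: for almost all `k` there is a (valid) node of length `k` such that the restriction of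
`x` to its interval is in `K` -/
def EE : Set C2 := {x | ∃ m, ∀ k, m ≤ k → ∃ σ : Node, σ.length = k ∧ Vd σ ∧
  blk x (ix σ) ∈ (dat (ix σ)).K}

variable {I : Type} [LinearOrder I]

/-- measurable functions with values in the Cantor group -/
def MR (α : I) (f : (I → Y) → C2) : Prop := ∀ n v, MS α {z | f z n = v}

/-- measurable codes of null sets: the set of all `x` with `blk x n ∈ U z n` for infinitely many
`n`, where `U z n` has density at most `2^(-n)` -/
def NC (α : I) (U : (I → Y) → Sl) : Prop :=
  MSl α U ∧ ∀ z n, (U z n).card * 2 ^ n ≤ 2 ^ (dat n).L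

/-- `x` avoids the null set with the code `U` at the point `z` -/
def Av (U : (I → Y) → Sl) (z : I → Y) (x : C2) : Prop := ∃ m, ∀ n, m ≤ n → blk x n ∉ U z n

/-- `R` is non-null below `p` (with the coordinates below `α`): `R q f` means that `q` forces `f` to be
in the set -/
def NonN (α : I) (R : Cond I → ((I → Y) → C2) → Prop) (p : Cond I) : Prop :=
  ∀ q ≤ p, Low α q → ∀ U, NC α U → ∃ q' ≤ q, Low α q' ∧ ∃ f, MR α f ∧ R q' f ∧
    ∀ z ∈ Bod q', Av U z (f z)

end Pool.Agent.DN
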