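import Pool.Agent.Lib.MP_d988c5_lc.Meas

/-!
# MP_d988c5_lc : operations on conditions
-/

namespace Pool.Agent.DN

variable {I : Type} [LinearOrder I]

/-- the trivial condition -/
def one (I : Type) [LinearOrder I] : Cond I where
  C _ _ := Ful
  meas _ _ := MS.const _ _
  pos _ _ := Pos.univ
  supp := by simp

open Classical in
/-- the restriction of a condition to the coordinates below `α` -/
noncomputable def res (p : Cond I) (α : I) : Cond I where
  C ξ z := if ξ < α then p.C ξ z else Ful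
  meas ξ σ := by
    by_cases h : ξ < α
    · simpa [h] using p.meas ξ σ
    · simpa [h] using MS.const _ _
  pos ξ z := by
    by_cases h : ξ < α
    · simpa [h] using p.pos ξ z
    · simpa [h] using Pos.univ
  supp := p.supp.mono (by
    rintro ξ ⟨z, hz⟩
    refine ⟨z, fun h => hz ?_⟩
    by_cases h' : ξ < α <;> simp [h', h])

open Classical in
/-- the condition which is `q` below `α` and `p` from `α` on -/
noncomputable def glue (q p : Cond I) (α : I) : Cond I where
  C ξ z := if ξ < α then q.C ξ z else p.C ξ z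
  meas ξ σ := by
    by_cases h : ξ < α
    · simpa [h] using q.meas ξ σ
    · simpa [h] using p.meas ξ σ
  pos ξ z := by
    by_cases h : ξ < α
    · simpa [h] using q.pos ξ z
    · simpa [h] using p.pos ξ z
  supp := (q.supp.union p.supp).mono (by
    rintro ξ ⟨z, hz⟩
    by_cases h' : ξ < α
    · exact Or.inl ⟨z, by simpa [h'] using hz⟩
    · exact Or.inr ⟨z, by simpa [h'] using hz⟩)

open Classical in
/-- the condition `p` with the tree at `α` replaced by its part below the node `σ` -/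
noncomputable def sp (p : Cond I) (α : I) (σ : Node) : Cond I where
  C ξ z := if ξ = α then cutT (p.C ξ z) σ else p.C ξ z
  meas ξ τ := by
    by_cases h : ξ = α
    · simp only [h, if_true]
      exact (p.meas α τ).and ((p.meas α σ).imp (MS.const _ _))
    · simpa [h] using p.meas ξ τ
  pos ξ z := by
    by_cases h : ξ = α
    · simpa [h] using (p.pos α z).cut σ
    · simpa [h] using p.pos ξ z
  supp := (p.supp.union (Set.countable_singleton α)).mono (by
    rintro ξ ⟨z, hz⟩
    by_cases h' : ξ = α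
    · exact Or.inr h'
    · exact Or.inl ⟨z, by simpa [h'] using hz⟩)

theorem res_C_lt (p : Cond I) {α ξ : I} (h : ξ < α) (z : I → Y) : (res p α).C ξ z = p.C ξ z := by
  simp [res, h]

theorem res_C_ge (p : Cond I) {α ξ : I} (h : α ≤ ξ) (z : I → Y) : (res p α).C ξ z = Ful := by
  simp [res, not_lt.2 h]

theorem glue_C_lt (q p : Cond I) {α ξ : I} (h : ξ < α) (z : I → Y) :
    (glue q p α).C ξ z = q.C ξ z := by simp [glue, h]

theorem glue_C_ge (q p : Cond I) {α ξ : I} (h : α ≤ ξ) (z : I → Y) :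
    (glue q p α).C ξ z = p.C ξ z := by simp [glue, not_lt.2 h]

theorem sp_C_eq (p : Cond I) (α : I) (σ : Node) (z : I → Y) :
    (sp p α σ).C α z = cutT (p.C α z) σ := by simp [sp]

theorem sp_C_ne (p : Cond I) {α ξ : I} (h : ξ ≠ α) (σ : Node) (z : I → Y) :
    (sp p α σ).C ξ z = p.C ξ z := by simp [sp, h]

/-! ### lowness -/

theorem low_one (α : I) : Low α (one I) := fun _ _ _ => rfl

theorem low_res (p : Cond I) (α : I) : Low α (res p α) := fun _ h z => res_C_ge p h z

theorem Low.mono {α β : I} (h : α ≤ β) {p : Cond I} (hp : Low α p) : Low β p :=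
  fun ξ hξ z => hp ξ (h.trans hξ) z

theorem low_glue {α β : I} {q p : Cond I} (hq : Low β q) (hp : Low β p) : Low β (glue q p α) := by
  intro ξ hξ z
  by_cases h : ξ < α
  · rw [glue_C_lt q p h]; exact hq ξ hξ z
  · rw [glue_C_ge q p (not_lt.1 h)]; exact hp ξ hξ z

theorem low_res_of {α β : I} {p : Cond I} (hp : Low β p) : Low β (res p α) := by
  intro ξ hξ z
  by_cases h : ξ < α
  · rw [res_C_lt p h]; exact hp ξ hξ z
  · rw [res_C_ge p (not_lt.1 h)]

theorem low_sp {α β : I} {p : Cond I} {σ : Node} (hp : Low β p) (h : α < β) :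
    Low β (sp p α σ) := by
  intro ξ hξ z
  rw [sp_C_ne p (lt_of_lt_of_le h hξ).ne']
  exact hp ξ hξ z

theorem res_eq_self {α : I} {p : Cond I} (hp : Low α p) : res p α = p := by
  apply Cond.ext
  funext ξ z
  by_cases h : ξ < α
  · exact res_C_lt p h z
  · rw [res_C_ge p (not_lt.1 h), hp ξ (not_lt.1 h)]

theorem res_res (p : Cond I) {α β : I} (h : α ≤ β) : res (res p β) α = res p α := by
  apply Cond.ext
  funext ξ z
  by_cases h' : ξ < α
  · rw [res_C_lt _ h', res_C_lt _ h', res_C_lt _ (h'.trans_le h)]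
  · rw [res_C_ge _ (not_lt.1 h'), res_C_ge _ (not_lt.1 h')]

theorem res_glue (q p : Cond I) (α : I) : res (glue q p α) α = res q α := by
  apply Cond.ext
  funext ξ z
  by_cases h' : ξ < α
  · rw [res_C_lt _ h', res_C_lt _ h', glue_C_lt _ _ h']
  · rw [res_C_ge _ (not_lt.1 h'), res_C_ge _ (not_lt.1 h')]

/-! ### bodies -/

theorem C_dep (p : Cond I) (ξ : I) {z z' : I → Y} (h : ∀ η < ξ, z η = z' η) :
    p.C ξ z = p.C ξ z' := by
  ext σ; exact (p.meas ξ σ).dep h

theorem mem_BodB {p : Cond I} {α : I} {z : I → Y} :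
    z ∈ BodB p α ↔ ∀ ξ < α, ∀ n, nd (z ξ) n ∈ p.C ξ z := Iff.rfl

theorem mem_Bod {p : Cond I} {z : I → Y} : z ∈ Bod p ↔ ∀ ξ n, nd (z ξ) n ∈ p.C ξ z := Iff.rfl

theorem BodB_dep {p : Cond I} {α : I} {z z' : I → Y} (h : ∀ ξ < α, z ξ = z' ξ) :
    z ∈ BodB p α ↔ z' ∈ BodB p α := by
  constructor
  · intro hz ξ hξ n
    rw [← h ξ hξ, ← C_dep p ξ fun η hη => h η (hη.trans hξ)]
    exact hz ξ hξ n
  · intro hz ξ hξ n
    rw [h ξ hξ, C_dep p ξ fun η hη => h η (hη.trans hξ)]
    exact hz ξ hξ n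

theorem BodB_mono_right {p : Cond I} {α β : I} (h : α ≤ β) : BodB p β ⊆ BodB p α :=
  fun _ hz ξ hξ n => hz ξ (hξ.trans_le h) n

theorem Bod_sub_BodB (p : Cond I) (α : I) : Bod p ⊆ BodB p α := fun _ hz ξ _ n => hz ξ n

theorem Bod_of_low {α : I} {p : Cond I} (hp : Low α p) : Bod p = BodB p α := by
  apply Set.Subset.antisymm (Bod_sub_BodB p α)
  intro z hz ξ n
  by_cases h : ξ < α
  · exact hz ξ h n
  · rw [hp ξ (not_lt.1 h)]; exact vd_nd _ _

theorem BodB_res (p : Cond I) {α β : I} (h : β ≤ α) : BodB (res p α) β = BodB p β := by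
  ext z
  simp only [mem_BodB]
  refine forall_congr' fun ξ => forall_congr' fun hξ => forall_congr' fun n => ?_
  rw [res_C_lt p (hξ.trans_le h)]

theorem Bod_res (p : Cond I) (α : I) : Bod (res p α) = BodB p α := by
  rw [Bod_of_low (low_res p α), BodB_res p le_rfl]

theorem BodB_ms (p : Cond I) (α : I) : MS α (BodB p α) := by
  have : Countable {ξ // ξ ∈ {ξ | ∃ z, p.C ξ z ≠ Ful}} := p.supp
  have h : BodB p α = {z | ∀ ξ : {ξ // ξ ∈ {ξ | ∃ z, p.C ξ z ≠ Ful}}, ∀ n,
      ξ.1 < α → nd (z ξ.1) n ∈ p.C ξ.1 z} := by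
    ext z
    constructor
    · intro hz ξ n hξ; exact hz ξ.1 hξ n
    · intro hz ξ hξ n
      by_cases h : ∃ z, p.C ξ z ≠ Ful
      · exact hz ⟨ξ, h⟩ n hξ
      · have : p.C ξ z = Ful := by
          by_contra hc; exact h ⟨z, hc⟩
        rw [this]; exact vd_nd _ _
  rw [h]
  refine MS.all fun ξ => MS.all fun n => ?_
  by_cases hξ : ξ.1 < α
  · simp only [hξ, forall_const]
    exact MS.nd_mem hξ (fun σ => (p.meas ξ.1 σ).mono hξ.le) n
  · simpa [hξ] using MS.univ α

theorem Bod_ms {p : Cond I} {α : I} (hp : Low α p) : MS α (Bod p) := by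
  rw [Bod_of_low hp]; exact BodB_ms p α

theorem le_res (p : Cond I) (α : I) : p ≤ res p α := by
  rw [le_iff, Bod_res]; exact Bod_sub_BodB p α

theorem sp_le (p : Cond I) (α : I) (σ : Node) : sp p α σ ≤ p := by
  intro z hz ξ n
  by_cases h : ξ = α
  · subst h
    have := hz ξ n
    rw [sp_C_eq] at this
    exact this.1
  · have := hz ξ n
    rwa [sp_C_ne p h] at this

theorem BodB_sp (p : Cond I) {α β : I} (h : β ≤ α) (σ : Node) : BodB (sp p α σ) β = BodB p β := by
  ext z
  simp only [mem_BodB]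
  refine forall_congr' fun ξ => forall_congr' fun hξ => forall_congr' fun n => ?_
  rw [sp_C_ne p (hξ.trans_le h).ne]

theorem res_sp (p : Cond I) {α β : I} (h : β ≤ α) (σ : Node) : res (sp p α σ) β = res p β := by
  apply Cond.ext
  funext ξ z
  by_cases h' : ξ < β
  · rw [res_C_lt _ h', res_C_lt _ h', sp_C_ne p (h'.trans_le h).ne]
  · rw [res_C_ge _ (not_lt.1 h'), res_C_ge _ (not_lt.1 h')]

/-! ### extension of points -/

variable [WellFoundedLT I]

/-- a point below `α` in the condition can be extended to a point of the condition; at the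
coordinate `α` the initial segment can be prescribed -/
theorem exists_ext (p : Cond I) (α : I) {z : I → Y} (hz : z ∈ BodB p α) :
    ∃ z' ∈ Bod p, ∀ ξ < α, z' ξ = z ξ := by
  classical
  -- the choice of branches
  have hb : ∀ ξ (z : I → Y), ∃ y : Y, ∀ n, nd y n ∈ p.C ξ z := fun ξ z => (p.pos ξ z).branch
  choose b hb using hb
  -- the recursion
  let F : (ξ : I) → ((η : I) → η < ξ → Y) → Y := fun ξ f =>
    if ξ < α then z ξ else b ξ (fun η => if h : η < ξ then f η h else fun _ => 0)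
  let z' : I → Y := fun ξ => (IsWellFounded.wf (r := (· < · : I → I → Prop))).fix F ξ
  have hz' : ∀ ξ, z' ξ = F ξ (fun η _ => z' η) := fun ξ =>
    (IsWellFounded.wf (r := (· < · : I → I → Prop))).fix_eq F ξ
  have hlt : ∀ ξ < α, z' ξ = z ξ := by
    intro ξ hξ; rw [hz']; simp [F, hξ]
  refine ⟨z', fun ξ n => ?_, hlt⟩
  by_cases hξ : ξ < α
  · rw [hlt ξ hξ, C_dep p ξ fun η hη => hlt η (hη.trans hξ)]
    exact hz ξ hξ n
  · have h1 : z' ξ = b ξ (fun η => if η < ξ then z' η else fun _ => 0) := by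
      rw [hz']; simp [F, hξ]
    rw [h1, C_dep p ξ (z' := fun η => if η < ξ then z' η else fun _ => 0)
      (fun η hη => by simp [hη])]
    exact hb ξ _ n

theorem Bod_nonempty (p : Cond I) : (Bod p).Nonempty := by
  -- build the point as above, starting from nothing
  classical
  have hb : ∀ ξ (z : I → Y), ∃ y : Y, ∀ n, nd y n ∈ p.C ξ z := fun ξ z => (p.pos ξ z).branch
  choose b hb using hb
  let F : (ξ : I) → ((η : I) → η < ξ → Y) → Y := fun ξ f =>
    b ξ (fun η => if h : η < ξ then f η h else fun _ => 0)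
  let z' : I → Y := fun ξ => (IsWellFounded.wf (r := (· < · : I → I → Prop))).fix F ξ
  have hz' : ∀ ξ, z' ξ = F ξ (fun η _ => z' η) := fun ξ =>
    (IsWellFounded.wf (r := (· < · : I → I → Prop))).fix_eq F ξ
  refine ⟨z', fun ξ n => ?_⟩
  have h1 : z' ξ = b ξ (fun η => if η < ξ then z' η else fun _ => 0) := by
    rw [hz']; simp [F]
  rw [h1, C_dep p ξ (z' := fun η => if η < ξ then z' η else fun _ => 0)
    (fun η hη => by simp [hη])]
  exact hb ξ _ n

theorem BodB_mono {q p : Cond I} (h : q ≤ p) (α : I) : BodB q α ⊆ BodB p α := by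
  intro z hz
  obtain ⟨z', hz', he⟩ := exists_ext q α hz
  exact (BodB_dep he).1 (Bod_sub_BodB p α (h hz'))

theorem res_mono {q p : Cond I} (h : q ≤ p) (α : I) : res q α ≤ res p α := by
  rw [le_iff, Bod_res, Bod_res]; exact BodB_mono h α

theorem C_mono {q p : Cond I} (h : q ≤ p) {α : I} {z : I → Y} (hz : z ∈ BodB q α) :
    q.C α z ⊆ p.C α z := by
  classical
  intro σ hσ
  obtain ⟨y, hy, hσy⟩ := (q.pos α z).branch' hσ
  -- the point `z` with `y` at the place `α`
  let z1 : I → Y := fun ξ => if ξ = α then y else z ξ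
  have h1 : ∀ ξ < α, z1 ξ = z ξ := fun ξ hξ => by simp [z1, hξ.ne]
  have hz1 : z1 ∈ BodB q α := (BodB_dep h1).2 hz
  have hC : ∀ r : Cond I, r.C α z1 = r.C α z := fun r => C_dep r α h1
  -- glue it with the cut condition
  have h2 : z1 ∈ BodB (sp q α σ) α := by rw [BodB_sp q le_rfl]; exact hz1
  -- extend above `α`, keeping the coordinate `α`
  obtain ⟨z2, hz2, he⟩ := exists_ext (sp q α σ) α h2
  have h3 : nd (z2 α) σ.length ∈ (sp q α σ).C α z2 := hz2 α _
  rw [sp_C_eq] at h3
  have h4 : q.C α z2 = q.C α z := (C_dep q α he).trans (hC q)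
  have h5 : nd (z2 α) σ.length = σ := by
    have := h3.2 (by rw [h4]; exact hσ)
    rcases this with h | h
    · exact h.eq_of_length (by simp)
    · exact (h.eq_of_length (by simp)).symm
  have h6 : z2 ∈ Bod p := h (sp_le q α σ hz2)
  have h7 := h6 α σ.length
  rw [h5] at h7
  have h8 : p.C α z2 = p.C α z := (C_dep p α he).trans (hC p)
  rwa [h8] at h7

theorem glue_le {q p : Cond I} {α : I} (h : q ≤ res p α) : glue q p α ≤ p := by
  intro z hz ξ n
  have hzq : z ∈ BodB q α := by
    intro ξ hξ n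
    have := hz ξ n
    rwa [glue_C_lt q p hξ] at this
  by_cases hξ : ξ < α
  · have h1 := BodB_mono h α hzq
    rw [BodB_res p le_rfl] at h1
    exact h1 ξ hξ n
  · have := hz ξ n
    rwa [glue_C_ge q p (not_lt.1 hξ)] at this

theorem BodB_glue (q p : Cond I) (α : I) : BodB (glue q p α) α = BodB q α := by
  ext z
  simp only [mem_BodB]
  refine forall_congr' fun ξ => forall_congr' fun hξ => forall_congr' fun n => ?_
  rw [glue_C_lt q p hξ]

end Pool.Agent.DN
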