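import Pool.Agent.Lib.MP_d988c5_lc.DC

/-!
# MP_d988c5_lc : preservation, trivial case and composition
-/

namespace Pool.Agent.DN

variable {I : Type} [LinearOrder I]

theorem Cv_ms {a β : I} (ha : a < β) {Ss X : (I → Y) → Sl} (hS : MSl β Ss) (hX : MSl β X)
    (m : ℕ) : MS β {z | Cv a Ss z X m} := by
  refine MS.all fun n => MS.imp ?_ (MS.all fun _ => ?_)
  · have : {z : I → Y | n ∈ Br (z a)} = {z | ∃ k σ, nd (z a) k = σ ∧ n = ix σ} := by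
      ext z
      constructor
      · rintro ⟨k, h1⟩; exact ⟨k, _, rfl, h1⟩
      · rintro ⟨k, σ, h1, h2⟩; exact ⟨k, by rw [h1]; exact h2⟩
    rw [this]
    exact MS.ex fun k => MS.ex fun σ => (MS.nd ha _ _).and (MS.const _ _)
  · have : {z | X z n ⊆ Ss z n} = {z | ∃ s s', (X z n = s ∧ Ss z n = s') ∧ s ⊆ s'} := by
      ext z; simp
    rw [this]
    exact MS.ex fun s => MS.ex fun s' => ((hX n s).and (hS n s')).and (MS.const _ _)

/-- a constant condition in front of a measurable one -/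
theorem ms_const_and {ξ : I} {P : Prop} {Q : (I → Y) → Prop} (h : P → MS ξ {z | Q z}) :
    MS ξ {z | P ∧ Q z} := by
  by_cases hP : P
  · have : {z | P ∧ Q z} = {z | Q z} := by ext z; simp [hP]
    rw [this]; exact h hP
  · have : {z | P ∧ Q z} = {_z | False} := by ext z; simp [hP]
    rw [this]; exact MS.const _ _

/-- the preservation lemma with an encodable index set -/
theorem PL.use {a : I} {Ss : (I → Y) → Sl} {M : Set (Ob I)} {η β : I} (h : PL a Ss M η β)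
    {E : Set (I → Y)} (hE : MS η E) {S : Type} [Encodable S] {g : (I → Y) → S}
    (mg : ∀ s, MS η {z | g z = s}) (t : S → ℕ → Cond I) (X Y0 : S → (I → Y) → Sl)
    (hh : ∀ z ∈ E, PLh a Ss M η β z (t (g z)) (X (g z)) (Y0 (g z))) :
    ∃ c : Cond I, ∀ z ∈ E, Seg c η β z →
      (∃ k, z ∈ Bod (t (g z) k)) ∧ Gen M β z ∧ CvM a Ss M β z ∧ Cv a Ss z (X (g z)) 0 := by
  classical
  rcases isEmpty_or_nonempty S with hS | ⟨⟨s0⟩⟩
  · exact ⟨one I, fun z _ => (hS.false (g z)).elim⟩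
  let d : ℕ → S := fun k => (Encodable.decode k).getD s0
  have hd : ∀ s, d (Encodable.encode s) = s := fun s => by simp [d]
  obtain ⟨c, hc⟩ := h E hE (fun z => Encodable.encode (g z)) (by
      intro k
      have : {z | Encodable.encode (g z) = k} = {z | ∃ s, g z = s ∧ Encodable.encode s = k} := by
        ext z; simp
      rw [this]
      exact MS.ex fun s => (mg s).and (MS.const _ _))
    (fun k => t (d k)) (fun k => X (d k)) (fun k => Y0 (d k)) (by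
      intro z hz
      simp only [hd]
      exact hh z hz)
  refine ⟨c, fun z hz hs => ?_⟩
  have := hc z hz hs
  simp only [hd] at this
  exact this

variable [WellFoundedLT I] [OrderBot I]

omit [WellFoundedLT I] [OrderBot I] in
/-- enumerations of the names and of the sequences of `M` -/
theorem enum_x {M : Set (Ob I)} (hM : M.Countable) (X0 : (I → Y) → Sl) (h0 : .x X0 ∈ M) :
    ∃ e : ℕ → (I → Y) → Sl, (∀ n, .x (e n) ∈ M) ∧ ∀ X, .x X ∈ M → ∃ n, e n = X := by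
  have h1 : {X : (I → Y) → Sl | .x X ∈ M}.Countable := by
    refine hM.preimage_of_injOn ?_
    intro p _ q _ h
    simpa using h
  obtain ⟨e, he⟩ := h1.exists_eq_range ⟨X0, h0⟩
  refine ⟨e, fun n => ?_, fun p hp => ?_⟩
  · have : e n ∈ {X : (I → Y) → Sl | .x X ∈ M} := by rw [he]; exact ⟨n, rfl⟩
    exact this
  · have : p ∈ Set.range e := by rw [← he]; exact hp
    exact this

omit [WellFoundedLT I] [OrderBot I] in
theorem enum_s {M : Set (Ob I)} (hM : M.Countable) (t0 : ℕ → Cond I) (h0 : .s t0 ∈ M) :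
    ∃ e : ℕ → ℕ → Cond I, (∀ n, .s (e n) ∈ M) ∧ ∀ t, .s t ∈ M → ∃ n, e n = t := by
  have h1 : {t : ℕ → Cond I | .s t ∈ M}.Countable := by
    refine hM.preimage_of_injOn ?_
    intro p _ q _ h
    simpa using h
  obtain ⟨e, he⟩ := h1.exists_eq_range ⟨t0, h0⟩
  refine ⟨e, fun n => ?_, fun p hp => ?_⟩
  · have : e n ∈ {t : ℕ → Cond I | .s t ∈ M} := by rw [he]; exact ⟨n, rfl⟩
    exact this
  · have : p ∈ Set.range e := by rw [← he]; exact hp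
    exact this

omit [WellFoundedLT I] [OrderBot I] in
theorem PL_self {a : I} {Ss : (I → Y) → Sl} {M : Set (Ob I)} {β : I} : PL a Ss M β β := by
  intro E _ g _ t X Y0 hh
  refine ⟨one I, fun z hz _ => ?_⟩
  have h := hh z hz
  have hb : ∀ k, z ∈ Bod (t (g z) k) := fun k => by
    rw [Bod_of_low (h.tlow k).1]; exact (h.tlow k).2
  refine ⟨⟨0, hb 0⟩, h.gen, h.cvm, fun n hn _ => ?_⟩
  rw [h.itp (n + 1) z (hb _) n (Nat.lt_succ_self n)]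
  exact h.cv n hn (Nat.zero_le _)

omit [WellFoundedLT I] [OrderBot I] in
theorem Wd.unX {w : ℕ} {X X' : (I → Y) → Sl} (hX : Wd w X) (hX' : Wd w X') (m : ℕ) :
    Wd (w + 1) (DN.unX X X' m) := by
  intro z n
  have h1 := hX z n
  have h2 : (if m ≤ n then X' z n else ∅).card ≤ NN n ^ w := by
    split
    · exact hX' z n
    · simp
  have h3 := NN_ge2 n
  calc (DN.unX X X' m z n).card ≤ (X z n).card + (if m ≤ n then X' z n else ∅).card :=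
        Finset.card_union_le _ _
    _ ≤ NN n ^ w + NN n ^ w := Nat.add_le_add h1 h2
    _ = 2 * NN n ^ w := by ring
    _ ≤ NN n * NN n ^ w := Nat.mul_le_mul_right _ (by omega)
    _ = NN n ^ (w + 1) := by ring

/-- one step, at the point `z`: from the data of a step we get the hypotheses over the same base
`η` for the iteration up to `ζ`, with one more name `X1` taken into account -/
theorem step_data {a b0 : I} (_hb : a ⋖ b0) {Ss : (I → Y) → Sl} (_hS : MSl b0 Ss)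
    {M : Set (Ob I)} (hM : Suit2 a M) {η ζ β : I} (_h0 : b0 ≤ η) (h1 : η ≤ ζ) (h2 : ζ ≤ β)
    (hη : .o η ∈ M) (hζ : .o ζ ∈ M) (hβ : .o β ∈ M) {z : I → Y} {t : ℕ → Cond I}
    {X Y0 X1 : (I → Y) → Sl} (hh : PLh a Ss M η β z t X Y0) (hX1 : .x X1 ∈ M) (mX1 : MSl β X1)
    (wX1 : ∃ w, Wd w X1) {D : Set (Cond I)} (hDM : .d D ∈ M) (hD : Dn β D) :
    ∃ (u : Cond I) (k m : ℕ) (tt rr : ℕ → Cond I) (Z W : (I → Y) → Sl), .c u ∈ M ∧ Low η u ∧
      z ∈ Bod u ∧ .s tt ∈ M ∧ .s rr ∈ M ∧ .x Z ∈ M ∧ MSl ζ Z ∧ .x W ∈ M ∧ MSl η W ∧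
      (∀ j, Low β (tt j) ∧ tt j ≤ t k ∧ UD D (tt j)) ∧
      (∀ j, Low ζ (rr j) ∧ Bod u ⊆ BodB (rr j) η) ∧ (∀ j j', rr j ≤ res (tt j') ζ) ∧
      Itp tt (unX X X1 m) Z ∧ Itp rr Z W ∧ (∃ w, Wd w Z) ∧ Cv a Ss z W 0 := by
  obtain ⟨hXM, mX, w1, wX⟩ := hh.XM
  obtain ⟨hYM, mY⟩ := hh.YM
  obtain ⟨w2, wX1⟩ := wX1
  have wX' : Wd (max w1 w2) X := wX.mono (le_max_left _ _)
  have wX1' : Wd (max w1 w2) X1 := wX1.mono (le_max_right _ _)
  have hdn := dcd_dense (η := η) (ζ := ζ) (β := β) h1 h2 (fun k => (hh.tlow k).1) mX mX1 mY wX' wX1'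
    hh.itp hD
  obtain ⟨u, huM, hu, hzu⟩ := hh.gen _ (hM.dcd η ζ β t X Y0 X1 D (max w1 w2) hη hζ hβ hh.tM hXM hYM
    hX1 hDM) hdn
  obtain ⟨hul, hu⟩ := hu
  have hall : z ∈ AllB η t := fun k => (hh.tlow k).2
  rcases hu with hu | hu
  · exact absurd hall (Set.disjoint_left.1 hu hzu)
  obtain ⟨tt, rr, Z, Z', W, W', DW, hd, hmem, hDW⟩ := hM.dcw η ζ β t X Y0 X1 D (max w1 w2) u hη hζ hβ
    hh.tM hXM hYM hX1 hDM huM hu
  obtain ⟨k, hk⟩ := hh.cvm DW hDW hd.mD.1 ⟨_, hd.mD.2.1⟩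
  obtain ⟨m, hm⟩ := hh.cvm (W' k) (hmem k).2.2.2.2.2 (hd.mW k).2.1 ⟨_, (hd.mW k).2.2.2⟩
  have hWk : Cv a Ss z (W k) 0 := by
    intro n hn _
    rcases lt_or_ge n k with h | h
    · rw [hd.eqW k z hzu n h]
      exact hh.cv n hn (Nat.zero_le _)
    · exact (hd.mD.2.2 k z n h).trans (hk n hn h)
  refine ⟨u, k, m, tt k, rr k, unX (Z k) (Z' k) m, unX (W k) (W' k) m, huM, hul, hzu, (hmem k).1,
    (hmem k).2.1, hM.un _ _ _ (hmem k).2.2.1 (hmem k).2.2.2.1, (hd.mZ k).1.unX (hd.mZ k).2.1 m,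
    hM.un _ _ _ (hmem k).2.2.2.2.1 (hmem k).2.2.2.2.2, (hd.mW k).1.unX (hd.mW k).2.1 m,
    fun j => hd.tlow k j, fun j => hd.rlow k j, fun j j' => hd.rt k j j', ?_, ?_,
    ⟨_, (hd.mZ k).2.2.1.unX (hd.mZ k).2.2.2 m⟩, ?_⟩
  · intro j z' hz' i hi
    simp only [unX]
    rw [(hd.itZ k).1 j z' hz' i hi, (hd.itZ k).2 j z' hz' i hi]
  · intro j z' hz' i hi
    simp only [unX]
    rw [(hd.itW k).1 j z' hz' i hi, (hd.itW k).2 j z' hz' i hi]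
  · intro n hn _
    simp only [unX]
    refine Finset.union_subset (hWk n hn (Nat.zero_le _)) ?_
    split
    · rename_i h; exact hm n hn h
    · exact Finset.empty_subset _

omit [WellFoundedLT I] [OrderBot I] in
theorem dn_low {β : I} : Dn β {q : Cond I | Low β q} :=
  ⟨fun _ h => h, fun _ _ _ h _ => h, fun q h => ⟨q, le_rfl, h⟩⟩

theorem PL_comp {a b0 : I} (hb : a ⋖ b0) {Ss : (I → Y) → Sl} (hS : MSl b0 Ss) {M : Set (Ob I)}
    (hM : Suit2 a M) {η ζ β : I} (h0 : b0 ≤ η) (h1 : η ≤ ζ) (h2 : ζ ≤ β)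
    (hη : .o η ∈ M) (hζ : .o ζ ∈ M) (hβ : .o β ∈ M) (hP : PL a Ss M η ζ) (hP' : PL a Ss M ζ β) :
    PL a Ss M η β := by
  classical
  intro E hE g mg t X Y0 hh
  have haη : a < η := hb.1.trans_le h0
  -- enumerations
  rcases Set.eq_empty_or_nonempty E with rfl | ⟨zz, hzz⟩
  · exact ⟨one I, fun z hz => absurd hz (Set.notMem_empty z)⟩
  obtain ⟨ec, hec, hec'⟩ := hM.suit.enum
  obtain ⟨ex, hex, hex'⟩ := enum_x hM.suit.cnt _ hM.emp
  obtain ⟨es, hes, hes'⟩ := enum_s hM.suit.cnt _ (hh zz hzz).tM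
  -- the states : index of the hypotheses, u, k, m, tt, rr, Z, W
  let S := ℕ × ℕ × ℕ × ℕ × ℕ × ℕ × ℕ × ℕ
  let CC : S → Prop := fun s =>
    (∀ j, Low β (es s.2.2.2.2.1 j) ∧ es s.2.2.2.2.1 j ≤ t s.1 s.2.2.1) ∧
    (∀ j, Low ζ (es s.2.2.2.2.2.1 j) ∧ Bod (ec s.2.1) ⊆ BodB (es s.2.2.2.2.2.1 j) η) ∧
    (∀ j j', es s.2.2.2.2.2.1 j ≤ res (es s.2.2.2.2.1 j') ζ) ∧
    MSl ζ (ex s.2.2.2.2.2.2.1) ∧ MSl η (ex s.2.2.2.2.2.2.2) ∧
    Itp (es s.2.2.2.2.1) (unX (X s.1) (fun _ _ => ∅) s.2.2.2.1) (ex s.2.2.2.2.2.2.1) ∧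
    Itp (es s.2.2.2.2.2.1) (ex s.2.2.2.2.2.2.1) (ex s.2.2.2.2.2.2.2) ∧
    ∃ w, Wd w (ex s.2.2.2.2.2.2.1)
  obtain ⟨f, mf, hf⟩ := exists_sel (S := S) (α := η) (E := E)
    (fun z s => g z = s.1 ∧ (Low η (ec s.2.1) ∧ z ∈ Bod (ec s.2.1)) ∧ (CC s ∧
      Cv a Ss z (ex s.2.2.2.2.2.2.2) 0))
    (fun s => (mg _).and ((ms_const_and fun h => Bod_ms h).and
      (ms_const_and fun h => Cv_ms haη (hS.mono h0) h.2.2.2.2.1 0)))
    (by
      intro z hz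
      obtain ⟨u, k, m, tt, rr, Z, W, c1, c2, c3, c4, c5, c6, c7, c8, c9, c10, c11, c12, c13, c14,
        c15, c16⟩ := step_data hb hS hM h0 h1 h2 hη hζ hβ (hh z hz) hM.emp
          (fun n s => MS.const _ _) ⟨0, fun z n => by simp⟩ (hM.suit.lowd β hβ) dn_low
      obtain ⟨iu, rfl⟩ := hec' u c1
      obtain ⟨it, rfl⟩ := hes' tt c4
      obtain ⟨ir, rfl⟩ := hes' rr c5
      obtain ⟨iZ, rfl⟩ := hex' Z c6
      obtain ⟨iW, rfl⟩ := hex' W c8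
      exact ⟨(g z, iu, k, m, it, ir, iZ, iW), rfl, ⟨c2, c3⟩, ⟨fun j => ⟨(c10 j).1, (c10 j).2.1⟩,
        c11, c12, c7, c9, c13, c14, c15⟩, c16⟩)
  -- the first part
  obtain ⟨c1, hc1⟩ := hP.use hE mf (fun s => es s.2.2.2.2.2.1) (fun s => ex s.2.2.2.2.2.2.1)
    (fun s => ex s.2.2.2.2.2.2.2) (by
      intro z hz
      obtain ⟨_, ⟨d2, d3⟩, ⟨d4, d5, d6, d7, d8, d9, d10, d11⟩, d12⟩ := hf z hz
      exact ⟨hes _, fun k => ⟨(d5 k).1, (d5 k).2 d3⟩, ⟨hex _, d7, d11⟩, ⟨hex _, d8⟩, d10,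
        (hh z hz).gen, (hh z hz).cvm, d12⟩)
  let E1 : Set (I → Y) := {z | z ∈ E ∧ Seg c1 η ζ z}
  have hE1 : MS ζ E1 := (hE.mono h1).and (Seg_ms _ _ _)
  obtain ⟨c2, hc2⟩ := hP'.use hE1 (fun s => (mf s).mono h1) (fun s => es s.2.2.2.2.1)
    (fun s => unX (X s.1) (fun _ _ => ∅) s.2.2.2.1) (fun s => ex s.2.2.2.2.2.2.1) (by
      rintro z ⟨hz, hs⟩
      obtain ⟨d1, ⟨d2, d3⟩, ⟨d4, d5, d6, d7, d8, d9, d10, d11⟩, d12⟩ := hf z hz
      obtain ⟨⟨j, e1⟩, e2, e3, e4⟩ := hc1 z hz hs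
      obtain ⟨hXM, mX, w, wX⟩ := (hh z hz).XM
      rw [d1] at hXM mX wX
      refine ⟨hes _, fun k => ⟨(d4 k).1, ?_⟩, ⟨hM.un _ _ _ hXM hM.emp,
        mX.unX (fun n s => MS.const _ _) _, w + 1, wX.unX (fun z n => by simp) _⟩, ⟨hex _, d7⟩, d9,
        e2, e3, e4⟩
      have := d6 j k e1
      rwa [Bod_res] at this)
  refine ⟨glue c1 c2 ζ, fun z hz hs => ?_⟩
  have hs1 : Seg c1 η ζ z := by
    intro ξ hξ1 hξ2 n
    have := hs ξ hξ1 (hξ2.trans_le h2) n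
    rwa [glue_C_lt _ _ hξ2] at this
  have hs2 : Seg c2 ζ β z := by
    intro ξ hξ1 hξ2 n
    have := hs ξ (h1.trans hξ1) hξ2 n
    rwa [glue_C_ge _ _ hξ1] at this
  obtain ⟨d1, ⟨d2, d3⟩, ⟨d4, d5, d6, d7, d8, d9, d10, d11⟩, d12⟩ := hf z hz
  obtain ⟨⟨k, e1⟩, e2, e3, e4⟩ := hc2 z ⟨hz, hs1⟩ hs2
  refine ⟨⟨(f z).2.2.1, ?_⟩, e2, e3, fun n hn hn' => ?_⟩
  · rw [d1]; exact (d4 k).2 e1
  · have := e4 n hn hn'
    rw [d1]
    refine Finset.Subset.trans ?_ this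
    simp [unX]

end Pool.Agent.DN
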