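import Pool.Agent.Lib.MP_d988c5_lc.DC2
import Pool.Agent.Lib.MP_d988c5_lc.PLcomp

/-!
# MP_d988c5_lc : preservation, one coordinate
-/

namespace Pool.Agent.DN

variable {I : Type} [LinearOrder I] [WellFoundedLT I] [OrderBot I]

theorem PL_one {a b0 : I} (hb : a ⋖ b0) {Ss : (I → Y) → Sl} (hS : MSl b0 Ss) {M : Set (Ob I)}
    (hM : Suit2 a M) {ζ β : I} (h0 : b0 ≤ ζ) (hζβ : ζ ⋖ β) (hζ : .o ζ ∈ M) (hβ : .o β ∈ M) :
    PL a Ss M ζ β := by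
  classical
  intro E hE g mg t X Y0 hh
  have haζ : a < ζ := hb.1.trans_le h0
  rcases Set.eq_empty_or_nonempty E with rfl | ⟨zz, hzz⟩
  · exact ⟨one I, fun z hz => absurd hz (Set.notMem_empty z)⟩
  obtain ⟨ec, hec, hec'⟩ := hM.suit.enum
  obtain ⟨ex, hex, hex'⟩ := enum_x hM.suit.cnt _ hM.emp
  -- the states : index of the hypotheses, m, the condition, the name `X'`
  let S := ℕ × ℕ × ℕ × ℕ
  let CC : S → Prop := fun s =>
    (Low β (ec s.2.2.1) ∧ ec s.2.2.1 ≤ t s.1 s.2.1) ∧ MSl ζ (ex s.2.2.2) ∧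
    ∀ z ∈ Bod (ec s.2.2.1), ∀ n ∈ Br (z a), s.2.1 ≤ n → X s.1 z n ⊆ ex s.2.2.2 z n
  obtain ⟨f, mf, hf⟩ := exists_sel (S := S) (α := ζ) (E := E)
    (fun z s => g z = s.1 ∧ z ∈ BodB (ec s.2.2.1) ζ ∧ (CC s ∧ Cv a Ss z (ex s.2.2.2) s.2.1))
    (fun s => (mg _).and ((BodB_ms _ _).and
      (ms_const_and fun h => Cv_ms haζ (hS.mono h0) h.2.1 _)))
    (by
      intro z hz
      have hz' := hh z hz
      obtain ⟨hXM, mX, w, wX⟩ := hz'.XM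
      obtain ⟨u, huM, ⟨hul, hu⟩, hzu⟩ := hz'.gen _ (hM.dc2d ζ β (t (g z)) (X (g z)) w hζ hβ hz'.tM hXM)
        (dc2d_dense haζ hζβ (fun k => (hz'.tlow k).1) mX wX)
      rcases hu with hu | hu
      · exact absurd (fun k => (hz'.tlow k).2) (Set.disjoint_left.1 hu hzu)
      obtain ⟨q, X', hd, hq, hX'⟩ := hM.dc2w ζ β (t (g z)) (X (g z)) w u hζ hβ hz'.tM hXM huM hu
      obtain ⟨m, hm⟩ := hz'.cvm X' hX' hd.mX.1 ⟨_, hd.mX.2⟩
      obtain ⟨iq, hiq⟩ := hec' (q m) (hM.seqc _ _ hq)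
      obtain ⟨iX, hiX⟩ := hex' X' hX'
      refine ⟨(g z, m, iq, iX), rfl, ?_, ⟨⟨?_, ?_⟩, ?_, ?_⟩, ?_⟩
      · show z ∈ BodB (ec iq) ζ
        rw [hiq]; exact (hd.qlow m).2.2 hzu
      · show Low β (ec iq)
        rw [hiq]; exact (hd.qlow m).1
      · show ec iq ≤ _
        rw [hiq]; exact (hd.qlow m).2.1
      · show MSl ζ (ex iX)
        rw [hiX]; exact hd.mX.1
      · intro z' hz' n hn hmn
        show X (g z) z' n ⊆ ex iX z' n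
        rw [hiX]
        refine hd.cov m z' ?_ n hn hmn
        rw [← hiq]; exact hz'
      · show Cv a Ss z (ex iX) m
        rw [hiX]; exact hm)
  obtain ⟨c, hc⟩ := kl hM.suit hβ ζ hζβ.1.le hζ E hE (fun z => ec (f z).2.2.1) (by
      intro r
      have : {z | z ∈ E ∧ ec (f z).2.2.1 = r} = {z | z ∈ E ∧ ∃ s, f z = s ∧ ec s.2.2.1 = r} := by
        ext z; simp
      rw [this]
      exact hE.and (MS.ex fun s => (mf s).and (MS.const _ _))) (by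
      intro z hz
      obtain ⟨_, d2, ⟨⟨d3, d4⟩, d5, d6⟩, d7⟩ := hf z hz
      exact ⟨hec _, d3, d2, (hh z hz).gen⟩)
  refine ⟨c, fun z hz hs => ?_⟩
  obtain ⟨h1, h2, -⟩ := hc z hz hs
  obtain ⟨d1, d2, ⟨⟨d3, d4⟩, d5, d6⟩, d7⟩ := hf z hz
  have ht : z ∈ Bod (t (g z) (f z).2.1) := by rw [d1]; exact d4 h1
  refine ⟨⟨_, ht⟩, h2, fun X1 hX1 mX1 hw => ?_, fun n hn _ => ?_⟩
  · obtain ⟨w, wX1⟩ := hw
    obtain ⟨r, hrM, ⟨hrl, hr⟩, hzr⟩ := h2 _ (hM.rrd ζ β X1 w hζ hβ hX1) (rrd_dense haζ hζβ mX1 wX1)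
    obtain ⟨X', hX', hX'M⟩ := hM.rrw ζ β X1 w r hζ hβ hX1 hrM hr
    obtain ⟨m, hm⟩ := (hh z hz).cvm X' hX'M hX'.1 ⟨_, hX'.2.1⟩
    exact ⟨m, fun n hn hmn => (hX'.2.2 z hzr n hn).trans (hm n hn hmn)⟩
  · rcases lt_or_ge n (f z).2.1 with h | h
    · rw [(hh z hz).itp _ z ht n h]
      exact (hh z hz).cv n hn (Nat.zero_le _)
    · refine Finset.Subset.trans ?_ (d7 n hn h)
      rw [d1]
      exact d6 z h1 n hn h

end Pool.Agent.DN
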