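import Pool.Agent.Lib.MP_d988c5_lc.Lv

/-!
# MP_d988c5_lc : the parameters of the forcing

`dat n` are the data of the node with index `n`.
-/

namespace Pool.Agent.DN

/-- strong recursion for sequences of choices -/
theorem exists_seq {D : Type*} [Nonempty D] (P : ℕ → (ℕ → D) → D → Prop)
    (hdep : ∀ n f g d, (∀ i < n, f i = g i) → P n f d → P n g d)
    (hex : ∀ n f, (∀ i < n, P i f (f i)) → ∃ d, P n f d) : ∃ f : ℕ → D, ∀ n, P n f (f n) := by
  classical
  obtain ⟨d0⟩ := (inferInstance : Nonempty D)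
  have hc : ∀ n (f : ℕ → D), ∃ d, (∃ d, P n f d) → P n f d := by
    intro n f
    by_cases h : ∃ d, P n f d
    · obtain ⟨d, hd⟩ := h; exact ⟨d, fun _ => hd⟩
    · exact ⟨d0, fun h' => absurd h' h⟩
  choose G hG using hc
  -- lists of values
  let F : ℕ → (ℕ → D) := fun n => Nat.rec (fun _ => d0) (fun n f => Function.update f n (G n f)) n
  have F1 : ∀ n, F (n + 1) = Function.update (F n) n (G n (F n)) := fun n => rfl
  have F2 : ∀ m n i, i < n → n ≤ m → F m i = F n i := by
    intro m n i hi hnm
    induction m, hnm using Nat.le_induction with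
    | base => rfl
    | succ m hm ih => rw [F1, Function.update_of_ne (by omega), ih]
  refine ⟨fun n => F (n + 1) n, fun n => ?_⟩
  induction n using Nat.strong_induction_on with
  | _ n ih =>
    have e1 : ∀ i < n, F (i + 1) i = F n i := fun i hi => (F2 n (i + 1) i (by omega) (by omega)).symm
    have h1 : ∀ i < n, P i (F n) (F n i) := by
      intro i hi
      have := ih i hi
      have h2 : P i (F n) (F (i + 1) i) := by
        refine hdep i _ _ _ (fun k hk => ?_) this
        exact e1 k (by omega)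
      rwa [e1 i hi] at h2
    have h2 := hG n (F n) (hex n (F n) h1)
    have e2 : F (n + 1) n = G n (F n) := by rw [F1]; simp
    show P n (fun n => F (n + 1) n) (F (n + 1) n)
    rw [e2]
    exact hdep n _ _ _ (fun i hi => (e1 i hi).symm) h2

/-- the number of digits bounds: `2 + Σ_{i<n} kap i` -/
def Nof (f : ℕ → Dat) (n : ℕ) : ℕ := 2 + ∑ i ∈ Finset.range n, (f i).kap

/-- number of colours: `2 ∏_{m<n} 2^(2^(L m))` -/
def colof (f : ℕ → Dat) (n : ℕ) : ℕ := 2 * ∏ m ∈ Finset.range n, 2 ^ (2 ^ (f m).L)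

theorem exists_dat : ∃ f : ℕ → Dat, ∀ n, (f n).Ok n ((Nof f n) ^ n) (colof f n) ((n + 1) ^ 5) := by
  obtain ⟨D0, _⟩ := exists_lv 0 1 2 0
  have : Nonempty Dat := ⟨D0⟩
  refine exists_seq (D := Dat) (fun n f (d : Dat) => d.Ok n ((Nof f n) ^ n) (colof f n) ((n + 1) ^ 5)) ?_ ?_
  · intro n f g d h hd
    have e1 : Nof f n = Nof g n := by
      unfold Nof
      exact congrArg _ (Finset.sum_congr rfl fun i hi => by rw [h i (Finset.mem_range.1 hi)])
    have e2 : colof f n = colof g n := by
      unfold colof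
      exact congrArg _ (Finset.prod_congr rfl fun i hi => by rw [h i (Finset.mem_range.1 hi)])
    rw [e1, e2] at hd
    exact hd
  · intro n f _
    exact exists_lv _ _ _ _

/-- the data of the node with index `n` -/
noncomputable def dat : ℕ → Dat := exists_dat.choose

/-- the bound for the number of nodes which can be the state at time `n` -/
noncomputable def NN (n : ℕ) : ℕ := Nof dat n

theorem dat_ok (n : ℕ) : (dat n).Ok n (NN n ^ n) (colof dat n) ((n + 1) ^ 5) :=
  exists_dat.choose_spec n

/-- the cube at the index `n` -/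
abbrev VV (n : ℕ) : Type := Fin (dat n).L → ZMod 2

theorem kap_pos (n : ℕ) : 0 < (dat n).kap := by
  obtain ⟨c, _, hc⟩ := (dat_ok n).ne _ _ (dat_ok n).full
  exact lt_of_le_of_lt (Nat.zero_le c) hc

theorem NN_succ (n : ℕ) : NN (n + 1) = NN n + (dat n).kap := by
  unfold NN Nof
  rw [Finset.sum_range_succ]; ring

theorem NN_ge2 (n : ℕ) : n + 2 ≤ NN n := by
  induction n with
  | zero => unfold NN Nof; simp
  | succ n ih => rw [NN_succ]; have := kap_pos n; omega

theorem NN_ge (n : ℕ) : n + 1 ≤ NN n := by have := NN_ge2 n; omega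

theorem NN_mono {m n : ℕ} (h : m ≤ n) : NN m ≤ NN n := by
  induction n, h using Nat.le_induction with
  | base => exact le_rfl
  | succ n _ ih => rw [NN_succ]; omega

/-- the number of values of the first `k` entries of a slalom -/
noncomputable def cols (k : ℕ) : ℕ := ∏ m ∈ Finset.range k, 2 ^ (2 ^ (dat m).L)

theorem cols_le_b {k n : ℕ} (h : k ≤ n) : cols k ≤ (dat n).b := by
  refine le_trans ?_ (dat_ok n).colb
  unfold cols colof
  have h1 : ∏ m ∈ Finset.range k, 2 ^ (2 ^ (dat m).L) ≤ ∏ m ∈ Finset.range n, 2 ^ (2 ^ (dat m).L) := by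
    refine Finset.prod_le_prod_of_subset_of_one_le' (Finset.range_mono h) ?_
    intro i _ _
    exact Nat.one_le_two_pow
  omega

theorem two_le_b (n : ℕ) : 2 ≤ (dat n).b := by
  refine le_trans ?_ (dat_ok n).colb
  unfold colof
  have : 0 < ∏ m ∈ Finset.range n, 2 ^ (2 ^ (dat m).L) := Finset.prod_pos fun _ _ => by positivity
  omega

theorem card_VV (n : ℕ) : Fintype.card (VV n) = 2 ^ (dat n).L := by
  simp [VV, ZMod.card]

theorem card_finset_VV (n : ℕ) : Fintype.card (Finset (VV n)) = 2 ^ (2 ^ (dat n).L) := by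
  rw [Fintype.card_finset, card_VV]

end Pool.Agent.DN
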