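import Pool.Agent.Lib.MP_d988c5_lc.ParamsRand

/-!
# MP_d988c5_lc, finite combinatorics 3: the parameters of one level (helper92)
-/

namespace Pool.Agent.D9

open Finset

/-- the covering property of the random set -/
theorem exists_cover (n π : ℕ) : ∃ C L0 : ℕ, ∀ L ≥ L0, ∃ K : Finset (V L),
    K.card * 2 ^ n ≤ 2 ^ L ∧ ∀ W : Finset (V L), 2 ^ L < W.card * 2 ^ n →
      ∃ W' ⊆ W, ∃ U : Finset (V L), W'.card + U.card ≤ C * (L + 1) ∧
        ∀ F : Finset (V L), F.card ≤ π → Disjoint F U → ∃ h ∈ W', ∀ v ∈ F, v + h ∈ K := by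
  classical
  obtain ⟨k, L0, hk, hR⟩ := exists_R n π
  refine ⟨k * π + 2 * k * (π + 1), L0, fun L hL => ?_⟩
  obtain ⟨K, hK, hKR⟩ := hR L hL
  refine ⟨K, hK, fun W hW => ?_⟩
  let poor : Finset (V L) → Prop := fun F =>
    2 * k * (W.filter (fun h => ∀ v ∈ F, v + h ∈ K)).card < W.card
  have hWne : W.Nonempty := by
    rw [nonempty_iff_ne_empty]
    rintro rfl
    simp at hW
  have key : ∀ j, (∃ U : Finset (V L), U.card ≤ j * π ∧ ∀ F : Finset (V L), F.card ≤ π →
      Disjoint F U → ¬ poor F) ∨ (∃ F : Fin j → Finset (V L), (∀ i, (F i).card ≤ π) ∧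
        (∀ i i', i ≠ i' → Disjoint (F i) (F i')) ∧ ∀ i, poor (F i)) := by
    intro j
    induction j with
    | zero => exact Or.inr ⟨fun i => i.elim0, fun i => i.elim0, fun i => i.elim0,
        fun i => i.elim0⟩
    | succ j ih =>
      rcases ih with ⟨U, hU1, hU2⟩ | ⟨F, hF1, hF2, hF3⟩
      · exact Or.inl ⟨U, hU1.trans (Nat.mul_le_mul_right _ (Nat.le_succ j)), hU2⟩
      · by_cases hc : ∃ F' : Finset (V L), F'.card ≤ π ∧ Disjoint F' (univ.biUnion F) ∧ poor F'
        · obtain ⟨F', h1, h2, h3⟩ := hc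
          refine Or.inr ⟨Fin.cons F' F, ?_, ?_, ?_⟩
          · intro i
            refine Fin.cases ?_ (fun i => ?_) i
            · simpa using h1
            · simpa using hF1 i
          · have h4 : ∀ i, Disjoint F' (F i) := fun i =>
              h2.mono_right (subset_biUnion_of_mem F (mem_univ i))
            intro i i' hne
            revert hne
            refine Fin.cases ?_ (fun i => ?_) i
            · refine Fin.cases ?_ (fun i' => ?_) i'
              · intro h; exact absurd rfl h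
              · intro _; simpa using h4 i'
            · refine Fin.cases ?_ (fun i' => ?_) i'
              · intro _; simpa using (h4 i).symm
              · intro h
                simp only [Fin.cons_succ]
                exact hF2 i i' fun h' => h (by rw [h'])
          · intro i
            refine Fin.cases ?_ (fun i => ?_) i
            · simpa using h3
            · simpa using hF3 i
        · refine Or.inl ⟨univ.biUnion F, ?_, fun F' h1 h2 h3 => hc ⟨F', h1, h2, h3⟩⟩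
          calc (univ.biUnion F).card ≤ ∑ i, (F i).card := card_biUnion_le
            _ ≤ ∑ i : Fin j, π := sum_le_sum fun i _ => hF1 i
            _ = j * π := by simp
            _ ≤ (j + 1) * π := Nat.mul_le_mul_right _ (Nat.le_succ j)
  rcases key k with ⟨U, hU1, hU2⟩ | ⟨F, hF1, hF2, hF3⟩
  swap
  · exfalso
    have h1 := hKR F hF1 hF2
    set Z := univ.filter (fun h : V L => ∀ i, ¬ ∀ v ∈ F i, v + h ∈ K) with hZ
    have h2 : 2 * Z.card < W.card := by
      have h3 : Z.card * 2 ^ (n + 1) < W.card * 2 ^ n := h1.trans hW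
      rw [pow_succ] at h3
      have h4 : (2 * Z.card) * 2 ^ n < W.card * 2 ^ n := by linarith
      exact Nat.lt_of_mul_lt_mul_right h4
    have hsub : W ⊆ Z ∪ univ.biUnion (fun i : Fin k =>
        W.filter (fun h => ∀ v ∈ F i, v + h ∈ K)) := by
      intro h hh
      by_cases hz : ∀ i, ¬ ∀ v ∈ F i, v + h ∈ K
      · exact mem_union_left _ (mem_filter.2 ⟨mem_univ _, hz⟩)
      · obtain ⟨i, hi⟩ : ∃ i, ∀ v ∈ F i, v + h ∈ K := by
          by_contra hc
          exact hz fun i hi => hc ⟨i, hi⟩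
        exact mem_union_right _ (mem_biUnion.2 ⟨i, mem_univ _, mem_filter.2 ⟨hh, hi⟩⟩)
    have h5 : W.card ≤ Z.card + ∑ i : Fin k, (W.filter (fun h => ∀ v ∈ F i, v + h ∈ K)).card :=
      (card_le_card hsub).trans ((card_union_le _ _).trans
        (Nat.add_le_add_left card_biUnion_le _))
    have h6 : 2 * k * ∑ i : Fin k, (W.filter (fun h => ∀ v ∈ F i, v + h ∈ K)).card <
        k * W.card := by
      rw [mul_sum]
      have : ∑ i : Fin k, 2 * k * (W.filter (fun h => ∀ v ∈ F i, v + h ∈ K)).card <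
          ∑ i : Fin k, W.card :=
        sum_lt_sum_of_nonempty ⟨⟨0, hk⟩, mem_univ _⟩ fun i _ => hF3 i
      simpa using this
    have h7 : 2 * ∑ i : Fin k, (W.filter (fun h => ∀ v ∈ F i, v + h ∈ K)).card < W.card := by
      have : k * (2 * ∑ i : Fin k, (W.filter (fun h => ∀ v ∈ F i, v + h ∈ K)).card) <
          k * W.card := by linarith
      exact Nat.lt_of_mul_lt_mul_left this
    omega
  · -- the hitting set
    let 𝓐 : Finset (Finset (V L)) := univ.filter (fun F => F.card ≤ π ∧ Disjoint F U)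
    have h𝓐 : 𝓐.card ≤ 2 ^ ((L + 1) * π) := by
      have hsub : 𝓐 ⊆ (univ : Finset (Fin π → Option (V L))).image
          (fun t => univ.filter (fun v => ∃ r, t r = some v)) := by
        intro F hF
        obtain ⟨t, ht⟩ := exists_enum F (mem_filter.1 hF).2.1
        refine mem_image.2 ⟨t, mem_univ _, ?_⟩
        ext v; simp [ht v]
      calc 𝓐.card ≤ ((univ : Finset (Fin π → Option (V L))).image
          (fun t => univ.filter (fun v => ∃ r, t r = some v))).card := card_le_card hsub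
        _ ≤ (univ : Finset (Fin π → Option (V L))).card := card_image_le
        _ = (2 ^ L + 1) ^ π := by
          rw [card_univ]
          simp only [Fintype.card_fun, Fintype.card_option, Fintype.card_fin, ZMod.card]
        _ ≤ (2 ^ (L + 1)) ^ π := by
          refine Nat.pow_le_pow_left ?_ _
          rw [pow_succ]; have := Nat.one_le_two_pow (n := L); omega
        _ = 2 ^ ((L + 1) * π) := by rw [← pow_mul]
    set q := 2 * k with hq
    set r := (L + 1) * π + 1 with hr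
    obtain ⟨W', hW1, hW2, hW3⟩ := exists_hitting W hWne 𝓐 (fun h F => ∀ v ∈ F, v + h ∈ K) q
      (fun F hF => by
        have h1 := hU2 F (mem_filter.1 hF).2.1 (mem_filter.1 hF).2.2
        exact not_lt.1 h1) (q * r)
    have hq1 : 1 ≤ q := by omega
    have h1 : 2 ^ r * (q - 1) ^ (q * r) ≤ q ^ (q * r) := by
      have := Nat.pow_le_pow_left (two_mul_pred_pow q hq1) r
      rw [mul_pow, ← pow_mul, ← pow_mul] at this
      exact this
    set Rm := 𝓐.filter (fun F => ∀ a ∈ W', ¬ ∀ v ∈ F, v + a ∈ K) with hRm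
    replace hW3 : Rm.card * q ^ (q * r) ≤ (q - 1) ^ (q * r) * 𝓐.card := by
      convert hW3
    have h2 : Rm.card * 2 ^ r ≤ 𝓐.card := by
      have hqp : 0 < q ^ (q * r) := by positivity
      have h3 : (Rm.card * 2 ^ r) * q ^ (q * r) ≤ 𝓐.card * q ^ (q * r) := by
        calc (Rm.card * 2 ^ r) * q ^ (q * r) = 2 ^ r * (Rm.card * q ^ (q * r)) := by ring
          _ ≤ 2 ^ r * ((q - 1) ^ (q * r) * 𝓐.card) := Nat.mul_le_mul_left _ hW3
          _ = (2 ^ r * (q - 1) ^ (q * r)) * 𝓐.card := by ring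
          _ ≤ q ^ (q * r) * 𝓐.card := Nat.mul_le_mul_right _ h1
          _ = 𝓐.card * q ^ (q * r) := by ring
      exact Nat.le_of_mul_le_mul_right h3 hqp
    have h3 : Rm.card = 0 := by
      by_contra hne
      have h4 : 1 ≤ Rm.card := Nat.one_le_iff_ne_zero.2 hne
      have h5 : 2 ^ r ≤ 2 ^ ((L + 1) * π) := by
        calc 2 ^ r = 1 * 2 ^ r := (one_mul _).symm
          _ ≤ Rm.card * 2 ^ r := Nat.mul_le_mul_right _ h4
          _ ≤ 𝓐.card := h2
          _ ≤ _ := h𝓐
      have h6 := (Nat.pow_le_pow_iff_right (by norm_num : 1 < 2)).1 h5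
      omega
    refine ⟨W', hW1, U, ?_, fun F hF1 hF2 => ?_⟩
    · calc W'.card + U.card ≤ q * r + k * π := Nat.add_le_add hW2 hU1
        _ = 2 * k * ((L + 1) * π + 1) + k * π := by rw [hq, hr]
        _ ≤ (k * π + 2 * k * (π + 1)) * (L + 1) := by
          nlinarith [Nat.zero_le (k * π * L), Nat.zero_le (k * L)]
    · by_contra hcon
      have h4 : F ∈ Rm := by
        rw [hRm, mem_filter]
        refine ⟨mem_filter.2 ⟨mem_univ _, hF1, hF2⟩, fun a ha hall => hcon ⟨a, ha, hall⟩⟩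
      rw [card_eq_zero.1 h3] at h4
      simp at h4

open Classical in
/-- The parameters of one level: the interval has length `L`, the letters are the numbers `< κ`,
the letter `c` is the subset `T c` of `V L`, `K` is the block of the set `E`, and `Big u A` is the
norm. -/
structure Lv (n π col U : ℕ) where
  L : ℕ
  κ : ℕ
  b : ℕ
  K : Finset (V L)
  T : ℕ → Finset (V L)
  Big : ℕ → Set ℕ → Prop
  col_le : col ≤ b
  mono : ∀ {u u' : ℕ} {A A' : Set ℕ}, u' ≤ u → A ⊆ A' → Big u A → Big u' A'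
  pigeon : ∀ {u r : ℕ} {A : Set ℕ} (B : Fin r → Set ℕ), r ≤ b → A ⊆ ⋃ i, B i → Big (u + 1) A →
    ∃ i, Big u (B i)
  inter : ∀ {u : ℕ} {A : Set ℕ}, Big u A → Big u (A ∩ {c | c < κ})
  nonempty : ∀ {u : ℕ} {A : Set ℕ}, Big u A → ∃ c ∈ A, c < κ
  top : Big U {c | c < κ}
  test : ∀ {u : ℕ} {A : Set ℕ} (F : ℕ → Finset (V L)), (∀ c ∈ A, (F c).card ≤ π) →
    (∀ c ∈ A, Disjoint (F c) (T c)) → Big (u + 1) A →
    (univ.filter (fun h : V L => ¬ Big u {c | c ∈ A ∧ ∀ v ∈ F c, v + h ∈ K})).card * 2 ^ n ≤ 2 ^ L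
  card_T : ∀ c, (T c).card * 2 ^ n ≤ 2 ^ L
  card_K : K.card * 2 ^ n ≤ 2 ^ L
  single : ∀ u c, ¬ Big u {c}

theorem exists_large (C D U n L0 : ℕ) : ∃ L ≥ L0, (D + C * (L + 1)) ^ U * 2 ^ (n + 1) ≤ 2 ^ L := by
  have h1 : ∀ᶠ L : ℕ in Filter.atTop,
      ((L : ℝ) ^ U / 2 ^ L) < 1 / ((D + 2 * C + 1 : ℝ) ^ U * 2 ^ (n + 1)) := by
    have := tendsto_pow_const_div_const_pow_of_one_lt U (r := (2 : ℝ)) (by norm_num)
    exact this.eventually (gt_mem_nhds (by positivity))
  obtain ⟨L1, h⟩ := Filter.eventually_atTop.1 h1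
  refine ⟨max L0 (max L1 1), le_max_left _ _, ?_⟩
  set L := max L0 (max L1 1)
  have hL1 : 1 ≤ L := (le_max_right L1 1).trans (le_max_right _ _)
  have h2 := h L ((le_max_left _ _).trans (le_max_right _ _))
  rw [div_lt_div_iff₀ (by positivity) (by positivity), one_mul] at h2
  have h3 : L ^ U * ((D + 2 * C + 1) ^ U * 2 ^ (n + 1)) < 2 ^ L := by exact_mod_cast h2
  have h4 : D + C * (L + 1) ≤ L * (D + 2 * C + 1) := by
    have h5 : D ≤ L * D := Nat.le_mul_of_pos_left _ hL1
    have h6 : C * (L + 1) ≤ L * (2 * C) := by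
      calc C * (L + 1) ≤ C * (L + L) := by gcongr
        _ = L * (2 * C) := by ring
    nlinarith
  calc (D + C * (L + 1)) ^ U * 2 ^ (n + 1) ≤ (L * (D + 2 * C + 1)) ^ U * 2 ^ (n + 1) := by
        gcongr
    _ = L ^ U * ((D + 2 * C + 1) ^ U * 2 ^ (n + 1)) := by rw [mul_pow, mul_assoc]
    _ ≤ 2 ^ L := h3.le

/-- the parameters exist -/
theorem exists_lv (n π col U : ℕ) : Nonempty (Lv n π col U) := by
  classical
  obtain ⟨C, L0, hC⟩ := exists_cover n π
  obtain ⟨L, hL, hLb⟩ := exists_large C (col + 1) U n L0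
  obtain ⟨K, hK, hKW⟩ := hC L hL
  set b := col + 1 + C * (L + 1) with hb
  have hb1 : 1 ≤ b := by omega
  let 𝓣 : Finset (Finset (V L)) := univ.filter (fun T => T.card * 2 ^ (n + 1) ≤ 2 ^ L)
  let κ := 𝓣.card
  let T : ℕ → Finset (V L) := fun c => if h : c < κ then (𝓣.equivFin.symm ⟨c, h⟩).1 else ∅
  have hT : ∀ c, (T c).card * 2 ^ (n + 1) ≤ 2 ^ L := by
    intro c
    by_cases h : c < κ
    · have h1 := (𝓣.equivFin.symm ⟨c, h⟩).2
      simp only [T, h, dite_true]
      exact (mem_filter.1 h1).2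
    · simp [T, h]
  have hTs : ∀ A : Finset (V L), A.card * 2 ^ (n + 1) ≤ 2 ^ L → ∃ c < κ, T c = A := by
    intro A hA
    have h1 : A ∈ 𝓣 := mem_filter.2 ⟨mem_univ _, hA⟩
    refine ⟨(𝓣.equivFin ⟨A, h1⟩).1, (𝓣.equivFin ⟨A, h1⟩).2, ?_⟩
    simp only [T]
    rw [dif_pos (𝓣.equivFin ⟨A, h1⟩).2]
    simp
  obtain ⟨Big, hBig⟩ : ∃ Big : ℕ → Set ℕ → Prop, ∀ u A, Big u A ↔
      ∀ S : Finset (V L), S.card ≤ b ^ u → ∃ c ∈ A, c < κ ∧ S ⊆ T c :=
    ⟨fun u A => ∀ S : Finset (V L), S.card ≤ b ^ u → ∃ c ∈ A, c < κ ∧ S ⊆ T c,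
      fun _ _ => Iff.rfl⟩
  have hn2 : 2 ^ n ≤ 2 ^ (n + 1) := Nat.pow_le_pow_right (by norm_num) (Nat.le_succ n)
  refine ⟨{
    L := L
    κ := κ
    b := b
    K := K
    T := T
    Big := Big
    col_le := by omega
    mono := ?_
    pigeon := ?_
    inter := ?_
    nonempty := ?_
    top := ?_
    test := ?_
    card_T := fun c => (Nat.mul_le_mul_left _ hn2).trans (hT c)
    card_K := hK
    single := ?_ }⟩
  · intro u u' A A' hu hA h
    rw [hBig] at h ⊢
    intro S hS
    obtain ⟨c, h1, h2⟩ := h S (hS.trans (Nat.pow_le_pow_right hb1 hu))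
    exact ⟨c, hA h1, h2⟩
  · intro u r A B hr hA h
    simp only [hBig] at h ⊢
    by_contra hcon
    have h1 : ∀ i, ∃ S : Finset (V L), S.card ≤ b ^ u ∧ ∀ c ∈ B i, c < κ → ¬ S ⊆ T c := by
      intro i
      by_contra h2
      refine hcon ⟨i, fun S hS => ?_⟩
      by_contra h3
      exact h2 ⟨S, hS, fun c hc hck hsub => h3 ⟨c, hc, hck, hsub⟩⟩
    choose S hS1 hS2 using h1
    obtain ⟨c, hc, hck, hsub⟩ := h (univ.biUnion S) (by
      calc (univ.biUnion S).card ≤ ∑ i, (S i).card := card_biUnion_le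
        _ ≤ ∑ i : Fin r, b ^ u := sum_le_sum fun i _ => hS1 i
        _ = r * b ^ u := by simp
        _ ≤ b * b ^ u := Nat.mul_le_mul_right _ hr
        _ = b ^ (u + 1) := by ring)
    obtain ⟨i, hi⟩ := Set.mem_iUnion.1 (hA hc)
    exact hS2 i c hi hck ((subset_biUnion_of_mem S (mem_univ i)).trans hsub)
  · intro u A h
    rw [hBig] at h ⊢
    intro S hS
    obtain ⟨c, h1, h2, h3⟩ := h S hS
    exact ⟨c, ⟨h1, h2⟩, h2, h3⟩
  · intro u A h
    rw [hBig] at h
    obtain ⟨c, h1, h2, _⟩ := h ∅ (by simp)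
    exact ⟨c, h1, h2⟩
  · rw [hBig]
    intro S hS
    obtain ⟨c, h1, h2⟩ := hTs S ((Nat.mul_le_mul_right _ hS).trans hLb)
    exact ⟨c, h1, h1, h2 ▸ Subset.rfl⟩
  · intro u A F hF1 hF2 hA
    by_contra hcon
    obtain ⟨W', hW', Uf, hc, hcov⟩ := hKW _ (not_le.1 hcon)
    have h1 : ∀ h : V L, ∃ S : Finset (V L), h ∈ W' → S.card ≤ b ^ u ∧
        ∀ c ∈ {c | c ∈ A ∧ ∀ v ∈ F c, v + h ∈ K}, c < κ → ¬ S ⊆ T c := by
      intro h
      by_cases hh : h ∈ W'
      · have h2 := (mem_filter.1 (hW' hh)).2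
        rw [hBig] at h2
        by_contra h3
        refine h2 fun S hS => ?_
        by_contra h4
        exact h3 ⟨S, fun _ => ⟨hS, fun c hc hck hsub => h4 ⟨c, hc, hck, hsub⟩⟩⟩
      · exact ⟨∅, fun h => absurd h hh⟩
    choose S hS using h1
    rw [hBig] at hA
    obtain ⟨c, hcA, hck, hsub⟩ := hA (W'.biUnion S ∪ Uf) (by
      have hbu : 1 ≤ b ^ u := Nat.one_le_pow _ _ hb1
      calc (W'.biUnion S ∪ Uf).card ≤ (W'.biUnion S).card + Uf.card := card_union_le _ _
        _ ≤ ∑ h ∈ W', (S h).card + Uf.card := Nat.add_le_add_right card_biUnion_le _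
        _ ≤ ∑ h ∈ W', b ^ u + Uf.card * b ^ u := by
          refine Nat.add_le_add (sum_le_sum fun h hh => (hS h hh).1) ?_
          exact Nat.le_mul_of_pos_right _ hbu
        _ = (W'.card + Uf.card) * b ^ u := by rw [sum_const, smul_eq_mul]; ring
        _ ≤ b * b ^ u := Nat.mul_le_mul_right _ (by omega)
        _ = b ^ (u + 1) := by ring)
    have hd : Disjoint (F c) Uf :=
      (hF2 c hcA).mono_right (subset_union_right.trans hsub)
    obtain ⟨h, hh, hhK⟩ := hcov (F c) (hF1 c hcA) hd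
    exact (hS h hh).2 c ⟨hcA, hhK⟩ hck
      ((subset_biUnion_of_mem S hh).trans (subset_union_left.trans hsub))
  · intro u c h
    rw [hBig] at h
    have h1 : ∃ v : V L, v ∉ T c := by
      by_contra h2
      push Not at h2
      have h3 : T c = univ := by ext v; simp [h2 v]
      have h4 := hT c
      rw [h3, card_univ, card_V, pow_succ] at h4
      have h5 : 0 < 2 ^ L := by positivity
      have h6 : 1 ≤ 2 ^ n := Nat.one_le_two_pow
      nlinarith
    obtain ⟨v, hv⟩ := h1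
    obtain ⟨c', hc', _, h2⟩ := h {v} (by simpa using Nat.one_le_pow _ _ hb1)
    rw [Set.mem_singleton_iff.1 hc'] at h2
    exact hv (h2 (mem_singleton_self v))

end Pool.Agent.D9
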