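import Mathlib

/-!
# MP_d988c5_lc, finite combinatorics 1: counting (helper92)
-/

namespace Pool.Agent.D9

open Finset

/-- the number of colourings for which none of the (pairwise disjoint) blocks has colour `j` -/
theorem count_blocks {X : Type*} [Fintype X] [DecidableEq X] {m : ℕ} (j : Fin m) (π : ℕ)
    {ι : Type*} [DecidableEq ι] (𝓑 : Finset ι) (B : ι → Finset X)
    (hd : ∀ i ∈ 𝓑, ∀ i' ∈ 𝓑, i ≠ i' → Disjoint (B i) (B i'))
    (hc : ∀ i ∈ 𝓑, (B i).card ≤ π) :
    (univ.filter (fun f : X → Fin m => ∀ i ∈ 𝓑, ¬ ∀ v ∈ B i, f v = j)).card *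
      (m ^ π) ^ 𝓑.card ≤ (m ^ π - 1) ^ 𝓑.card * m ^ (Fintype.card X) := by
  classical
  have hm : 1 ≤ m := Nat.one_le_of_lt j.2
  induction 𝓑 using Finset.induction_on with
  | empty => simp
  | insert i 𝓑 hi ih =>
    have ih' := ih (fun a ha b hb => hd a (mem_insert_of_mem ha) b (mem_insert_of_mem hb))
      (fun a ha => hc a (mem_insert_of_mem ha))
    set 𝓕 := univ.filter (fun f : X → Fin m => ∀ i ∈ 𝓑, ¬ ∀ v ∈ B i, f v = j) with h𝓕
    have e1 : univ.filter (fun f : X → Fin m => ∀ i' ∈ insert i 𝓑, ¬ ∀ v ∈ B i', f v = j) =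
        𝓕.filter (fun f => ¬ ∀ v ∈ B i, f v = j) := by
      ext f
      simp only [h𝓕, mem_filter, mem_univ, true_and, forall_mem_insert]
      tauto
    have e2 : (𝓕.filter (fun f => ∀ v ∈ B i, f v = j)).card +
        (𝓕.filter (fun f => ¬ ∀ v ∈ B i, f v = j)).card = 𝓕.card :=
      card_filter_add_card_filter_not _
    have e3 : 𝓕.card ≤ m ^ π * (𝓕.filter (fun f => ∀ v ∈ B i, f v = j)).card := by
      refine card_le_mul_card_image_of_maps_to
        (f := fun f : X → Fin m => fun v => if v ∈ B i then j else f v) ?_ _ ?_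
      · intro f hf
        simp only [h𝓕, mem_filter, mem_univ, true_and] at hf ⊢
        refine ⟨fun i' hi' hall => hf i' hi' fun v hv => ?_, fun v hv => by simp [hv]⟩
        have hvi : v ∉ B i := by
          have hne : i' ≠ i := by rintro rfl; exact hi hi'
          exact fun h => (Finset.disjoint_left.1
            (hd i' (mem_insert_of_mem hi') i (mem_insert_self _ _) hne) hv) h
        have := hall v hv
        simpa [hvi] using this
      · intro g hg
        have h1 : (𝓕.filter (fun a => (fun v => if v ∈ B i then j else a v) = g)).card ≤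
            Fintype.card (B i → Fin m) := by
          refine (Finset.card_le_card_of_injOn (t := univ)
            (fun a : X → Fin m => fun v : B i => a v.1) (fun _ _ => mem_univ _) ?_).trans_eq
            (by rw [card_univ])
          intro a ha a' ha' he
          simp only [coe_filter, Set.mem_ofPred_eq] at ha ha'
          funext v
          by_cases hv : v ∈ B i
          · exact congrFun he ⟨v, hv⟩
          · have h1 := congrFun ha.2 v
            have h2 := congrFun ha'.2 v
            simp only [hv, if_false] at h1 h2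
            rw [h1, h2]
        refine h1.trans ?_
        rw [Fintype.card_fun, Fintype.card_fin, Fintype.card_coe]
        exact Nat.pow_le_pow_right hm (hc i (mem_insert_self _ _))
    rw [e1, card_insert_of_notMem hi, pow_succ, pow_succ]
    set a := (𝓕.filter (fun f => ¬ ∀ v ∈ B i, f v = j)).card
    set b := (𝓕.filter (fun f => ∀ v ∈ B i, f v = j)).card
    have h4 : a * m ^ π ≤ (m ^ π - 1) * 𝓕.card := by
      rw [Nat.sub_mul, one_mul]
      have : a * m ^ π + 𝓕.card ≤ m ^ π * 𝓕.card := by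
        rw [← e2]
        rw [← e2] at e3
        nlinarith
      omega
    calc a * ((m ^ π) ^ 𝓑.card * m ^ π) = (a * m ^ π) * (m ^ π) ^ 𝓑.card := by ring
      _ ≤ ((m ^ π - 1) * 𝓕.card) * (m ^ π) ^ 𝓑.card := Nat.mul_le_mul_right _ h4
      _ = (m ^ π - 1) * (𝓕.card * (m ^ π) ^ 𝓑.card) := by ring
      _ ≤ (m ^ π - 1) * ((m ^ π - 1) ^ 𝓑.card * m ^ Fintype.card X) :=
        Nat.mul_le_mul_left _ ih'
      _ = (m ^ π - 1) ^ 𝓑.card * (m ^ π - 1) * m ^ Fintype.card X := by ring

/-- a bound for binomial coefficients -/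
theorem choose_bound (L c : ℕ) (h : c ≤ L) :
    (2 ^ L).choose (2 ^ (L - c)) ≤ 2 ^ ((c + 2) * 2 ^ (L - c)) := by
  set s := 2 ^ (L - c) with hs
  have hspos : 0 < s := by positivity
  have hN : 2 ^ L = 2 ^ c * s := by rw [hs, ← pow_add]; congr 1; omega
  have h1 : (2 ^ L).choose s * s.factorial ≤ (2 ^ L) ^ s := by
    have := Nat.choose_le_pow_div s (2 ^ L) (α := ℝ)
    have hf : (0 : ℝ) < s.factorial := by exact_mod_cast Nat.factorial_pos s
    rw [le_div_iff₀ hf] at this
    exact_mod_cast this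
  have h2 : (s : ℝ) ^ s ≤ 3 ^ s * s.factorial := by
    have h3 : (s : ℝ) ^ s / s.factorial ≤ Real.exp s :=
      Real.pow_div_factorial_le_exp (s : ℝ) (by positivity) s
    have h4 : Real.exp s ≤ 3 ^ s := by
      have : Real.exp (s : ℝ) = Real.exp 1 ^ s := by
        rw [← Real.exp_nat_mul, mul_one]
      rw [this]
      exact pow_le_pow_left₀ (Real.exp_pos _).le Real.exp_one_lt_three.le s
    have hf : (0 : ℝ) < s.factorial := by exact_mod_cast Nat.factorial_pos s
    rw [div_le_iff₀ hf] at h3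
    exact h3.trans (mul_le_mul_of_nonneg_right h4 hf.le)
  have h2' : s ^ s ≤ 3 ^ s * s.factorial := by exact_mod_cast h2
  have h5 : (2 ^ L).choose s * s ^ s ≤ 2 ^ ((c + 2) * s) * s ^ s := by
    calc (2 ^ L).choose s * s ^ s ≤ (2 ^ L).choose s * (3 ^ s * s.factorial) :=
          Nat.mul_le_mul_left _ h2'
      _ = 3 ^ s * ((2 ^ L).choose s * s.factorial) := by ring
      _ ≤ 3 ^ s * (2 ^ L) ^ s := Nat.mul_le_mul_left _ h1
      _ = 3 ^ s * (2 ^ c * s) ^ s := by rw [hN]
      _ ≤ 4 ^ s * (2 ^ c * s) ^ s := Nat.mul_le_mul_right _ (Nat.pow_le_pow_left (by norm_num) _)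
      _ = 2 ^ ((c + 2) * s) * s ^ s := by
        rw [mul_pow, ← mul_assoc, ← mul_pow, pow_mul]
        congr 2
        rw [pow_add]; ring
  exact Nat.le_of_mul_le_mul_right h5 (by positivity)

/-- greedy choice of translates which are pairwise disjoint -/
theorem greedy_indep {G : Type*} [AddCommGroup G] [Fintype G] [DecidableEq G] (D W : Finset G)
    (hD : D.Nonempty) :
    ∃ S ⊆ W, (∀ h ∈ S, ∀ h' ∈ S, h ≠ h' → ∀ v ∈ D, ∀ v' ∈ D, v + h ≠ v' + h') ∧
      W.card ≤ S.card * (D.card * D.card) := by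
  classical
  let P : Finset G → Prop := fun S =>
    S ⊆ W ∧ ∀ h ∈ S, ∀ h' ∈ S, h ≠ h' → ∀ v ∈ D, ∀ v' ∈ D, v + h ≠ v' + h'
  obtain ⟨S, hS, hmax⟩ := (univ.filter P).exists_maximal
    (⟨∅, by simp [P]⟩)
  have hP : P S := (mem_filter.1 hS).2
  refine ⟨S, hP.1, hP.2, ?_⟩
  have hcov : W ⊆ (S ×ˢ (D ×ˢ D)).image (fun x => x.2.1 + x.1 - x.2.2) := by
    intro w hw
    rw [mem_image]
    by_cases hwS : w ∈ S
    · obtain ⟨d, hd⟩ := hD
      exact ⟨(w, d, d), by simp [hwS, hd], by simp⟩
    · by_contra hcon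
      push Not at hcon
      have hne : ∀ h ∈ S, ∀ v ∈ D, ∀ v' ∈ D, v + h ≠ v' + w := by
        intro h hh v hv v' hv' he
        refine hcon (h, v, v') (by simp [hh, hv, hv']) ?_
        simp only
        rw [he]; abel
      have hP' : P (insert w S) := by
        refine ⟨insert_subset hw hP.1, ?_⟩
        intro h hh h' hh' hne' v hv v' hv'
        rw [mem_insert] at hh hh'
        rcases hh with rfl | hh
        · rcases hh' with rfl | hh'
          · exact absurd rfl hne'
          · exact fun he => hne h' hh' v' hv' v hv he.symm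
        · rcases hh' with rfl | hh'
          · exact hne h hh v hv v' hv'
          · exact hP.2 h hh h' hh' hne' v hv v' hv'
      have h1 : insert w S ∈ univ.filter P := mem_filter.2 ⟨mem_univ _, hP'⟩
      have h2 := hmax h1 (subset_insert w S)
      exact hwS (h2 (mem_insert_self w S))
  calc W.card ≤ ((S ×ˢ (D ×ˢ D)).image (fun x => x.2.1 + x.1 - x.2.2)).card := card_le_card hcov
    _ ≤ (S ×ˢ (D ×ˢ D)).card := card_image_le
    _ = S.card * (D.card * D.card) := by rw [card_product, card_product]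

/-- the greedy hitting set lemma -/
theorem exists_hitting {α β : Type*} [DecidableEq α] (W : Finset α) (hW : W.Nonempty)
    (𝓐 : Finset β) (R : α → β → Prop) [∀ a b, Decidable (R a b)] (q : ℕ)
    (h : ∀ b ∈ 𝓐, W.card ≤ q * (W.filter (fun a => R a b)).card) (t : ℕ) :
    ∃ W' ⊆ W, W'.card ≤ t ∧
      (𝓐.filter (fun b => ∀ a ∈ W', ¬ R a b)).card * q ^ t ≤ (q - 1) ^ t * 𝓐.card := by
  induction t with
  | zero => exact ⟨∅, by simp, by simp, by simp⟩
  | succ t ih =>
    obtain ⟨W', h1, h2, h3⟩ := ih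
    set 𝓐' := 𝓐.filter (fun b => ∀ a ∈ W', ¬ R a b) with h𝓐'
    have hsum : ∑ a ∈ W, (𝓐'.filter (fun b => R a b)).card =
        ∑ b ∈ 𝓐', (W.filter (fun a => R a b)).card := by
      simp only [card_filter]
      exact sum_comm
    have hex : ∃ a ∈ W, 𝓐'.card ≤ q * (𝓐'.filter (fun b => R a b)).card := by
      by_contra hcon
      push Not at hcon
      have h4 : ∑ a ∈ W, q * (𝓐'.filter (fun b => R a b)).card < ∑ a ∈ W, 𝓐'.card :=
        sum_lt_sum_of_nonempty hW hcon
      rw [← mul_sum, hsum, mul_sum, sum_const, smul_eq_mul] at h4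
      have h5 : ∑ b ∈ 𝓐', W.card ≤ ∑ b ∈ 𝓐', q * (W.filter (fun a => R a b)).card :=
        sum_le_sum fun b hb => h b (mem_filter.1 hb).1
      rw [sum_const, smul_eq_mul] at h5
      have : W.card * 𝓐'.card = 𝓐'.card * W.card := mul_comm _ _
      omega
    obtain ⟨a, ha, ha'⟩ := hex
    refine ⟨insert a W', insert_subset ha h1, (card_insert_le _ _).trans (by omega), ?_⟩
    have e1 : 𝓐.filter (fun b => ∀ a' ∈ insert a W', ¬ R a' b) =
        𝓐'.filter (fun b => ¬ R a b) := by
      ext b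
      simp only [h𝓐', mem_filter, forall_mem_insert]
      tauto
    have e2 : (𝓐'.filter (fun b => R a b)).card + (𝓐'.filter (fun b => ¬ R a b)).card =
        𝓐'.card := card_filter_add_card_filter_not _
    rw [e1]
    set x := (𝓐'.filter (fun b => ¬ R a b)).card
    set y := (𝓐'.filter (fun b => R a b)).card
    have h6 : x * q ≤ (q - 1) * 𝓐'.card := by
      rw [Nat.sub_mul, one_mul]
      have : x * q + 𝓐'.card ≤ q * 𝓐'.card := by
        nlinarith
      omega
    calc x * q ^ (t + 1) = (x * q) * q ^ t := by ring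
      _ ≤ ((q - 1) * 𝓐'.card) * q ^ t := Nat.mul_le_mul_right _ h6
      _ = (q - 1) * (𝓐'.card * q ^ t) := by ring
      _ ≤ (q - 1) * ((q - 1) ^ t * 𝓐.card) := Nat.mul_le_mul_left _ h3
      _ = (q - 1) ^ (t + 1) * 𝓐.card := by ring

theorem two_mul_pred_pow (q : ℕ) (hq : 1 ≤ q) : 2 * (q - 1) ^ q ≤ q ^ q := by
  obtain ⟨p, rfl⟩ : ∃ p, q = p + 1 := ⟨q - 1, by omega⟩
  simp only [Nat.add_sub_cancel]
  have h1 : p ^ (p + 1) + (p + 1) * p ^ p ≤ (p + 1) ^ (p + 1) := by
    rcases Nat.eq_zero_or_pos p with rfl | hp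
    · simp
    have h2 : (1 : ℝ) + ((p + 1 : ℕ) : ℝ) * (1 / p) ≤ (1 + 1 / p) ^ (p + 1) :=
      one_add_mul_le_pow (by have : (0 : ℝ) ≤ 1 / p := by positivity
                             linarith) (p + 1)
    have hp' : (0 : ℝ) < p := by exact_mod_cast hp
    have h3 : (p : ℝ) ^ (p + 1) * (1 + ((p + 1 : ℕ) : ℝ) * (1 / p)) ≤
        (p : ℝ) ^ (p + 1) * (1 + 1 / p) ^ (p + 1) :=
      mul_le_mul_of_nonneg_left h2 (by positivity)
    rw [← mul_pow] at h3
    have e1 : (p : ℝ) * (1 + 1 / p) = p + 1 := by field_simp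
    have e2 : (p : ℝ) ^ (p + 1) * (1 + ((p + 1 : ℕ) : ℝ) * (1 / p)) =
        (p : ℝ) ^ (p + 1) + (p + 1) * p ^ p := by
      push_cast
      field_simp
      ring
    rw [e1, e2] at h3
    exact_mod_cast h3
  have h4 : p ^ (p + 1) = p * p ^ p := pow_succ' p p
  have h5 : (p + 1) * p ^ p = p * p ^ p + p ^ p := by ring
  omega

end Pool.Agent.D9
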