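import Pool.Agent.Lib.MP_d988c5_lc.ParamsCount

/-!
# MP_d988c5_lc, finite combinatorics 2: a set which behaves like a random set (helper92)
-/

namespace Pool.Agent.D9

open Finset

/-- the finite groups -/
abbrev V (L : ℕ) := Fin L → ZMod 2

theorem card_V (L : ℕ) : Fintype.card (V L) = 2 ^ L := by
  simp [V, ZMod.card]

theorem exists_enum {X : Type*} {π : ℕ} (A : Finset X) (h : A.card ≤ π) :
    ∃ t : Fin π → Option X, ∀ v, v ∈ A ↔ ∃ r, t r = some v := by
  refine ⟨fun r => A.toList[r.1]?, fun v => ?_⟩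
  rw [← Finset.mem_toList, List.mem_iff_getElem?]
  constructor
  · rintro ⟨i, hi⟩
    have hl : i < A.toList.length := by
      by_contra hc
      rw [List.getElem?_eq_none (not_lt.1 hc)] at hi
      simp at hi
    rw [Finset.length_toList] at hl
    exact ⟨⟨i, by omega⟩, hi⟩
  · rintro ⟨r, hr⟩
    exact ⟨r.1, hr⟩

theorem exists_color {X : Type*} [Fintype X] {m : ℕ} (hm : 0 < m) (f : X → Fin m) :
    ∃ j, (univ.filter (fun x => f x = j)).card * m ≤ Fintype.card X := by
  classical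
  by_contra hcon
  push Not at hcon
  have hne : (univ : Finset (Fin m)).Nonempty := ⟨⟨0, hm⟩, mem_univ _⟩
  have h1 : ∑ j : Fin m, Fintype.card X < ∑ j : Fin m, (univ.filter (fun x => f x = j)).card * m :=
    sum_lt_sum_of_nonempty hne fun j _ => hcon j
  rw [← sum_mul, ← card_eq_sum_card_fiberwise (fun _ _ => mem_univ _), sum_const, card_univ,
    card_univ, Fintype.card_fin, smul_eq_mul] at h1
  exact absurd h1 (by rw [mul_comm]; exact lt_irrefl _)

/-- the numerical choice of `k = 2 ^ a` -/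
theorem exists_a (n π : ℕ) : ∃ a : ℕ, ((2 ^ n) ^ π - 1) ^ (2 ^ a) * 2 ^ (n + 1 + 2 * (a + π) + 4) ≤
    ((2 ^ n) ^ π) ^ (2 ^ a) := by
  set M := (2 ^ n) ^ π with hM
  have hM1 : 1 ≤ M := Nat.one_le_pow _ _ (by positivity)
  have hMr : (1 : ℝ) ≤ M := by exact_mod_cast hM1
  have hr : |1 - 1 / (M : ℝ)| < 1 := by
    have h1 : (0 : ℝ) < 1 / M := by positivity
    have h2 : 1 / (M : ℝ) ≤ 1 := by
      rw [div_le_one (by linarith)]; exact hMr
    rw [abs_lt]; constructor <;> linarith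
  have ht := (tendsto_pow_const_mul_const_pow_of_abs_lt_one 2 hr).comp
    (tendsto_pow_atTop_atTop_of_one_lt (r := 2) (by norm_num : 1 < (2 : ℕ)))
  have hev := ht.eventually (gt_mem_nhds (show (0 : ℝ) < 1 / 2 ^ (n + 5 + 2 * π) by positivity))
  obtain ⟨a, ha⟩ := hev.exists
  refine ⟨a, ?_⟩
  simp only [Function.comp_def] at ha
  have e1 : (1 - 1 / (M : ℝ)) = ((M - 1 : ℕ) : ℝ) / M := by
    rw [Nat.cast_sub hM1]
    push_cast
    field_simp
  have hMpos : (0 : ℝ) < M := by linarith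
  rw [e1, div_pow, lt_div_iff₀ (by positivity)] at ha
  have h3 : ((2 ^ a : ℕ) : ℝ) ^ 2 * ((((M - 1 : ℕ) : ℝ) ^ (2 ^ a)) / (M : ℝ) ^ (2 ^ a)) *
      2 ^ (n + 5 + 2 * π) * (M : ℝ) ^ (2 ^ a) ≤ 1 * (M : ℝ) ^ (2 ^ a) :=
    mul_le_mul_of_nonneg_right ha.le (by positivity)
  have e2 : ((2 ^ a : ℕ) : ℝ) ^ 2 * ((((M - 1 : ℕ) : ℝ) ^ (2 ^ a)) / (M : ℝ) ^ (2 ^ a)) *
      2 ^ (n + 5 + 2 * π) * (M : ℝ) ^ (2 ^ a) =
      ((M - 1 : ℕ) : ℝ) ^ (2 ^ a) * 2 ^ (n + 1 + 2 * (a + π) + 4) := by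
    push_cast
    field_simp
    ring
  rw [e2, one_mul] at h3
  exact_mod_cast h3

/-- a set `K` such that for any `k` pairwise disjoint small sets almost every translate puts one of
them into `K` -/
theorem exists_R (n π : ℕ) : ∃ k L0 : ℕ, 1 ≤ k ∧ ∀ L ≥ L0, ∃ K : Finset (V L),
    K.card * 2 ^ n ≤ 2 ^ L ∧ ∀ F : Fin k → Finset (V L), (∀ i, (F i).card ≤ π) →
      (∀ i j, i ≠ j → Disjoint (F i) (F j)) →
      (univ.filter (fun h : V L => ∀ i, ¬ ∀ v ∈ F i, v + h ∈ K)).card * 2 ^ (n + 1) < 2 ^ L := by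
  classical
  obtain ⟨a, ha⟩ := exists_a n π
  set k := 2 ^ a with hk
  set c := n + 1 + 2 * (a + π) with hc
  have hk1 : 1 ≤ k := Nat.one_le_two_pow
  -- the choice of `L0`
  obtain ⟨L0, hL0⟩ : ∃ L0, ∀ L ≥ L0, c ≤ L ∧ n + (L + 1) * π * k < 2 * 2 ^ (L - c) := by
    have h1 : ∀ᶠ L : ℕ in Filter.atTop,
        ((L : ℝ) ^ 1 / 2 ^ L) < 1 / (2 ^ c * (n + 2 * π * k + 1)) := by
      have := tendsto_pow_const_div_const_pow_of_one_lt 1 (r := (2 : ℝ)) (by norm_num)
      exact this.eventually (gt_mem_nhds (by positivity))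
    obtain ⟨L0, h⟩ := Filter.eventually_atTop.1 h1
    refine ⟨max L0 (c + 1), fun L hL => ?_⟩
    have hcL : c + 1 ≤ L := (le_max_right _ _).trans hL
    have h2 := h L ((le_max_left _ _).trans hL)
    refine ⟨by omega, ?_⟩
    rw [pow_one, div_lt_div_iff₀ (by positivity) (by positivity)] at h2
    have h3 : L * (2 ^ c * (n + 2 * π * k + 1)) < 1 * 2 ^ L := by exact_mod_cast h2
    have e : 2 ^ L = 2 ^ (L - c) * 2 ^ c := by rw [← pow_add]; congr 1; omega
    have h4 : L * (n + 2 * π * k + 1) < 2 ^ (L - c) := by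
      have h5 : (L * (n + 2 * π * k + 1)) * 2 ^ c < 2 ^ (L - c) * 2 ^ c := by
        rw [← e]; linarith
      exact Nat.lt_of_mul_lt_mul_right h5
    have hL1 : 1 ≤ L := by omega
    have h6 : n + (L + 1) * π * k ≤ L * (n + 2 * π * k + 1) := by
      have h7 : n ≤ L * n := Nat.le_mul_of_pos_left _ hL1
      have h8 : (L + 1) * π * k ≤ L * (2 * π * k) := by
        calc (L + 1) * π * k ≤ (L + L) * π * k := by gcongr
          _ = L * (2 * π * k) := by ring
      nlinarith
    omega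
  refine ⟨k, L0, hk1, fun L hL => ?_⟩
  obtain ⟨hcL, hLL⟩ := hL0 L hL
  by_contra hcon
  push Not at hcon
  set m := 2 ^ n with hm
  have hm0 : 0 < m := by positivity
  set M := m ^ π with hMdef
  have hM1 : 1 ≤ M := Nat.one_le_pow _ _ hm0
  set s := 2 ^ (L - c) with hs
  have hN : Fintype.card (V L) = 2 ^ L := card_V L
  -- the blocks
  let Bk : (Fin k → Fin π → Option (V L)) → Fin k × V L → Finset (V L) := fun t x =>
    (univ.filter (fun v => ∃ r, t x.1 r = some v)).image (fun v => v + x.2)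
  let Ω : Finset (Fin m × (Fin k → Fin π → Option (V L)) × Finset (V L)) :=
    (univ ×ˢ (univ ×ˢ powersetCard s univ)).filter (fun x =>
      (∀ y ∈ (univ : Finset (Fin k)) ×ˢ x.2.2, (Bk x.2.1 y).card ≤ π) ∧
      ∀ y ∈ (univ : Finset (Fin k)) ×ˢ x.2.2, ∀ y' ∈ (univ : Finset (Fin k)) ×ˢ x.2.2, y ≠ y' →
        Disjoint (Bk x.2.1 y) (Bk x.2.1 y'))
  let 𝓕 : Fin m × (Fin k → Fin π → Option (V L)) × Finset (V L) → Finset (V L → Fin m) := fun x =>
    univ.filter (fun f => ∀ y ∈ (univ : Finset (Fin k)) ×ˢ x.2.2, ¬ ∀ v ∈ Bk x.2.1 y, f v = x.1)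
  have hcover : (univ : Finset (V L → Fin m)) ⊆ Ω.biUnion 𝓕 := by
    intro f _
    obtain ⟨j, hj⟩ := exists_color hm0 f
    rw [hN] at hj
    obtain ⟨F, hF1, hF2, hF3⟩ := hcon (univ.filter (fun x => f x = j)) hj
    set W := univ.filter (fun h : V L => ∀ i, ¬ ∀ v ∈ F i, v + h ∈ univ.filter (fun x => f x = j))
      with hW
    replace hF3 : 2 ^ L ≤ W.card * 2 ^ (n + 1) := by
      rw [hW]
      simpa only [not_forall, exists_prop] using hF3
    let D := univ.biUnion F
    have hDc : D.card ≤ 2 ^ (a + π) := by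
      calc D.card ≤ ∑ i, (F i).card := card_biUnion_le
        _ ≤ ∑ i : Fin k, π := sum_le_sum fun i _ => hF1 i
        _ = k * π := by simp
        _ ≤ 2 ^ a * 2 ^ π := Nat.mul_le_mul_left _ Nat.lt_two_pow_self.le
        _ = 2 ^ (a + π) := by rw [pow_add]
    have hDne : D.Nonempty := by
      by_contra hD
      rw [not_nonempty_iff_eq_empty] at hD
      have : W = ∅ := by
        rw [hW, filter_eq_empty_iff]
        intro h _ hall
        refine hall ⟨0, hk1⟩ fun v hv => ?_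
        have : v ∈ D := mem_biUnion.2 ⟨_, mem_univ _, hv⟩
        rw [hD] at this
        simp at this
      rw [this] at hF3
      simp at hF3
    obtain ⟨S0, hS0, hS1, hS2⟩ := greedy_indep D W hDne
    have hcard : s ≤ S0.card := by
      have h1 : 2 ^ L ≤ S0.card * 2 ^ c := by
        calc 2 ^ L ≤ W.card * 2 ^ (n + 1) := hF3
          _ ≤ (S0.card * (D.card * D.card)) * 2 ^ (n + 1) := Nat.mul_le_mul_right _ hS2
          _ ≤ (S0.card * (2 ^ (a + π) * 2 ^ (a + π))) * 2 ^ (n + 1) := by gcongr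
          _ = S0.card * 2 ^ c := by
            rw [hc, ← pow_add, mul_assoc, ← pow_add]
            congr 2
            ring
      have e : 2 ^ L = s * 2 ^ c := by rw [hs, ← pow_add]; congr 1; omega
      rw [e] at h1
      exact Nat.le_of_mul_le_mul_right h1 (by positivity)
    obtain ⟨S, hSS, hSc⟩ := exists_subset_card_eq hcard
    have henum : ∀ i, ∃ t : Fin π → Option (V L), ∀ v, v ∈ F i ↔ ∃ r, t r = some v :=
      fun i => exists_enum (F i) (hF1 i)
    choose t ht using henum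
    have hFt : ∀ i, (univ.filter (fun v => ∃ r, t i r = some v)) = F i := by
      intro i; ext v; simp [ht i v]
    have hBk : ∀ y, Bk t y = (F y.1).image (fun v => v + y.2) := by
      intro y; simp only [Bk, hFt]
    rw [mem_biUnion]
    refine ⟨(j, t, S), ?_, ?_⟩
    · simp only [Ω, mem_filter, mem_product, mem_univ, true_and, mem_powersetCard, subset_univ,
        hSc]
      refine ⟨fun y _ => ?_, fun y hy y' hy' hne => ?_⟩
      · rw [hBk]; exact card_image_le.trans (hF1 _)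
      · rw [hBk, hBk, Finset.disjoint_left]
        intro x hx hx'
        obtain ⟨v, hv, rfl⟩ := mem_image.1 hx
        obtain ⟨v', hv', he⟩ := mem_image.1 hx'
        by_cases h1 : y.2 = y'.2
        · rw [h1] at he
          have h2 : v' = v := add_right_cancel he
          subst h2
          have h3 : y.1 ≠ y'.1 := fun h => hne (Prod.ext h h1)
          exact Finset.disjoint_left.1 (hF2 _ _ h3) hv hv'
        · exact hS1 y.2 (hSS hy) y'.2 (hSS hy') h1 v (mem_biUnion.2 ⟨_, mem_univ _, hv⟩) v'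
            (mem_biUnion.2 ⟨_, mem_univ _, hv'⟩) he.symm
    · simp only [𝓕, mem_filter, mem_univ, true_and, mem_product]
      intro y hy hall
      have h1 : y.2 ∈ W := hS0 (hSS hy)
      refine (mem_filter.1 h1).2 y.1 fun v hv => ?_
      rw [mem_filter]
      refine ⟨mem_univ _, hall _ ?_⟩
      rw [hBk]
      exact mem_image_of_mem _ hv
  have hcount : ∀ x ∈ Ω, (𝓕 x).card * M ^ (k * s) ≤ (M - 1) ^ (k * s) * m ^ 2 ^ L := by
    intro x hx
    simp only [Ω, mem_filter, mem_product, mem_univ, true_and, mem_powersetCard, subset_univ] at hx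
    obtain ⟨hx1, hx2, hx3⟩ := hx
    have := count_blocks x.1 π ((univ : Finset (Fin k)) ×ˢ x.2.2) (Bk x.2.1)
      (fun y hy y' hy' hne => hx3 y (by simpa using hy) y' (by simpa using hy') hne)
      (fun y hy => hx2 y (by simpa using hy))
    rw [card_product, card_univ, Fintype.card_fin, hx1, hN] at this
    exact this
  have hΩ : Ω.card ≤ 2 ^ (n + (L + 1) * π * k + (c + 2) * s) := by
    calc Ω.card ≤ ((univ : Finset (Fin m)) ×ˢ
          ((univ : Finset (Fin k → Fin π → Option (V L))) ×ˢ powersetCard s univ)).card :=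
          card_filter_le _ _
      _ = m * (((2 ^ L + 1) ^ π) ^ k * (2 ^ L).choose s) := by
        rw [card_product, card_product, card_powersetCard, card_univ, card_univ, card_univ,
          Fintype.card_fin, hN]
        simp only [Fintype.card_fun, Fintype.card_option, Fintype.card_fin, hN]
      _ ≤ 2 ^ n * (((2 ^ (L + 1)) ^ π) ^ k * 2 ^ ((c + 2) * s)) := by
        have h1 : 2 ^ L + 1 ≤ 2 ^ (L + 1) := by
          rw [pow_succ]; have := Nat.one_le_two_pow (n := L); omega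
        have h2 := choose_bound L c hcL
        gcongr
      _ = 2 ^ (n + (L + 1) * π * k + (c + 2) * s) := by
        rw [← pow_mul, ← pow_mul, ← pow_add, ← pow_add]
        congr 1
        ring
  have htot : m ^ 2 ^ L * M ^ (k * s) ≤ Ω.card * ((M - 1) ^ (k * s) * m ^ 2 ^ L) := by
    have h1 : m ^ 2 ^ L = (univ : Finset (V L → Fin m)).card := by
      rw [card_univ, Fintype.card_fun, Fintype.card_fin, hN]
    calc m ^ 2 ^ L * M ^ (k * s) ≤ (∑ x ∈ Ω, (𝓕 x).card) * M ^ (k * s) := by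
          refine Nat.mul_le_mul_right _ ?_
          rw [h1]
          exact (card_le_card hcover).trans card_biUnion_le
      _ = ∑ x ∈ Ω, (𝓕 x).card * M ^ (k * s) := by rw [sum_mul]
      _ ≤ ∑ x ∈ Ω, (M - 1) ^ (k * s) * m ^ 2 ^ L := sum_le_sum hcount
      _ = Ω.card * ((M - 1) ^ (k * s) * m ^ 2 ^ L) := by rw [sum_const, smul_eq_mul]
  have h5 : (M - 1) ^ (k * s) * 2 ^ ((c + 4) * s) ≤ M ^ (k * s) := by
    have := Nat.pow_le_pow_left ha s
    rw [mul_pow, ← pow_mul, ← pow_mul, ← pow_mul] at this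
    exact this
  have hpos : 0 < m ^ 2 ^ L * M ^ (k * s) := by positivity
  have h6 : 2 ^ ((c + 4) * s) ≤ Ω.card := by
    have h7 : (m ^ 2 ^ L * M ^ (k * s)) * 2 ^ ((c + 4) * s) ≤
        (m ^ 2 ^ L * M ^ (k * s)) * Ω.card := by
      calc (m ^ 2 ^ L * M ^ (k * s)) * 2 ^ ((c + 4) * s)
          ≤ (Ω.card * ((M - 1) ^ (k * s) * m ^ 2 ^ L)) * 2 ^ ((c + 4) * s) :=
            Nat.mul_le_mul_right _ htot
        _ = (Ω.card * m ^ 2 ^ L) * ((M - 1) ^ (k * s) * 2 ^ ((c + 4) * s)) := by ring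
        _ ≤ (Ω.card * m ^ 2 ^ L) * M ^ (k * s) := Nat.mul_le_mul_left _ h5
        _ = (m ^ 2 ^ L * M ^ (k * s)) * Ω.card := by ring
    exact Nat.le_of_mul_le_mul_left h7 hpos
  have h8 : (c + 4) * s ≤ n + (L + 1) * π * k + (c + 2) * s :=
    (Nat.pow_le_pow_iff_right (by norm_num)).1 (h6.trans hΩ)
  have h9 : (c + 4) * s = (c + 2) * s + 2 * s := by ring
  omega

end Pool.Agent.D9
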