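import Pool.Agent.Lib.MP_d988c5_lc.RR

/-!
# MP_d988c5_lc : preservation, definitions
-/

namespace Pool.Agent.DN

variable {I : Type} [LinearOrder I]

/-- the data of a step from the base `η` to the base `ζ` (in the iteration up to `β`), below the
condition `u` (see the blueprint, Part 8) -/
structure DCP (η ζ β : I) (t : ℕ → Cond I) (X Y0 X1 : (I → Y) → Sl) (D : Set (Cond I)) (w : ℕ)
    (u : Cond I) (tt rr : ℕ → ℕ → Cond I) (Z Z' W W' : ℕ → (I → Y) → Sl)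
    (DW : (I → Y) → Sl) : Prop where
  tlow : ∀ k j, Low β (tt k j) ∧ tt k j ≤ t k ∧ UD D (tt k j)
  rlow : ∀ k j, Low ζ (rr k j) ∧ Bod u ⊆ BodB (rr k j) η
  rt : ∀ k j j', rr k j ≤ res (tt k j') ζ
  mZ : ∀ k, MSl ζ (Z k) ∧ MSl ζ (Z' k) ∧ Wd w (Z k) ∧ Wd w (Z' k)
  mW : ∀ k, MSl η (W k) ∧ MSl η (W' k) ∧ Wd w (W k) ∧ Wd w (W' k)
  itZ : ∀ k, Itp (tt k) X (Z k) ∧ Itp (tt k) X1 (Z' k)
  itW : ∀ k, Itp (rr k) (Z k) (W k) ∧ Itp (rr k) (Z' k) (W' k)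
  eqW : ∀ k, ∀ z ∈ Bod u, ∀ i < k, W k z i = Y0 z i
  mD : MSl η DW ∧ Wd (w + 1) DW ∧ ∀ k z n, k ≤ n → W k z n ⊆ DW z n

/-- the dense set of the step -/
def DCD (η ζ β : I) (t : ℕ → Cond I) (X Y0 X1 : (I → Y) → Sl) (D : Set (Cond I)) (w : ℕ) :
    Set (Cond I) :=
  {u | Low η u ∧ (Disjoint (Bod u) (AllB η t) ∨ ∃ tt rr Z Z' W W' DW,
    DCP η ζ β t X Y0 X1 D w u tt rr Z Z' W W' DW)}

/-- the data of the step at one coordinate `ζ` (the successor of `ζ` is `β`) -/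
structure DC2P (a ζ β : I) (t : ℕ → Cond I) (X : (I → Y) → Sl) (w : ℕ) (u : Cond I)
    (q : ℕ → Cond I) (X' : (I → Y) → Sl) : Prop where
  qlow : ∀ k, Low β (q k) ∧ q k ≤ t k ∧ Bod u ⊆ BodB (q k) ζ
  mX : MSl ζ X' ∧ Wd (w + 2) X'
  cov : ∀ k, ∀ z ∈ Bod (q k), ∀ n ∈ Br (z a), k ≤ n → X z n ⊆ X' z n

/-- the dense set of the step at one coordinate -/
def DC2D (a ζ β : I) (t : ℕ → Cond I) (X : (I → Y) → Sl) (w : ℕ) : Set (Cond I) :=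
  {u | Low ζ u ∧ (Disjoint (Bod u) (AllB ζ t) ∨ ∃ q X', DC2P a ζ β t X w u q X')}

/-- the conditions `q` below which `X` is covered by a name of the coordinates below `ζ` -/
def RRP (a ζ β : I) (X : (I → Y) → Sl) (w : ℕ) (q : Cond I) (X' : (I → Y) → Sl) : Prop :=
  MSl ζ X' ∧ Wd (w + 2) X' ∧ ∀ z ∈ Bod q, ∀ n ∈ Br (z a), X z n ⊆ X' z n

/-- the dense set belonging to `RRP` -/
def RRD (a ζ β : I) (X : (I → Y) → Sl) (w : ℕ) : Set (Cond I) :=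
  {q | Low β q ∧ ∃ X', RRP a ζ β X w q X'}

/-- the sets of objects which are closed enough for the preservation theorem -/
structure Suit2 (a : I) (M : Set (Ob I)) : Prop where
  suit : Suit M
  decx : ∀ β X n, .o β ∈ M → .x X ∈ M → .d (DecX β X n) ∈ M
  un : ∀ X X' m, .x X ∈ M → .x X' ∈ M → .x (unX X X' m) ∈ M
  seqc : ∀ t k, .s t ∈ M → .c (t k) ∈ M
  seqs : ∀ t m, .s t ∈ M → .s (fun k => t (k + m)) ∈ M
  udw : ∀ D q, .d D ∈ M → .c q ∈ M → UD D q → ∃ S : Set (Cond I), S.Countable ∧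
    (∀ r ∈ S, .c r ∈ M) ∧ S ⊆ D ∧ ∀ z ∈ Bod q, ∃ r ∈ S, z ∈ Bod r
  emp : .x (fun _ _ => ∅) ∈ M
  dcd : ∀ η ζ β t X Y0 X1 D w, .o η ∈ M → .o ζ ∈ M → .o β ∈ M → .s t ∈ M → .x X ∈ M →
    .x Y0 ∈ M → .x X1 ∈ M → .d D ∈ M → .d (DCD η ζ β t X Y0 X1 D w) ∈ M
  dcw : ∀ η ζ β t X Y0 X1 D w u, .o η ∈ M → .o ζ ∈ M → .o β ∈ M → .s t ∈ M → .x X ∈ M →
    .x Y0 ∈ M → .x X1 ∈ M → .d D ∈ M → .c u ∈ M →
    (∃ tt rr Z Z' W W' DW, DCP η ζ β t X Y0 X1 D w u tt rr Z Z' W W' DW) →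
    ∃ tt rr Z Z' W W' DW, DCP η ζ β t X Y0 X1 D w u tt rr Z Z' W W' DW ∧
      (∀ k, .s (tt k) ∈ M ∧ .s (rr k) ∈ M ∧ .x (Z k) ∈ M ∧ .x (Z' k) ∈ M ∧ .x (W k) ∈ M ∧
        .x (W' k) ∈ M) ∧ .x DW ∈ M
  dc2d : ∀ ζ β t X w, .o ζ ∈ M → .o β ∈ M → .s t ∈ M → .x X ∈ M → .d (DC2D a ζ β t X w) ∈ M
  dc2w : ∀ ζ β t X w u, .o ζ ∈ M → .o β ∈ M → .s t ∈ M → .x X ∈ M → .c u ∈ M →
    (∃ q X', DC2P a ζ β t X w u q X') → ∃ q X', DC2P a ζ β t X w u q X' ∧ .s q ∈ M ∧ .x X' ∈ M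
  rrd : ∀ ζ β X w, .o ζ ∈ M → .o β ∈ M → .x X ∈ M → .d (RRD a ζ β X w) ∈ M
  rrw : ∀ ζ β X w q, .o ζ ∈ M → .o β ∈ M → .x X ∈ M → .c q ∈ M →
    (∃ X', RRP a ζ β X w q X') → ∃ X', RRP a ζ β X w q X' ∧ .x X' ∈ M

/-- the slalom `Ss` covers the name `X` at `z`, on the branch of the coordinate `a`, from `m` on -/
def Cv (a : I) (Ss : (I → Y) → Sl) (z : I → Y) (X : (I → Y) → Sl) (m : ℕ) : Prop :=
  ∀ n ∈ Br (z a), m ≤ n → X z n ⊆ Ss z n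

/-- the slalom `Ss` covers all names of `M` -/
def CvM (a : I) (Ss : (I → Y) → Sl) (M : Set (Ob I)) (β : I) (z : I → Y) : Prop :=
  ∀ X, .x X ∈ M → MSl β X → (∃ w, Wd w X) → ∃ m, Cv a Ss z X m

/-- the hypotheses of the preservation lemma at the point `z` -/
structure PLh (a : I) (Ss : (I → Y) → Sl) (M : Set (Ob I)) (η β : I) (z : I → Y)
    (t : ℕ → Cond I) (X Y0 : (I → Y) → Sl) : Prop where
  tM : .s t ∈ M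
  tlow : ∀ k, Low β (t k) ∧ z ∈ BodB (t k) η
  XM : .x X ∈ M ∧ MSl β X ∧ ∃ w, Wd w X
  YM : .x Y0 ∈ M ∧ MSl η Y0
  itp : Itp t X Y0
  gen : Gen M η z
  cvm : CvM a Ss M η z
  cv : Cv a Ss z Y0 0

/-- the preservation lemma for `M`, from the base `η` to `β` -/
def PL (a : I) (Ss : (I → Y) → Sl) (M : Set (Ob I)) (η β : I) : Prop :=
  ∀ E, MS η E → ∀ g : (I → Y) → ℕ, (∀ k, MS η {z | g z = k}) →
  ∀ (t : ℕ → ℕ → Cond I) (X Y0 : ℕ → (I → Y) → Sl),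
    (∀ z ∈ E, PLh a Ss M η β z (t (g z)) (X (g z)) (Y0 (g z))) →
    ∃ c : Cond I, ∀ z ∈ E, Seg c η β z →
      (∃ k, z ∈ Bod (t (g z) k)) ∧ Gen M β z ∧ CvM a Ss M β z ∧ Cv a Ss z (X (g z)) 0

end Pool.Agent.DN
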