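import Pool.Agent.Lib.MP_d988c5_lc.Names
import Pool.Agent.Lib.MP_d988c5_lc.Hom

/-!
# MP_d988c5_lc : rapid reading at one coordinate
-/

namespace Pool.Agent.DN

/-- vectors of values of the first `k` entries of a slalom -/
private abbrev Vec (k : ℕ) : Type := (i : Fin k) → Finset (VV i)

private theorem card_Vec (k : ℕ) : Fintype.card (Vec k) = cols k := by
  rw [Fintype.card_pi]
  simp only [card_finset_VV]
  unfold cols
  rw [Finset.prod_range]

/-- the code of a vector -/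
private noncomputable def cd (k : ℕ) (x : Vec k) : ℕ := (Fintype.equivFin (Vec k) x).val

private theorem cd_lt (k : ℕ) (x : Vec k) : cd k x < cols k :=
  lt_of_lt_of_eq (Fintype.equivFin (Vec k) x).isLt (card_Vec k)

open Classical in
/-- the `n`-th entry of the vector with the code `v` -/
private noncomputable def ent (k v n : ℕ) : Finset (VV n) :=
  if h : ∃ x : Vec k, cd k x = v ∧ n < k then h.choose ⟨n, h.choose_spec.2⟩ else ∅

private theorem ent_cd (k : ℕ) (x : Vec k) (n : ℕ) (hn : n < k) :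
    ent k (cd k x) n = x ⟨n, hn⟩ := by
  have h : ∃ x' : Vec k, cd k x' = cd k x ∧ n < k := ⟨x, rfl, hn⟩
  unfold ent
  rw [dif_pos h]
  have h1 : h.choose = x := by
    have := h.choose_spec.1
    unfold cd at this
    exact (Fintype.equivFin (Vec k)).injective (Fin.ext this)
  exact congrFun h1 ⟨n, hn⟩

variable {I : Type} [LinearOrder I]

private theorem pt {α β : I} (hβ : β ⋖ α) {r : Cond I} (hr : Low α r) {z z' : I → Y}
    (h1 : z ∈ BodB r β) (h2 : ∀ ξ < β, z' ξ = z ξ) {T1 : Set Node} {m : ℕ}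
    (h3 : ∀ n, nd (z' β) n ∈ T1) (h4 : ∀ τ ∈ T1, nd (z' β) m <:+ τ → τ ∈ r.C β z) :
    z' ∈ Bod r := by
  intro ξ n
  rcases lt_trichotomy ξ β with h | h | h
  · rw [h2 ξ h, C_dep r ξ fun η hη => h2 η (hη.trans h)]
    exact h1 ξ h n
  · subst h
    rw [C_dep r ξ h2]
    have h5 : nd (z' ξ) (max m n) ∈ r.C ξ z := h4 _ (h3 _) (nd_suffix _ (le_max_left _ _))
    exact (r.pos ξ z).closed' (nd_suffix _ (le_max_right _ _)) h5
  · have h5 : α ≤ ξ := not_lt.1 fun h6 => hβ.2 h h6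
    rw [hr ξ h5]
    exact vd_nd _ _

variable [WellFoundedLT I] [OrderBot I]

/-- rapid reading at the coordinate `β` over generic points: the `n`-th entry of `X` is a function
of the coordinates below `β` and of the state of the coordinate `β` at time `n + 1` -/
theorem rapid {M : Set (Ob I)} (hM : Suit M) {α β : I} (hβ : β ⋖ α) (hα : .o α ∈ M)
    {E : Set (I → Y)} (hE : MS β E) (hg : ∀ z ∈ E, Gen M β z)
    {p : (I → Y) → Cond I} (mp : ∀ r, MS β {z | z ∈ E ∧ p z = r})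
    (hp : ∀ z ∈ E, .c (p z) ∈ M ∧ Low α (p z) ∧ z ∈ BodB (p z) β)
    {σ0 : (I → Y) → Node} (mσ : ∀ σ, MS β {z | σ0 z = σ})
    (hσ : ∀ z ∈ E, σ0 z ∈ (p z).C β z ∧ lev 2 ((p z).C β z) (σ0 z))
    {X : (I → Y) → Sl} (hX : MSl α X) (hXM : ∀ n, .d (DecX α X n) ∈ M) :
    ∃ T : (I → Y) → Set Node, (∀ σ, MS β {z | σ ∈ T z}) ∧ (∀ z, Pos (T z)) ∧
      ∃ X' : (I → Y) → Node → Sl, (∀ τ n (s : Finset (VV n)), MS β {z | X' z τ n = s}) ∧
      ∀ z ∈ E, T z ⊆ (p z).C β z ∧ σ0 z ∈ T z ∧ (∀ τ ∈ T z, τ <:+ σ0 z ∨ σ0 z <:+ τ) ∧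
        ∀ z', (∀ ξ < β, z' ξ = z ξ) → (∀ n, nd (z' β) n ∈ T z) →
          z' ∈ Bod (p z) ∧ Gen M α z' ∧
          ∀ n k, IsSt (n + 1) (nd (z' β) k) → X z' n = X' z (nd (z' β) k) n := by
  classical
  obtain ⟨T1, mT1, hT1, hz1⟩ := scl hM hβ hα (cov β) (dec β) hE hg mp hp mσ 1 hσ
  obtain ⟨e, he, he'⟩ := hM.enum
  -- `W z τ n i a` : the condition `e n` decides at `τ` that the `i`-th entry is `a`
  let W : (I → Y) → Node → ℕ → (i : ℕ) → Finset (VV i) → Prop := fun z τ n i a =>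
    z ∈ BodB (e n) β ∧ (∀ τ', τ' ∈ T1 z → τ <:+ τ' → τ' ∈ (e n).C β z) ∧ Low α (e n) ∧
      ∀ z'' ∈ Bod (e n), X z'' i = a
  have mW : ∀ τ n i a, MS β {z | W z τ n i a} := fun τ n i a =>
    (BodB_ms _ _).and ((MS.all fun τ' => (mT1 τ').imp (MS.imp (MS.const β (τ <:+ τ'))
      ((e n).meas β τ'))).and ((MS.const _ _).and (MS.const _ _)))
  let Q : (I → Y) → Node → Node → ℕ → Prop := fun z ρ τ v =>
    ∃ x : Vec (ix ρ), v = cd (ix ρ) x ∧ ∀ i : Fin (ix ρ), ∃ n, W z τ n i (x i)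
  have mQ : ∀ ρ τ v, MS β {z | Q z ρ τ v} := fun ρ τ v =>
    MS.ex fun x => (MS.const _ _).and (MS.all fun i => MS.ex fun n => mW τ n i (x i))
  -- the value at a point
  have hWval : ∀ z τ n i a, W z τ n i a → ∀ z' : I → Y, (∀ ξ < β, z' ξ = z ξ) →
      (∀ n, nd (z' β) n ∈ T1 z) → (∃ m, τ = nd (z' β) m) → X z' i = a := by
    rintro z τ n i a ⟨a1, a2, a3, a4⟩ z' b1 b2 ⟨m, rfl⟩
    exact a4 z' (pt hβ a3 a1 b1 b2 a2)
  have hbar : ∀ z ∈ E, ∀ ρ, ∀ y : Y, (∀ n, nd y n ∈ T1 z) → ∃ n v, Q z ρ (nd y n) v := by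
    intro z hz ρ y hy
    have h1 : ∀ i : Fin (ix ρ), ∃ m n, ∃ a : Finset (VV i), W z (nd y m) n i a := by
      intro i
      obtain ⟨m, r, b1, b2, b3, b4, b5⟩ := (hz1 z hz).2.2.2.2 (DecX α X i) (hXM i)
        (DecX_dense hX i) y hy
      obtain ⟨n, rfl⟩ := he' r b1
      obtain ⟨b6, s, b7⟩ := b2
      exact ⟨m, n, s, b4, fun τ' h h' => b5 τ' h h', b6, b7⟩
    choose m n a h1 using h1
    refine ⟨Finset.univ.sup m, cd (ix ρ) a, a, rfl, fun i => ⟨n i, ?_⟩⟩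
    obtain ⟨c1, c2, c3, c4⟩ := h1 i
    exact ⟨c1, fun τ' h h' => c2 τ' h ((nd_suffix y (Finset.le_sup (Finset.mem_univ i))).trans h'),
      c3, c4⟩
  obtain ⟨T, mT, hT, V, mV, hV⟩ := hom hE mT1 (fun z _ => hT1 z) mσ
    (fun z hz => ⟨(hz1 z hz).2.1, (hz1 z hz).2.2.1, (hz1 z hz).2.2.2.1⟩) Q mQ
    (by
      rintro z hz ρ τ v ⟨x, rfl, -⟩
      exact cd_lt _ _)
    (by
      rintro z hz ρ c τ v ⟨x, rfl, h⟩ _
      refine ⟨x, rfl, fun i => ?_⟩
      obtain ⟨n, a1, a2, a3, a4⟩ := h i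
      exact ⟨n, a1, fun τ' h h' => a2 τ' h ((List.suffix_cons _ _).trans h'), a3, a4⟩)
    (by
      rintro z hz ρ τ hτ v v' ⟨x, rfl, h⟩ ⟨x', rfl, h'⟩
      obtain ⟨y, hy, hyτ⟩ := (hT1 z).branch' hτ
      congr 1
      funext i
      obtain ⟨n, hn⟩ := h i
      obtain ⟨n', hn'⟩ := h' i
      have b1 : ∀ ξ < β, Function.update z β y ξ = z ξ := fun ξ hξ =>
        Function.update_of_ne hξ.ne _ _
      have b2 : ∀ n, nd (Function.update z β y β) n ∈ T1 z := by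
        intro n; rw [Function.update_self]; exact hy n
      have b3 : ∃ m, τ = nd (Function.update z β y β) m := by
        rw [Function.update_self]; exact ⟨_, hyτ.symm⟩
      rw [← hWval z τ n i _ hn _ b1 b2 b3, ← hWval z τ n' i _ hn' _ b1 b2 b3])
    hbar
  refine ⟨T, mT, hT, fun z τ n => if σ0 z <:+ τ then ent (ix τ) (V z τ) n
    else ent (ix (σ0 z)) (V z (σ0 z)) n, ?_, ?_⟩
  · intro τ n s
    have : {z | (if σ0 z <:+ τ then ent (ix τ) (V z τ) n
        else ent (ix (σ0 z)) (V z (σ0 z)) n) = s} =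
        {z | ∃ (σ : Node) (v v' : ℕ), (σ0 z = σ ∧ V z τ = v ∧ V z σ = v') ∧
          (if σ <:+ τ then ent (ix τ) v n else ent (ix σ) v' n) = s} := by
      ext z
      constructor
      · intro h
        exact ⟨σ0 z, V z τ, V z (σ0 z), ⟨rfl, rfl, rfl⟩, h⟩
      · rintro ⟨σ, v, v', ⟨rfl, rfl, rfl⟩, h⟩
        exact h
    rw [this]
    exact MS.ex fun σ => MS.ex fun v => MS.ex fun v' =>
      ((mσ σ).and ((mV τ v).and (mV σ v'))).and (MS.const _ _)
  · intro z hz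
    obtain ⟨a1, a2, a3, a4, a5⟩ := hz1 z hz
    obtain ⟨b1, b2, b3⟩ := hV z hz
    refine ⟨b1.trans a1, b2, fun τ hτ => a3 τ (b1 hτ), ?_⟩
    intro z' h1 h2
    refine ⟨?_, ?_, ?_⟩
    · exact pt hβ (hp z hz).2.1 (hp z hz).2.2 h1 (T1 := T1 z) (m := 0) (fun n => b1 (h2 n))
        fun τ hτ _ => a1 hτ
    · intro D hD hd
      obtain ⟨m, r, c1, c2, c3, c4, c5⟩ := a5 D hD hd (z' β) fun n => b1 (h2 n)
      exact ⟨r, c1, c2, pt hβ (hd.sub _ c2) c4 h1 (T1 := T1 z) (m := m) (fun n => b1 (h2 n)) c5⟩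
    · -- the value
      have key : ∀ (ρ : Node) (k n : ℕ), ρ = nd (z' β) k → σ0 z <:+ ρ → n < ix ρ →
          X z' n = ent (ix ρ) (V z ρ) n := by
        intro ρ k n hρ hσρ hn
        obtain ⟨m, v, hQ⟩ := hbar z hz ρ (z' β) fun n => b1 (h2 n)
        have hρT : ρ ∈ T z := by rw [hρ]; exact h2 k
        have hy : nd (z' β) ρ.length = ρ := by rw [hρ, nd_length]
        have hv := b3 ρ hρT hσρ (z' β) h2 hy m v hQ
        obtain ⟨x, hx, hW⟩ := hQ
        obtain ⟨n', hn'⟩ := hW ⟨n, hn⟩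
        rw [hWval z _ n' n _ hn' z' h1 (fun n => b1 (h2 n)) ⟨m, rfl⟩, ← hv, hx, ent_cd _ _ _ hn]
      intro n k hst
      have hn : n < ix (nd (z' β) k) := hst.1
      by_cases hσ' : σ0 z <:+ nd (z' β) k
      · simp only [hσ', if_true]
        exact key _ k n rfl hσ' hn
      · simp only [hσ', if_false]
        have h3 : nd (z' β) k <:+ σ0 z := by
          rcases a3 _ (b1 (h2 k)) with h | h
          · exact h
          · exact absurd h hσ'
        have h4 : nd (z' β) (σ0 z).length = σ0 z := by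
          rcases a3 _ (b1 (h2 (σ0 z).length)) with h | h
          · exact h.eq_of_length (by simp)
          · exact (h.eq_of_length (by simp)).symm
        exact key (σ0 z) _ n h4.symm List.suffix_rfl (lt_of_lt_of_le hn (ix_le_of_suffix h3))

end Pool.Agent.DN
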