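import Pool.Agent.Lib.MP_d988c5_lc.Front

/-!
# MP_d988c5_lc : the fusion at one coordinate
-/

namespace Pool.Agent.DN

variable {I : Type} [LinearOrder I]

/-! ### the automaton -/

/-- the data of the fusion: enumerations of the conditions and of the dense sets, the level, the
trunk, and the index of the first condition -/
structure Fu (I : Type) [LinearOrder I] where
  M : Set (Ob I)
  β : I
  e : ℕ → Cond I
  dd : ℕ → Set (Cond I)
  n0 : ℕ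
  σ0 : (I → Y) → Node
  K0 : (I → Y) → ℕ → Prop

namespace Fu

variable (F : Fu I)

/-- good nodes in the state `(s, k)` -/
def G (s k : ℕ) (z : I → Y) (j : ℕ) : Set Node :=
  Gd {r' | .c r' ∈ F.M ∧ r' ≤ F.e k ∧ r' ∈ F.dd s} F.β (F.e k) (F.n0 + s) (F.n0 + s + 2) z j

/-- candidates for the next condition -/
def Cand (z : I → Y) (ρ : Node) (s k k' : ℕ) : Prop :=
  F.e k' ≤ F.e k ∧ F.e k' ∈ F.dd s ∧ z ∈ BodB (F.e k') F.β ∧ ρ ∈ (F.e k').C F.β z ∧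
    lev (F.n0 + s + 2) ((F.e k').C F.β z) ρ

/-- the transitions -/
def Tr (z : I → Y) (ρ : Node) (s k c s' k' : ℕ) : Prop :=
  (ρ ∈ F.G s k z 0 ∧ s' = s + 1 ∧ (F.Cand z ρ s k k' ∧ ∀ i, i < k' → ¬ F.Cand z ρ s k i) ∧
      c :: ρ ∈ (F.e k').C F.β z) ∨
    (ρ ∉ F.G s k z 0 ∧ s' = s ∧ k' = k ∧
      ∃ j, ρ ∉ F.G s k z j ∧ ρ ∈ F.G s k z (j + 1) ∧ c :: ρ ∈ F.G s k z j)

/-- the first index -/
def Fi (z : I → Y) (k : ℕ) : Prop := F.K0 z k ∧ ∀ i, i < k → ¬ F.K0 z i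

/-- the states: `ρ` is a node above the trunk with the state `(s, k)` -/
def St (z : I → Y) : Node → ℕ → ℕ → Prop
  | [], s, k => F.σ0 z = [] ∧ s = 0 ∧ F.Fi z k
  | c :: ρ, s, k => (F.σ0 z = c :: ρ ∧ s = 0 ∧ F.Fi z k) ∨
      ∃ s' k', St z ρ s' k' ∧ F.Tr z ρ s' k' c s k

/-- the tree -/
def T (z : I → Y) : Set Node := {τ | τ <:+ F.σ0 z ∨ ∃ s k, F.St z τ s k}

/-- the assumptions at a point -/
structure Ok (F : Fu I) (α : I) (z : I → Y) (p : Cond I) : Prop where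
  surj : ∀ q, .c q ∈ F.M → ∃ n, F.e n = q
  dn : ∀ s, Dn α (F.dd s)
  K0 : ∃ k, F.K0 z k
  K0p : ∀ k, F.K0 z k → F.e k = p
  bod : z ∈ BodB p F.β
  low : Low α p
  mem : F.σ0 z ∈ p.C F.β z
  lv : lev (F.n0 + 1) (p.C F.β z) (F.σ0 z)
  fr : ∀ k, Low α (F.e k) → ∀ s ρ, z ∈ FrA F.β (F.e k) (F.n0 + s) ρ → ∃ j, ρ ∈ F.G s k z j

variable {F} {α : I} {z : I → Y} {p : Cond I}

theorem St.suf : ∀ {ρ : Node} {s k : ℕ}, F.St z ρ s k → F.σ0 z <:+ ρ := by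
  intro ρ
  induction ρ with
  | nil => rintro s k ⟨h, -⟩; rw [h]
  | cons c ρ ih =>
    rintro s k (⟨h, -⟩ | ⟨s', k', h, -⟩)
    · rw [h]
    · exact (ih h).trans (List.suffix_cons _ _)

theorem Fi.uniq {k k' : ℕ} (h : F.Fi z k) (h' : F.Fi z k') : k = k' := by
  rcases lt_trichotomy k k' with h1 | h1 | h1
  · exact absurd h.1 (h'.2 _ h1)
  · exact h1
  · exact absurd h'.1 (h.2 _ h1)

theorem Tr.uniq {ρ : Node} {s k c s' k' s'' k'' : ℕ} (h : F.Tr z ρ s k c s' k')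
    (h' : F.Tr z ρ s k c s'' k'') : s' = s'' ∧ k' = k'' := by
  rcases h with ⟨a1, a2, a3, -⟩ | ⟨a1, a2, a3, -⟩ <;>
  rcases h' with ⟨b1, b2, b3, -⟩ | ⟨b1, b2, b3, -⟩
  · refine ⟨a2.trans b2.symm, ?_⟩
    rcases lt_trichotomy k' k'' with h1 | h1 | h1
    · exact absurd a3.1 (b3.2 _ h1)
    · exact h1
    · exact absurd b3.1 (a3.2 _ h1)
  · exact absurd a1 b1
  · exact absurd b1 a1
  · exact ⟨a2.trans b2.symm, a3.trans b3.symm⟩

/-- a node with a state is not a proper initial segment of the trunk -/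
theorem St.not_cons {ρ : Node} {s k c : ℕ} (h : F.St z ρ s k) : F.σ0 z ≠ c :: ρ := by
  intro h1
  have h2 := h.suf.length_le
  rw [h1] at h2
  simp at h2

theorem St.uniq : ∀ {ρ : Node} {s k s' k' : ℕ}, F.St z ρ s k → F.St z ρ s' k' →
    s = s' ∧ k = k' := by
  intro ρ
  induction ρ with
  | nil =>
    rintro s k s' k' ⟨-, h1, h2⟩ ⟨-, h1', h2'⟩
    exact ⟨h1.trans h1'.symm, h2.uniq h2'⟩
  | cons c ρ ih =>
    rintro s k s' k' (⟨h0, h1, h2⟩ | ⟨s1, k1, h1, h2⟩) (⟨h0', h1', h2'⟩ | ⟨s1', k1', h1', h2'⟩)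
    · exact ⟨h1.trans h1'.symm, h2.uniq h2'⟩
    · exact absurd h0 h1'.not_cons
    · exact absurd h0' h1.not_cons
    · obtain ⟨rfl, rfl⟩ := ih h1 h1'
      exact h2.uniq h2'

/-- the state of a child comes from the state of the node -/
theorem St.tr {ρ : Node} {s k c s' k' : ℕ} (h : F.St z ρ s k) (h' : F.St z (c :: ρ) s' k') :
    F.Tr z ρ s k c s' k' := by
  rcases h' with ⟨h0, -⟩ | ⟨s1, k1, h1, h2⟩
  · exact absurd h0 h.not_cons
  · obtain ⟨rfl, rfl⟩ := h.uniq h1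
    exact h2

theorem St.child {ρ : Node} {s k c s' k' : ℕ} (h : F.St z ρ s k) (h' : F.Tr z ρ s k c s' k') :
    F.St z (c :: ρ) s' k' := Or.inr ⟨s, k, h, h'⟩

/-- stages increase, conditions decrease -/
theorem Tr.le {ρ : Node} {s k c s' k' : ℕ} (h : F.Tr z ρ s k c s' k') :
    s ≤ s' ∧ F.e k' ≤ F.e k := by
  rcases h with ⟨-, a2, a3, -⟩ | ⟨-, a2, a3, -⟩
  · exact ⟨by omega, a3.1.1⟩
  · exact ⟨a2.ge, by rw [a3]⟩

/-- the invariants of a state -/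
theorem St.inv (hF : Ok F α z p) : ∀ {ρ : Node} {s k : ℕ}, F.St z ρ s k →
    z ∈ BodB (F.e k) F.β ∧ ρ ∈ (F.e k).C F.β z ∧ lev (F.n0 + s + 1) ((F.e k).C F.β z) ρ ∧
      Low α (F.e k) ∧ F.e k ≤ p := by
  have key : ∀ k, F.Fi z k → z ∈ BodB (F.e k) F.β ∧ F.σ0 z ∈ (F.e k).C F.β z ∧
      lev (F.n0 + 0 + 1) ((F.e k).C F.β z) (F.σ0 z) ∧ Low α (F.e k) ∧ F.e k ≤ p := by
    intro k hk
    rw [hF.K0p k hk.1]
    exact ⟨hF.bod, hF.mem, hF.lv, hF.low, le_rfl⟩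
  intro ρ
  induction ρ with
  | nil =>
    rintro s k ⟨h0, rfl, h2⟩
    have := key k h2
    rwa [h0] at this
  | cons c ρ ih =>
    rintro s k (⟨h0, rfl, h2⟩ | ⟨s1, k1, h1, h2⟩)
    · have := key k h2
      rwa [h0] at this
    · obtain ⟨b1, b2, b3, b4, b5⟩ := ih h1
      rcases h2 with ⟨a1, rfl, a3, a4⟩ | ⟨a1, rfl, rfl, j, a4, a5, a6⟩
      · refine ⟨a3.1.2.2.1, a4, ?_, (hF.dn _).sub _ a3.1.2.1, le_trans a3.1.1 b5⟩
        exact a3.1.2.2.2.2.mono_node (List.suffix_cons _ _)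
      · exact ⟨b1, Gd_sub _ _ _ _ _ _ _ a6, b3.mono_node (List.suffix_cons _ _), b4, b5⟩

theorem G_le {s k : ℕ} {i j : ℕ} (h : i ≤ j) : F.G s k z i ⊆ F.G s k z j :=
  Gd_le _ _ _ _ _ _ h

/-- the children of a node with a state -/
theorem St.big (hF : Ok F α z p) {ρ : Node} {s k : ℕ} (h : F.St z ρ s k) :
    bgn (F.n0 + s) ρ {c | ∃ s' k', F.St z (c :: ρ) s' k'} := by
  classical
  obtain ⟨b1, b2, b3, b4, b5⟩ := h.inv hF
  have hex : ∃ j, ρ ∈ F.G s k z j := hF.fr k b4 s ρ ⟨b1, b2, b3⟩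
  have h1 := Nat.find_spec hex
  have h2 : ∀ i, i < Nat.find hex → ρ ∉ F.G s k z i := fun i hi => Nat.find_min hex hi
  rcases hj : Nat.find hex with _ | j
  · rw [hj] at h1
    have h3 : ∃ k', F.Cand z ρ s k k' := by
      obtain ⟨-, r', ⟨c1, c2, c3⟩, c4, c5, c6⟩ := h1
      obtain ⟨k', rfl⟩ := hF.surj r' c1
      exact ⟨k', c2, c3, c4, c5, c6⟩
    have h4 := Nat.find_spec h3
    have h5 : ∀ i, i < Nat.find h3 → ¬ F.Cand z ρ s k i := fun i hi => Nat.find_min h3 hi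
    have h6 := h4.2.2.2.2 ρ h4.2.2.2.1 List.suffix_rfl
    refine (h6.anti (by omega)).mono fun c hc => ?_
    exact ⟨_, _, h.child (Or.inl ⟨h1, rfl, ⟨h4, h5⟩, hc⟩)⟩
  · rw [hj] at h1 h2
    have h3 : ρ ∉ F.G s k z j := h2 j (by omega)
    have h4 : bgn (F.n0 + s) ρ {c | c :: ρ ∈ F.G s k z j} := by
      rcases h1 with h1 | h1
      · exact absurd h1 h3
      · exact h1.2
    refine h4.mono fun c hc => ?_
    exact ⟨_, _, h.child (Or.inr ⟨h2 0 (by omega), rfl, rfl, j, h3, h1, hc⟩)⟩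

/-- the trunk has a state -/
theorem Ok.start (hF : Ok F α z p) : ∃ k, F.St z (F.σ0 z) 0 k := by
  classical
  refine ⟨Nat.find hF.K0, ?_⟩
  have h : F.Fi z (Nat.find hF.K0) :=
    ⟨Nat.find_spec hF.K0, fun i hi => Nat.find_min hF.K0 hi⟩
  rcases e : F.σ0 z with _ | ⟨c, ρ⟩
  · exact ⟨e, rfl, h⟩
  · exact Or.inl ⟨e, rfl, h⟩

theorem mem_T_of_St {τ : Node} {s k : ℕ} (h : F.St z τ s k) : τ ∈ F.T z := Or.inr ⟨s, k, h⟩

theorem T_closed : ∀ c σ, c :: σ ∈ F.T z → σ ∈ F.T z := by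
  rintro c σ (h | ⟨s, k, h⟩)
  · exact Or.inl ((List.suffix_cons _ _).trans h)
  · rcases h with ⟨h0, -⟩ | ⟨s', k', h1, -⟩
    · left
      rw [h0]
      exact List.suffix_cons _ _
    · exact Or.inr ⟨s', k', h1⟩

theorem T_comp {τ : Node} (h : τ ∈ F.T z) : τ <:+ F.σ0 z ∨ F.σ0 z <:+ τ := by
  rcases h with h | ⟨s, k, h⟩
  · exact Or.inl h
  · exact Or.inr h.suf

/-- the nodes of the tree above the trunk have a state -/
theorem T_st (hF : Ok F α z p) {τ : Node} (h : τ ∈ F.T z) (h' : F.σ0 z <:+ τ) :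
    ∃ s k, F.St z τ s k := by
  rcases h with h | h
  · obtain ⟨k, hk⟩ := hF.start
    have : F.σ0 z = τ := h'.eq_of_length (le_antisymm h'.length_le h.length_le)
    rw [← this]
    exact ⟨0, k, hk⟩
  · exact h

theorem T_ful (hF : Ok F α z p) {τ : Node} (h : τ ∈ F.T z) : Vd τ := by
  rcases h with h | ⟨s, k, h⟩
  · exact (p.pos F.β z).ful _ ((p.pos F.β z).closed' h hF.mem)
  · obtain ⟨-, b2, -⟩ := h.inv hF
    exact ((F.e k).pos F.β z).ful _ b2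

theorem T_next (hF : Ok F α z p) {τ : Node} (h : τ ∈ F.T z) : ∃ c, c :: τ ∈ F.T z := by
  have key : ∀ s k, F.St z τ s k → ∃ c, c :: τ ∈ F.T z := by
    intro s k h1
    obtain ⟨c, ⟨s', k', hc⟩, -⟩ := (h1.big hF).nonempty
    exact ⟨c, mem_T_of_St hc⟩
  rcases h with h | ⟨s, k, h⟩
  · rcases eq_or_ne τ (F.σ0 z) with he | hne
    · obtain ⟨k, hk⟩ := hF.start
      rw [← he] at hk
      exact key 0 k hk
    · obtain ⟨l, hl⟩ := h
      rcases List.eq_nil_or_concat l with rfl | ⟨l', c, rfl⟩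
      · exact absurd hl hne
      · have e : l' ++ (c :: τ) = F.σ0 z := by rw [← hl]; simp
        exact ⟨c, Or.inl ⟨l', e⟩⟩
  · exact key s k h

/-- all nodes above the trunk are big -/
theorem T_lev (hF : Ok F α z p) : lev F.n0 (F.T z) (F.σ0 z) := by
  intro τ hτ hσ
  obtain ⟨s, k, h⟩ := T_st hF hτ hσ
  refine ((h.big hF).anti (by omega)).mono ?_
  rintro c ⟨s', k', hc⟩
  exact mem_T_of_St hc

/-! ### branches -/

theorem branch_start {y : Y} (hy : ∀ n, nd y n ∈ F.T z) :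
    nd y (F.σ0 z).length = F.σ0 z := by
  rcases T_comp (hy (F.σ0 z).length) with h | h
  · exact h.eq_of_length (by simp)
  · exact (h.eq_of_length (by simp)).symm

/-- a node of the branch with a state is followed by a node with a state -/
theorem branch_next (hF : Ok F α z p) {y : Y} (hy : ∀ n, nd y n ∈ F.T z) {n s k : ℕ}
    (h : F.St z (nd y n) s k) :
    ∃ s' k', F.St z (nd y (n + 1)) s' k' ∧
      F.Tr z (nd y n) s k (y n % (dat (ix (nd y n))).kap) s' k' := by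
  have h1 : F.σ0 z <:+ nd y (n + 1) := h.suf.trans (nd_suffix y (Nat.le_succ n))
  obtain ⟨s', k', h2⟩ := T_st hF (hy (n + 1)) h1
  refine ⟨s', k', h2, ?_⟩
  rw [nd_succ] at h2
  exact h.tr h2

/-- there is a switch -/
theorem exists_switch (hF : Ok F α z p) {y : Y} (hy : ∀ n, nd y n ∈ F.T z) (j : ℕ) :
    ∀ {n s k : ℕ}, F.St z (nd y n) s k → nd y n ∈ F.G s k z j →
      ∃ m, F.St z (nd y m) s k ∧ nd y m ∈ F.G s k z 0 := by
  induction j with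
  | zero => exact fun h1 h2 => ⟨_, h1, h2⟩
  | succ j ih =>
    intro n s k h1 h2
    by_cases h3 : nd y n ∈ F.G s k z j
    · exact ih h1 h3
    · obtain ⟨s', k', h4, h5⟩ := branch_next hF hy h1
      have h0 : nd y n ∉ F.G s k z 0 := fun h => h3 (G_le (Nat.zero_le _) h)
      rcases h5 with ⟨a1, -⟩ | ⟨-, rfl, rfl, i, a4, a5, a6⟩
      · exact absurd a1 h0
      · have hi : i ≤ j := by
          by_contra hc
          push Not at hc
          exact a4 (G_le (by omega) h2)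
        refine ih h4 ?_
        rw [nd_succ]
        exact G_le hi a6

/-- on every branch there is a switch in every stage -/
theorem exists_stage (hF : Ok F α z p) {y : Y} (hy : ∀ n, nd y n ∈ F.T z) (s : ℕ) :
    ∃ m k, F.St z (nd y m) s k ∧ nd y m ∈ F.G s k z 0 := by
  have key : ∀ {n s k : ℕ}, F.St z (nd y n) s k →
      ∃ m k, F.St z (nd y m) s k ∧ nd y m ∈ F.G s k z 0 := by
    intro n s k h
    obtain ⟨b1, b2, b3, b4, -⟩ := h.inv hF
    obtain ⟨j, hj⟩ := hF.fr k b4 s _ ⟨b1, b2, b3⟩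
    obtain ⟨m, h1, h2⟩ := exists_switch hF hy j h hj
    exact ⟨m, k, h1, h2⟩
  induction s with
  | zero =>
    obtain ⟨k, hk⟩ := hF.start
    rw [← branch_start hy] at hk
    exact key hk
  | succ s ih =>
    obtain ⟨m, k, h1, h2⟩ := ih
    obtain ⟨s', k', h4, h5⟩ := branch_next hF hy h1
    rcases h5 with ⟨-, rfl, -⟩ | ⟨a1, -⟩
    · exact key h4
    · exact absurd h2 a1

/-- the tree is positive -/
theorem T_pos (hF : Ok F α z p) : Pos (F.T z) := by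
  refine ⟨Or.inl List.nil_suffix, T_closed, fun σ h => T_ful hF h, fun σ h => T_next hF h, ?_⟩
  intro j
  have hup : ∀ c σ, c :: σ ∈ F.T z → (∃ s k, F.St z σ s k ∧ j ≤ s) →
      ∃ s k, F.St z (c :: σ) s k ∧ j ≤ s := by
    rintro c σ hc ⟨s, k, h1, h2⟩
    obtain ⟨s', k', h3⟩ := T_st hF hc (h1.suf.trans (List.suffix_cons _ _))
    exact ⟨s', k', h3, h2.trans (h1.tr h3).le.1⟩
  have hbar : ∀ y : Y, (∀ n, nd y n ∈ F.T z) → ∃ n, ∃ s k, F.St z (nd y n) s k ∧ j ≤ s := by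
    intro y hy
    obtain ⟨m, k, h1, -⟩ := exists_stage hF hy j
    exact ⟨m, j, k, h1, le_rfl⟩
  obtain ⟨t, ht⟩ := konig (T := F.T z) T_closed (fun σ h => T_ful hF h)
    (fun σ => ∃ s k, F.St z σ s k ∧ j ≤ s) hup hbar
  refine ⟨t, fun σ hσ h => ?_⟩
  obtain ⟨s, k, h1, h2⟩ := ht σ hσ h
  refine ((h1.big hF).anti (by omega)).mono ?_
  rintro c ⟨s', k', hc⟩
  exact mem_T_of_St hc

/-- the conditions decrease -/
theorem St.desc {σ : Node} {s k : ℕ} (h : F.St z σ s k) :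
    ∀ (l : Node) {s' k' : ℕ}, F.St z (l ++ σ) s' k' → F.e k' ≤ F.e k := by
  intro l
  induction l with
  | nil =>
    intro s' k' h'
    obtain ⟨-, rfl⟩ := h.uniq h'
    exact le_rfl
  | cons c l ih =>
    intro s' k' h'
    rcases h' with ⟨h0, -⟩ | ⟨s1, k1, h1, h2⟩
    · exfalso
      have h3 := h.suf.length_le
      rw [h0] at h3
      simp at h3
    · exact le_trans h2.le.2 (ih h1)

variable [WellFoundedLT I]

theorem T_sub (hF : Ok F α z p) : F.T z ⊆ p.C F.β z := by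
  rintro τ (h | ⟨s, k, h⟩)
  · exact (p.pos F.β z).closed' h hF.mem
  · obtain ⟨b1, b2, b3, b4, b5⟩ := h.inv hF
    exact C_mono b5 b1 b2

/-- every dense set is met on every branch -/
theorem T_gen (hF : Ok F α z p) {y : Y} (hy : ∀ n, nd y n ∈ F.T z) (s : ℕ) :
    ∃ m k, F.e k ∈ F.dd s ∧ F.e k ≤ p ∧ z ∈ BodB (F.e k) F.β ∧
      ∀ τ ∈ F.T z, nd y m <:+ τ → τ ∈ (F.e k).C F.β z := by
  obtain ⟨m, k, h1, h2⟩ := exists_stage hF hy s
  obtain ⟨s', k', h4, h5⟩ := branch_next hF hy h1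
  rcases h5 with ⟨-, -, a3, -⟩ | ⟨a1, -⟩
  · obtain ⟨b1, b2, b3, b4, b5⟩ := h4.inv hF
    refine ⟨m + 1, k', a3.1.2.1, b5, b1, fun τ hτ hm => ?_⟩
    obtain ⟨s'', k'', h6⟩ := T_st hF hτ (h4.suf.trans hm)
    obtain ⟨c1, c2, -⟩ := h6.inv hF
    obtain ⟨l, rfl⟩ := hm
    exact C_mono (h4.desc l h6) c1 c2
  · exact absurd h2 a1

end Fu

/-! ### measurability -/

namespace Fu

variable {F : Fu I}

theorem G_ms (hM : F.M.Countable) (s k j : ℕ) (ρ : Node) :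
    MS F.β {z | ρ ∈ F.G s k z j} := by
  refine Gd_ms ?_ _ _ _ _ _ _
  have h1 : {p : Cond I | .c p ∈ F.M}.Countable := by
    refine hM.preimage_of_injOn ?_
    intro p _ q _ h
    simpa using h
  exact h1.mono fun r hr => hr.1

theorem Cand_ms (ρ : Node) (s k k' : ℕ) : MS F.β {z | F.Cand z ρ s k k'} :=
  (MS.const _ _).and ((MS.const _ _).and ((BodB_ms _ _).and (((F.e k').meas _ ρ).and
    (MS.lev (fun σ => (F.e k').meas _ σ) _ _))))

theorem Tr_ms (hM : F.M.Countable) (ρ : Node) (s k c s' k' : ℕ) :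
    MS F.β {z | F.Tr z ρ s k c s' k'} := by
  refine MS.or ?_ ?_
  · refine (G_ms hM _ _ _ _).and ((MS.const _ _).and (MS.and ?_ ((F.e k').meas _ _)))
    exact (Cand_ms _ _ _ _).and (MS.all fun i => MS.all fun _ => (Cand_ms _ _ _ _).not)
  · refine (G_ms hM _ _ _ _).not.and ((MS.const _ _).and ((MS.const _ _).and ?_))
    exact MS.ex fun j => (G_ms hM _ _ _ _).not.and ((G_ms hM _ _ _ _).and (G_ms hM _ _ _ _))

theorem Fi_ms (hK : ∀ k, MS F.β {z | F.K0 z k}) (k : ℕ) : MS F.β {z | F.Fi z k} :=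
  (hK k).and (MS.all fun i => MS.all fun _ => (hK i).not)

theorem St_ms (hM : F.M.Countable) (hK : ∀ k, MS F.β {z | F.K0 z k})
    (hσ : ∀ σ, MS F.β {z | F.σ0 z = σ}) : ∀ (ρ : Node) (s k : ℕ), MS F.β {z | F.St z ρ s k} := by
  intro ρ
  induction ρ with
  | nil => exact fun s k => (hσ []).and ((MS.const _ _).and (Fi_ms hK k))
  | cons c ρ ih =>
    intro s k
    refine MS.or ((hσ _).and ((MS.const _ _).and (Fi_ms hK k))) ?_
    exact MS.ex fun s' => MS.ex fun k' => (ih s' k').and (Tr_ms hM _ _ _ _ _ _)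

theorem T_ms (hM : F.M.Countable) (hK : ∀ k, MS F.β {z | F.K0 z k})
    (hσ : ∀ σ, MS F.β {z | F.σ0 z = σ}) (τ : Node) : MS F.β {z | τ ∈ F.T z} := by
  refine MS.or ?_ (MS.ex fun s => MS.ex fun k => St_ms hM hK hσ _ _ _)
  exact MS.subst (R := fun _ σ => τ <:+ σ) hσ fun σ => MS.const _ _

end Fu

variable [WellFoundedLT I]

/-- the single coordinate lemma: `T z` is a tree inside the tree of `p z` at `β`, with the trunk
`σ0 z` and with levels at least `n0` above `σ0 z`, such that the branches of `T z` are generic over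
`M`, and every dense set is met by a condition of `M` on a neighbourhood (in `T z`) of the branch -/
theorem scl {M : Set (Ob I)} (hM : Suit M) {α β : I} (hβ : β ⋖ α) (hα : .o α ∈ M)
    (hc : Cov β) (hd : Dec β) {E : Set (I → Y)} (hE : MS β E) (hg : ∀ z ∈ E, Gen M β z)
    {p : (I → Y) → Cond I} (mp : ∀ r, MS β {z | z ∈ E ∧ p z = r})
    (hp : ∀ z ∈ E, .c (p z) ∈ M ∧ Low α (p z) ∧ z ∈ BodB (p z) β)
    {σ0 : (I → Y) → Node} (mσ : ∀ σ, MS β {z | σ0 z = σ}) (n0 : ℕ)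
    (hσ : ∀ z ∈ E, σ0 z ∈ (p z).C β z ∧ lev (n0 + 1) ((p z).C β z) (σ0 z)) :
    ∃ T : (I → Y) → Set Node, (∀ σ, MS β {z | σ ∈ T z}) ∧ (∀ z, Pos (T z)) ∧
      ∀ z ∈ E, T z ⊆ (p z).C β z ∧ σ0 z ∈ T z ∧ (∀ τ ∈ T z, τ <:+ σ0 z ∨ σ0 z <:+ τ) ∧
        lev n0 (T z) (σ0 z) ∧
        ∀ D, .d D ∈ M → Dn α D → ∀ y : Y, (∀ n, nd y n ∈ T z) →
          ∃ m r, .c r ∈ M ∧ r ∈ D ∧ r ≤ p z ∧ z ∈ BodB r β ∧
            ∀ τ ∈ T z, nd y m <:+ τ → τ ∈ r.C β z := by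
  classical
  obtain ⟨e, he1, he2⟩ := hM.enum
  -- the dense sets
  obtain ⟨dd, hdd1, hdd2⟩ : ∃ dd : ℕ → Set (Cond I), (∀ s, .d (dd s) ∈ M ∧ Dn α (dd s)) ∧
      ∀ D, .d D ∈ M → Dn α D → ∃ s, dd s = D := by
    have h1 : {D : Set (Cond I) | .d D ∈ M ∧ Dn α D}.Countable := by
      have h2 : {D : Set (Cond I) | .d D ∈ M}.Countable := by
        refine hM.cnt.preimage_of_injOn ?_
        intro p _ q _ h
        simpa using h
      exact h2.mono fun D hD => hD.1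
    have h3 : {D : Set (Cond I) | .d D ∈ M ∧ Dn α D}.Nonempty := by
      refine ⟨{q | Low α q}, hM.lowd α hα, fun q hq => hq, fun q _ q' hq' _ => hq', ?_⟩
      exact fun q hq => ⟨q, le_rfl, hq⟩
    obtain ⟨dd, hdd⟩ := h1.exists_eq_range h3
    refine ⟨dd, fun s => ?_, fun D hD1 hD2 => ?_⟩
    · have : dd s ∈ {D : Set (Cond I) | .d D ∈ M ∧ Dn α D} := by rw [hdd]; exact ⟨s, rfl⟩
      exact this
    · have : D ∈ Set.range dd := by rw [← hdd]; exact ⟨hD1, hD2⟩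
      exact this
  let F : Fu I := ⟨M, β, e, dd, n0, σ0, fun z k => z ∈ E ∧ p z = e k⟩
  have hK : ∀ k, MS F.β {z | F.K0 z k} := fun k => mp (e k)
  have hF : ∀ z ∈ E, Fu.Ok F α z (p z) := by
    intro z hz
    refine ⟨he2, fun s => (hdd1 s).2, ?_, fun k hk => hk.2.symm, (hp z hz).2.2, (hp z hz).2.1,
      (hσ z hz).1, (hσ z hz).2, ?_⟩
    · obtain ⟨k, hk⟩ := he2 (p z) (hp z hz).1
      exact ⟨k, hz, hk.symm⟩
    · intro k hk s ρ hρ
      exact frontM hM hβ hα hc hd (he1 k) hk (hdd1 s).1 (hdd1 s).2 _ _ ρ (hg z hz) hρ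
  refine ⟨fun z => {τ | (z ∈ E ∧ τ ∈ F.T z) ∨ (z ∉ E ∧ τ ∈ Ful)}, ?_, ?_, ?_⟩
  · intro σ
    exact (MS.and hE (Fu.T_ms hM.cnt hK mσ σ)).or ((MS.not hE).and (MS.const _ _))
  · intro z
    by_cases hz : z ∈ E
    · have : {τ | (z ∈ E ∧ τ ∈ F.T z) ∨ (z ∉ E ∧ τ ∈ Ful)} = F.T z := by
        ext τ; simp [hz]
      show Pos {τ | (z ∈ E ∧ τ ∈ F.T z) ∨ (z ∉ E ∧ τ ∈ Ful)}
      rw [this]
      exact Fu.T_pos (hF z hz)
    · have : {τ | (z ∈ E ∧ τ ∈ F.T z) ∨ (z ∉ E ∧ τ ∈ Ful)} = Ful := by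
        ext τ; simp [hz]
      show Pos {τ | (z ∈ E ∧ τ ∈ F.T z) ∨ (z ∉ E ∧ τ ∈ Ful)}
      rw [this]
      exact Pos.univ
  · intro z hz
    have hT : {τ | (z ∈ E ∧ τ ∈ F.T z) ∨ (z ∉ E ∧ τ ∈ Ful)} = F.T z := by
      ext τ; simp [hz]
    simp only [hT]
    refine ⟨Fu.T_sub (hF z hz), Or.inl List.suffix_rfl, fun τ hτ => Fu.T_comp hτ,
      Fu.T_lev (hF z hz), ?_⟩
    intro D hD1 hD2 y hy
    obtain ⟨s, rfl⟩ := hdd2 D hD1 hD2
    obtain ⟨m, k, h1, h2, h3, h4⟩ := Fu.T_gen (hF z hz) hy s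
    exact ⟨m, e k, he1 k, h1, h2, h3, h4⟩

end Pool.Agent.DN
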