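import Pool.Agent.Lib.MP_d988c5_lc.Ops

/-!
# MP_d988c5_lc : measurable selection, segments, changing the tree at one coordinate, mixing
-/

namespace Pool.Agent.DN

variable {I : Type} [LinearOrder I]

/-- measurable selection from a countable set -/
theorem exists_sel {S : Type} [Encodable S] [Inhabited S] {α : I} {E : Set (I → Y)}
    (R : (I → Y) → S → Prop) (mR : ∀ s, MS α {z | R z s}) (h : ∀ z ∈ E, ∃ s, R z s) :
    ∃ g : (I → Y) → S, (∀ s, MS α {z | g z = s}) ∧ ∀ z ∈ E, R z (g z) := by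
  classical
  let L : (I → Y) → S → Prop := fun z s =>
    R z s ∧ ∀ t, Encodable.encode t < Encodable.encode s → ¬ R z t
  have Lu : ∀ z s s', L z s → L z s' → s = s' := by
    intro z s s' h h'
    rcases lt_trichotomy (Encodable.encode s) (Encodable.encode s') with h1 | h1 | h1
    · exact absurd h.1 (h'.2 _ h1)
    · exact Encodable.encode_injective h1
    · exact absurd h'.1 (h.2 _ h1)
  have Le : ∀ z, (∃ s, R z s) → ∃ s, L z s := by
    rintro z ⟨s, hs⟩
    obtain ⟨m, ⟨t, ht, rfl⟩, hm⟩ := WellFounded.has_min (wellFounded_lt (α := ℕ))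
      {m | ∃ t, R z t ∧ Encodable.encode t = m} ⟨_, s, hs, rfl⟩
    exact ⟨t, ht, fun r hr h' => hm _ ⟨r, h', rfl⟩ hr⟩
  have mL : ∀ s, MS α {z | L z s} := fun s =>
    (mR s).and (MS.all fun t => MS.all fun _ => (mR t).not)
  let g : (I → Y) → S := fun z => if h : ∃ s, L z s then h.choose else default
  refine ⟨g, fun s => ?_, fun z hz => ?_⟩
  · have : {z | g z = s} = {z | L z s ∨ ((¬ ∃ t, L z t) ∧ default = s)} := by
      ext z
      simp only [g, Set.mem_ofPred_eq]
      by_cases h : ∃ t, L z t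
      · simp only [h, dite_true, not_true, false_and, or_false]
        constructor
        · intro e; rw [← e]; exact h.choose_spec
        · intro hs; exact Lu _ _ _ h.choose_spec hs
      · simp only [h, dite_false, not_false_eq_true, true_and]
        constructor
        · exact Or.inr
        · rintro (hs | hs)
          · exact absurd ⟨s, hs⟩ h
          · exact hs
    rw [this]
    exact (mL s).or ((MS.ex mL).not.and (MS.const _ _))
  · have h1 : ∃ s, L z s := Le z (h z hz)
    have : g z = h1.choose := dif_pos h1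
    rw [this]
    exact h1.choose_spec.1

/-- the point follows the trees of `c` on the interval `[η, α)` -/
def Seg (c : Cond I) (η α : I) (z : I → Y) : Prop :=
  ∀ ξ, η ≤ ξ → ξ < α → ∀ n, nd (z ξ) n ∈ c.C ξ z

theorem Seg_ms (c : Cond I) (η α : I) : MS α {z | Seg c η α z} := by
  have : {z | Seg c η α z} = BodB (glue (one I) c η) α := by
    ext z
    simp only [Set.mem_ofPred_eq, Seg, mem_BodB]
    constructor
    · intro h ξ hξ n
      by_cases h' : ξ < η
      · rw [glue_C_lt _ _ h']; exact vd_nd _ _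
      · rw [glue_C_ge _ _ (not_lt.1 h')]; exact h ξ (not_lt.1 h') hξ n
    · intro h ξ h' hξ n
      have := h ξ hξ n
      rwa [glue_C_ge _ _ h'] at this
  rw [this]; exact BodB_ms _ _

theorem Seg_dep {c : Cond I} {η α : I} {z z' : I → Y} (h : ∀ ξ < α, z ξ = z' ξ) :
    Seg c η α z ↔ Seg c η α z' := by
  have := (Seg_ms c η α).dep h
  exact this

theorem Seg_mono {c : Cond I} {η η' α α' : I} (h : η ≤ η') (h' : α' ≤ α) {z : I → Y}
    (hz : Seg c η α z) : Seg c η' α' z := fun ξ h1 h2 n => hz ξ (h.trans h1) (h2.trans_le h') n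

open Classical in
/-- replace the tree at `β` -/
noncomputable def setC (c : Cond I) (β : I) (T : (I → Y) → Set Node)
    (h1 : ∀ σ, MS β {z | σ ∈ T z}) (h2 : ∀ z, Pos (T z)) : Cond I where
  C ξ z := if ξ = β then T z else c.C ξ z
  meas ξ σ := by
    by_cases h : ξ = β
    · subst h; simpa using h1 σ
    · simpa [h] using c.meas ξ σ
  pos ξ z := by
    by_cases h : ξ = β
    · simpa [h] using h2 z
    · simpa [h] using c.pos ξ z
  supp := (c.supp.union (Set.countable_singleton β)).mono (by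
    rintro ξ ⟨z, hz⟩
    by_cases h' : ξ = β
    · exact Or.inr h'
    · exact Or.inl ⟨z, by simpa [h'] using hz⟩)

theorem setC_eq (c : Cond I) (β : I) (T : (I → Y) → Set Node)
    (h1 : ∀ σ, MS β {z | σ ∈ T z}) (h2 : ∀ z, Pos (T z)) (z : I → Y) :
    (setC c β T h1 h2).C β z = T z := by simp [setC]

theorem setC_ne (c : Cond I) {β ξ : I} (h : ξ ≠ β) (T : (I → Y) → Set Node)
    (h1 : ∀ σ, MS β {z | σ ∈ T z}) (h2 : ∀ z, Pos (T z)) (z : I → Y) :
    (setC c β T h1 h2).C ξ z = c.C ξ z := by simp [setC, h]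

/-- the condition which is `c n` on the interval `[a n, a (n+1))` -/
theorem exists_concat (a : ℕ → I) (ha : Monotone a) (c : ℕ → Cond I) :
    ∃ c' : Cond I, ∀ n ξ, a n ≤ ξ → ξ < a (n + 1) → ∀ z, c'.C ξ z = (c n).C ξ z := by
  classical
  -- the index of `ξ`
  have key : ∀ ξ n m, a n ≤ ξ → ξ < a (n + 1) → a m ≤ ξ → ξ < a (m + 1) → n = m := by
    intro ξ n m h1 h2 h3 h4
    rcases lt_trichotomy n m with h | h | h
    · exact absurd (lt_of_lt_of_le h2 ((ha (by omega : n + 1 ≤ m)).trans h3)) (lt_irrefl _)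
    · exact h
    · exact absurd (lt_of_lt_of_le h4 ((ha (by omega : m + 1 ≤ n)).trans h1)) (lt_irrefl _)
  refine ⟨{
    C := fun ξ z => if h : ∃ n, a n ≤ ξ ∧ ξ < a (n + 1) then (c h.choose).C ξ z else Ful
    meas := ?_
    pos := ?_
    supp := ?_ }, ?_⟩
  · intro ξ σ
    by_cases h : ∃ n, a n ≤ ξ ∧ ξ < a (n + 1)
    · simp only [h, dite_true]; exact (c _).meas ξ σ
    · simp only [h, dite_false]; exact MS.const _ _
  · intro ξ z
    by_cases h : ∃ n, a n ≤ ξ ∧ ξ < a (n + 1)
    · simp only [h, dite_true]; exact (c _).pos ξ z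
    · simp only [h, dite_false]; exact Pos.univ
  · refine (Set.countable_iUnion fun n => (c n).supp).mono ?_
    rintro ξ ⟨z, hz⟩
    by_cases h : ∃ n, a n ≤ ξ ∧ ξ < a (n + 1)
    · simp only [h, dite_true] at hz
      exact Set.mem_iUnion.2 ⟨_, z, hz⟩
    · simp [h] at hz
  · intro n ξ h1 h2 z
    have h : ∃ n, a n ≤ ξ ∧ ξ < a (n + 1) := ⟨n, h1, h2⟩
    have e : h.choose = n := key ξ _ _ h.choose_spec.1 h.choose_spec.2 h1 h2
    show (if h : ∃ n, a n ≤ ξ ∧ ξ < a (n + 1) then (c h.choose).C ξ z else Ful) = _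
    rw [dif_pos h, e]


/-! ### mixing -/

/-- the condition which is `u` below `η` and `C (g z)` from `η` on -/
noncomputable def mix (u : Cond I) (η : I) (g : (I → Y) → ℕ) (mg : ∀ k, MS η {z | g z = k})
    (C : ℕ → Cond I) : Cond I where
  C ξ z := if ξ < η then u.C ξ z else (C (g z)).C ξ z
  meas ξ σ := by
    by_cases h : ξ < η
    · simpa [h] using u.meas ξ σ
    · simp only [h, if_false]
      exact MS.subst (R := fun z k => σ ∈ (C k).C ξ z) (fun k => (mg k).mono (not_lt.1 h))
        fun k => (C k).meas ξ σ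
  pos ξ z := by
    by_cases h : ξ < η
    · simpa [h] using u.pos ξ z
    · simpa [h] using (C (g z)).pos ξ z
  supp := (u.supp.union (Set.countable_iUnion fun k => (C k).supp)).mono (by
    rintro ξ ⟨z, hz⟩
    by_cases h' : ξ < η
    · exact Or.inl ⟨z, by simpa [h'] using hz⟩
    · exact Or.inr (Set.mem_iUnion.2 ⟨g z, z, by simpa [h'] using hz⟩))

theorem mix_C_lt {u : Cond I} {η : I} {g : (I → Y) → ℕ} {mg : ∀ k, MS η {z | g z = k}}
    {C : ℕ → Cond I} {ξ : I} (h : ξ < η) (z : I → Y) : (mix u η g mg C).C ξ z = u.C ξ z := by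
  simp [mix, h]

theorem mix_C_ge {u : Cond I} {η : I} {g : (I → Y) → ℕ} {mg : ∀ k, MS η {z | g z = k}}
    {C : ℕ → Cond I} {ξ : I} (h : η ≤ ξ) (z : I → Y) :
    (mix u η g mg C).C ξ z = (C (g z)).C ξ z := by simp [mix, not_lt.2 h]

theorem BodB_mix {u : Cond I} {η : I} {g : (I → Y) → ℕ} {mg : ∀ k, MS η {z | g z = k}}
    {C : ℕ → Cond I} {ξ : I} (h : ξ ≤ η) : BodB (mix u η g mg C) ξ = BodB u ξ := by
  ext z
  simp only [mem_BodB]
  refine forall_congr' fun ζ => forall_congr' fun hζ => forall_congr' fun n => ?_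
  rw [mix_C_lt (hζ.trans_le h)]

/-- if the base point is in the chosen condition, then a point of the mixture is in the chosen
condition -/
theorem mem_BodB_of_mix {u : Cond I} {η : I} {g : (I → Y) → ℕ} {mg : ∀ k, MS η {z | g z = k}}
    {C : ℕ → Cond I} {β : I} {z : I → Y} (hz : z ∈ BodB (mix u η g mg C) β)
    (h : z ∈ BodB (C (g z)) η) : z ∈ BodB (C (g z)) β := by
  intro ξ hξ n
  by_cases h' : ξ < η
  · exact h ξ h' n
  · have := hz ξ hξ n
    rwa [mix_C_ge (not_lt.1 h')] at this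

theorem low_mix {u : Cond I} {η β : I} {g : (I → Y) → ℕ} {mg : ∀ k, MS η {z | g z = k}}
    {C : ℕ → Cond I} (hu : Low β u) (hC : ∀ k, Low β (C k)) : Low β (mix u η g mg C) := by
  intro ξ hξ z
  by_cases h' : ξ < η
  · rw [mix_C_lt h']; exact hu ξ hξ z
  · rw [mix_C_ge (not_lt.1 h')]; exact hC _ ξ hξ z

end Pool.Agent.DN
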