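import Pool.Agent.Lib.MP_d988c5_lc.Par

/-!
# MP_d988c5_lc : nodes and positive trees

Nodes are lists of digits, the LAST digit comes first: the children of `σ` are `c :: σ`, and `σ` is
an initial segment of `τ` if `σ <:+ τ`.
-/

namespace Pool.Agent.DN

/-- nodes; the last digit comes first -/
abbrev Node := List ℕ

/-- the index of a node -/
def ix (σ : Node) : ℕ := Encodable.encode σ

theorem ix_nil : ix [] = 0 := rfl

theorem ix_inj {σ τ : Node} (h : ix σ = ix τ) : σ = τ := Encodable.encode_injective h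

theorem ix_lt (c : ℕ) (σ : Node) : ix σ < ix (c :: σ) := by
  unfold ix
  rw [Encodable.encode_list_cons]
  exact Nat.lt_succ_of_le (Nat.right_le_pair _ _)

theorem ix_le_of_suffix {σ τ : Node} (h : σ <:+ τ) : ix σ ≤ ix τ := by
  obtain ⟨l, rfl⟩ := h
  induction l with
  | nil => exact le_rfl
  | cons c l ih => exact ih.trans (ix_lt _ _).le

theorem ix_lt_of_suffix {σ τ : Node} (h : σ <:+ τ) (h' : σ ≠ τ) : ix σ < ix τ :=
  lt_of_le_of_ne (ix_le_of_suffix h) fun e => h' (ix_inj e)

theorem length_le_ix (σ : Node) : σ.length ≤ ix σ := by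
  induction σ with
  | nil => exact Nat.zero_le _
  | cons c σ ih => exact Nat.succ_le_of_lt (lt_of_le_of_lt ih (ix_lt c σ))

/-- a suffix of `c :: σ` is `c :: σ` or a suffix of `σ` -/
theorem suffix_cons_iff' {c : ℕ} {σ τ : Node} : τ <:+ c :: σ ↔ τ = c :: σ ∨ τ <:+ σ :=
  List.suffix_cons_iff

/-- valid nodes -/
def Vd : Node → Prop
  | [] => True
  | c :: σ => c < (dat (ix σ)).kap ∧ Vd σ

/-- the full tree -/
def Ful : Set Node := {σ | Vd σ}

/-- points of one coordinate -/
abbrev Y := ℕ → ℕ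

/-- the node of length `n` on the branch `y` -/
noncomputable def nd (y : Y) : ℕ → Node
  | 0 => []
  | n + 1 => (y n % (dat (ix (nd y n))).kap) :: nd y n

@[simp] theorem nd_zero (y : Y) : nd y 0 = [] := rfl

theorem nd_succ (y : Y) (n : ℕ) : nd y (n + 1) = (y n % (dat (ix (nd y n))).kap) :: nd y n := rfl

@[simp] theorem nd_length (y : Y) (n : ℕ) : (nd y n).length = n := by
  induction n with
  | zero => rfl
  | succ n ih => rw [nd_succ]; simp [ih]

theorem vd_nd (y : Y) (n : ℕ) : Vd (nd y n) := by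
  induction n with
  | zero => trivial
  | succ n ih => exact ⟨Nat.mod_lt _ (kap_pos _), ih⟩

theorem nd_suffix (y : Y) {m n : ℕ} (h : m ≤ n) : nd y m <:+ nd y n := by
  induction n, h using Nat.le_induction with
  | base => exact List.suffix_rfl
  | succ n _ ih => exact ih.trans (List.suffix_cons _ _)

theorem suffix_nd (y : Y) (n : ℕ) {σ : Node} (h : σ <:+ nd y n) : σ = nd y σ.length := by
  have h1 : σ.length ≤ n := by simpa using h.length_le
  exact (List.suffix_of_suffix_length_le h (nd_suffix y h1) (by simp)).eq_of_length (by simp)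

theorem nd_congr {y y' : Y} (n : ℕ) (h : ∀ i < n, y i = y' i) : nd y n = nd y' n := by
  induction n with
  | zero => rfl
  | succ n ih =>
    have e := ih fun i hi => h i (by omega)
    rw [nd_succ, nd_succ, e, h n (by omega)]

/-- two nodes on one branch are comparable -/
theorem nd_comp (y : Y) {σ τ : Node} {m n : ℕ} (h : σ <:+ nd y m) (h' : τ <:+ nd y n) :
    σ <:+ τ ∨ τ <:+ σ := by
  rw [suffix_nd y m h, suffix_nd y n h']
  rcases le_total σ.length τ.length with h1 | h1
  · exact Or.inl (nd_suffix y h1)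
  · exact Or.inr (nd_suffix y h1)

/-! ### bigness -/

/-- the set `A` of digits is `u`-big at the node `σ` -/
def bg (u : ℕ) (σ : Node) (A : Set ℕ) : Prop := (dat (ix σ)).Big u A

/-- `j`-big, in units of `(ix σ + 1)^3` -/
def bgn (j : ℕ) (σ : Node) (A : Set ℕ) : Prop := bg (j * (ix σ + 1) ^ 3) σ A

theorem bg.mono {u : ℕ} {σ : Node} {A B : Set ℕ} (h : bg u σ A) (hAB : A ⊆ B) : bg u σ B :=
  (dat_ok _).mono _ _ _ hAB h

theorem bg.anti {u v : ℕ} {σ : Node} {A : Set ℕ} (h : bg v σ A) (huv : u ≤ v) : bg u σ A :=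
  (dat_ok _).anti _ _ _ huv h

theorem bgn.mono {u : ℕ} {σ : Node} {A B : Set ℕ} (h : bgn u σ A) (hAB : A ⊆ B) : bgn u σ B :=
  bg.mono h hAB

theorem bgn.anti {u v : ℕ} {σ : Node} {A : Set ℕ} (h : bgn v σ A) (huv : u ≤ v) : bgn u σ A :=
  bg.anti h (Nat.mul_le_mul_right _ huv)

theorem bg.nonempty {u : ℕ} {σ : Node} {A : Set ℕ} (h : bg u σ A) :
    ∃ c ∈ A, c < (dat (ix σ)).kap := (dat_ok _).ne _ _ h

theorem bgn.nonempty {u : ℕ} {σ : Node} {A : Set ℕ} (h : bgn u σ A) :
    ∃ c ∈ A, c < (dat (ix σ)).kap := bg.nonempty h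

theorem bg.inter {u : ℕ} {σ : Node} {A : Set ℕ} (h : bg u σ A) :
    bg u σ (A ∩ {c | c < (dat (ix σ)).kap}) := (dat_ok _).dep _ _ h

theorem bg.split2 {u : ℕ} {σ : Node} {A B : Set ℕ} (h : bg (u + 1) σ (A ∪ B)) :
    bg u σ A ∨ bg u σ B := by
  have h1 : bg (u + 1) σ (⋃ i ∈ Set.Iio 2, (fun i : ℕ => if i = 0 then A else B) i) := by
    refine h.mono ?_
    rintro c (hc | hc)
    · exact Set.mem_biUnion (show (0 : ℕ) ∈ Set.Iio 2 by simp) (by simpa using hc)
    · exact Set.mem_biUnion (show (1 : ℕ) ∈ Set.Iio 2 by simp) (by simpa using hc)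
  obtain ⟨i, hi, h2⟩ := (dat_ok _).split _ _ _ (two_le_b _) h1
  rcases Nat.lt_or_ge i 1 with h3 | h3
  · obtain rfl : i = 0 := by omega
    exact Or.inl (by simpa [bg] using h2)
  · obtain rfl : i = 1 := by omega
    exact Or.inr (by simpa [bg] using h2)

theorem bgn.split2 {j : ℕ} {σ : Node} {A B : Set ℕ} (h : bgn (j + 1) σ (A ∪ B)) :
    bgn j σ A ∨ bgn j σ B := by
  refine bg.split2 (bg.anti (u := j * (ix σ + 1) ^ 3 + 1) h ?_)
  have : 0 < (ix σ + 1) ^ 3 := by positivity
  nlinarith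

/-- one digit is not big -/
theorem bg.not_singleton {u : ℕ} {σ : Node} {c : ℕ} : ¬ bg u σ {c} := (dat_ok _).two _ _

/-- the children of `σ` in `T` -/
def suc (T : Set Node) (σ : Node) : Set ℕ := {c | c :: σ ∈ T}

/-- positive trees -/
structure Pos (T : Set Node) : Prop where
  nil : [] ∈ T
  closed : ∀ c σ, c :: σ ∈ T → σ ∈ T
  ful : ∀ σ ∈ T, Vd σ
  next : ∀ σ ∈ T, ∃ c, c :: σ ∈ T
  big : ∀ j, ∃ t, ∀ σ ∈ T, t ≤ ix σ → bgn j σ (suc T σ)

/-- all nodes of `T` above `σ` are `j`-big -/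
def lev (j : ℕ) (T : Set Node) (σ : Node) : Prop := ∀ τ ∈ T, σ <:+ τ → bgn j τ (suc T τ)

theorem closed' {T : Set Node} (hT : ∀ c σ, c :: σ ∈ T → σ ∈ T) {σ τ : Node} (h : σ <:+ τ)
    (hτ : τ ∈ T) : σ ∈ T := by
  obtain ⟨l, rfl⟩ := h
  induction l with
  | nil => exact hτ
  | cons c l ih => exact ih (hT _ _ hτ)

theorem Pos.closed' {T : Set Node} (hT : Pos T) {σ τ : Node} (h : σ <:+ τ) (hτ : τ ∈ T) : σ ∈ T :=
  DN.closed' hT.closed h hτ

theorem Pos.univ : Pos Ful where
  nil := trivial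
  closed _ _ h := h.2
  ful _ h := h
  next σ h := ⟨0, kap_pos _, h⟩
  big j := by
    refine ⟨j, fun σ hσ hj => ?_⟩
    have h1 : bg ((ix σ + 1) ^ 5) σ {c | c < (dat (ix σ)).kap} := (dat_ok _).full
    refine (h1.mono fun c hc => ?_).anti ?_
    · exact ⟨hc, hσ⟩
    · have h2 : j ≤ (ix σ + 1) ^ 2 := by nlinarith
      calc j * (ix σ + 1) ^ 3 ≤ (ix σ + 1) ^ 2 * (ix σ + 1) ^ 3 := Nat.mul_le_mul_right _ h2
        _ = (ix σ + 1) ^ 5 := by ring

/-- every node of a tree without terminal nodes is on a branch -/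
theorem exists_branch {T : Set Node} (hc : ∀ c σ, c :: σ ∈ T → σ ∈ T) (hv : ∀ σ ∈ T, Vd σ)
    (hn : ∀ σ ∈ T, ∃ c, c :: σ ∈ T) {σ : Node} (hσ : σ ∈ T) :
    ∃ y : Y, (∀ n, nd y n ∈ T) ∧ nd y σ.length = σ := by
  classical
  choose! f hf using hn
  -- the sequence of nodes
  let g : ℕ → Node := fun n => Nat.rec σ (fun _ τ => f τ :: τ) n
  have g0 : g 0 = σ := rfl
  have gs : ∀ n, g (n + 1) = f (g n) :: g n := fun n => rfl
  have gT : ∀ n, g n ∈ T := by
    intro n
    induction n with
    | zero => exact hσ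
    | succ n ih => rw [gs]; exact hf _ ih
  have gl : ∀ n, (g n).length = σ.length + n := by
    intro n
    induction n with
    | zero => rfl
    | succ n ih => rw [gs]; simp [ih]; omega
  -- a branch through a given chain of valid nodes
  have key : ∀ (τ : Node), Vd τ → ∀ y : Y, (∀ i (h : i < τ.length), y i = τ[τ.length - 1 - i]) →
      nd y τ.length = τ := by
    intro τ
    induction τ with
    | nil => intro _ y _; rfl
    | cons c τ ih =>
      intro hv y hy
      have h1 : nd y τ.length = τ := by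
        refine ih hv.2 y fun i hi => ?_
        have := hy i (by simp; omega)
        rw [this]
        have e : (c :: τ).length - 1 - i = (τ.length - 1 - i) + 1 := by simp; omega
        simp only [e, List.getElem_cons_succ]
      have h2 : y τ.length = c := by
        have := hy τ.length (by simp)
        rw [this]; simp
      show nd y (τ.length + 1) = _
      rw [nd_succ, h1, h2, Nat.mod_eq_of_lt hv.1]
  have gsuf : ∀ m n, m ≤ n → g m <:+ g n := by
    intro m n h
    induction n, h using Nat.le_induction with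
    | base => exact List.suffix_rfl
    | succ n _ ih => rw [gs]; exact ih.trans (List.suffix_cons _ _)
  let y : Y := fun i => (g (i + 1)).getD ((g (i + 1)).length - 1 - i) 0
  have hy : ∀ n, nd y (g n).length = g n := by
    intro n
    refine key _ (hv _ (gT n)) y fun i hi => ?_
    show (g (i + 1)).getD ((g (i + 1)).length - 1 - i) 0 = _
    have hl : i < (g (i + 1)).length := by have := gl (i + 1); omega
    rw [List.getD_eq_getElem _ _ (by omega)]
    -- both are the `i`-th digit from the end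
    rcases le_total (i + 1) n with h | h
    · obtain ⟨l, hl'⟩ := gsuf _ _ h
      have : ∀ (a b : Node) (e : a ++ b = g n) (h1 : b.length - 1 - i < b.length)
          (h2 : (g n).length - 1 - i < (g n).length) (h3 : i < b.length),
          b[b.length - 1 - i] = (g n)[(g n).length - 1 - i] := by
        intro a b e h1 h2 h3
        subst_vars
        simp only [← e]
        rw [List.getElem_append_right (by simp; omega)]
        congr 1
        simp; omega
      exact this l _ hl' _ _ hl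
    · obtain ⟨l, hl'⟩ := gsuf _ _ h
      have : ∀ (a b : Node) (e : a ++ b = g (i + 1)) (h1 : b.length - 1 - i < b.length)
          (h2 : (g (i + 1)).length - 1 - i < (g (i + 1)).length) (h3 : i < b.length),
          (g (i + 1))[(g (i + 1)).length - 1 - i] = b[b.length - 1 - i] := by
        intro a b e h1 h2 h3
        simp only [← e]
        rw [List.getElem_append_right (by simp; omega)]
        congr 1
        simp; omega
      exact this l _ hl' _ _ hi
  refine ⟨y, fun n => ?_, ?_⟩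
  · have h1 : nd y n <:+ nd y (g n).length := nd_suffix y (by rw [gl]; omega)
    rw [hy n] at h1
    exact closed' hc h1 (gT n)
  · have := hy 0
    rwa [g0] at this

theorem Pos.branch' {T : Set Node} (hT : Pos T) {σ : Node} (hσ : σ ∈ T) :
    ∃ y : Y, (∀ n, nd y n ∈ T) ∧ nd y σ.length = σ := exists_branch hT.closed hT.ful hT.next hσ

theorem Pos.branch {T : Set Node} (hT : Pos T) : ∃ y : Y, ∀ n, nd y n ∈ T := by
  obtain ⟨y, hy, _⟩ := hT.branch' hT.nil
  exact ⟨y, hy⟩

/-- the nodes of `T` comparable with `σ` (all of `T` if `σ ∉ T`) -/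
def cutT (T : Set Node) (σ : Node) : Set Node := {τ | τ ∈ T ∧ (σ ∈ T → τ <:+ σ ∨ σ <:+ τ)}

/-- only finitely many nodes have small index -/
theorem Pos.cut {T : Set Node} (hT : Pos T) (σ : Node) : Pos (cutT T σ) := by
  by_cases hσ : σ ∈ T
  swap
  · have : cutT T σ = T := by
      ext τ; simp [cutT, hσ]
    rw [this]; exact hT
  refine ⟨⟨hT.nil, fun _ => Or.inl List.nil_suffix⟩, ?_, fun τ h => hT.ful τ h.1, ?_, ?_⟩
  · rintro c τ ⟨h1, h2⟩
    refine ⟨hT.closed _ _ h1, fun _ => ?_⟩
    rcases h2 hσ with h3 | h3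
    · exact Or.inl ((List.suffix_cons _ _).trans h3)
    · rcases suffix_cons_iff'.1 h3 with h4 | h4
      · exact Or.inl (h4 ▸ List.suffix_cons _ _)
      · exact Or.inr h4
  · rintro τ ⟨h1, h2⟩
    rcases h2 hσ with h3 | h3
    · -- `τ` is an initial segment of `σ`
      rcases eq_or_ne τ σ with rfl | hne
      · obtain ⟨c, hc⟩ := hT.next τ h1
        exact ⟨c, hc, fun _ => Or.inr (List.suffix_cons _ _)⟩
      · obtain ⟨l, hl⟩ := h3
        rcases List.eq_nil_or_concat l with rfl | ⟨l', c, rfl⟩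
        · exact absurd hl hne
        · have e : l' ++ (c :: τ) = σ := by rw [← hl]; simp
          have h4 : c :: τ <:+ σ := ⟨l', e⟩
          exact ⟨c, hT.closed' h4 hσ, fun _ => Or.inl h4⟩
    · obtain ⟨c, hc⟩ := hT.next τ h1
      exact ⟨c, hc, fun _ => Or.inr (h3.trans (List.suffix_cons _ _))⟩
  · intro j
    obtain ⟨t, ht⟩ := hT.big j
    refine ⟨max t (ix σ), fun τ hτ hj => ?_⟩
    have h3 : σ <:+ τ := by
      rcases hτ.2 hσ with h3 | h3
      · have := ix_le_of_suffix h3
        have e : ix τ = ix σ := le_antisymm this ((le_max_right _ _).trans hj)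
        rw [ix_inj e]
      · exact h3
    refine (ht τ hτ.1 ((le_max_left _ _).trans hj)).mono fun c hc => ?_
    exact ⟨hc, fun _ => Or.inr (h3.trans (List.suffix_cons _ _))⟩

/-- above every node there is a node beyond which all nodes are `j`-big -/
theorem Pos.exists_lev {T : Set Node} (hT : Pos T) {σ : Node} (hσ : σ ∈ T) (j : ℕ) :
    ∃ τ ∈ T, σ <:+ τ ∧ lev j T τ := by
  obtain ⟨t, ht⟩ := hT.big j
  obtain ⟨y, hy, hyσ⟩ := hT.branch' hσ
  refine ⟨nd y (max t σ.length), hy _, ?_, fun τ hτ h => ht τ hτ ?_⟩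
  · have := nd_suffix y (le_max_right t σ.length)
    rwa [hyσ] at this
  · have h1 := ix_le_of_suffix h
    have h2 := length_le_ix (nd y (max t σ.length))
    rw [nd_length] at h2
    have := le_max_left t σ.length
    omega

/-- a tree all of whose nodes are comparable with `τ` contains `τ` -/
theorem mem_of_comp {T : Set Node} (hT : Pos T) {τ : Node}
    (h : ∀ σ ∈ T, σ <:+ τ ∨ τ <:+ σ) : τ ∈ T := by
  obtain ⟨y, hy⟩ := hT.branch
  have h1 := hy τ.length
  rcases h _ h1 with h2 | h2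
  · rw [h2.eq_of_length (by simp)] at h1; exact h1
  · rw [← h2.eq_of_length (by simp)] at h1; exact h1

theorem lev.mono_node {j : ℕ} {T : Set Node} {σ τ : Node} (h : lev j T σ) (hτ : σ <:+ τ) :
    lev j T τ := fun ρ hρ h' => h ρ hρ (hτ.trans h')

theorem lev.anti {j k : ℕ} {T : Set Node} {σ : Node} (h : lev k T σ) (hjk : j ≤ k) :
    lev j T σ := fun ρ hρ h' => (h ρ hρ h').anti hjk

/-- König's lemma for bars -/
theorem konig {T : Set Node} (hc : ∀ c σ, c :: σ ∈ T → σ ∈ T) (hv : ∀ σ ∈ T, Vd σ)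
    (P : Node → Prop) (hup : ∀ c σ, c :: σ ∈ T → P σ → P (c :: σ))
    (hbar : ∀ y : Y, (∀ n, nd y n ∈ T) → ∃ n, P (nd y n)) :
    ∃ t, ∀ σ ∈ T, t ≤ ix σ → P σ := by
  classical
  -- the tree of nodes which do not satisfy `P`
  by_contra hcon
  push Not at hcon
  -- `σ` is heavy if there are nodes above it of arbitrarily large index not satisfying `P`
  let Hv : Node → Prop := fun σ => ∀ t, ∃ τ ∈ T, σ <:+ τ ∧ t ≤ ix τ ∧ ¬ P τ
  have h0 : Hv [] := fun t => by
    obtain ⟨τ, h1, h2, h3⟩ := hcon t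
    exact ⟨τ, h1, List.nil_suffix, h2, h3⟩
  have hstep : ∀ σ, Hv σ → ∃ c, Hv (c :: σ) := by
    intro σ hσ
    by_contra hno
    push Not at hno
    have hno' : ∀ c, ∃ t, ∀ τ ∈ T, c :: σ <:+ τ → t ≤ ix τ → P τ := by
      intro c
      have := hno c
      simp only [Hv, not_forall] at this
      obtain ⟨t, ht⟩ := this
      refine ⟨t, fun τ h1 h2 h3 => ?_⟩
      by_contra h4
      exact ht ⟨τ, h1, h2, h3, h4⟩
    choose t ht using hno'
    obtain ⟨τ, h1, h2, h3, h4⟩ := hσ (max (ix σ + 1)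
      ((Finset.range (dat (ix σ)).kap).sup t))
    obtain ⟨l, hl⟩ := h2
    rcases List.eq_nil_or_concat l with rfl | ⟨l', c, rfl⟩
    · have : σ = τ := hl
      subst this
      have := (le_max_left (ix σ + 1) ((Finset.range (dat (ix σ)).kap).sup t)).trans h3
      omega
    · have e : l' ++ (c :: σ) = τ := by rw [← hl]; simp
      have h5 : c :: σ <:+ τ := ⟨l', e⟩
      have h6 : Vd (c :: σ) := hv _ (closed' hc h5 h1)
      have h7 : t c ≤ (Finset.range (dat (ix σ)).kap).sup t :=
        Finset.le_sup (f := t) (Finset.mem_range.2 h6.1)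
      exact h4 (ht c τ h1 h5 (h7.trans ((le_max_right _ _).trans h3)))
  have hT : ∀ σ, Hv σ → σ ∈ T := fun σ hσ => by
    obtain ⟨τ, h1, h2, _⟩ := hσ 0
    exact closed' hc h2 h1
  have hP : ∀ σ, Hv σ → ¬ P σ := by
    intro σ hσ hP
    obtain ⟨τ, h1, h2, _, h4⟩ := hσ 0
    apply h4
    obtain ⟨l, rfl⟩ := h2
    have key : ∀ l : Node, l ++ σ ∈ T → P (l ++ σ) := by
      intro l
      induction l with
      | nil => exact fun _ => hP
      | cons c l ih => exact fun h => hup _ _ h (ih (hc _ _ h))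
    exact key l h1
  have h2 : ∃ y : Y, (∀ n, nd y n ∈ {σ | Hv σ}) ∧ nd y ([] : Node).length = [] := by
    refine exists_branch (T := {σ | Hv σ}) ?_ ?_ hstep h0
    · intro c σ h t
      obtain ⟨τ, h1, h2, h3⟩ := h t
      exact ⟨τ, h1, (List.suffix_cons _ _).trans h2, h3⟩
    · exact fun σ hσ => hv σ (hT σ hσ)
  obtain ⟨y, hy, _⟩ := h2
  obtain ⟨n, hn⟩ := hbar y fun n => hT _ (hy n)
  exact hP _ (hy n) hn

end Pool.Agent.DN
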