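import Pool.Agent.Lib.MP_d988c5_lc.Mea
import Pool.Agent.Lib.MP_d988c5_lc.PtB

/-!
# MP_d988c5_lc : the forcing for the positive answer

A condition attaches to every code of a set of the ideal a countable subgroup which avoids the
translate of the set. The forcing is countably closed.
-/

namespace Pool.Agent.DN

open Pool.Agent.CR (Nm V IsTransModelZFC nat natN Memf Memf_mono Mod_trans)

/-- codes of countable unions of closed sets -/
abbrev Cds : Type := ℕ → Set (List Bool)

/-- the set given by a code, together with the point `0` -/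
def ESt (S : Cds) : Set Pt := {0} ∪ ⋃ k, clo (S k)

/-- the code is a code of a union of closed null sets -/
def Ok (S : Cds) : Prop := ∀ k, NlC (clo (S k))

theorem Ok.nl {S : Cds} (h : Ok S) : Nl (ESt S) :=
  (nlC_singleton 0).nl.union (Nl.iUnion fun k => (h k).nl)

theorem Ok.trans {S : Cds} (h : Ok S) (y : Pt) : Nl {x | x + y ∈ ESt S} := by
  have : {x | x + y ∈ ESt S} = {x | x + y ∈ ({0} : Set Pt)} ∪ ⋃ k, {x | x + y ∈ clo (S k)} := by
    ext x
    simp [ESt]
  rw [this]
  exact ((nlC_singleton 0).trans y).nl.union (Nl.iUnion fun k => ((h k).trans y).nl)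

open Classical in
/-- a point outside of the set -/
noncomputable def xS (S : Cds) : Pt := if h : ∃ x, x ∉ ESt S then h.choose else 0

theorem Ok.xS {S : Cds} (h : Ok S) : xS S ∉ ESt S := by
  have h1 : ∃ x, x ∉ ESt S := by
    obtain ⟨x, _, hx⟩ := exists_of_not_nl (not_nl_cyl []) h.nl
    exact ⟨x, hx⟩
  unfold DN.xS
  rw [dif_pos h1]
  exact h1.choose_spec

/-- conditions -/
structure PF : Type where
  g : Cds → AddSubgroup Pt
  cnt : ∀ S, (g S : Set Pt).Countable
  ok : ∀ S, Ok S → ∀ x ∈ g S, x + xS S ∉ ESt S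

instance : Preorder PF where
  le q p := ∀ S, p.g S ≤ q.g S
  le_refl _ _ := le_rfl
  le_trans _ _ _ h1 h2 S := (h2 S).trans (h1 S)

theorem PF.le_iff {p q : PF} : q ≤ p ↔ ∀ S, p.g S ≤ q.g S := Iff.rfl

/-- the trivial condition -/
def PF.one : PF where
  g _ := ⊥
  cnt _ := by simp
  ok S hS x hx := by
    rw [AddSubgroup.mem_bot] at hx
    rw [hx, zero_add]
    exact hS.xS

theorem padd_self (x : Pt) : x + x = 0 := by
  funext n
  exact CharTwo.add_self_eq_zero _

theorem padd_add_self (x y : Pt) : x + y + y = x := by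
  rw [add_assoc, padd_self, add_zero]

/-- the subgroup generated by `H` and `y` -/
def adj (H : AddSubgroup Pt) (y : Pt) : AddSubgroup Pt where
  carrier := {x | x ∈ H ∨ x + y ∈ H}
  zero_mem' := Or.inl H.zero_mem
  add_mem' := by
    rintro a b (ha | ha) (hb | hb)
    · exact Or.inl (H.add_mem ha hb)
    · right
      rw [add_assoc]
      exact H.add_mem ha hb
    · right
      rw [show a + b + y = (a + y) + b by ring]
      exact H.add_mem ha hb
    · left
      have h := H.add_mem ha hb
      rw [show a + y + (b + y) = a + b + (y + y) by ring, padd_self, add_zero] at h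
      exact h
  neg_mem' := by
    rintro a (ha | ha)
    · exact Or.inl (H.neg_mem ha)
    · right
      have e : -a = a := by
        rw [neg_eq_iff_add_eq_zero, padd_self]
      rw [e]; exact ha

theorem adj_countable {H : AddSubgroup Pt} (hH : (H : Set Pt).Countable) (y : Pt) :
    (adj H y : Set Pt).Countable := by
  refine (hH.union (hH.image fun x => x + y)).mono ?_
  rintro x (hx | hx)
  · exact Or.inl hx
  · exact Or.inr ⟨x + y, hx, padd_add_self _ _⟩

/-- every condition can be extended by an element of a given non-null set -/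
theorem PF.ext {W : Set Pt} (hW : ¬ Nl W) (p : PF) {S : Cds} (hS : Ok S) :
    ∃ q ≤ p, ∃ x ∈ q.g S, x ∈ W := by
  classical
  obtain ⟨y, hyW, hy⟩ := exists_of_not_nl hW (A := ⋃ h ∈ (p.g S : Set Pt), {x | x + (h + xS S) ∈ ESt S})
    (Nl.biUnion (p.cnt S) fun h _ => hS.trans _)
  refine ⟨⟨fun S' => if S' = S then adj (p.g S) y else p.g S', fun S' => ?_, fun S' hS' x hx => ?_⟩,
    fun S' => ?_, y, ?_, hyW⟩
  · by_cases h : S' = S
    · simp only [h, if_true]; exact adj_countable (p.cnt S) y
    · simp only [h, if_false]; exact p.cnt S'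
  · by_cases h : S' = S
    · subst h
      simp only [if_true] at hx
      rcases hx with hx | hx
      · exact p.ok _ hS x hx
      · intro hc
        refine hy (Set.mem_biUnion hx ?_)
        show y + (x + y + xS S') ∈ ESt S'
        have e : y + (x + y + xS S') = x + xS S' + y + y := by ring
        rw [e, padd_add_self]
        exact hc
    · simp only [h, if_false] at hx
      exact p.ok _ hS' x hx
  · show p.g S' ≤ if S' = S then adj (p.g S) y else p.g S'
    by_cases h : S' = S
    · subst h
      simp only [if_true]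
      exact fun x hx => Or.inl hx
    · simp only [h, if_false]; exact le_rfl
  · show y ∈ if S = S then adj (p.g S) y else p.g S
    rw [if_pos rfl]
    exact Or.inr (by rw [padd_self]; exact (p.g S).zero_mem)

/-- descending sequences have lower bounds -/
theorem PF.lower (p : ℕ → PF) (hp : ∀ n, p (n + 1) ≤ p n) : ∃ q, ∀ n, q ≤ p n := by
  have hmono : ∀ S, Monotone fun n => (p n).g S := fun S =>
    monotone_nat_of_le_succ fun n => hp n S
  have hmem : ∀ S x, x ∈ (⨆ n, (p n).g S) ↔ ∃ n, x ∈ (p n).g S := fun S x =>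
    AddSubgroup.mem_iSup_of_directed (hmono S).directed_le
  refine ⟨⟨fun S => ⨆ n, (p n).g S, fun S => ?_, fun S hS x hx => ?_⟩, fun n S =>
    le_iSup (fun n => (p n).g S) n⟩
  · have : ((⨆ n, (p n).g S : AddSubgroup Pt) : Set Pt) = ⋃ n, ((p n).g S : Set Pt) := by
      ext x
      rw [SetLike.mem_coe, hmem]
      simp
    rw [this]
    exact Set.countable_iUnion fun n => (p n).cnt S
  · obtain ⟨n, hn⟩ := (hmem S x).1 hx
    exact (p n).ok S hS x hn

/-- countably many questions can be decided -/
theorem PF.decide (p : PF) (D : ℕ → Set PF) (hD : ∀ n, ∀ q, ∃ r ≤ q, r ∈ D n)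
    (hop : ∀ n, ∀ q ∈ D n, ∀ r ≤ q, r ∈ D n) : ∃ q ≤ p, ∀ n, q ∈ D n := by
  choose F hF1 hF2 using hD
  let a : ℕ → PF := fun n => Nat.rec p (fun n q => F n q) n
  have as : ∀ n, a (n + 1) = F n (a n) := fun n => rfl
  obtain ⟨q, hq⟩ := PF.lower a fun n => by rw [as]; exact hF1 n _
  refine ⟨q, hq 0, fun n => hop n _ ?_ q (hq (n + 1))⟩
  rw [as]
  exact hF2 n _

/-- a sequence of names of objects: the set of the indices which are in the name is decided -/
theorem PF.decideN (e : ℕ → Nm PF) (τ : Nm PF) (p : PF) : ∃ q ≤ p, ∃ B : Set ℕ,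
    ∀ n, (n ∈ B → Memf (e n) τ q) ∧ (n ∉ B → ∀ r ≤ q, ¬ Memf (e n) τ r) := by
  obtain ⟨q, hq, h⟩ := PF.decide p (fun n => {q | Memf (e n) τ q ∨ ∀ r ≤ q, ¬ Memf (e n) τ r}) (by
    intro n q
    by_cases h : ∃ r ≤ q, Memf (e n) τ r
    · obtain ⟨r, hr, hr'⟩ := h
      exact ⟨r, hr, Or.inl hr'⟩
    · push Not at h
      exact ⟨q, le_rfl, Or.inr h⟩) (by
    rintro n q (hq | hq) r hr
    · exact Or.inl (Memf_mono hq hr)
    · exact Or.inr fun r' hr' => hq r' (hr'.trans hr))
  refine ⟨q, hq, {n | Memf (e n) τ q}, fun n => ⟨fun hn => hn, fun hn => ?_⟩⟩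
  rcases h n with h | h
  · exact absurd h hn
  · exact h

end Pool.Agent.DN
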