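import Pool.Agent.Lib.MP_d988c5_lc.YesF

/-!
# MP_d988c5_lc : the model in which the answer is positive
-/

namespace Pool.Agent.DN

open Pool.Agent.CR (Nm V IsTransModelZFC nat natN Memf Memf_mono Mod_trans)
open Pool.Agent.FW (Ev ev_rel ev_fun ev_dense ev_mem ev_natN ev_nn ev_csN ev_dir ev_ne ev_sub ev_zfc
  ev_cnt csN)

/-- objects -/
inductive OY : Type 1
  | nm (τ : Nm PF) : OY
  | cn (p : PF) : OY
  | b (B : Set ℕ) : OY
  | x (x : Pt) : OY
  | c (C : Set (List Bool)) : OY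
  | s (S : Cds) : OY

/-- the name of an object -/
def OY.un : OY → Nm PF
  | .nm τ => τ
  | _ => Nm.emp

/-- the presentation -/
def yp : FW.Pr PF OY where
  nm := .nm
  cn := .cn
  un := OY.un
  un_nm _ := rfl
  cn_inj _ _ h := by simpa using h

/-- no new subsets of countable sets -/
theorem ey_new (e : ℕ → Nm PF) (v : ℕ → V)
    (he : Ev yp (fun M G => ∀ n, e n ∈ yp.H M ∧ yp.vl M G (e n) = v n)) :
    Ev yp (fun M G => ∀ x ∈ yp.N M G, ∃ B, OY.b B ∈ M ∧ ∀ n, v n ∈ x ↔ n ∈ B) := by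
  refine (he.and (ev_mem.and (ev_dir.and ((ev_dense (π := yp) (fun l => match l with
      | [.nm τ] => {q | ∃ B : Set ℕ,
          ∀ n, (n ∈ B → Memf (e n) τ q) ∧ (n ∉ B → ∀ r ≤ q, ¬ Memf (e n) τ r)}
      | _ => ∅)).and ((ev_rel (π := yp) (fun l x => ∃ τ q B, l = [.nm τ, .cn q] ∧ x = .b B ∧
          ∀ n, (n ∈ B → Memf (e n) τ q) ∧ (n ∉ B → ∀ r ≤ q, ¬ Memf (e n) τ r))).and
      ev_sub))))).mono ?_
  rintro M G ⟨h1, h2, h3, h4, h5, h6⟩ x ⟨τ, hτ, rfl⟩
  have hτ' : OY.nm τ ∈ M := hτ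
  obtain ⟨q, hq, B0, hB0⟩ := h4 [.nm τ] (by simpa using hτ') (fun p => by
    obtain ⟨q, hq, B, hB⟩ := PF.decideN e τ p
    exact ⟨q, hq, B, hB⟩)
  have hq' : OY.cn q ∈ M := h6 hq
  obtain ⟨y, hy, τ', q', B, h7, rfl, hB⟩ := h5 [.nm τ, .cn q] (by simp [hτ', hq'])
    ⟨.b B0, τ, q, B0, rfl, rfl, hB0⟩
  simp only [List.cons.injEq, OY.nm.injEq, OY.cn.injEq, and_true] at h7
  obtain ⟨rfl, rfl⟩ := h7
  refine ⟨B, hy, fun n => ?_⟩
  rw [← (h1 n).2]
  refine (h2 _ (h1 n).1 _ hτ).trans ?_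
  constructor
  · rintro ⟨p, hp, hp'⟩
    by_contra hn
    obtain ⟨r, _, hr1, hr2⟩ := h3 p hp q hq
    exact (hB n).2 hn r hr2 (Memf_mono hp' hr1)
  · intro hn
    exact ⟨q, hq, (hB n).1 hn⟩

/-! ### points -/

/-- the name of a point -/
def ptN (x : Pt) : Nm PF :=
  csN (fun i : ℕ × ℕ => FW.opN (natN PF i.1) (natN PF i.2)) (fun i => {_p | (x i.1).val = i.2})

theorem ey_ptN : Ev yp (fun M G => ∀ x, OY.x x ∈ M → ptN x ∈ yp.H M ∧
    yp.vl M G (ptN x) = pt x) := by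
  refine ((ev_csN (π := yp) (fun i : ℕ × ℕ => FW.opN (natN PF i.1) (natN PF i.2)) _ ev_nn
    (fun l => match l with
      | [.x x] => fun i => {_p | (x i.1).val = i.2}
      | _ => fun _ => ∅)).and ev_ne).mono ?_
  rintro M G ⟨h1, p0, hp0⟩ x hx
  obtain ⟨h2, h3⟩ := h1 [.x x] (by simpa using hx)
  refine ⟨h2, ?_⟩
  apply ZFSet.ext
  intro v
  rw [mem_pt]
  refine (h3 v).trans ?_
  constructor
  · rintro ⟨i, ⟨p, hp, hp'⟩, rfl⟩
    have h4 : (x i.1).val = i.2 := hp'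
    exact ⟨i.1, by rw [h4]⟩
  · rintro ⟨n, rfl⟩
    exact ⟨(n, (x n).val), ⟨p0, hp0, rfl⟩, rfl⟩

theorem ey_PN_of : Ev yp (fun M G => ∀ x, OY.x x ∈ M → x ∈ PN (yp.N M G)) :=
  ey_ptN.mono fun _ _ h x hx => ⟨ptN x, (h x hx).1, (h x hx).2⟩

open Classical in
/-- the point given by a set of natural numbers -/
noncomputable def ptB (B : Set ℕ) : Pt := fun n => if n ∈ B then 1 else 0

theorem ey_PN : Ev yp (fun M G => ∀ x ∈ PN (yp.N M G), OY.x x ∈ M) := by
  classical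
  refine ((ey_new (fun n => FW.opN (natN PF n) (natN PF 1)) _
    (ev_nn.mono fun M G h n => h (n, 1))).and (ev_fun (π := yp) (fun l => match l with
      | [.b B] => .x (ptB B)
      | _ => .nm Nm.emp))).mono ?_
  rintro M G ⟨h1, h2⟩ x hx
  obtain ⟨B, hB, h3⟩ := h1 _ hx
  have h4 : OY.x (ptB B) ∈ M := h2 [.b B] (by simpa using hB)
  have h5 : ptB B = x := by
    funext n
    have h6 := h3 n
    rw [pair_mem_pt] at h6
    unfold ptB
    have hx : x n = 0 ∨ x n = 1 := by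
      generalize x n = v
      revert v
      decide
    rcases hx with hx | hx
    · rw [hx] at h6 ⊢
      exact if_neg fun h => absurd (h6.2 h) (show ¬ (ZMod.val (0 : ZMod 2) = 1) by decide)
    · rw [hx] at h6 ⊢
      exact if_pos (h6.1 rfl)
  rwa [h5] at h4

/-! ### codes -/

theorem ey_setS_of : Ev yp (fun M G => ∀ C, OY.c C ∈ M → setS C ∈ yp.N M G) := by
  have e : Ev yp (fun M G => ∀ s : List Bool, natN PF (Encodable.encode s) ∈ yp.H M ∧
      yp.vl M G (natN PF (Encodable.encode s)) = nat (Encodable.encode s)) :=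
    ev_natN.mono fun M G h s => h _
  refine ((ev_csN (π := yp) (fun s : List Bool => natN PF (Encodable.encode s)) _ e
    (fun l => match l with
      | [.c C] => fun s => {_p | s ∈ C}
      | _ => fun _ => ∅)).and ev_ne).mono ?_
  rintro M G ⟨h1, p0, hp0⟩ C hC
  obtain ⟨h2, h3⟩ := h1 [.c C] (by simpa using hC)
  refine ⟨_, h2, ?_⟩
  apply ZFSet.ext
  intro v
  rw [mem_setS']
  refine (h3 v).trans ?_
  constructor
  · rintro ⟨s, ⟨p, hp, hp'⟩, rfl⟩
    exact ⟨s, hp', rfl⟩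
  · rintro ⟨s, hs, rfl⟩
    exact ⟨s, ⟨p0, hp0, hs⟩, rfl⟩

theorem ey_setS : Ev yp (fun M G => ∀ C, setS C ∈ yp.N M G → OY.c C ∈ M) := by
  refine ((ey_new (fun n => natN PF n) _ ev_natN).and (ev_fun (π := yp) (fun l => match l with
      | [.b B] => .c {s | Encodable.encode s ∈ B}
      | _ => .nm Nm.emp))).mono ?_
  rintro M G ⟨h1, h2⟩ C hC
  obtain ⟨B, hB, h3⟩ := h1 _ hC
  have h4 : OY.c {s | Encodable.encode s ∈ B} ∈ M := h2 [.b B] (by simpa using hB)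
  have h5 : {s | Encodable.encode s ∈ B} = C := by
    ext s
    exact (h3 _).symm.trans mem_setS
  rwa [h5] at h4

theorem ey_seqS : Ev yp (fun M G => ∀ S, seqS S ∈ yp.N M G → OY.s S ∈ M) := by
  refine ((ey_new (fun n => FW.opN (natN PF n.unpair.1) (natN PF n.unpair.2)) _
    (ev_nn.mono fun M G h n => h (n.unpair.1, n.unpair.2))).and
    (ev_fun (π := yp) (fun l => match l with
      | [.b B] => .s (fun k => {s | Nat.pair k (Encodable.encode s) ∈ B})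
      | _ => .nm Nm.emp))).mono ?_
  rintro M G ⟨h1, h2⟩ S hS
  obtain ⟨B, hB, h3⟩ := h1 _ hS
  have h4 : OY.s (fun k => {s | Nat.pair k (Encodable.encode s) ∈ B}) ∈ M :=
    h2 [.b B] (by simpa using hB)
  have h5 : (fun k => {s : List Bool | Nat.pair k (Encodable.encode s) ∈ B}) = S := by
    funext k
    ext s
    have h6 := h3 (Nat.pair k (Encodable.encode s))
    simp only [Nat.unpair_pair] at h6
    exact h6.symm.trans mem_seqS
  rwa [h5] at h4

/-! ### the groups -/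

/-- the name of the generic group for the code `S` -/
def GN (S : Cds) : Nm PF :=
  .mk {y : PF × Pt // y.2 ∈ y.1.g S} (fun y => ptN y.1.2) (fun y => y.1.1)

/-- the generic group -/
def Gs (M : Set OY) (G : Set PF) (S : Cds) : Set Pt := {x | OY.x x ∈ M ∧ ∃ p ∈ G, x ∈ p.g S}

theorem ey_GN : Ev yp (fun M G => ∀ S, OY.s S ∈ M → setP (Gs M G S) ∈ yp.N M G) := by
  refine ((ev_fun (π := yp) (fun l => match l with
      | [.s S] => .nm (GN S)
      | _ => .nm Nm.emp)).and (ey_ptN.and ((ev_rel (π := yp) (fun l x => ∃ σ p S y,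
        l = [.nm σ, .cn p, .s S] ∧ x = .x y ∧ ptN y = σ ∧ y ∈ p.g S)).and ev_sub))).mono ?_
  rintro M G ⟨h1, h2, h3, h4⟩ S hS
  have h5 : OY.nm (GN S) ∈ M := h1 [.s S] (by simpa using hS)
  refine ⟨GN S, h5, ?_⟩
  apply ZFSet.ext
  intro v
  rw [mem_setP', CR.mem_val]
  constructor
  · rintro ⟨⟨⟨p, x⟩, hx⟩, h6, h7, rfl⟩
    have h6 : OY.nm (ptN x) ∈ M := h6
    have h7 : p ∈ G := h7
    obtain ⟨_, hy, σ, p', S', y, h8, rfl, h9, h10⟩ := h3 [.nm (ptN x), .cn p, .s S] (by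
      intro y hy
      simp only [List.mem_cons, List.not_mem_nil, or_false] at hy
      rcases hy with rfl | rfl | rfl
      · exact h6
      · exact h4 h7
      · exact hS) ⟨.x x, ptN x, p, S, x, rfl, rfl, rfl, hx⟩
    simp only [List.cons.injEq, OY.nm.injEq, OY.cn.injEq, OY.s.injEq, and_true] at h8
    obtain ⟨rfl, rfl, rfl⟩ := h8
    refine ⟨y, ⟨hy, p, h7, h10⟩, ?_⟩
    rw [← (h2 y hy).2, h9]
    rfl
  · rintro ⟨y, ⟨hy, p, hp, hyp⟩, rfl⟩
    exact ⟨⟨(p, y), hyp⟩, (h2 y hy).1, hp, (h2 y hy).2.symm⟩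

/-- the set `W` is met by the generic group -/
theorem ey_meet (W : List OY → Set Pt) : Ev yp (fun M G => ∀ S, OY.s S ∈ M → Ok S →
    ∀ l, (∀ x ∈ l, x ∈ M) → ¬ Nl (W l) → ∃ x ∈ Gs M G S, x ∈ W l) := by
  refine ((ev_dense (π := yp) (fun l => match l with
      | .s S :: l => {q | ∃ x ∈ q.g S, x ∈ W l}
      | _ => ∅)).and ((ev_rel (π := yp) (fun l x => ∃ p S l' y,
        l = .cn p :: .s S :: l' ∧ x = .x y ∧ y ∈ p.g S ∧ y ∈ W l')).and ev_sub)).mono ?_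
  rintro M G ⟨h1, h2, h3⟩ S hS hok l hl hW
  have hl' : ∀ x ∈ OY.s S :: l, x ∈ M := by
    intro x hx
    rcases List.mem_cons.1 hx with rfl | hx
    · exact hS
    · exact hl x hx
  obtain ⟨q, hq, x, hx, hxW⟩ := h1 (.s S :: l) hl' (fun p => by
    obtain ⟨q, hq, x, hx, hxW⟩ := PF.ext hW p hok
    exact ⟨q, hq, x, hx, hxW⟩)
  obtain ⟨_, hy, p, S', l', y, h4, rfl, h5, h6⟩ := h2 (.cn q :: .s S :: l) (by
    intro x hx
    rcases List.mem_cons.1 hx with rfl | hx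
    · exact h3 hq
    · exact hl' x hx) ⟨.x x, q, S, l, x, rfl, rfl, hx, hxW⟩
  simp only [List.cons.injEq, OY.cn.injEq, OY.s.injEq] at h4
  obtain ⟨rfl, rfl, rfl⟩ := h4
  exact ⟨y, ⟨hy, q, hq, h5⟩, h6⟩

/-- codes which the model believes to be codes of null sets are codes of null sets -/
theorem ey_ok : Ev yp (fun M G => ∀ S, seqS S ∈ yp.N M G →
    (∀ k, outer (yp.N M G) (clo (S k) ∩ PN (yp.N M G)) = 0) → Ok S) := by
  refine ((Ev.all (ι := ℕ) fun k => ev_rel (π := yp) (fun l x => ∃ S C y,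
      l = [.s S, .c C] ∧ x = .x y ∧ y ∈ clo (S k) ∧ ∀ s ∈ C, y ∉ cyl s)).and
    (ey_seqS.and (ey_setS.and ey_PN_of))).mono ?_
  rintro M G ⟨h1, h2, h3, h4⟩ S hS h0 k j
  have hS' := h2 S hS
  have h5 : outer (yp.N M G) (clo (S k) ∩ PN (yp.N M G)) < 2 * 2⁻¹ ^ j := by
    rw [h0 k]
    have h6 : (2 : ENNReal) * 2⁻¹ ^ j ≠ 0 := mul_ne_zero (by simp) (pow_ne_zero _ (by simp))
    exact pos_iff_ne_zero.2 h6
  obtain ⟨C, hC, h7, h8⟩ := cover_of_outer_lt h5
  refine ⟨C, fun y hy => ?_, h8.le⟩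
  by_contra hno
  have hno' : ∀ s ∈ C, y ∉ cyl s := fun s hs hys => hno (Set.mem_biUnion hs hys)
  obtain ⟨_, hy', S', C', y', h9, rfl, h10, h11⟩ := h1 k [.s S, .c C] (by
    intro x hx
    simp only [List.mem_cons, List.not_mem_nil, or_false] at hx
    rcases hx with rfl | rfl
    · exact hS'
    · exact h3 C hC) ⟨.x y, S, C, y, rfl, rfl, hy, hno'⟩
  simp only [List.cons.injEq, OY.s.injEq, OY.c.injEq, and_true] at h9
  obtain ⟨rfl, rfl⟩ := h9
  obtain ⟨s, hs, hys⟩ := Set.mem_iUnion₂.1 (h7 ⟨h10, h4 y' hy'⟩)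
  exact h11 s hs hys

theorem ey_Q1 : Ev yp (fun M G => Q1 (yp.N M G)) := by
  refine ((ey_ok.and (ey_seqS.and (ey_GN.and ey_PN_of))).and (((ey_meet (fun l => match l with
      | [.c C] => {x | ∀ s ∈ C, x ∉ cyl s}
      | _ => ∅)).and (Ev.all (ι := List Bool) fun s => ey_meet fun _ => cyl s)).and
      ((ey_setS.and (ev_dir.and ey_PN)).and
      (((ev_fun (π := yp) (fun l => match l with
      | [.x x, .x y] => .x (x + y)
      | _ => .nm Nm.emp)).and (ev_fun (π := yp) (fun l => match l with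
      | [.s S] => .x (xS S)
      | _ => .nm Nm.emp))).and ((ev_fun (π := yp) (fun l => match l with
      | [.x x, .c C] => .c (trs x '' C)
      | _ => .nm Nm.emp)).and (ev_fun (π := yp) (fun l => match l with
      | [] => .x 0
      | _ => .nm Nm.emp))))))).mono ?_
  rintro M G ⟨⟨k1, k2, k3, k4⟩, ⟨k5, k6⟩, ⟨k7, k8, k9⟩, ⟨k10, k11⟩, k12, k13⟩ E
    ⟨hE1, hE2, S, hS1, hS2, hE3⟩
  have hok : Ok S := k1 S hS1 hS2
  have hSM : OY.s S ∈ M := k2 S hS1
  have hxM : OY.x (xS S) ∈ M := k11 [.s S] (by simpa using hSM)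
  have h0M : OY.x 0 ∈ M := k13 [] (by simp)
  have hadd : ∀ x y, OY.x x ∈ M → OY.x y ∈ M → OY.x (x + y) ∈ M := fun x y hx hy =>
    k10 [.x x, .x y] (by simp [hx, hy])
  have hav : ∀ x ∈ Gs M G S, x + xS S ∉ ESt S := by
    rintro x ⟨_, p, _, hxp⟩
    exact p.ok S hok x hxp
  -- the group
  have hne : (0 : Pt) ∈ Gs M G S := by
    obtain ⟨x, ⟨_, p, hp, _⟩, _⟩ := k6 [] S hSM hok [] (by simp) (not_nl_cyl [])
    exact ⟨h0M, p, hp, (p.g S).zero_mem⟩
  let H : AddSubgroup Pt :=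
    { carrier := Gs M G S
      zero_mem' := hne
      add_mem' := by
        rintro a b ⟨ha, p, hp, hap⟩ ⟨hb, q, hq, hbq⟩
        obtain ⟨r, hr, hr1, hr2⟩ := k8 p hp q hq
        exact ⟨hadd a b ha hb, r, hr, (r.g S).add_mem (hr1 S hap) (hr2 S hbq)⟩
      neg_mem' := by
        rintro a ⟨ha, p, hp, hap⟩
        have e : -a = a := by rw [neg_eq_iff_add_eq_zero, padd_self]
        rw [e]
        exact ⟨ha, p, hp, hap⟩ }
  have hH : ∀ x, x ∈ H ↔ x ∈ Gs M G S := fun x => Iff.rfl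
  -- coverings of the group have total measure at least one
  have hcov : ∀ C, OY.c C ∈ M → Gs M G S ⊆ ⋃ s ∈ C, cyl s →
      1 ≤ ∑' s : C, (2⁻¹ : ENNReal) ^ s.1.length := by
    intro C hC hsub
    by_contra hlt
    obtain ⟨x, hx, hx'⟩ := k5 S hSM hok [.c C] (by simpa using hC)
      (not_nl_compl (not_le.1 hlt))
    obtain ⟨s, hs, hxs⟩ := Set.mem_iUnion₂.1 (hsub hx)
    have hx' : ∀ s ∈ C, x ∉ cyl s := hx'
    exact hx' s hs hxs
  have hxP : xS S ∈ PN (yp.N M G) := k4 _ hxM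
  refine ⟨H, fun x hx => k4 x ((hH x).1 hx).1, k3 S hSM, fun s => ?_, fun hm => ?_, xS S, hxP,
    fun e he heG => ?_⟩
  · obtain ⟨x, hx, hxs⟩ := k6 s S hSM hok [] (by simp) (not_nl_cyl s)
    exact ⟨x, hx, hxs⟩
  · have h1 : 1 ≤ outer (yp.N M G) H := by
      refine le_iInf fun C => le_iInf fun hC => le_iInf fun hsub => ?_
      exact hcov C (k7 C hC) hsub
    have h2 : 1 ≤ outer (yp.N M G) (PN (yp.N M G) \ H) := by
      refine le_iInf fun C => le_iInf fun hC => le_iInf fun hsub => ?_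
      have hCM := k7 C hC
      have hC' : OY.c (trs (xS S) '' C) ∈ M := k12 [.x (xS S), .c C] (by simp [hxM, hCM])
      refine (hcov _ hC' fun x hx => ?_).trans (tsum_trs _ _)
      have h3 : x + xS S ∈ PN (yp.N M G) \ H := by
        refine ⟨k4 _ (hadd _ _ hx.1 hxM), fun hc => ?_⟩
        have h4 : xS S ∈ H := by
          have h5 := H.add_mem (show x ∈ H from hx) hc
          rwa [← add_assoc, padd_self, zero_add] at h5
        refine hav _ h4 ?_
        rw [padd_self]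
        exact Or.inl rfl
      obtain ⟨s, hs, hxs⟩ := Set.mem_iUnion₂.1 (hsub h3)
      exact Set.mem_biUnion ⟨s, hs, rfl⟩ (mem_cyl_trs.2 hxs)
    have h3 : (1 : ENNReal) + 1 ≤ 1 := (add_le_add h1 h2).trans hm
    have h4 : ¬ ((1 : ENNReal) + 1 ≤ 1) := by norm_num
    exact h4 h3
  · have h1 := hav _ heG
    rw [padd_add_self] at h1
    exact h1 (Or.inr (hE3 he))

theorem main_yes : ∃ N : Set V, N.Countable ∧ IsTransModelZFC N ∧ Q1 N := by
  obtain ⟨M, G, _, _, h1, h2, h3⟩ := ((ev_cnt (π := yp)).and (ev_zfc.and ey_Q1)).exists ∅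
    Set.countable_empty PF.one
  refine ⟨yp.N M G, Set.Countable.image ?_ _, h2, h3⟩
  refine h1.preimage_of_injOn fun x _ y _ h => ?_
  have h : OY.nm x = OY.nm y := h
  simpa using h

end Pool.Agent.DN
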